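import Pool.Agent.Lib.MP_a54f13_nt.Pl.Spec
import Pool.Agent.Lib.MP_a54f13_nt.X2
import Pool.Agent.Lib.MP_a54f13_nt.Dyn.LB

/-!
# Module U2: from the half-plane to the modular surface, for nonnegative functions
-/

set_option autoImplicit false

namespace Pool.Agent.A54.Pl

open MeasureTheory Filter Topology Set
open scoped ContDiff ComplexConjugate UpperHalfPlane MatrixGroups
open Pool.Agent.A54.Half (H0)

noncomputable section

namespace U2M

open Pool.Agent.A54.X

lemma isCompact_preimage {K : Set ℂ} (hK : IsCompact K) (h : K ⊆ H0) :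
    IsCompact (UpperHalfPlane.coe ⁻¹' K : Set ℍ) := by
  have h1 : Topology.IsInducing (UpperHalfPlane.coe : ℍ → ℂ) :=
    UpperHalfPlane.isOpenEmbedding_coe.isInducing
  refine (h1.isCompact_preimage_iff ?_).mpr hK
  intro z hz
  exact ⟨⟨z, h hz⟩, rfl⟩

lemma integrable_test {φ : ℂ → ℝ} (hφ : TestR H0 φ) {G : ℍ → ℝ} (hG : Continuous G) :
    Integrable fun z : ℍ => φ z * G z := by
  have hc : Continuous fun z : ℍ => φ z * G z :=
    (hφ.smooth.continuous.comp UpperHalfPlane.continuous_coe).mul hG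
  refine hc.integrable_of_hasCompactSupport ?_
  refine HasCompactSupport.intro (isCompact_preimage hφ.cpt hφ.sub) fun z hz => ?_
  rw [image_eq_zero_of_notMem_tsupport (fun h => hz h), zero_mul]

/-- the two cutoff functions -/
lemma cutoffs (Y : ℝ) {η : ℝ} (hη : 0 < η) : ∃ χ ζ : ℂ → ℝ, TestR O χ ∧ (∀ z, 0 ≤ χ z ∧ χ z ≤ 1) ∧
    TestR H0 ζ ∧ (∀ z, 0 ≤ ζ z ∧ ζ z ≤ 1) ∧
    (∀ z ∈ ModularGroup.truncatedFundamentalDomain Y, ζ (z : ℍ) = 1) ∧
    ∫ z : ℍ, ζ z * (1 - χ z) ≤ η := by
  have hT : IsCompact (ModularGroup.truncatedFundamentalDomain Y) :=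
    ModularGroup.isCompact_truncatedFundamentalDomain Y
  have hTm : MeasurableSet (ModularGroup.truncatedFundamentalDomain Y) := hT.isClosed.measurableSet
  have hTfin : volume (ModularGroup.truncatedFundamentalDomain Y) < ⊤ := hT.measure_lt_top
  -- a small neighbourhood
  obtain ⟨U, hTU, hU, hUm⟩ := Set.exists_isOpen_lt_add (μ := (volume : Measure ℍ))
    (ModularGroup.truncatedFundamentalDomain Y) hTfin.ne
    (ε := ENNReal.ofReal (η / 2)) (by simpa using hη)
  have hUT : volume (U \ ModularGroup.truncatedFundamentalDomain Y) ≤ ENNReal.ofReal (η / 2) := by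
    rw [measure_sdiff hTU hTm.nullMeasurableSet hTfin.ne]
    exact tsub_le_iff_left.mpr hUm.le
  have hV : IsOpen (UpperHalfPlane.coe '' U) :=
    UpperHalfPlane.isOpenEmbedding_coe.isOpenMap U hU
  have hVH : UpperHalfPlane.coe '' U ⊆ H0 := by
    rintro _ ⟨z, -, rfl⟩
    exact z.im_pos
  obtain ⟨ζ, hζ, hζ1, hζT⟩ := exists_cutoff (hT.image UpperHalfPlane.continuous_coe) hV
    (Set.image_mono hTU)
  -- a large compact subset of the open fundamental domain
  have hgi : IntegrableOn ((ModularGroup.truncatedFundamentalDomain Y).indicator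
      fun _ => (1 : ℝ)) ModularGroup.fdo := by
    refine Integrable.mono_measure ?_ Measure.restrict_le_self
    rw [integrable_indicator_iff hTm]
    exact integrableOn_const hTfin.ne
  obtain ⟨K, hK, hKO, hKi⟩ := X.exists_compact _ hgi (ε := η / 2) (by positivity)
  obtain ⟨χ, hχ, hχ1, hχK⟩ := exists_cutoff hK isOpen_O hKO
  have hmK : MeasurableSet (UpperHalfPlane.coe ⁻¹' K : Set ℍ) :=
    hK.isClosed.measurableSet.preimage UpperHalfPlane.measurable_coe
  have hm : MeasurableSet (ModularGroup.fdo \ (UpperHalfPlane.coe ⁻¹' K)) :=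
    measurableSet_fdo.diff hmK
  rw [setIntegral_indicator hTm, setIntegral_const, smul_eq_mul, mul_one] at hKi
  refine ⟨χ, ζ, hχ, hχ1, ⟨hζ.smooth, hζ.cpt, hζ.sub.trans hVH⟩, hζ1, ?_, ?_⟩
  · intro z hz
    exact hζT.self_of_nhdsSet _ ⟨z, hz, rfl⟩
  · have hfdm : MeasurableSet (ModularGroup.fd \ ModularGroup.fdo : Set ℍ) :=
      (ModularGroup.isClosed_fd.measurableSet).diff measurableSet_fdo
    obtain ⟨S, hS⟩ : ∃ S, S = (U \ ModularGroup.truncatedFundamentalDomain Y) ∪
      ((ModularGroup.fdo \ (UpperHalfPlane.coe ⁻¹' K)) ∩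
        ModularGroup.truncatedFundamentalDomain Y) ∪ (ModularGroup.fd \ ModularGroup.fdo) := ⟨_, rfl⟩
    have hSm : MeasurableSet S := by
      rw [hS]
      exact ((hU.measurableSet.diff hTm).union (hm.inter hTm)).union hfdm
    have hA : volume ((ModularGroup.fdo \ (UpperHalfPlane.coe ⁻¹' K)) ∩
        ModularGroup.truncatedFundamentalDomain Y) ≤ ENNReal.ofReal (η / 2) := by
      have hfin : volume ((ModularGroup.fdo \ (UpperHalfPlane.coe ⁻¹' K)) ∩
        ModularGroup.truncatedFundamentalDomain Y) ≠ ⊤ :=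
        ((measure_mono Set.inter_subset_right).trans_lt hTfin).ne
      rw [← ENNReal.ofReal_toReal hfin]
      exact ENNReal.ofReal_le_ofReal hKi.le
    have hSle : volume S ≤ ENNReal.ofReal η := by
      rw [hS]
      refine (measure_union_le _ _).trans ?_
      rw [Dyn.LBM.null, add_zero]
      refine (measure_union_le _ _).trans ?_
      calc _ ≤ ENNReal.ofReal (η / 2) + ENNReal.ofReal (η / 2) := add_le_add hUT hA
        _ = ENNReal.ofReal η := by
          rw [← ENNReal.ofReal_add (by positivity) (by positivity)]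
          congr 1
          ring
    have hSfin : volume S ≠ ⊤ := (hSle.trans_lt ENNReal.ofReal_lt_top).ne
    calc ∫ z : ℍ, ζ z * (1 - χ z) ≤ ∫ z : ℍ, S.indicator (fun _ => (1 : ℝ)) z := by
          refine integral_mono_of_nonneg ?_ ?_ ?_
          · exact Eventually.of_forall fun z =>
              mul_nonneg (hζ1 z).1 (by linarith [(hχ1 z).2])
          · rw [integrable_indicator_iff hSm]
            exact integrableOn_const hSfin
          · refine Eventually.of_forall fun z => ?_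
            simp only
            by_cases hz : z ∈ S
            · rw [indicator_of_mem hz]
              have h1 := hζ1 z
              have h2 := hχ1 z
              calc ζ z * (1 - χ z) ≤ 1 * 1 :=
                    mul_le_mul h1.2 (by linarith) (by linarith) zero_le_one
                _ = 1 := one_mul _
            · rw [indicator_of_notMem hz]
              rw [hS] at hz
              simp only [mem_union, not_or] at hz
              obtain ⟨⟨hz1, hz2⟩, hz3⟩ := hz
              by_cases hzT : z ∈ ModularGroup.truncatedFundamentalDomain Y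
              · have hz4 : z ∈ ModularGroup.fdo := by
                  by_contra h
                  exact hz3 ⟨hzT.1, h⟩
                have hz5 : (z : ℂ) ∈ K := by
                  by_contra h
                  exact hz2 ⟨⟨hz4, h⟩, hzT⟩
                rw [hχK.self_of_nhdsSet _ hz5]
                simp
              · have hz4 : z ∉ U := fun h => hz1 ⟨h, hzT⟩
                have hz5 : (z : ℂ) ∉ tsupport ζ := by
                  intro h
                  obtain ⟨w, hw, hwz⟩ := hζ.sub h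
                  have : w = z := UpperHalfPlane.ext hwz
                  exact hz4 (this ▸ hw)
                rw [image_eq_zero_of_notMem_tsupport hz5, zero_mul]
      _ = (volume S).toReal := by
          rw [integral_indicator hSm, setIntegral_const]
          simp [Measure.real]
      _ ≤ η := ENNReal.toReal_le_of_le_ofReal hη.le hSle

lemma compare {ψ : ℍ → ℝ} (hψc : Continuous ψ) {Y : ℝ}
    (hYo : ∀ z ∈ ModularGroup.fdo, Y < z.im → ψ z = 0) {B : ℝ} (hB : 0 ≤ B)
    (hψB : ∀ z ∈ ModularGroup.truncatedFundamentalDomain Y, |ψ z| ≤ B)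
    {χ ζ : ℂ → ℝ} (hχ : TestR O χ) (hχ1 : ∀ z, 0 ≤ χ z ∧ χ z ≤ 1) (hζ1 : ∀ z, 0 ≤ ζ z ∧ ζ z ≤ 1)
    (hζT : ∀ z ∈ ModularGroup.truncatedFundamentalDomain Y, ζ (z : ℍ) = 1)
    (hΘ : TestR H0 (fun z => B * (ζ z * (1 - χ z)))) {G : ℍ → ℝ} (hG : Continuous G)
    (hG0 : ∀ z, 0 ≤ G z) :
    |(∫ z in ModularGroup.fdo, ψ z * G z) - ∫ z : ℍ, (χ z * ext ψ z) * G z| ≤
      ∫ z : ℍ, (B * (ζ z * (1 - χ z))) * G z := by
  have hχc : Continuous (fun z : ℍ => χ z) :=
    hχ.smooth.continuous.comp UpperHalfPlane.continuous_coe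
  have i1 : IntegrableOn (fun z => ψ z * G z) ModularGroup.fdo :=
    integrableOn_fdo (hψc.mul hG) (fun z hz h => by rw [hYo z hz h, zero_mul])
  have i2 : IntegrableOn (fun z : ℍ => χ z * ψ z * G z) ModularGroup.fdo :=
    integrableOn_fdo ((hχc.mul hψc).mul hG) (fun z hz h => by rw [hYo z hz h]; ring)
  rw [integral_cut hχ ψ G, ← integral_sub i1 i2]
  refine abs_integral_le_integral_abs.trans ?_
  have i3 : Integrable fun z : ℍ => (B * (ζ z * (1 - χ z))) * G z :=
    integrable_test (φ := fun z => B * (ζ z * (1 - χ z))) hΘ hG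
  calc ∫ z in ModularGroup.fdo, |ψ z * G z - χ z * ψ z * G z|
      ≤ ∫ z in ModularGroup.fdo, (B * (ζ z * (1 - χ z))) * G z := by
        refine setIntegral_mono_on (i1.sub i2).abs i3.integrableOn measurableSet_fdo fun z hz => ?_
        have h0 : 0 ≤ B * (ζ z * (1 - χ z)) * G z :=
          mul_nonneg (mul_nonneg hB (mul_nonneg (hζ1 z).1 (by linarith [(hχ1 z).2]))) (hG0 z)
        by_cases h : Y < z.im
        · rw [hYo z hz h]
          simpa using h0
        · have hzT := fdo_inter_sub Y ⟨hz, not_lt.mp h⟩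
          have h1 : ψ z * G z - χ z * ψ z * G z = ψ z * ((1 - χ z) * G z) := by ring
          have h2 : 0 ≤ (1 - χ z) * G z := mul_nonneg (by linarith [(hχ1 z).2]) (hG0 z)
          rw [h1, abs_mul, abs_of_nonneg h2, hζT z hzT]
          calc |ψ z| * ((1 - χ z) * G z) ≤ B * ((1 - χ z) * G z) :=
                mul_le_mul_of_nonneg_right (hψB z hzT) h2
            _ = B * (1 * (1 - χ z)) * G z := by ring
    _ ≤ ∫ z : ℍ, (B * (ζ z * (1 - χ z))) * G z := by
        refine setIntegral_le_integral i3 (Eventually.of_forall fun z => ?_)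
        exact mul_nonneg (mul_nonneg hB (mul_nonneg (hζ1 z).1 (by linarith [(hχ1 z).2]))) (hG0 z)

end U2M

open U2M in
theorem stmtU2 : StmtU2 := by
  intro F c hFc hF0 hF ψ hψ
  obtain ⟨Y, hY⟩ := hψ.cusp
  have hψc : Continuous ψ := X.continuous_of_ext hψ.smooth
  have hYo : ∀ z ∈ ModularGroup.fdo, Y < z.im → ψ z = 0 := fun z hz h =>
    hY z (ModularGroup.fdo_subset_fd hz) h
  obtain ⟨B₀, hB₀⟩ := (ModularGroup.isCompact_truncatedFundamentalDomain Y).exists_bound_of_continuousOn
    hψc.continuousOn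
  obtain ⟨B, hBd⟩ : ∃ B, B = max B₀ 0 + 1 := ⟨_, rfl⟩
  have hB0 : 0 < B := by
    have := le_max_right B₀ 0
    linarith
  have hψB : ∀ z ∈ ModularGroup.truncatedFundamentalDomain Y, |ψ z| ≤ B := by
    intro z hz
    have h1 := hB₀ z hz
    have h2 := le_max_left B₀ 0
    rw [Real.norm_eq_abs] at h1
    linarith
  rw [Metric.tendsto_nhds]
  intro ε hε
  obtain ⟨η, hη⟩ : ∃ η, η = ε / (4 * (|c| + 1) * B) := ⟨_, rfl⟩
  have hc1 : 0 < |c| + 1 := by positivity
  have hη0 : 0 < η := by rw [hη]; positivity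
  obtain ⟨χ, ζ, hχ, hχ1, hζ, hζ1, hζT, hint⟩ := cutoffs Y hη0
  have hΘ : TestR H0 (fun z => B * (ζ z * (1 - χ z))) := by
    refine ⟨contDiff_const.mul (hζ.smooth.mul (contDiff_const.sub hχ.smooth)), ?_, ?_⟩
    · exact (hζ.cpt.mul_right).mul_left
    · refine (tsupport_mul_subset_right (f := fun _ : ℂ => B)
        (g := fun z => ζ z * (1 - χ z))).trans ?_
      exact (tsupport_mul_subset_left (f := ζ) (g := fun z => 1 - χ z)).trans hζ.sub
  have hφ : TestR H0 (fun w => χ w * ext ψ w) := X.testR_cut hψ.smooth hχ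
  have hcmp := fun (G : ℍ → ℝ) (hG : Continuous G) (hG0 : ∀ z, 0 ≤ G z) =>
    compare hψc hYo hB0.le hψB hχ hχ1 hζ1 hζT hΘ hG hG0
  have h1 := hcmp (fun _ => 1) continuous_const (fun _ => zero_le_one)
  simp only [mul_one] at h1
  rw [integral_const_mul] at h1
  have hBη : B * (∫ z : ℍ, ζ z * (1 - χ z)) ≤ B * η := mul_le_mul_of_nonneg_left hint hB0.le
  have hTh0 : 0 ≤ ∫ z : ℍ, B * (ζ z * (1 - χ z)) :=
    integral_nonneg fun z => mul_nonneg hB0.le
      (mul_nonneg (hζ1 z).1 (by linarith [(hχ1 z).2]))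
  have hTh : ∫ z : ℍ, B * (ζ z * (1 - χ z)) ≤ B * η := by
    rw [integral_const_mul]
    exact hBη
  have hval : (|c| + 1) * (B * η) = ε / 4 := by
    rw [hη]
    field_simp
  have hcB : |c| * (B * η) ≤ ε / 4 := by
    rw [← hval]
    have : 0 < B * η := by positivity
    nlinarith
  have hlim1 := (Metric.tendsto_nhds.mp (hF _ hΘ)) (ε / 4) (by positivity)
  have hlim2 := (Metric.tendsto_nhds.mp (hF _ hφ)) (ε / 4) (by positivity)
  filter_upwards [hlim1, hlim2] with i hi1 hi2
  rw [Real.dist_eq] at hi1 hi2 ⊢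
  have h2 := hcmp (F i) (hFc i) (hF0 i)
  have h3 : ∫ z : ℍ, B * (ζ z * (1 - χ z)) * F i z < ε / 4 + ε / 4 := by
    have h4 := (abs_lt.mp hi1).2
    have h5 : c * ∫ z : ℍ, B * (ζ z * (1 - χ z)) ≤ ε / 4 := by
      calc c * ∫ z : ℍ, B * (ζ z * (1 - χ z)) ≤ |c| * ∫ z : ℍ, B * (ζ z * (1 - χ z)) :=
            mul_le_mul_of_nonneg_right (le_abs_self c) hTh0
        _ ≤ |c| * (B * η) := mul_le_mul_of_nonneg_left hTh (abs_nonneg c)
        _ ≤ ε / 4 := hcB
    linarith
  have h6 : |c * (∫ z : ℍ, χ z * ext ψ z) - c * ∫ z in ModularGroup.fdo, ψ z| ≤ ε / 4 := by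
    rw [← mul_sub, abs_mul, abs_sub_comm]
    calc |c| * |(∫ z in ModularGroup.fdo, ψ z) - ∫ z : ℍ, χ z * ext ψ z| ≤ |c| * (B * η) := by
          refine mul_le_mul_of_nonneg_left (h1.trans hBη) (abs_nonneg c)
      _ ≤ ε / 4 := hcB
  have h7 : (∫ z in ModularGroup.fdo, ψ z * F i z) - c * ∫ z in ModularGroup.fdo, ψ z =
      ((∫ z in ModularGroup.fdo, ψ z * F i z) - ∫ z : ℍ, χ z * ext ψ z * F i z) +
      ((∫ z : ℍ, χ z * ext ψ z * F i z) - c * ∫ z : ℍ, χ z * ext ψ z) +
      (c * (∫ z : ℍ, χ z * ext ψ z) - c * ∫ z in ModularGroup.fdo, ψ z) := by ring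
  rw [h7]
  refine (abs_add_three _ _ _).trans_lt ?_
  linarith

end

end Pool.Agent.A54.Pl
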