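import Pool.Agent.Lib.MP_a54f13_nt.Pl.Spec
import Pool.Agent.Lib.MP_a54f13_nt.Dyn.Half3
import Pool.Agent.Lib.MP_a54f13_nt.Half2

/-!
# Module FB: (A) on the half-plane implies (B)
-/

set_option autoImplicit false

namespace Pool.Agent.A54.Pl

open MeasureTheory Filter Topology Set
open scoped ContDiff ComplexConjugate UpperHalfPlane MatrixGroups
open Pool.Agent.A54.Half (H0 qq ff hh)

noncomputable section

namespace FBM

/-- the compact set of the half-plane over a compact set of the plane -/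
lemma cpt_pre {K : Set ℂ} (hK : IsCompact K) (hKH : K ⊆ H0) :
    IsCompact (UpperHalfPlane.coe ⁻¹' K : Set ℍ) := by
  rw [UpperHalfPlane.isOpenEmbedding_coe.isInducing.isCompact_preimage_iff]
  · exact hK
  · intro z hz
    exact ⟨⟨z, hKH hz⟩, rfl⟩

lemma cont {f : ℍ → ℝ} {t : ℝ} (hf : IsHeckeMaass f t) : Continuous f := by
  have h3 : Continuous (fun z : ℍ => ext f (z : ℂ)) :=
    hf.smooth.continuousOn.comp_continuous UpperHalfPlane.continuous_coe (fun z => z.im_pos)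
  have h4 : (fun z : ℍ => ext f (z : ℂ)) = f := funext (Half.ext_coe f)
  rwa [h4] at h3

/-- products with test functions are integrable on the half-plane -/
lemma integ {φ : ℂ → ℝ} (hφ : TestR H0 φ) {g : ℍ → ℝ} (hg : Continuous g) :
    Integrable (fun z : ℍ => φ z * g z) := by
  have hc : Continuous (fun z : ℍ => φ z * g z) :=
    (hφ.smooth.continuous.comp UpperHalfPlane.continuous_coe).mul hg
  have hKc := cpt_pre hφ.cpt.isCompact hφ.sub
  have h1 : IntegrableOn (fun z : ℍ => φ z * g z) (UpperHalfPlane.coe ⁻¹' (tsupport φ) : Set ℍ) :=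
    hc.continuousOn.integrableOn_compact hKc
  rw [← integrable_indicator_iff hKc.isClosed.measurableSet] at h1
  refine h1.congr (Filter.Eventually.of_forall fun z => ?_)
  by_cases hz : z ∈ (UpperHalfPlane.coe ⁻¹' (tsupport φ) : Set ℍ)
  · rw [Set.indicator_of_mem hz]
  · rw [Set.indicator_of_notMem hz]
    have : φ (z : ℂ) = 0 := image_eq_zero_of_notMem_tsupport hz
    simp only [this, zero_mul]

/-- boundedness of the fourth moments over compact sets -/
lemma bdd4 {f : ℕ → ℍ → ℝ} {t : ℕ → ℝ} (hf : ∀ i, IsHeckeMaass (f i) (t i)) (hH : CondH f)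
    (K : Set ℍ) (hK : IsCompact K) : ∃ C : ℝ, ∀ i, ∫ z in K, f i z ^ 4 ≤ C := by
  have hK' : IsCompact (UpperHalfPlane.coe '' K) := hK.image UpperHalfPlane.continuous_coe
  have hKH : UpperHalfPlane.coe '' K ⊆ H0 := by
    rintro _ ⟨z, _, rfl⟩
    exact z.im_pos
  obtain ⟨φ, hφ, h01, hev⟩ := exists_cutoff hK' Half.isOpen_H0 hKH
  obtain ⟨C, hC⟩ := (hH φ hφ).2.bddAbove_range
  refine ⟨C, fun i => ?_⟩
  have hle : ∫ z in K, f i z ^ 4 ≤ ∫ z : ℍ, φ z * f i z ^ 4 := by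
    rw [← integral_indicator hK.isClosed.measurableSet]
    apply integral_mono_of_nonneg
    · refine Filter.Eventually.of_forall fun z => ?_
      simp only [Pi.zero_apply]
      exact Set.indicator_nonneg (fun z _ => by positivity) z
    · exact integ hφ ((cont (hf i)).pow 4)
    · refine Filter.Eventually.of_forall fun z => ?_
      simp only
      by_cases hz : z ∈ K
      · rw [Set.indicator_of_mem hz]
        have h0 : ∀ᶠ w in 𝓝 (z : ℂ), φ w = 1 :=
          (mem_nhdsSet_iff_forall.mp hev) z (Set.mem_image_of_mem _ hz)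
        have h1 : φ (z : ℂ) = 1 := h0.self_of_nhds
        rw [h1, one_mul]
      · rw [Set.indicator_of_notMem hz]
        exact mul_nonneg (h01 _).1 (by positivity)
  exact hle.trans (hC (Set.mem_range_self i))

/-- the flat convergence hypotheses -/
lemma conv (hI : StmtInt) {χ : ℂ → ℝ} {V : Set ℂ} (hVH : V ⊆ H0) (h1 : ∀ z ∈ V, χ z = 1)
    {f : ℕ → ℍ → ℝ} {m : ℕ} {c : ℝ}
    (hc : ∀ φ : ℂ → ℝ, TestR H0 φ → Tendsto (fun i => ∫ z : ℍ, φ z * f i z ^ m) atTop
      (𝓝 (c * ∫ z : ℍ, φ z))) (N : ℕ) {φ : ℂ → ℝ} (hφ : TestR V φ) :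
    Tendsto (fun i => ∫ z, φ z * ff χ (f (i + N)) z ^ m) atTop (𝓝 (c * ∫ z, φ z)) := by
  have hφ2 : TestR V (fun z => φ z * z.im ^ 2) := hφ.mul_right (Half.contDiff_im.pow 2)
  have hφ2' : TestR H0 (fun z => φ z * z.im ^ 2) := ⟨hφ2.smooth, hφ2.cpt, hφ2.sub.trans hVH⟩
  have h2 := (hc _ hφ2').comp (tendsto_add_atTop_nat N)
  have e0 : ∀ z : ℂ, φ z * z.im ^ 2 * (z.im)⁻¹ ^ 2 = φ z := by
    intro z
    by_cases hz : z ∈ V
    · have hne : z.im ≠ 0 := ne_of_gt (hVH hz)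
      rw [mul_assoc, ← mul_pow, mul_inv_cancel₀ hne, one_pow, mul_one]
    · rw [hφ.eq_zero hz, zero_mul, zero_mul]
  have e1 : ∫ z : ℍ, (fun z : ℂ => φ z * z.im ^ 2) (z : ℂ) = ∫ z, φ z := by
    rw [Half.int_eq_one hI hVH hφ2]
    simp only [e0]
  have e2 : ∀ i, ∫ z : ℍ, (fun z : ℂ => φ z * z.im ^ 2) (z : ℂ) * f (i + N) z ^ m =
      ∫ z, φ z * ff χ (f (i + N)) z ^ m := by
    intro i
    rw [Half.int_eq hI hVH h1 hφ2]
    simp only [e0]
  simp only at e1 e2
  rw [e1] at h2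
  refine h2.congr fun i => ?_
  simp only [Function.comp_apply]
  exact e2 i

lemma third_le_tanh {r : ℝ} (h0 : 0 ≤ r) (h1 : r ≤ 1) : r / 2 ≤ Real.tanh r := by
  rw [Real.tanh_eq_sinh_div_cosh]
  have hs : r ≤ Real.sinh r := Real.self_le_sinh_iff.2 h0
  have hc : Real.cosh r ≤ 2 := by
    refine (Real.cosh_le_exp_half_sq r).trans ?_
    have h2 : Real.exp (r ^ 2 / 2) ≤ Real.exp (1 / 2) := by
      apply Real.exp_le_exp.2
      nlinarith
    refine h2.trans ?_
    have h3 : Real.exp (1 / 2) ^ 2 ≤ 2 ^ 2 := by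
      rw [← Real.exp_nat_mul]
      norm_num
      have := Real.exp_one_lt_d9
      linarith
    exact le_of_sq_le_sq h3 (by norm_num)
  have hcp := Real.cosh_pos r
  rw [div_le_div_iff₀ (by norm_num) hcp]
  have hs0 : 0 ≤ Real.sinh r := h0.trans hs
  nlinarith

lemma tanh_pos' {r : ℝ} (h0 : 0 < r) : 0 < Real.tanh r := by
  rw [Real.tanh_eq_sinh_div_cosh]
  exact div_pos (Real.sinh_pos_iff.2 h0) (Real.cosh_pos r)

lemma hh_le_inv {t : ℝ} (ht : 0 < t) : hh t ≤ t⁻¹ := by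
  unfold hh
  apply inv_anti₀ ht
  apply Real.le_sqrt_of_sq_le
  linarith

/-- small discs with centre in a compact set -/
lemma discs {K V : Set ℂ} (hK : IsCompact K) (hV : IsOpen V) (hKV : K ⊆ V) :
    ∃ ρ₀ : ℝ, 0 < ρ₀ ∧ ∀ ρ : ℝ, 0 < ρ → ρ ≤ ρ₀ → ∀ z ∈ K, ∀ u ∈ Metric.ball (0 : ℂ) 1,
      lin ρ u z ∈ V := by
  obtain ⟨δ, hδ, hsub⟩ := hK.exists_cthickening_subset_open hV hKV
  obtain ⟨M, hM⟩ := hK.exists_bound_of_continuousOn Complex.continuous_im.continuousOn
  have hM' : ∀ z ∈ K, |z.im| ≤ |M| + 1 := fun z hz => by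
    have := hM z hz
    rw [Real.norm_eq_abs] at this
    linarith [le_abs_self M]
  have hMp : 0 < |M| + 1 := by positivity
  refine ⟨δ / (|M| + 1), div_pos hδ hMp, fun ρ hρ hρ' z hz u hu => hsub ?_⟩
  apply Metric.mem_cthickening_of_dist_le _ z _ _ hz
  rw [dist_eq_norm, norm_lin_sub, abs_of_pos hρ]
  have hu1 : ‖u‖ ≤ 1 := by
    rw [mem_ball_zero_iff] at hu
    exact hu.le
  rw [le_div_iff₀ hMp] at hρ'
  calc ρ * |z.im| * ‖u‖ ≤ ρ * (|M| + 1) * 1 := by
        apply mul_le_mul (mul_le_mul_of_nonneg_left (hM' z hz) hρ.le) hu1 (norm_nonneg _)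
        positivity
    _ ≤ δ := by rw [mul_one]; exact hρ'

end FBM

open FBM in
theorem stmtFB (hI : StmtInt) (hL : StmtLap) (hNA : Dyn.StmtNAf) (hT1 : StmtT1)
    (hG1 : StmtG1) : StmtFB := by
  intro f t hf ht hH K hK r hr0 hr hrt
  obtain ⟨φ, C, r0, hφ, hφ0, hC0, hr00, hG⟩ := hG1 K hK
  obtain ⟨χ, V, hχ, h01, hV, hVH, h1, hsub⟩ := Half.setup hφ
  have hφV : TestR V φ := ⟨hφ.smooth, hφ.cpt, hsub⟩
  obtain ⟨N, hN⟩ := Half.exists_N ht
  have hm : Dyn.HM f t := ⟨hf, ht⟩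
  have hS := Half2.seq hL hχ h01 hV hVH h1 hf ht hN
  have hb : L4Bdd V (fun i => ff χ (f (i + N))) :=
    Half.l4 hI hVH h1 (fun i => hf (i + N)) (fun K hKc => by
      obtain ⟨C, hC'⟩ := bdd4 hf hH K hKc
      exact ⟨C, fun i => hC' (i + N)⟩)
  have hna := Dyn.Half3M.naloc hNA hm hχ hVH h1 N
  have h2 : ∀ φ : ℂ → ℝ, TestR V φ →
      Tendsto (fun i => ∫ z, φ z * ff χ (f (i + N)) z ^ 2) atTop (𝓝 (∫ z, φ z)) := by
    intro φ' hφ'
    have := conv (c := 1) hI hVH h1 (fun φ hφ => by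
      rw [one_mul]
      exact (hH φ hφ).1) N hφ'
    rwa [one_mul] at this
  have h4 : ∀ φ : ℂ → ℝ, TestR V φ →
      Tendsto (fun i => ∫ z, φ z * ff χ (f (i + N)) z ^ 4) atTop (𝓝 (3 * ∫ z, φ z)) :=
    fun φ' hφ' => conv hI hVH h1 (fun φ hφ => (hH φ hφ).2) N hφ'
  set ρ : ℕ → ℝ := fun i => Real.tanh (r (i + N)) with hρdef
  have hρ0 : ∀ i, 0 < ρ i := fun i => tanh_pos' (hr0 _)
  have hrN : Tendsto (fun i => r (i + N)) atTop (𝓝 0) := hr.comp (tendsto_add_atTop_nat N)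
  have hρ : Tendsto ρ atTop (𝓝 0) := by
    have hct : Continuous Real.tanh := by
      have : Real.tanh = fun x => Real.sinh x / Real.cosh x :=
        funext fun x => Real.tanh_eq_sinh_div_cosh x
      rw [this]
      exact Real.continuous_sinh.div Real.continuous_cosh fun x => (Real.cosh_pos x).ne'
    have h5 := (hct.tendsto 0).comp hrN
    rwa [Real.tanh_zero] at h5
  have hhρ : Tendsto (fun i => hh (t (i + N)) / ρ i) atTop (𝓝 0) := by
    have h5 : Tendsto (fun i => 2 * (r (i + N) * t (i + N))⁻¹) atTop (𝓝 0) := by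
      have h6 := (hrt.comp (tendsto_add_atTop_nat N)).inv_tendsto_atTop
      have h7 := h6.const_mul 2
      rw [mul_zero] at h7
      exact h7
    refine squeeze_zero' (Filter.Eventually.of_forall fun i =>
      div_nonneg (Half.hh_pos _).le (hρ0 i).le) ?_ h5
    filter_upwards [hrN.eventually (gt_mem_nhds (show (0 : ℝ) < 1 by norm_num))] with i hi
    have ht0 : 0 < t (i + N) := (hf (i + N)).pos
    have hri := hr0 (i + N)
    have h6 : r (i + N) / 2 ≤ ρ i := third_le_tanh hri.le hi.le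
    rw [div_le_iff₀ (hρ0 i)]
    have h7 : (t (i + N))⁻¹ = 2 * (r (i + N) * t (i + N))⁻¹ * (r (i + N) / 2) := by
      field_simp
    calc hh (t (i + N)) ≤ (t (i + N))⁻¹ := hh_le_inv ht0
      _ = 2 * (r (i + N) * t (i + N))⁻¹ * (r (i + N) / 2) := h7
      _ ≤ 2 * (r (i + N) * t (i + N))⁻¹ * ρ i := by
        apply mul_le_mul_of_nonneg_left h6
        positivity
  have hT := hT1 V _ _ _ hVH hS hb hna h2 h4 ρ hρ0 hρ hhρ φ hφV hφ0
  obtain ⟨ρ₀, hρ₀, hdisc⟩ := discs hφ.cpt.isCompact hV hsub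
  rw [← tendsto_add_atTop_iff_nat N]
  have hlim : Tendsto (fun i => C * (∫ z, φ z * (Ed (ρ i) (fun w => ff χ (f (i + N)) w ^ 2) z - 1) ^ 2)
      + C * r (i + N) ^ 2) atTop (𝓝 0) := by
    have h5 := (hT.const_mul C).add ((hrN.pow 2).const_mul C)
    simpa using h5
  refine squeeze_zero' (Filter.Eventually.of_forall fun i => ?_) ?_ hlim
  · exact integral_nonneg fun z => sq_nonneg _
  · filter_upwards [hrN.eventually (ge_mem_nhds hr00), hρ.eventually (ge_mem_nhds hρ₀)]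
      with i hi1 hi2
    have h5 := hG (r (i + N)) (hr0 _) hi1 (fun w => f (i + N) w ^ 2)
      ((cont (hf (i + N))).pow 2) (fun z => sq_nonneg _)
    refine h5.trans (le_of_eq ?_)
    congr 2
    apply integral_congr_ae
    refine Filter.Eventually.of_forall fun z => ?_
    simp only
    by_cases hz : z ∈ tsupport φ
    · have h6 : Ed (Real.tanh (r (i + N))) (ext fun w => f (i + N) w ^ 2) z =
          Ed (ρ i) (fun w => ff χ (f (i + N)) w ^ 2) z := by
        apply Ed_congr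
        intro u hu
        have h7 := hdisc (ρ i) (hρ0 i) hi2 z hz u hu
        show ext (fun w => f (i + N) w ^ 2) (lin (ρ i) u z) =
          ff χ (f (i + N)) (lin (ρ i) u z) ^ 2
        unfold ff
        rw [h1 _ h7, one_mul]
        rfl
      rw [h6]
    · rw [image_eq_zero_of_notMem_tsupport hz, zero_mul, zero_mul]

end

end Pool.Agent.A54.Pl
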