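import Pool.Agent.Lib.MP_a54f13_nt.Pl.Spec

/-!
# Module L1: linear change of variables
-/

set_option autoImplicit false

namespace Pool.Agent.A54.Pl.L1M

open MeasureTheory Filter Topology Set
open scoped ContDiff ComplexConjugate

noncomputable section

/-- `lin a u` as a linear map. -/
private def linL (a : ℝ) (u : ℂ) : ℂ →ₗ[ℝ] ℂ where
  toFun := lin a u
  map_add' := by
    intro x y
    unfold lin
    rw [Complex.add_im]
    push_cast
    ring
  map_smul' := by
    intro c x
    unfold lin
    simp only [Complex.real_smul, RingHom.id_apply, Complex.mul_im, Complex.ofReal_re,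
      Complex.ofReal_im]
    push_cast
    ring

private theorem linL_apply (a : ℝ) (u w : ℂ) : linL a u w = lin a u w := rfl

private theorem det_linL (a : ℝ) (u : ℂ) : LinearMap.det (linL a u) = 1 + a * u.im := by
  rw [← LinearMap.det_toMatrix Complex.basisOneI, Matrix.det_fin_two]
  simp only [LinearMap.toMatrix_apply, Complex.coe_basisOneI_repr, Complex.coe_basisOneI,
    Matrix.cons_val_zero, Matrix.cons_val_one, linL_apply, lin_re, lin_im]
  simp

private theorem det_pos {a : ℝ} {u : ℂ} (ha : |a| ≤ 1 / 2) (hu : ‖u‖ ≤ 1) :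
    0 < 1 + a * u.im := by
  have h1 : |u.im| ≤ 1 := (Complex.abs_im_le_norm u).trans hu
  have h2 : |a * u.im| ≤ 1 / 2 * 1 := by
    rw [abs_mul]
    exact mul_le_mul ha h1 (abs_nonneg _) (by norm_num)
  have h3 := (abs_le.mp h2).1
  linarith

private theorem left_inv {a : ℝ} {u : ℂ} (hd : 0 < 1 + a * u.im) (w : ℂ) :
    lin (-a / (1 + a * u.im)) u (lin a u w) = w := by
  have hne : (1 + a * u.im) ≠ 0 := hd.ne'
  have h1 : lin (-a / (1 + a * u.im)) u (lin a u w) =
      lin a u w + ((-a / (1 + a * u.im) * (lin a u w).im : ℝ) : ℂ) * u := rfl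
  have h2 : -a / (1 + a * u.im) * (w.im * (1 + a * u.im)) = -(a * w.im) := by
    field_simp
  rw [h1, lin_im, h2]
  unfold lin
  push_cast
  ring

private theorem right_inv {a : ℝ} {u : ℂ} (hd : 0 < 1 + a * u.im) (w : ℂ) :
    lin a u (lin (-a / (1 + a * u.im)) u w) = w := by
  have hne : (1 + a * u.im) ≠ 0 := hd.ne'
  have h1 : lin a u (lin (-a / (1 + a * u.im)) u w) =
      lin (-a / (1 + a * u.im)) u w + ((a * (lin (-a / (1 + a * u.im)) u w).im : ℝ) : ℂ) * u := rfl
  have h2 : a * (w.im * (1 + -a / (1 + a * u.im) * u.im)) =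
      -(-a / (1 + a * u.im) * w.im) := by
    field_simp
    ring
  rw [h1, lin_im, h2]
  unfold lin
  push_cast
  ring

private theorem map_lin {a : ℝ} {u : ℂ} (hd : 0 < 1 + a * u.im) :
    Measure.map (lin a u) (volume : Measure ℂ) = ENNReal.ofReal (1 + a * u.im)⁻¹ • volume := by
  have h1 : LinearMap.det (linL a u) ≠ 0 := by
    rw [det_linL]
    exact hd.ne'
  have h2 := Measure.map_linearMap_addHaar_eq_smul_addHaar (volume : Measure ℂ) h1
  rw [det_linL, abs_of_pos (inv_pos.mpr hd)] at h2
  exact h2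

private theorem embed {a : ℝ} {u : ℂ} (hd : 0 < 1 + a * u.im) : MeasurableEmbedding (lin a u) := by
  have h1 : Continuous (lin a u) := continuous_lin_right a u
  refine h1.measurableEmbedding ?_
  intro x y hxy
  rw [← left_inv hd x, hxy, left_inv hd y]

end

end Pool.Agent.A54.Pl.L1M

namespace Pool.Agent.A54.Pl

open MeasureTheory Filter Topology Set

theorem stmtL1 : StmtL1 := by
  intro a u ha hu
  have hd := L1M.det_pos ha hu
  refine ⟨L1M.left_inv hd, L1M.right_inv hd, fun g => ?_, fun g hg => ?_⟩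
  · rw [← (L1M.embed hd).integral_map g, L1M.map_lin hd, integral_smul_measure, smul_eq_mul,
      ENNReal.toReal_ofReal (inv_nonneg.mpr hd.le)]
  · have h1 : Integrable g (Measure.map (lin a u) volume) := by
      rw [L1M.map_lin hd]
      exact hg.smul_measure ENNReal.ofReal_ne_top
    exact (L1M.embed hd).integrable_map_iff.mp h1

end Pool.Agent.A54.Pl
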