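import Pool.Agent.Lib.MP_a54f13_nt.Pl.Spec
import Pool.Agent.Lib.MP_a54f13_nt.Pl.L1
import Pool.Agent.Lib.MP_a54f13_nt.Calc

/-!
# Module G1: hyperbolic means bounded by disc means
-/

set_option autoImplicit false

namespace Pool.Agent.A54.Pl.G1M

open MeasureTheory Filter Topology Set
open scoped ContDiff ComplexConjugate UpperHalfPlane MatrixGroups
open Pool.Agent.A54.Half (H0)

noncomputable section

/-- the stretch `x + i y ↦ x + i s y` -/
def st (s : ℝ) (w : ℂ) : ℂ := lin (s - 1) Complex.I w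

lemma st_re (s : ℝ) (w : ℂ) : (st s w).re = w.re := by
  simp [st, lin_re]

lemma st_im (s : ℝ) (w : ℂ) : (st s w).im = s * w.im := by
  simp [st, lin_im]; ring

lemma st_st (s t : ℝ) (w : ℂ) : st s (st t w) = st (s * t) w := by
  apply Complex.ext
  · simp only [st_re]
  · simp only [st_im]; ring

lemma st_one (w : ℂ) : st 1 w = w := by
  apply Complex.ext
  · simp only [st_re]
  · simp only [st_im]; ring

lemma st_center (z : ℍ) (r : ℝ) : ((z.center r : ℍ) : ℂ) = st (Real.cosh r) (z : ℂ) := by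
  apply Complex.ext
  · rw [st_re]; rfl
  · rw [st_im, mul_comm]; rfl

lemma continuous_st : Continuous fun p : ℝ × ℂ => st p.1 p.2 := by
  unfold st lin
  fun_prop

lemma st_mem {s : ℝ} (hs : 0 < s) {w : ℂ} (hw : w ∈ H0) : st s w ∈ H0 := by
  show 0 < (st s w).im
  rw [st_im]
  exact mul_pos hs hw

lemma int_st {s : ℝ} (hs : |s - 1| ≤ 1 / 2) (g : ℂ → ℝ) :
    ∫ w, g (st s w) = s⁻¹ * ∫ w, g w := by
  have h := (stmtL1 (s - 1) Complex.I hs (by simp)).2.2.1 g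
  have h2 : (1 + (s - 1) * Complex.I.im) = s := by simp
  rw [h2] at h
  exact h

lemma int_center (hInt : StmtInt) (G : ℂ → ℝ) (hG : ∀ z : ℂ, z.im ≤ 0 → G z = 0) {s : ℝ}
    (hs : |s - 1| ≤ 1 / 2) : ∫ z : ℍ, G (st s z) = s * ∫ z : ℍ, G z := by
  have hs0 : 0 < s := by
    have := (abs_le.mp hs).1
    linarith
  rw [hInt.1 (fun z => G (st s z)) (fun z hz => hG _ (by
    rw [st_im]; exact mul_nonpos_of_nonneg_of_nonpos hs0.le hz))]
  have h2 : ∀ z : ℂ, G (st s z) / z.im ^ 2 = s ^ 2 * (fun w : ℂ => G w / w.im ^ 2) (st s z) := by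
    intro z
    simp only [st_im]
    by_cases hz : z.im = 0
    · simp [hz]
    · field_simp
  rw [integral_congr_ae (Eventually.of_forall h2), integral_const_mul,
    int_st hs (fun w : ℂ => G w / w.im ^ 2), hInt.1 G hG]
  field_simp

lemma cosh_le {r : ℝ} (h0 : 0 ≤ r) (h1 : r ≤ 1 / 2) : |Real.cosh r - 1| ≤ 1 / 2 := by
  have h2 : 1 ≤ Real.cosh r := Real.one_le_cosh r
  rw [abs_of_nonneg (by linarith)]
  have h3 : Real.cosh r ≤ Real.exp (r ^ 2 / 2) := Real.cosh_le_exp_half_sq r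
  have h4 : Real.exp (r ^ 2 / 2) ≤ Real.exp (1 / 8) := by
    apply Real.exp_le_exp.mpr
    nlinarith
  have h5 : Real.exp (1 / 8) ≤ 8 / 7 := by
    have h6 := Real.add_one_le_exp (-(1 / 8 : ℝ))
    have h7 : Real.exp (-(1 / 8 : ℝ)) * Real.exp (1 / 8) = 1 := by
      rw [← Real.exp_add]; simp
    have h8 := Real.exp_pos (1 / 8 : ℝ)
    nlinarith
  linarith

lemma exp_le {r : ℝ} (h0 : 0 ≤ r) (h1 : r ≤ 1 / 2) :
    Real.exp (4 * r) ≤ 8 ∧ Real.exp (4 * r) - 1 ≤ 16 * r := by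
  have h2 : Real.exp (4 * r) ≤ Real.exp 2 := Real.exp_le_exp.mpr (by linarith)
  have h3 : Real.exp 2 ≤ 8 := by
    have h4 := Real.exp_one_lt_d9
    have h5 : Real.exp 2 = Real.exp 1 * Real.exp 1 := by
      rw [← Real.exp_add]; norm_num
    rw [h5]
    have := Real.exp_pos 1
    nlinarith
  refine ⟨h2.trans h3, ?_⟩
  -- convexity: exp is convex, on [0, 2] below the chord
  have h6 : Real.exp (2 * r * 2 + (1 - 2 * r) * 0) ≤ 2 * r * Real.exp 2 + (1 - 2 * r) * Real.exp 0 :=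
    convexOn_exp.2 (mem_univ _) (mem_univ _) (by linarith) (by linarith) (by ring)
  have h7 : 2 * r * 2 + (1 - 2 * r) * 0 = 4 * r := by ring
  rw [h7, Real.exp_zero] at h6
  nlinarith

/-- retraction onto the closed unit disc -/
def cl (u : ℂ) : ℂ := ((max 1 ‖u‖)⁻¹ : ℝ) • u

lemma norm_cl (u : ℂ) : ‖cl u‖ ≤ 1 := by
  unfold cl
  have h1 : (0 : ℝ) < max 1 ‖u‖ := lt_of_lt_of_le one_pos (le_max_left _ _)
  rw [norm_smul, Real.norm_eq_abs, abs_of_pos (inv_pos.mpr h1), inv_mul_le_iff₀ h1, mul_one]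
  exact le_max_right _ _

lemma cl_eq {u : ℂ} (hu : ‖u‖ ≤ 1) : cl u = u := by
  unfold cl
  rw [max_eq_left hu]; simp

lemma continuous_cl : Continuous cl := by
  unfold cl
  refine Continuous.smul (Continuous.inv₀ (continuous_const.max continuous_norm) ?_) continuous_id
  intro u
  exact (lt_of_lt_of_le one_pos (le_max_left _ _)).ne'

lemma cont_Ed {F : ℍ → ℝ} (hF : Continuous F) {r : ℝ} (h0 : 0 ≤ r) (h1 : r < 1) :
    ContinuousOn (Ed r (ext F)) H0 := by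
  rw [continuousOn_iff_continuous_domRestrict]
  have h2 : (H0.domRestrict (Ed r (ext F))) = fun z : H0 =>
      (Real.pi)⁻¹ • ∫ u in Metric.closedBall (0 : ℂ) 1,
        F ⟨lin r (cl u) z, lin_mem_H0 h0 h1 (norm_cl u) z.2⟩ := by
    funext z
    simp only [Set.domRestrict_apply, Ed]
    rw [Measure.restrict_congr_set ball_ae_closedBall]
    congr 1
    apply setIntegral_congr_fun measurableSet_closedBall
    intro u hu
    have h3 : ‖u‖ ≤ 1 := by simpa using hu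
    simp only [ext]
    congr 1
    rw [UpperHalfPlane.ofComplex_apply_of_im_pos (lin_mem_H0 h0 h1 h3 z.2)]
    congr 1
    rw [cl_eq h3]
  rw [h2]
  have h5 : Continuous fun p : H0 × ℂ =>
      (⟨lin r (cl p.2) p.1, lin_mem_H0 h0 h1 (norm_cl p.2) p.1.2⟩ : ℍ) := by
    refine UpperHalfPlane.isEmbedding_coe.continuous_iff.mpr ?_
    show Continuous fun p : H0 × ℂ => lin r (cl p.2) (p.1 : ℂ)
    exact (continuous_lin r).comp ((continuous_cl.comp continuous_snd).prodMk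
      (continuous_subtype_val.comp continuous_fst))
  have : LocallyCompactSpace H0 :=
    (isOpen_lt continuous_const Complex.continuous_im : IsOpen H0).locallyCompactSpace
  have h6 : Continuous fun z : H0 => ∫ u in Metric.closedBall (0 : ℂ) 1,
      F ⟨lin r (cl u) z, lin_mem_H0 h0 h1 (norm_cl u) z.2⟩ :=
    continuous_parametric_integral_of_continuous (μ := (volume : Measure ℂ))
      (f := fun (z : H0) (u : ℂ) => F ⟨lin r (cl u) z, lin_mem_H0 h0 h1 (norm_cl u) z.2⟩)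
      (hF.comp h5) (isCompact_closedBall (0 : ℂ) 1)
  exact h6.const_smul (Real.pi)⁻¹

/-- comparison of squares -/
lemma sq_le {X Y E : ℝ} (hE : 1 ≤ E) (h1 : E⁻¹ * X ≤ Y) (h2 : Y ≤ E * X) :
    (Y - 1) ^ 2 ≤ 2 * E ^ 2 * (X - 1) ^ 2 + 2 * (E - 1) ^ 2 := by
  have hE0 : 0 < E := by linarith
  have h3 : E⁻¹ ≤ 1 := inv_le_one_of_one_le₀ hE
  have h4 : 1 - E⁻¹ ≤ E - 1 := by
    have h5 : 2 ≤ E + E⁻¹ := by
      have h6 : E * E⁻¹ = 1 := mul_inv_cancel₀ hE0.ne'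
      have h7 : 0 ≤ E * (E + E⁻¹ - 2) := by nlinarith [sq_nonneg (E - 1)]
      by_contra hcon
      push Not at hcon
      nlinarith
    linarith
  have h5 : |Y - 1| ≤ E * |X - 1| + (E - 1) := by
    rw [abs_le]
    constructor
    · have h6 : -|X - 1| ≤ X - 1 := neg_abs_le _
      have h7 : E⁻¹ * (-|X - 1|) ≤ E⁻¹ * (X - 1) := by
        apply mul_le_mul_of_nonneg_left h6 (inv_nonneg.mpr hE0.le)
      have h8 : E⁻¹ * |X - 1| ≤ E * |X - 1| :=
        mul_le_mul_of_nonneg_right (h3.trans hE) (abs_nonneg _)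
      linarith
    · have h6 : X - 1 ≤ |X - 1| := le_abs_self _
      have h7 : E * (X - 1) ≤ E * |X - 1| := mul_le_mul_of_nonneg_left h6 hE0.le
      linarith
  have h6 : (Y - 1) ^ 2 = |Y - 1| ^ 2 := (sq_abs _).symm
  have h7 : |Y - 1| ^ 2 ≤ (E * |X - 1| + (E - 1)) ^ 2 := by
    apply pow_le_pow_left₀ (abs_nonneg _) h5
  have h8 : |X - 1| ^ 2 = (X - 1) ^ 2 := sq_abs _
  nlinarith [sq_nonneg (E * |X - 1| - (E - 1))]

lemma sq_le' {X Y r : ℝ} (h0 : 0 ≤ r) (hr : r ≤ 1 / 2) (h1 : Real.exp (-4 * r) * X ≤ Y)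
    (h2 : Y ≤ Real.exp (4 * r) * X) :
    (Y - 1) ^ 2 ≤ 128 * (X - 1) ^ 2 + 512 * r ^ 2 := by
  obtain ⟨h3, h4⟩ := exp_le h0 hr
  have h5 : (1 : ℝ) ≤ Real.exp (4 * r) := Real.one_le_exp (by linarith)
  have h6 : Real.exp (-4 * r) = (Real.exp (4 * r))⁻¹ := by
    rw [← Real.exp_neg]; congr 1; ring
  rw [h6] at h1
  have h7 := sq_le h5 h1 h2
  have h8 : Real.exp (4 * r) ^ 2 ≤ 64 := by nlinarith
  have h9 : (Real.exp (4 * r) - 1) ^ 2 ≤ 256 * r ^ 2 := by nlinarith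
  have h10 := sq_nonneg (X - 1)
  nlinarith

lemma swap {X Y r : ℝ} (h1 : Real.exp (-4 * r) * X ≤ Y)
    (h2 : Y ≤ Real.exp (4 * r) * X) :
    Real.exp (-4 * r) * Y ≤ X ∧ X ≤ Real.exp (4 * r) * Y := by
  have h3 : Real.exp (-4 * r) * Real.exp (4 * r) = 1 := by
    rw [← Real.exp_add]; simp
  have h4 := Real.exp_pos (-4 * r)
  have h5 := Real.exp_pos (4 * r)
  constructor
  · calc Real.exp (-4 * r) * Y ≤ Real.exp (-4 * r) * (Real.exp (4 * r) * X) :=
        mul_le_mul_of_nonneg_left h2 h4.le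
      _ = X := by rw [← mul_assoc, h3, one_mul]
  · calc X = Real.exp (4 * r) * (Real.exp (-4 * r) * X) := by
          rw [← mul_assoc, mul_comm (Real.exp (4 * r)), h3, one_mul]
      _ ≤ Real.exp (4 * r) * Y := mul_le_mul_of_nonneg_left h1 h5.le

lemma coe_mem (z : ℍ) : (z : ℂ) ∈ H0 := z.im_pos

/-- preimages of compact sets -/
lemma cpt_pre {T : Set ℂ} (hT : IsCompact T) (hT0 : T ⊆ H0) :
    IsCompact ((fun z : ℍ => (z : ℂ)) ⁻¹' T) := by
  refine (UpperHalfPlane.isEmbedding_coe.isInducing.isCompact_preimage_iff ?_).mpr hT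
  intro z hz
  exact ⟨⟨z, hT0 hz⟩, rfl⟩

lemma cpt_img {a b : ℝ} {T : Set ℂ} (hT : IsCompact T) :
    IsCompact ((fun p : ℝ × ℂ => st p.1 p.2) '' (Icc a b ×ˢ T)) :=
  (isCompact_Icc.prod hT).image continuous_st

lemma img_sub {a b : ℝ} (ha : 0 < a) {T : Set ℂ} (hT : T ⊆ H0) :
    (fun p : ℝ × ℂ => st p.1 p.2) '' (Icc a b ×ˢ T) ⊆ H0 := by
  rintro _ ⟨⟨s, w⟩, ⟨h1, h2⟩, rfl⟩
  exact st_mem (ha.trans_le h1.1) (hT h2)

lemma cont_pull {X : ℂ → ℝ} (hX : ContinuousOn X H0) {s : ℝ} (hs : 0 < s) :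
    Continuous fun z : ℍ => X (st s z) := by
  have h1 : Continuous fun z : ℍ => st s (z : ℂ) :=
    continuous_st.comp (continuous_const.prodMk UpperHalfPlane.continuous_coe)
  exact hX.comp_continuous h1 fun z => st_mem hs (coe_mem z)

lemma int_weight (hInt : StmtInt) {φ : ℂ → ℝ} (hφ : TestR H0 φ) (X : ℂ → ℝ) :
    ∫ z : ℍ, φ z * (z : ℂ).im ^ 2 * X z = ∫ w : ℂ, φ w * X w := by
  have h0 : ∀ z : ℂ, z.im ≤ 0 → φ z = 0 := by
    intro z hz
    by_contra hne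
    have h1 : z ∈ H0 := hφ.sub (subset_tsupport _ hne)
    exact absurd h1 (not_lt.mpr hz)
  rw [hInt.1 (fun z => φ z * z.im ^ 2 * X z) (fun z hz => by simp only [h0 z hz, zero_mul])]
  congr 1
  funext z
  rcases le_or_gt z.im 0 with hz | hz
  · simp only [h0 z hz, zero_mul, zero_div]
  · field_simp

end

end Pool.Agent.A54.Pl.G1M

namespace Pool.Agent.A54.Pl

open MeasureTheory Filter Topology Set
open scoped ContDiff ComplexConjugate UpperHalfPlane MatrixGroups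
open Pool.Agent.A54.Half (H0)

theorem stmtG1 (hInt : StmtInt) (h0 : StmtG0) : StmtG1 := by
  intro K hK
  -- the compact set of all centres
  set T : Set ℂ := (fun z : ℍ => (z : ℂ)) '' K with hT
  have hTc : IsCompact T := hK.image UpperHalfPlane.continuous_coe
  have hT0 : T ⊆ H0 := by
    rintro _ ⟨z, _, rfl⟩
    exact G1M.coe_mem z
  set K' : Set ℂ := (fun p : ℝ × ℂ => G1M.st p.1 p.2) '' (Icc 1 (3 / 2) ×ˢ T) with hK'
  have hK'c : IsCompact K' := G1M.cpt_img hTc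
  have hK'0 : K' ⊆ H0 := G1M.img_sub one_pos hT0
  have hO : IsOpen H0 := isOpen_lt continuous_const Complex.continuous_im
  obtain ⟨ζ, hζ, hζ1, hζ2⟩ := exists_cutoff hK'c hO hK'0
  -- lower bound of im on K'
  obtain ⟨m, hm, hmK⟩ : ∃ m : ℝ, 0 < m ∧ ∀ w ∈ K', m ≤ w.im := by
    rcases K'.eq_empty_or_nonempty with he | hne
    · exact ⟨1, one_pos, by simp [he]⟩
    · obtain ⟨w, hw, hmin⟩ := hK'c.exists_isMinOn hne Complex.continuous_im.continuousOn
      exact ⟨w.im, hK'0 hw, fun v hv => hmin hv⟩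
  refine ⟨ζ, 192 * (m ^ 2)⁻¹ + 512 * (volume K).toReal, 1 / 2, hζ, fun z => (hζ1 z).1,
    by positivity, by norm_num, ?_⟩
  intro r hr hr2 F hF hF0
  set s : ℝ := Real.cosh r with hs
  have hs1 : 1 ≤ s := Real.one_le_cosh r
  have hsd : |s - 1| ≤ 1 / 2 := G1M.cosh_le hr.le hr2
  have hs32 : s ≤ 3 / 2 := by
    have := (abs_le.mp hsd).2
    linarith
  have ht0 : 0 ≤ Real.tanh r := by
    rw [Real.tanh_eq_sinh_div_cosh]
    exact div_nonneg (Real.sinh_nonneg_iff.mpr hr.le) (Real.cosh_pos r).le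
  have ht1 : Real.tanh r < 1 := Real.tanh_lt_one r
  set X : ℂ → ℝ := Ed (Real.tanh r) (ext F) with hX
  have hXc : ContinuousOn X H0 := G1M.cont_Ed hF ht0 ht1
  have hXs : Continuous fun z : ℍ => X (G1M.st s z) := G1M.cont_pull hXc (by linarith)
  -- pointwise comparison
  have hpt : ∀ z : ℍ, (mean F z r - 1) ^ 2 ≤ 128 * (X (G1M.st s z) - 1) ^ 2 + 512 * r ^ 2 := by
    intro z
    obtain ⟨h1, h2⟩ := (h0 F hF).2 hF0 z r hr
    rw [G1M.st_center] at h1 h2
    exact G1M.sq_le' hr.le hr2 h1 h2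
  have hcont2 : Continuous fun z : ℍ => (X (G1M.st s z) - 1) ^ 2 :=
    (hXs.sub continuous_const).pow 2
  have hcont : Continuous fun z : ℍ => 128 * (X (G1M.st s z) - 1) ^ 2 + 512 * r ^ 2 :=
    (continuous_const.mul hcont2).add continuous_const
  have h1 : ∫ z in K, (mean F z r - 1) ^ 2 ≤
      ∫ z in K, (128 * (X (G1M.st s z) - 1) ^ 2 + 512 * r ^ 2) := by
    apply integral_mono_of_nonneg
    · exact Eventually.of_forall fun z => sq_nonneg _
    · exact hcont.continuousOn.integrableOn_compact hK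
    · exact Eventually.of_forall hpt
  have h2 : ∫ z in K, (128 * (X (G1M.st s z) - 1) ^ 2 + 512 * r ^ 2) =
      128 * (∫ z in K, (X (G1M.st s z) - 1) ^ 2) + 512 * r ^ 2 * (volume K).toReal := by
    rw [integral_add ((hcont2.continuousOn.integrableOn_compact hK).const_mul _)
      (continuous_const.continuousOn.integrableOn_compact hK), integral_const_mul,
      setIntegral_const, smul_eq_mul]
    simp only [Measure.real]
    ring
  -- the weight
  set G : ℂ → ℝ := fun w => ζ w * w.im ^ 2 * (X w - 1) ^ 2 with hG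
  have hGnn : ∀ w, 0 ≤ G w := fun w =>
    mul_nonneg (mul_nonneg (hζ1 w).1 (sq_nonneg _)) (sq_nonneg _)
  have hG0 : ∀ z : ℂ, z.im ≤ 0 → G z = 0 := by
    intro z hz
    have h3 : ζ z = 0 := by
      by_contra hne
      exact absurd (hζ.sub (subset_tsupport _ hne)) (not_lt.mpr hz)
    simp only [hG, h3, zero_mul]
  have hGc : Continuous fun z : ℍ => G (G1M.st s z) := by
    refine G1M.cont_pull (X := G) ?_ (by linarith)
    exact ((hζ.smooth.continuous.continuousOn).mul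
      ((Complex.continuous_im.pow 2).continuousOn)).mul ((hXc.sub continuousOn_const).pow 2)
  have hGsupp : HasCompactSupport fun z : ℍ => G (G1M.st s z) := by
    have h3 : IsCompact ((fun z : ℍ => (z : ℂ)) ⁻¹'
        ((fun p : ℝ × ℂ => G1M.st p.1 p.2) '' (Icc s⁻¹ s⁻¹ ×ˢ tsupport ζ))) :=
      G1M.cpt_pre (G1M.cpt_img hζ.cpt) (G1M.img_sub (by positivity) hζ.sub)
    refine HasCompactSupport.intro h3 ?_
    intro z hz
    by_contra hne
    apply hz
    have h4 : ζ (G1M.st s z) ≠ 0 := by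
      intro h5
      apply hne
      simp only [hG, h5, zero_mul]
    refine ⟨(s⁻¹, G1M.st s z), ⟨⟨le_rfl, le_rfl⟩, subset_tsupport _ h4⟩, ?_⟩
    show G1M.st s⁻¹ (G1M.st s z) = z
    rw [G1M.st_st, inv_mul_cancel₀ (by linarith), G1M.st_one]
  have hGint : Integrable fun z : ℍ => G (G1M.st s z) :=
    hGc.integrable_of_hasCompactSupport hGsupp
  have h3 : ∫ z in K, (X (G1M.st s z) - 1) ^ 2 ≤ ∫ z in K, (m ^ 2)⁻¹ * G (G1M.st s z) := by
    apply setIntegral_mono_on (hcont2.continuousOn.integrableOn_compact hK)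
      (hGint.integrableOn.const_mul _) hK.measurableSet
    intro z hz
    have h4 : G1M.st s z ∈ K' := ⟨(s, (z : ℂ)), ⟨⟨hs1, hs32⟩, ⟨z, hz, rfl⟩⟩, rfl⟩
    have h5 : ζ (G1M.st s z) = 1 := hζ2.self_of_nhdsSet _ h4
    have h6 := hmK _ h4
    have h7 : m ^ 2 ≤ (G1M.st s z).im ^ 2 := pow_le_pow_left₀ hm.le h6 2
    have h8 : 1 ≤ (m ^ 2)⁻¹ * (G1M.st s z).im ^ 2 := by
      rw [inv_mul_eq_div, one_le_div (by positivity)]
      exact h7
    have h9 : (m ^ 2)⁻¹ * G (G1M.st s z) =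
        ((m ^ 2)⁻¹ * (G1M.st s z).im ^ 2) * (X (G1M.st s z) - 1) ^ 2 := by
      simp only [hG, h5]; ring
    rw [h9]
    exact le_mul_of_one_le_left (sq_nonneg _) h8
  have h4 : ∫ z in K, (m ^ 2)⁻¹ * G (G1M.st s z) ≤ (m ^ 2)⁻¹ * ∫ z : ℍ, G (G1M.st s z) := by
    rw [integral_const_mul]
    apply mul_le_mul_of_nonneg_left _ (by positivity)
    exact setIntegral_le_integral hGint (Eventually.of_forall fun z => hGnn _)
  have h5 : ∫ z : ℍ, G (G1M.st s z) = s * ∫ z : ℂ, ζ z * (X z - 1) ^ 2 := by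
    rw [G1M.int_center hInt G hG0 hsd]
    congr 1
    exact G1M.int_weight hInt hζ fun w => (X w - 1) ^ 2
  have h6 : 0 ≤ ∫ z : ℂ, ζ z * (X z - 1) ^ 2 :=
    integral_nonneg fun z => mul_nonneg (hζ1 z).1 (sq_nonneg _)
  have h7 : 0 ≤ (volume K).toReal := ENNReal.toReal_nonneg
  have h8 : 0 < (m ^ 2)⁻¹ := by positivity
  rw [h2] at h1
  have h9 : (m ^ 2)⁻¹ * (s * ∫ z : ℂ, ζ z * (X z - 1) ^ 2) ≤
      (m ^ 2)⁻¹ * ((3 / 2) * ∫ z : ℂ, ζ z * (X z - 1) ^ 2) := by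
    apply mul_le_mul_of_nonneg_left _ h8.le
    exact mul_le_mul_of_nonneg_right hs32 h6
  have h10 : ∫ z in K, (X (G1M.st s z) - 1) ^ 2 ≤
      (m ^ 2)⁻¹ * ((3 / 2) * ∫ z : ℂ, ζ z * (X z - 1) ^ 2) := by
    rw [h5] at h4
    linarith
  have h11 : 0 ≤ (m ^ 2)⁻¹ * r ^ 2 := by positivity
  have h12 : 0 ≤ (volume K).toReal * ∫ z : ℂ, ζ z * (X z - 1) ^ 2 := mul_nonneg h7 h6
  nlinarith

end Pool.Agent.A54.Pl
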