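import Pool.Agent.Lib.MP_a54f13_nt.Pl.G1

/-!
# Module G2: disc means bounded by hyperbolic means
-/

set_option autoImplicit false

namespace Pool.Agent.A54.Pl

open MeasureTheory Filter Topology Set
open scoped ContDiff ComplexConjugate UpperHalfPlane MatrixGroups
open Pool.Agent.A54.Half (H0)

theorem stmtG2 (hInt : StmtInt) (h0 : StmtG0) : StmtG2 := by
  intro φ hφ hφ0
  set T : Set ℂ := tsupport φ with hT
  have hTc : IsCompact T := hφ.cpt
  have hT0 : T ⊆ H0 := hφ.sub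
  set K' : Set ℂ := (fun p : ℝ × ℂ => G1M.st p.1 p.2) '' (Icc (2 / 3) 1 ×ˢ T) with hK'
  have hK'c : IsCompact K' := G1M.cpt_img hTc
  have hK'0 : K' ⊆ H0 := G1M.img_sub (by norm_num) hT0
  set K : Set ℍ := (fun z : ℍ => (z : ℂ)) ⁻¹' K' with hK
  have hKc : IsCompact K := G1M.cpt_pre hK'c hK'0
  -- bound for the weight
  obtain ⟨b, hb0, hb⟩ : ∃ b : ℝ, 0 ≤ b ∧ ∀ w, φ w * w.im ^ 2 ≤ b := by
    have h1 : Continuous fun w : ℂ => φ w * w.im ^ 2 :=
      hφ.smooth.continuous.mul (Complex.continuous_im.pow 2)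
    have h2 : HasCompactSupport fun w : ℂ => φ w * w.im ^ 2 := hφ.cpt.mul_right
    obtain ⟨C, hC⟩ := h1.bounded_above_of_compact_support h2
    exact ⟨C, (norm_nonneg _).trans (hC 0), fun w => (le_abs_self _).trans (hC w)⟩
  refine ⟨K, 128 * b + 512 * b * (volume K).toReal, 1 / 2, hKc, by positivity, by norm_num, ?_⟩
  intro r hr hr2 F hF hF0
  set s : ℝ := Real.cosh r with hs
  have hs1 : 1 ≤ s := Real.one_le_cosh r
  have hsd : |s - 1| ≤ 1 / 2 := G1M.cosh_le hr.le hr2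
  have hs32 : s ≤ 3 / 2 := by
    have := (abs_le.mp hsd).2
    linarith
  set X : ℂ → ℝ := Ed (Real.tanh r) (ext F) with hX
  have hpt : ∀ z : ℍ, (X (G1M.st s z) - 1) ^ 2 ≤ 128 * (mean F z r - 1) ^ 2 + 512 * r ^ 2 := by
    intro z
    obtain ⟨h1, h2⟩ := (h0 F hF).2 hF0 z r hr
    rw [G1M.st_center] at h1 h2
    obtain ⟨h3, h4⟩ := G1M.swap h1 h2
    exact G1M.sq_le' hr.le hr2 h3 h4
  have hYc : Continuous fun z : ℍ => mean F z r := (h0 F hF).1 r hr
  have hY2 : Continuous fun z : ℍ => (mean F z r - 1) ^ 2 := (hYc.sub continuous_const).pow 2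
  have hcont : Continuous fun z : ℍ => b * (128 * (mean F z r - 1) ^ 2 + 512 * r ^ 2) :=
    continuous_const.mul ((continuous_const.mul hY2).add continuous_const)
  set G : ℂ → ℝ := fun w => φ w * w.im ^ 2 * (X w - 1) ^ 2 with hG
  have hGnn : ∀ w, 0 ≤ G w := fun w =>
    mul_nonneg (mul_nonneg (hφ0 w) (sq_nonneg _)) (sq_nonneg _)
  have hG0 : ∀ z : ℂ, z.im ≤ 0 → G z = 0 := by
    intro z hz
    have h3 : φ z = 0 := by
      by_contra hne
      exact absurd (hφ.sub (subset_tsupport _ hne)) (not_lt.mpr hz)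
    simp only [hG, h3, zero_mul]
  have h1 : ∫ z : ℂ, φ z * (X z - 1) ^ 2 = ∫ z : ℍ, G z :=
    (G1M.int_weight hInt hφ fun w => (X w - 1) ^ 2).symm
  have h2 : ∫ z : ℍ, G (G1M.st s z) = s * ∫ z : ℍ, G z := G1M.int_center hInt G hG0 hsd
  have hGn : 0 ≤ ∫ z : ℍ, G z := integral_nonneg fun z => hGnn _
  have h3 : ∫ z : ℍ, G z ≤ ∫ z : ℍ, G (G1M.st s z) := by
    rw [h2]
    exact le_mul_of_one_le_left hGn hs1
  have h4 : ∫ z : ℍ, G (G1M.st s z) = ∫ z in K, G (G1M.st s z) := by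
    symm
    apply setIntegral_eq_integral_of_forall_compl_eq_zero
    intro z hz
    by_contra hne
    apply hz
    have h4 : φ (G1M.st s z) ≠ 0 := by
      intro h5
      apply hne
      simp only [hG, h5, zero_mul]
    have hs0 : 0 < s := by linarith
    refine ⟨(s⁻¹, G1M.st s z), ⟨⟨?_, inv_le_one_of_one_le₀ hs1⟩, subset_tsupport _ h4⟩, ?_⟩
    · show 2 / 3 ≤ s⁻¹
      rw [le_inv_comm₀ (by norm_num) hs0]
      linarith
    · show G1M.st s⁻¹ (G1M.st s z) = z
      rw [G1M.st_st, inv_mul_cancel₀ hs0.ne', G1M.st_one]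
  have h5 : ∫ z in K, G (G1M.st s z) ≤
      ∫ z in K, b * (128 * (mean F z r - 1) ^ 2 + 512 * r ^ 2) := by
    apply integral_mono_of_nonneg
    · exact Eventually.of_forall fun z => hGnn _
    · exact hcont.continuousOn.integrableOn_compact hKc
    · refine Eventually.of_forall fun z => ?_
      calc G (G1M.st s z) ≤ b * (X (G1M.st s z) - 1) ^ 2 :=
            mul_le_mul_of_nonneg_right (hb _) (sq_nonneg _)
        _ ≤ b * (128 * (mean F z r - 1) ^ 2 + 512 * r ^ 2) :=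
            mul_le_mul_of_nonneg_left (hpt z) hb0
  have h6 : ∫ z in K, b * (128 * (mean F z r - 1) ^ 2 + 512 * r ^ 2) =
      b * (128 * (∫ z in K, (mean F z r - 1) ^ 2) + 512 * r ^ 2 * (volume K).toReal) := by
    rw [integral_const_mul, integral_add ((hY2.continuousOn.integrableOn_compact hKc).const_mul _)
      (continuous_const.continuousOn.integrableOn_compact hKc), integral_const_mul,
      setIntegral_const, smul_eq_mul]
    simp only [Measure.real]
    ring
  have h7 : 0 ≤ ∫ z in K, (mean F z r - 1) ^ 2 := integral_nonneg fun z => sq_nonneg _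
  have h8 : 0 ≤ (volume K).toReal := ENNReal.toReal_nonneg
  rw [h1]
  have h9 : ∫ z : ℍ, G z ≤
      b * (128 * (∫ z in K, (mean F z r - 1) ^ 2) + 512 * r ^ 2 * (volume K).toReal) := by
    rw [← h6]
    exact h3.trans (h4.le.trans h5)
  have h10 : 0 ≤ b * (volume K).toReal * ∫ z in K, (mean F z r - 1) ^ 2 :=
    mul_nonneg (mul_nonneg hb0 h8) h7
  have h11 : 0 ≤ b * r ^ 2 := mul_nonneg hb0 (sq_nonneg _)
  nlinarith

end Pool.Agent.A54.Pl
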