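import Pool.Agent.Lib.MP_a54f13_nt.Pl.Spec

/-!
# Averages of derivatives (module E2)
-/

set_option autoImplicit false

namespace Pool.Agent.A54.Pl.E2M

open MeasureTheory Filter Topology Set
open scoped ContDiff ComplexConjugate UpperHalfPlane MatrixGroups
open Pool.Agent.A54.Half (H0 qq ff hh)

noncomputable section

/-- weighted mean value -/
def A (k : ℂ → ℂ) (W : ℂ → ℂ) (r : ℝ) (z : ℂ) : ℂ :=
  ∫ u in Metric.ball (0 : ℂ) 1, k u * W (lin r u z)

lemma continuous_A {k W : ℂ → ℂ} (hk : Continuous k) (hW : Continuous W) (r : ℝ) :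
    Continuous (A k W r) := by
  unfold A
  have h1 : Continuous fun z : ℂ => ∫ u in Metric.closedBall (0 : ℂ) 1, k u * W (lin r u z) := by
    refine continuous_parametric_integral_of_continuous (f := fun z u => k u * W (lin r u z)) ?_
      (isCompact_closedBall (0 : ℂ) 1)
    exact (hk.comp continuous_snd).mul (hW.comp ((continuous_lin r).comp continuous_swap))
  convert! h1 using 2
  rename_i z
  rw [Measure.restrict_congr_set (ball_ae_closedBall)]

lemma integrableOn_A {k W : ℂ → ℂ} (hk : Continuous k) (hW : Continuous W) (r : ℝ) (z : ℂ) :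
    IntegrableOn (fun u => k u * W (lin r u z)) (Metric.ball (0 : ℂ) 1) :=
  ((hk.mul (hW.comp (continuous_lin_left r z))).continuousOn.integrableOn_compact
    (isCompact_closedBall (0 : ℂ) 1)).mono_set Metric.ball_subset_closedBall

lemma fderiv_lin {W : ℂ → ℂ} (hW : ContDiff ℝ ∞ W) (r : ℝ) (z u v : ℂ) :
    fderiv ℝ (fun u => W (lin r u z)) u v =
      ((r * z.im : ℝ) : ℂ) * fderiv ℝ W (lin r u z) v := by
  have h1 : HasFDerivAt (fun u : ℂ => lin r u z)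
      ((r * z.im : ℝ) • (1 : ℂ →L[ℝ] ℂ)) u := by
    have h2 : (fun u : ℂ => lin r u z) = fun u => z + ((r * z.im : ℝ) • (1 : ℂ →L[ℝ] ℂ)) u := by
      funext u
      simp [lin]
    rw [h2]
    exact ((r * z.im : ℝ) • (1 : ℂ →L[ℝ] ℂ)).hasFDerivAt.const_add z
  have h3 : HasFDerivAt W (fderiv ℝ W (lin r u z)) (lin r u z) :=
    ((hW.differentiable (by simp)) (lin r u z)).hasFDerivAt
  have h4 := (h3.comp u h1).fderiv
  have h5 : (W ∘ fun u : ℂ => lin r u z) = fun u => W (lin r u z) := rfl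
  rw [h5] at h4
  rw [h4]
  simp only [ContinuousLinearMap.comp_apply, smul_apply,
    one_apply_eq_self, map_smul]
  rw [Complex.real_smul]

lemma dzb_lin {W : ℂ → ℂ} (hW : ContDiff ℝ ∞ W) (r : ℝ) (z u : ℂ) :
    dzb (fun u => W (lin r u z)) u = ((r * z.im : ℝ) : ℂ) * dzb W (lin r u z) := by
  unfold dzb
  rw [fderiv_lin hW, fderiv_lin hW]
  ring

lemma contDiff_lin {W : ℂ → ℂ} (hW : ContDiff ℝ ∞ W) (r : ℝ) (z : ℂ) :
    ContDiff ℝ ∞ (fun u => W (lin r u z)) := by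
  refine hW.comp ?_
  unfold lin
  fun_prop

lemma parts {b W : ℂ → ℂ} (hb : ContDiff ℝ ∞ b) (hbc : HasCompactSupport b)
    (hbs : tsupport b ⊆ Metric.ball 0 1) (hW : ContDiff ℝ ∞ W) (r : ℝ) (z : ℂ)
    (hr : r * z.im ≠ 0) :
    A b (dzb W) r z = -(((r * z.im : ℝ) : ℂ))⁻¹ * A (dzb b) W r z := by
  have hc : ((r * z.im : ℝ) : ℂ) ≠ 0 := by exact_mod_cast hr
  have h1 : A b (dzb W) r z = ∫ u, b u * dzb W (lin r u z) := by
    refine setIntegral_eq_integral_of_forall_compl_eq_zero fun u hu => ?_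
    rw [image_eq_zero_of_notMem_tsupport fun h => hu (hbs h), zero_mul]
  have h2 : A (dzb b) W r z = ∫ u, dzb b u * W (lin r u z) := by
    refine setIntegral_eq_integral_of_forall_compl_eq_zero fun u hu => ?_
    rw [dzb_eq_zero_of_notMem fun h => hu (hbs h), zero_mul]
  have h3 := integral_mul_dzb hb (contDiff_lin hW r z) (Or.inl hbc)
  have h4 : ∫ u, b u * dzb (fun u => W (lin r u z)) u =
      ((r * z.im : ℝ) : ℂ) * ∫ u, b u * dzb W (lin r u z) := by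
    rw [← integral_const_mul]
    refine integral_congr_ae (Eventually.of_forall fun u => ?_)
    show b u * dzb (fun u => W (lin r u z)) u = _
    rw [dzb_lin hW]
    ring
  rw [h4] at h3
  rw [h1, h2]
  have h5 : ∫ u, b u * dzb W (lin r u z) =
      (((r * z.im : ℝ) : ℂ))⁻¹ * (((r * z.im : ℝ) : ℂ) * ∫ u, b u * dzb W (lin r u z)) := by
    rw [← mul_assoc, inv_mul_cancel₀ hc, one_mul]
  rw [h5, h3]
  ring

lemma decomp {b W : ℂ → ℂ} (hb : ContDiff ℝ ∞ b) (hbc : HasCompactSupport b)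
    (hbs : tsupport b ⊆ Metric.ball 0 1) (hW : ContDiff ℝ ∞ W) (r : ℝ) (z : ℂ)
    (hr : r * z.im ≠ 0) :
    Ed r (dzb W) z = A (fun u => ((Real.pi : ℂ))⁻¹ * (1 - b u)) (dzb W) r z -
      (((Real.pi * (r * z.im) : ℝ) : ℂ))⁻¹ * A (dzb b) W r z := by
  have h1 : Ed r (dzb W) z = ((Real.pi : ℂ))⁻¹ * ∫ u in Metric.ball (0 : ℂ) 1,
      dzb W (lin r u z) := by
    unfold Ed
    rw [Complex.real_smul]
    push_cast
    ring
  have hdW : Continuous (dzb W) := (contDiff_dzb hW).continuous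
  have i1 : IntegrableOn (fun u => (((Real.pi : ℂ))⁻¹ * (1 - b u)) * dzb W (lin r u z))
      (Metric.ball (0 : ℂ) 1) :=
    integrableOn_A (k := fun u => ((Real.pi : ℂ))⁻¹ * (1 - b u))
      (continuous_const.mul (continuous_const.sub hb.continuous)) hdW r z
  have i2 : IntegrableOn (fun u => b u * dzb W (lin r u z)) (Metric.ball (0 : ℂ) 1) :=
    integrableOn_A hb.continuous hdW r z
  have h2 : ((Real.pi : ℂ))⁻¹ * ∫ u in Metric.ball (0 : ℂ) 1, dzb W (lin r u z) =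
      A (fun u => ((Real.pi : ℂ))⁻¹ * (1 - b u)) (dzb W) r z +
        ((Real.pi : ℂ))⁻¹ * A b (dzb W) r z := by
    unfold A
    rw [← integral_const_mul, ← integral_const_mul, ← integral_add i1 (i2.const_mul _)]
    refine integral_congr_ae (Eventually.of_forall fun u => ?_)
    simp only
    ring
  rw [h1, h2, parts hb hbc hbs hW r z hr]
  push_cast
  rw [mul_inv]
  ring

/-- the `L¹` norm of the first kernel -/
lemma kernel_le {s : ℝ} (hs0 : 0 < s) (hs1 : s < 1) (b : ℂ → ℝ) (hb : Continuous b)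
    (hb0 : ∀ u, 0 ≤ b u) (hb1 : ∀ u, b u ≤ 1) (hbs : ∀ u ∈ Metric.ball (0 : ℂ) s, b u = 1) :
    ∫ u in Metric.ball (0 : ℂ) 1, ‖((Real.pi : ℂ))⁻¹ * (1 - ((b u : ℝ) : ℂ))‖ ≤ 1 - s ^ 2 := by
  have hfin : IsFiniteMeasure (volume.restrict (Metric.ball (0 : ℂ) 1)) :=
    ⟨by rw [Measure.restrict_apply_univ]; exact measure_ball_lt_top⟩
  have h1 : ∀ u, ‖((Real.pi : ℂ))⁻¹ * (1 - ((b u : ℝ) : ℂ))‖ = Real.pi⁻¹ * (1 - b u) := by
    intro u
    have h2 : ((Real.pi : ℂ))⁻¹ * (1 - ((b u : ℝ) : ℂ)) = ((Real.pi⁻¹ * (1 - b u) : ℝ) : ℂ) := by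
      push_cast; ring
    rw [h2, Complex.norm_real, Real.norm_eq_abs, abs_of_nonneg]
    exact mul_nonneg (inv_nonneg.mpr Real.pi_pos.le) (by linarith [hb1 u])
  simp_rw [h1]
  have hsub : Metric.ball (0 : ℂ) s ⊆ Metric.ball 0 1 := Metric.ball_subset_ball hs1.le
  have hind : IntegrableOn ((Metric.ball (0 : ℂ) s).indicator fun _ => (1 : ℝ))
      (Metric.ball (0 : ℂ) 1) :=
    (integrable_const (1 : ℝ)).indicator measurableSet_ball
  have hbi : IntegrableOn b (Metric.ball (0 : ℂ) 1) :=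
    (hb.continuousOn.integrableOn_compact (isCompact_closedBall (0 : ℂ) 1)).mono_set
      Metric.ball_subset_closedBall
  have h3 : ∫ u in Metric.ball (0 : ℂ) 1, Real.pi⁻¹ * (1 - b u) ≤
      ∫ u in Metric.ball (0 : ℂ) 1, Real.pi⁻¹ *
        (1 - (Metric.ball (0 : ℂ) s).indicator (fun _ => (1 : ℝ)) u) := by
    refine integral_mono (((integrable_const (1 : ℝ)).sub hbi).const_mul _)
      (((integrable_const (1 : ℝ)).sub hind).const_mul _) fun u => ?_
    refine mul_le_mul_of_nonneg_left ?_ (inv_nonneg.mpr Real.pi_pos.le)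
    by_cases hu : u ∈ Metric.ball (0 : ℂ) s
    · rw [indicator_of_mem hu, hbs u hu]
    · rw [indicator_of_notMem hu]
      linarith [hb0 u]
  refine h3.trans ?_
  rw [integral_const_mul, integral_sub (integrable_const (1 : ℝ)) hind,
    setIntegral_const, integral_indicator measurableSet_ball,
    Measure.restrict_restrict measurableSet_ball, inter_eq_self_of_subset_left hsub,
    setIntegral_const, Measure.real, Measure.real, volume_disc]
  have h4 : (volume (Metric.ball (0 : ℂ) s)).toReal = Real.pi * s ^ 2 := by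
    rw [Complex.volume_ball]
    simp [hs0.le]
    ring
  rw [h4]
  have := Real.pi_ne_zero
  simp only [smul_eq_mul, mul_one]
  rw [← mul_one_sub, ← mul_assoc, inv_mul_cancel₀ this, one_mul]

lemma exists_bump {s : ℝ} (hs0 : 0 < s) (hs1 : s < 1) : ∃ b : ℂ → ℝ, ContDiff ℝ ∞ b ∧
    HasCompactSupport b ∧ tsupport b ⊆ Metric.ball (0 : ℂ) 1 ∧ (∀ u, 0 ≤ b u) ∧ (∀ u, b u ≤ 1) ∧
    ∀ u ∈ Metric.ball (0 : ℂ) s, b u = 1 := by
  let B : ContDiffBump (0 : ℂ) := ⟨s, (1 + s) / 2, hs0, by linarith⟩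
  refine ⟨B, B.contDiff, B.hasCompactSupport, ?_, fun u => B.nonneg, fun u => B.le_one,
    fun u hu => B.one_of_mem_closedBall (Metric.ball_subset_closedBall hu)⟩
  rw [B.tsupport_eq]
  exact Metric.closedBall_subset_ball (by show (1 + s) / 2 < 1; linarith)

lemma exists_im_lb {V : Set ℂ} (hV : V ⊆ H0) {φ : ℂ → ℝ} (hφ : TestR V φ) :
    ∃ m0 : ℝ, 0 < m0 ∧ ∀ z ∈ tsupport φ, m0 ≤ z.im := by
  rcases (tsupport φ).eq_empty_or_nonempty with h | h
  · exact ⟨1, one_pos, fun z hz => by rw [h] at hz; exact absurd hz (notMem_empty z)⟩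
  · obtain ⟨z0, hz0, hmin⟩ := (show IsCompact (tsupport φ) from hφ.cpt).exists_isMinOn h
      Complex.continuous_im.continuousOn
    exact ⟨z0.im, hV (hφ.sub hz0), fun z hz => hmin hz⟩

end

end Pool.Agent.A54.Pl.E2M

namespace Pool.Agent.A54.Pl

open MeasureTheory Filter Topology Set
open scoped ContDiff ComplexConjugate UpperHalfPlane MatrixGroups
open Pool.Agent.A54.Half (H0 qq ff hh)
open E2M

theorem stmtE2 (h : StmtE1k) : StmtE2 := by
  intro V hVo hV φ hφ hφ0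
  obtain ⟨ζ, C0, r0, hζ, hC0, hr0, hE⟩ := h V hVo hV φ hφ hφ0
  obtain ⟨m0, hm0, hm⟩ := exists_im_lb hV hφ
  refine ⟨ζ, r0, hζ, hr0, fun δ hδ => ?_⟩
  -- the small parameter
  obtain ⟨η, hη0, hη1, hηδ⟩ : ∃ η : ℝ, 0 < η ∧ η < 1 ∧ 2 * C0 * η ^ 2 ≤ δ := by
    refine ⟨min (1 / 2) (δ / (2 * C0 + 1)), lt_min (by norm_num) (by positivity),
      (min_le_left _ _).trans_lt (by norm_num), ?_⟩
    set η := min (1 / 2) (δ / (2 * C0 + 1)) with hη
    have h0 : 0 < η := lt_min (by norm_num) (by positivity)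
    have h1 : η ≤ 1 := (min_le_left _ _).trans (by norm_num)
    have h2 : η ≤ δ / (2 * C0 + 1) := min_le_right _ _
    have h3 : η ^ 2 ≤ η := by nlinarith
    have h4 : η * (2 * C0 + 1) ≤ δ := by
      rwa [le_div_iff₀ (by positivity)] at h2
    nlinarith
  set s : ℝ := √(1 - η) with hs
  have hs2 : s ^ 2 = 1 - η := Real.sq_sqrt (by linarith)
  have hs0 : 0 < s := Real.sqrt_pos.mpr (by linarith)
  have hs1 : s < 1 := by nlinarith
  obtain ⟨b, hb, hbc, hbs, hb0, hb1, hbone⟩ := exists_bump hs0 hs1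
  set bc : ℂ → ℂ := fun u => ((b u : ℝ) : ℂ) with hbcdef
  have hbC : ContDiff ℝ ∞ bc := contDiff_ofReal hb
  have hbT : Test (Metric.ball (0 : ℂ) 1) bc := TestR.toTest ⟨hb, hbc, hbs⟩
  set k1 : ℂ → ℂ := fun u => ((Real.pi : ℂ))⁻¹ * (1 - bc u) with hk1
  have hk1c : Continuous k1 := continuous_const.mul (continuous_const.sub hbC.continuous)
  have hk1b : ∀ u, ‖k1 u‖ ≤ Real.pi⁻¹ * 2 := by
    intro u
    rw [hk1]
    simp only [norm_mul, norm_inv, Complex.norm_real, Real.norm_eq_abs, abs_of_pos Real.pi_pos]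
    refine mul_le_mul_of_nonneg_left ?_ (inv_nonneg.mpr Real.pi_pos.le)
    refine (norm_sub_le _ _).trans ?_
    rw [norm_one]
    have : ‖bc u‖ ≤ 1 := by
      rw [hbcdef]
      simp only [Complex.norm_real, Real.norm_eq_abs, abs_of_nonneg (hb0 u)]
      exact hb1 u
    linarith
  set k2 : ℂ → ℂ := dzb bc with hk2
  have hk2c : Continuous k2 := (contDiff_dzb hbC).continuous
  obtain ⟨B2, hB2⟩ := hk2c.bounded_above_of_compact_support (hbT.dzb).cpt
  set I2 : ℝ := ∫ u in Metric.ball (0 : ℂ) 1, ‖k2 u‖ with hI2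
  have hI1 : ∫ u in Metric.ball (0 : ℂ) 1, ‖k1 u‖ ≤ η := by
    have := kernel_le hs0 hs1 b hb.continuous hb0 hb1 hbone
    rw [hs2] at this
    linarith
  have hI1' : 0 ≤ ∫ u in Metric.ball (0 : ℂ) 1, ‖k1 u‖ := integral_nonneg fun u => norm_nonneg _
  refine ⟨2 * ((Real.pi * m0) ^ 2)⁻¹ * (C0 * I2 ^ 2), by positivity, fun r hr hrr W hW => ?_⟩
  have hdW : Continuous (dzb W) := (contDiff_dzb hW).continuous
  have e1 := hE r hr hrr (dzb W) hdW k1 hk1c.measurable ⟨_, hk1b⟩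
  have e2 := hE r hr hrr W hW.continuous k2 hk2c.measurable ⟨B2, hB2⟩
  have hA1 : Continuous (A k1 (dzb W) r) := continuous_A hk1c hdW r
  have hA2 : Continuous (A k2 W r) := continuous_A hk2c hW.continuous r
  have hφc := hφ.smooth.continuous
  have j1 : Integrable fun z => φ z * ‖A k1 (dzb W) r z‖ ^ 2 :=
    (hφc.mul (hA1.norm.pow 2)).integrable_of_hasCompactSupport hφ.cpt.mul_right
  have j2 : Integrable fun z => φ z * ‖A k2 W r z‖ ^ 2 :=
    (hφc.mul (hA2.norm.pow 2)).integrable_of_hasCompactSupport hφ.cpt.mul_right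
  have j0 : Integrable fun z => φ z * ‖Ed r (dzb W) z‖ ^ 2 :=
    (hφc.mul ((continuous_Ed hdW r).norm.pow 2)).integrable_of_hasCompactSupport
      hφ.cpt.mul_right
  have hpt : ∀ z, φ z * ‖Ed r (dzb W) z‖ ^ 2 ≤ 2 * (φ z * ‖A k1 (dzb W) r z‖ ^ 2) +
      2 * ((Real.pi * m0 * r) ^ 2)⁻¹ * (φ z * ‖A k2 W r z‖ ^ 2) := by
    intro z
    by_cases hz : z ∈ tsupport φ
    · have hmz := hm z hz
      have hzim : 0 < z.im := hm0.trans_le hmz
      have hrz : r * z.im ≠ 0 := (mul_pos hr hzim).ne'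
      have hd : Ed r (dzb W) z = A k1 (dzb W) r z -
          (((Real.pi * (r * z.im) : ℝ) : ℂ))⁻¹ * A k2 W r z :=
        decomp hbC hbT.cpt hbT.sub hW r z hrz
      have hn : ‖Ed r (dzb W) z‖ ≤ ‖A k1 (dzb W) r z‖ +
          (Real.pi * m0 * r)⁻¹ * ‖A k2 W r z‖ := by
        rw [hd]
        refine (norm_sub_le _ _).trans ?_
        refine add_le_add_right ?_ _
        rw [norm_mul, norm_inv, Complex.norm_real, Real.norm_eq_abs,
          abs_of_pos (by have := Real.pi_pos; positivity)]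
        refine mul_le_mul_of_nonneg_right ?_ (norm_nonneg _)
        refine inv_anti₀ (by have := Real.pi_pos; positivity) ?_
        have := Real.pi_pos
        calc Real.pi * m0 * r = Real.pi * (r * m0) := by ring
          _ ≤ Real.pi * (r * z.im) := by gcongr
      have hsq : ‖Ed r (dzb W) z‖ ^ 2 ≤ 2 * ‖A k1 (dzb W) r z‖ ^ 2 +
          2 * ((Real.pi * m0 * r) ^ 2)⁻¹ * ‖A k2 W r z‖ ^ 2 := by
        have h1 : ‖Ed r (dzb W) z‖ ^ 2 ≤ (‖A k1 (dzb W) r z‖ +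
          (Real.pi * m0 * r)⁻¹ * ‖A k2 W r z‖) ^ 2 :=
          pow_le_pow_left₀ (norm_nonneg _) hn 2
        have h2 : ((Real.pi * m0 * r) ^ 2)⁻¹ = ((Real.pi * m0 * r)⁻¹) ^ 2 := by
          rw [inv_pow]
        rw [h2]
        nlinarith [sq_nonneg (‖A k1 (dzb W) r z‖ - (Real.pi * m0 * r)⁻¹ * ‖A k2 W r z‖)]
      calc φ z * ‖Ed r (dzb W) z‖ ^ 2 ≤ φ z * (2 * ‖A k1 (dzb W) r z‖ ^ 2 +
          2 * ((Real.pi * m0 * r) ^ 2)⁻¹ * ‖A k2 W r z‖ ^ 2) :=
            mul_le_mul_of_nonneg_left hsq (hφ0 z)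
        _ = _ := by ring
    · rw [image_eq_zero_of_notMem_tsupport hz]
      simp
  have hint : ∫ z, φ z * ‖Ed r (dzb W) z‖ ^ 2 ≤ 2 * (∫ z, φ z * ‖A k1 (dzb W) r z‖ ^ 2) +
      2 * ((Real.pi * m0 * r) ^ 2)⁻¹ * ∫ z, φ z * ‖A k2 W r z‖ ^ 2 := by
    rw [← integral_const_mul, ← integral_const_mul,
      ← integral_add (j1.const_mul _) (j2.const_mul _)]
    exact integral_mono j0 ((j1.const_mul _).add (j2.const_mul _)) hpt
  have hX : 0 ≤ ∫ z, ζ z ^ 2 * ‖dzb W z‖ ^ 2 := integral_nonneg fun z => by positivity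
  have hY : 0 ≤ ∫ z, ζ z ^ 2 * ‖W z‖ ^ 2 := integral_nonneg fun z => by positivity
  have e1' : ∫ z, φ z * ‖A k1 (dzb W) r z‖ ^ 2 ≤ C0 * η ^ 2 * ∫ z, ζ z ^ 2 * ‖dzb W z‖ ^ 2 := by
    refine e1.trans (mul_le_mul_of_nonneg_right (mul_le_mul_of_nonneg_left ?_ hC0) hX)
    exact pow_le_pow_left₀ hI1' hI1 2
  have hpi := Real.pi_pos
  calc ∫ z, φ z * ‖Ed r (dzb W) z‖ ^ 2 ≤ 2 * (∫ z, φ z * ‖A k1 (dzb W) r z‖ ^ 2) +
      2 * ((Real.pi * m0 * r) ^ 2)⁻¹ * ∫ z, φ z * ‖A k2 W r z‖ ^ 2 := hint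
    _ ≤ 2 * (C0 * η ^ 2 * ∫ z, ζ z ^ 2 * ‖dzb W z‖ ^ 2) +
      2 * ((Real.pi * m0 * r) ^ 2)⁻¹ * (C0 * I2 ^ 2 * ∫ z, ζ z ^ 2 * ‖W z‖ ^ 2) := by
        gcongr
        exact e2
    _ = 2 * ((Real.pi * m0) ^ 2)⁻¹ * (C0 * I2 ^ 2) / r ^ 2 * (∫ z, ζ z ^ 2 * ‖W z‖ ^ 2) +
      (2 * C0 * η ^ 2) * ∫ z, ζ z ^ 2 * ‖dzb W z‖ ^ 2 := by
        field_simp
        ring
    _ ≤ _ := by gcongr

end Pool.Agent.A54.Pl
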