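import Pool.Agent.Lib.MP_a54f13_nt.Pl.Spec

/-!
Assembly of the equivalences.
-/

set_option autoImplicit false

namespace Pool.Agent.A54.Pl

open MeasureTheory Filter Topology Set
open scoped ContDiff ComplexConjugate UpperHalfPlane MatrixGroups
open Pool.Agent.A54.Half (H0 qq ff hh)

noncomputable section

lemma condH_of_condA (hU1 : StmtU1) {f : ℕ → ℍ → ℝ} {t : ℕ → ℝ}
    (hf : ∀ i, IsHeckeMaass (f i) (t i)) (h : CondA f) : CondH f := by
  intro φ hφ
  obtain ⟨ψ, hψ, hI⟩ := hU1 φ hφ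
  have hc : ∀ i, Continuous (f i) := by
    intro i
    have h1 : ContinuousOn (ext (f i)) {z : ℂ | 0 < z.im} := (hf i).smooth.continuousOn
    have h2 : f i = fun z : ℍ => ext (f i) (z : ℂ) := by
      funext z
      rw [Half.ext_coe]
    rw [h2]
    exact h1.comp_continuous UpperHalfPlane.continuous_coe fun z => z.im_pos
  have h1 : ∫ z : ℍ, φ z = ∫ z in ModularGroup.fdo, ψ z := by
    have := hI (fun _ => 1) continuous_const (fun _ _ => rfl)
    simpa using this
  have h2 : ∀ (i m : ℕ), ∫ z : ℍ, φ z * f i z ^ m = ∫ z in ModularGroup.fdo, ψ z * f i z ^ m :=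
    fun i m => hI (fun z => f i z ^ m) ((hc i).pow m) fun γ z => by
      rw [(hf i).invariant γ z]
  obtain ⟨a, b⟩ := h ψ hψ
  refine ⟨?_, ?_⟩
  · rw [h1]
    exact a.congr fun i => (h2 i 2).symm
  · rw [h1]
    exact b.congr fun i => (h2 i 4).symm

lemma condA_of_condH (hU2 : StmtU2) {f : ℕ → ℍ → ℝ} {t : ℕ → ℝ}
    (hf : ∀ i, IsHeckeMaass (f i) (t i)) (h : CondH f) : CondA f := by
  intro ψ hψ
  have hc : ∀ i, Continuous (f i) := by
    intro i
    have h1 : ContinuousOn (ext (f i)) {z : ℂ | 0 < z.im} := (hf i).smooth.continuousOn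
    have h2 : f i = fun z : ℍ => ext (f i) (z : ℂ) := by
      funext z
      rw [Half.ext_coe]
    rw [h2]
    exact h1.comp_continuous UpperHalfPlane.continuous_coe fun z => z.im_pos
  refine ⟨?_, ?_⟩
  · have := hU2 (fun i z => f i z ^ 2) 1 (fun i => (hc i).pow 2) (fun i z => sq_nonneg _)
      (fun φ hφ => by simpa using (h φ hφ).1) ψ hψ
    simpa using this
  · exact hU2 (fun i z => f i z ^ 4) 3 (fun i => (hc i).pow 4)
      (fun i z => Even.pow_nonneg ⟨2, rfl⟩ _) (fun φ hφ => (h φ hφ).2) ψ hψ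

theorem tfae (hU1 : StmtU1) (hU2 : StmtU2) (hFB : StmtFB) (hBC : StmtBC) (hFC : StmtFC)
    {f : ℕ → ℍ → ℝ} {t : ℕ → ℝ} (hf : ∀ i, IsHeckeMaass (f i) (t i))
    (ht : Tendsto t atTop atTop) : List.TFAE [CondA f, CondB f t, CondC f t] := by
  tfae_have 1 → 2 := fun h => hFB f t hf ht (condH_of_condA hU1 hf h)
  tfae_have 2 → 3 := fun h => hBC f t (fun i => (hf i).pos) ht h
  tfae_have 3 → 1 := fun h => condA_of_condH hU2 hf (hFC f t hf ht h)
  tfae_finish

end

end Pool.Agent.A54.Pl
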