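import Pool.Agent.Lib.MP_a54f13_nt.Pl.Spec
import Pool.Agent.Lib.MP_a54f13_nt.Dyn.LB
import Pool.Agent.Lib.MP_a54f13_nt.X
import Pool.Agent.Lib.MP_a54f13_nt.Half2

/-!
Unfolding: from test functions on the half-plane to test functions on the modular surface.
-/

set_option autoImplicit false

namespace Pool.Agent.A54.Pl

open MeasureTheory Filter Topology Set
open scoped ContDiff ComplexConjugate UpperHalfPlane MatrixGroups ENNReal
open Pool.Agent.A54.Half (H0)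

noncomputable section

namespace U1M

/-- the set of elements which move a point of a strip to the same strip is finite -/
lemma fin_strip (R y0 : ℝ) (hR : 0 ≤ R) (hy0 : 0 < y0) :
    {γ : SL(2, ℤ) | ∃ z : ℍ, (|z.re| ≤ R ∧ y0 ≤ z.im) ∧
      (|(γ • z).re| ≤ R ∧ y0 ≤ (γ • z).im)}.Finite := by
  obtain ⟨s, hs⟩ := Dyn.LBM.cover R y0 hR hy0
  obtain ⟨B, hB⟩ := exists_int_gt (2 / y0 + 2 * R / y0 + R + 3)
  have hT := Dyn.LBM.finite_bdd B
  have h1 : (⋃ δ ∈ (s : Set SL(2, ℤ)), (fun γ : SL(2, ℤ) => δ⁻¹ * γ) ''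
      {γ : SL(2, ℤ) | ∀ i j, |γ i j| ≤ B}).Finite :=
    s.finite_toSet.biUnion fun δ _ => hT.image _
  refine h1.subset ?_
  rintro γ ⟨z, ⟨hz1, hz2⟩, hw1, hw2⟩
  obtain ⟨δ, hδ, hδ2⟩ := hs (γ • z) hw1 hw2
  rw [mem_iUnion₂]
  refine ⟨δ, hδ, δ * γ, ?_, inv_mul_cancel_left _ _⟩
  intro i j
  rw [← mul_smul] at hδ2
  have h3 := (Dyn.LBM.entries R y0 hR hy0 (δ * γ) z hz1 hz2 hδ2 i j).trans_lt hB
  have h4 : |(δ * γ) i j| < B := by exact_mod_cast h3
  exact h4.le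

/-- a compact set is contained in a strip -/
lemma compact_strip {K : Set ℍ} (hK : IsCompact K) : ∃ R y0 M : ℝ, 0 ≤ R ∧ 0 < y0 ∧
    ∀ z ∈ K, |z.re| ≤ R ∧ y0 ≤ z.im ∧ z.im ≤ M := by
  obtain ⟨R, hR⟩ := hK.exists_bound_of_continuousOn
    (UpperHalfPlane.continuous_re.continuousOn (s := K))
  obtain ⟨M, hM⟩ := hK.exists_bound_of_continuousOn (f := fun z : ℍ => (z.im)⁻¹)
    ((UpperHalfPlane.continuous_im.inv₀ fun z => z.im_ne_zero).continuousOn)
  obtain ⟨M', hM'⟩ := hK.exists_bound_of_continuousOn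
    (UpperHalfPlane.continuous_im.continuousOn (s := K))
  have h3 : 0 ≤ max M 0 := le_max_right _ _
  refine ⟨max R 0, 1 / (max M 0 + 1), M', le_max_right _ _, by positivity, fun z hz => ?_⟩
  refine ⟨?_, ?_, ?_⟩
  · have := hR z hz
    rw [Real.norm_eq_abs] at this
    exact this.trans (le_max_left _ _)
  · have h1 := hM z hz
    have h2 := z.im_pos
    rw [norm_inv, Real.norm_eq_abs, abs_of_pos h2] at h1
    have h4 : (z.im)⁻¹ ≤ max M 0 + 1 := by
      have := le_max_left M 0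
      linarith
    rw [one_div]
    exact inv_le_of_inv_le₀ h2 h4
  · have h1 := hM' z hz
    exact (le_abs_self _).trans h1

/-- the action is smooth -/
lemma smooth_smul (γ : SL(2, ℤ)) :
    ContDiffOn ℝ ∞ (fun w : ℂ => ((γ • UpperHalfPlane.ofComplex w : ℍ) : ℂ)) {z : ℂ | 0 < z.im} := by
  have h1 : ContDiffOn ℝ ∞ (fun w : ℂ => (((γ 0 0 : ℤ) : ℂ) * w + ((γ 0 1 : ℤ) : ℂ)) /
      (((γ 1 0 : ℤ) : ℂ) * w + ((γ 1 1 : ℤ) : ℂ))) {z : ℂ | 0 < z.im} := by
    simp only [div_eq_mul_inv]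
    apply ContDiffOn.mul
    · exact ((contDiff_const.mul contDiff_id).add contDiff_const).contDiffOn
    · apply ContDiffOn.inv
      · exact ((contDiff_const.mul contDiff_id).add contDiff_const).contDiffOn
      · intro w hw
        have := UpperHalfPlane.denom_ne_zero (γ : GL (Fin 2) ℝ) ⟨w, hw⟩
        rwa [ModularGroup.denom_apply] at this
  refine h1.congr fun w hw => ?_
  rw [UpperHalfPlane.ofComplex_apply_of_im_pos hw, UpperHalfPlane.coe_specialLinearGroup_apply]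
  simp

variable {φ : ℂ → ℝ}

/-- the averaged function -/
def av (φ : ℂ → ℝ) (z : ℍ) : ℝ := ∑ᶠ γ : SL(2, ℤ), φ ((γ • z : ℍ) : ℂ)

/-- bounds for the support -/
lemma supp (hφ : TestR H0 φ) : ∃ R y0 M : ℝ, 0 ≤ R ∧ 0 < y0 ∧
    ∀ z : ℍ, φ (z : ℂ) ≠ 0 → |z.re| ≤ R ∧ y0 ≤ z.im ∧ z.im ≤ M := by
  obtain ⟨R, y0, M, hR, hy0, h⟩ := compact_strip (Half2.isCompact_pre hφ.cpt.isCompact hφ.sub)
  refine ⟨R, y0, M, hR, hy0, fun z hz => h z ?_⟩
  by_contra hn
  exact hz (image_eq_zero_of_notMem_tsupport hn)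

/-- the sum is locally finite -/
lemma locfin (hφ : TestR H0 φ) (R y0 : ℝ) (hy0 : 0 < y0) :
    ∃ s : Finset SL(2, ℤ), ∀ z : ℍ, |z.re| ≤ R → y0 ≤ z.im → ∀ γ : SL(2, ℤ),
      φ ((γ • z : ℍ) : ℂ) ≠ 0 → γ ∈ s := by
  obtain ⟨R1, y1, M, hR1, hy1, h⟩ := supp hφ
  have hf := fin_strip (max R R1) (min y0 y1) (hR1.trans (le_max_right _ _)) (lt_min hy0 hy1)
  refine ⟨hf.toFinset, fun z hz1 hz2 γ hγ => ?_⟩
  rw [Set.Finite.mem_toFinset]
  obtain ⟨h1, h2, -⟩ := h _ hγ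
  exact ⟨z, ⟨hz1.trans (le_max_left _ _), (min_le_left _ _).trans hz2⟩,
    h1.trans (le_max_right _ _), (min_le_right _ _).trans h2⟩

lemma av_eq_sum {s : Finset SL(2, ℤ)} {z : ℍ}
    (h : ∀ γ : SL(2, ℤ), φ ((γ • z : ℍ) : ℂ) ≠ 0 → γ ∈ s) :
    av φ z = ∑ γ ∈ s, φ ((γ • z : ℍ) : ℂ) :=
  finsum_eq_sum_of_support_subset _ fun γ hγ => h γ hγ

lemma av_smooth (hφ : TestR H0 φ) : ContDiffOn ℝ ∞ (ext (av φ)) {z : ℂ | 0 < z.im} := by
  intro w hw
  have hw' : 0 < w.im := hw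
  obtain ⟨s, hs⟩ := locfin hφ (|w.re| + 1) (w.im / 2) (by positivity)
  have h1 : ContDiffOn ℝ ∞ (fun w : ℂ => ∑ γ ∈ s,
      φ ((γ • UpperHalfPlane.ofComplex w : ℍ) : ℂ)) {z : ℂ | 0 < z.im} := by
    apply ContDiffOn.sum
    intro γ _
    exact hφ.smooth.comp_contDiffOn (smooth_smul γ)
  refine ((h1 w hw).congr_of_eventuallyEq ?_ ?_)
  · have h2 : ∀ᶠ v : ℂ in 𝓝 w, |v.re| < |w.re| + 1 := by
      have := (continuous_abs.comp Complex.continuous_re).tendsto w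
      exact this.eventually_lt_const (by simp)
    have h3 : ∀ᶠ v : ℂ in 𝓝 w, w.im / 2 < v.im := by
      exact (Complex.continuous_im.tendsto w).eventually_const_lt (by linarith)
    filter_upwards [nhdsWithin_le_nhds h2, nhdsWithin_le_nhds h3] with v hv1 hv2
    have hv : 0 < v.im := by linarith
    unfold ext
    apply av_eq_sum
    intro γ hγ
    refine hs _ ?_ ?_ γ hγ
    · rw [UpperHalfPlane.ofComplex_apply_of_im_pos hv]
      exact hv1.le
    · rw [UpperHalfPlane.ofComplex_apply_of_im_pos hv]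
      exact hv2.le
  · unfold ext
    apply av_eq_sum
    intro γ hγ
    refine hs _ ?_ ?_ γ hγ
    · rw [UpperHalfPlane.ofComplex_apply_of_im_pos hw']
      show |w.re| ≤ |w.re| + 1
      linarith
    · rw [UpperHalfPlane.ofComplex_apply_of_im_pos hw']
      show w.im / 2 ≤ w.im
      linarith

lemma av_inv (φ : ℂ → ℝ) (γ : SL(2, ℤ)) (z : ℍ) : av φ (γ • z) = av φ z := by
  unfold av
  have h := finsum_comp_equiv (Equiv.mulRight γ) (f := fun δ : SL(2, ℤ) => φ ((δ • z : ℍ) : ℂ))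
  rw [← h]
  apply finsum_congr
  intro δ
  rw [← mul_smul]
  rfl

lemma av_cusp (hφ : TestR H0 φ) : ∃ Y : ℝ, ∀ z ∈ ModularGroup.fd, Y < z.im → av φ z = 0 := by
  obtain ⟨R, y0, M, hR, hy0, h⟩ := supp hφ
  refine ⟨max M (1 / y0), fun z _ hY => ?_⟩
  have hY1 : M < z.im := (le_max_left _ _).trans_lt hY
  have hY2 : 1 / y0 < z.im := (le_max_right _ _).trans_lt hY
  unfold av
  rw [← finsum_zero (α := SL(2, ℤ)) (M := ℝ)]
  apply finsum_congr
  intro γ
  by_contra hne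
  obtain ⟨-, h2, h3⟩ := h _ hne
  have hzp := z.im_pos
  have e := ModularGroup.im_smul_eq_div_normSq γ z
  have hd := UpperHalfPlane.denom_ne_zero (γ : GL (Fin 2) ℝ) z
  rw [ModularGroup.denom_apply] at e hd
  have hn : Complex.normSq (((γ 1 0 : ℤ) : ℂ) * z + ((γ 1 1 : ℤ) : ℂ)) =
      (((γ 1 0 : ℤ) : ℝ) * z.re + (γ 1 1 : ℤ)) ^ 2 + (((γ 1 0 : ℤ) : ℝ) * z.im) ^ 2 := by
    rw [Complex.normSq_apply]
    simp
    ring
  have hnp : 0 < Complex.normSq (((γ 1 0 : ℤ) : ℂ) * z + ((γ 1 1 : ℤ) : ℂ)) :=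
    Complex.normSq_pos.mpr hd
  by_cases hc : γ 1 0 = 0
  · have hdet : (γ 0 0 : ℤ) * γ 1 1 - γ 0 1 * γ 1 0 = 1 := by
      have := γ.det_coe
      rw [Matrix.det_fin_two] at this
      exact this
    rw [hc, mul_zero, sub_zero] at hdet
    have hd2 : (((γ 1 1 : ℤ) : ℝ)) ^ 2 = 1 := by
      rcases Int.mul_eq_one_iff_eq_one_or_neg_one.mp hdet with ⟨_, h6⟩ | ⟨_, h6⟩
      · rw [h6]
        norm_num
      · rw [h6]
        norm_num
    have : (γ • z).im = z.im := by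
      rw [e, hn, hc]
      simp [hd2]
    linarith
  · have h5 : 1 ≤ |γ 1 0| := Int.one_le_abs hc
    have h6 : (1 : ℝ) ≤ ((γ 1 0 : ℤ) : ℝ) ^ 2 := by
      rw [← sq_abs]
      have : (1 : ℝ) ≤ |((γ 1 0 : ℤ) : ℝ)| := by exact_mod_cast h5
      nlinarith
    have h7 : (γ • z).im < y0 := by
      rw [e, div_lt_iff₀ hnp, hn]
      rw [div_lt_iff₀ hy0] at hY2
      have h8 : z.im ^ 2 ≤ (((γ 1 0 : ℤ) : ℝ) * z.im) ^ 2 := by
        rw [mul_pow]
        nlinarith [sq_nonneg z.im]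
      have h9 : z.im * 1 < z.im * (z.im * y0) := mul_lt_mul_of_pos_left hY2 hzp
      have h10 := sq_nonneg (((γ 1 0 : ℤ) : ℝ) * z.re + (γ 1 1 : ℤ))
      have h11 : y0 * z.im ^ 2 ≤ y0 * ((((γ 1 0 : ℤ) : ℝ) * z.re + (γ 1 1 : ℤ)) ^ 2 +
          (((γ 1 0 : ℤ) : ℝ) * z.im) ^ 2) := mul_le_mul_of_nonneg_left (by linarith) hy0.le
      nlinarith
    linarith

lemma countable_sl : Countable SL(2, ℤ) := by
  have h1 : Countable (Matrix (Fin 2) (Fin 2) ℤ) :=
    inferInstanceAs (Countable (Fin 2 → Fin 2 → ℤ))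
  exact Function.Injective.countable (f := fun γ : SL(2, ℤ) => (γ : Matrix (Fin 2) (Fin 2) ℤ))
    Subtype.val_injective

/-- almost every point has exactly two translates in the fundamental domain -/
lemma ae_two : ∀ᵐ w : ℍ, ∃ γ0 : SL(2, ℤ), ∀ γ : SL(2, ℤ),
    γ⁻¹ • w ∈ ModularGroup.fdo ↔ γ = γ0 ∨ γ = -γ0 := by
  have h1 : ∀ γ : SL(2, ℤ), ∀ᵐ w : ℍ, γ • w ∉ ModularGroup.fd \ ModularGroup.fdo := by
    intro γ
    have h2 := measurePreserving_smul (γ : GL (Fin 2) ℝ) (volume : Measure ℍ)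
    have h3 : ∀ᵐ w : ℍ, w ∉ ModularGroup.fd \ ModularGroup.fdo :=
      measure_eq_zero_iff_ae_notMem.mp Dyn.LBM.null
    exact h2.quasiMeasurePreserving.ae h3
  have := countable_sl
  rw [← ae_all_iff] at h1
  filter_upwards [h1] with w hw
  obtain ⟨g, hg⟩ := ModularGroup.exists_smul_mem_fd w
  have hgo : g • w ∈ ModularGroup.fdo := by
    by_contra hn
    exact hw g ⟨hg, hn⟩
  refine ⟨g⁻¹, fun γ => ⟨fun hγ => ?_, fun hγ => ?_⟩⟩
  · have h2 : (γ⁻¹ * g⁻¹) • (g • w) ∈ ModularGroup.fdo := by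
      rw [mul_smul, inv_smul_smul]
      exact hγ
    rcases ModularGroup.eq_one_or_neg_one_of_mem_fdo_mem_fdo hgo h2 with h3 | h3
    · left
      have h4 : γ⁻¹ = g := by
        rw [mul_inv_eq_one] at h3
        exact h3
      rw [← h4, inv_inv]
    · right
      have h4 : γ⁻¹ = -g := by
        rw [mul_inv_eq_iff_eq_mul] at h3
        rw [h3, neg_one_mul]
      have h5 : g * γ = -1 := by
        have : (-g) * γ = 1 := by rw [← h4, inv_mul_cancel]
        rw [neg_mul] at this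
        rw [← this, neg_neg]
      rw [← mul_right_inj g, h5, mul_neg, mul_inv_cancel]
  · rcases hγ with rfl | rfl
    · rw [inv_inv]
      exact hgo
    · have : (-g⁻¹)⁻¹ = -g := by
        rw [inv_eq_iff_mul_eq_one, neg_mul_neg, inv_mul_cancel]
      rw [this, ModularGroup.SL_neg_smul]
      exact hgo

/-- the integral over the fundamental domain of one term -/
lemma term_eq (φ : ℂ → ℝ) {F : ℍ → ℝ} (hinv : ∀ (γ : SL(2, ℤ)) (z : ℍ), F (γ • z) = F z)
    (γ : SL(2, ℤ)) : ∫ z in ModularGroup.fdo, φ ((γ • z : ℍ) : ℂ) * F z =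
      ∫ w : ℍ, ModularGroup.fdo.indicator (fun _ => (1 : ℝ)) (γ⁻¹ • w) * (φ w * F w) := by
  rw [← integral_indicator X.measurableSet_fdo]
  have hmp := measurePreserving_smul (γ : GL (Fin 2) ℝ) (volume : Measure ℍ)
  have h1 := hmp.integral_comp (measurableEmbedding_const_smul (γ : GL (Fin 2) ℝ))
    (fun w : ℍ => ModularGroup.fdo.indicator (fun _ => (1 : ℝ)) (γ⁻¹ • w) * (φ w * F w))
  rw [← h1]
  apply integral_congr_ae
  refine Eventually.of_forall fun z => ?_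
  have h2 : ((γ : GL (Fin 2) ℝ) • z : ℍ) = γ • z := rfl
  simp only [h2, inv_smul_smul, hinv]
  by_cases hz : z ∈ ModularGroup.fdo
  · rw [indicator_of_mem hz, indicator_of_mem hz, one_mul]
  · rw [indicator_of_notMem hz, indicator_of_notMem hz, zero_mul]

lemma ident (hφ : TestR H0 φ) {F : ℍ → ℝ} (hF : Continuous F)
    (hinv : ∀ (γ : SL(2, ℤ)) (z : ℍ), F (γ • z) = F z) :
    ∫ z in ModularGroup.fdo, av φ z * F z = 2 * ∫ z : ℍ, φ z * F z := by
  obtain ⟨s, hs⟩ := locfin hφ (1 / 2) (1 / 2) (by norm_num)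
  have hfd : ∀ z ∈ ModularGroup.fdo, |z.re| ≤ 1 / 2 ∧ 1 / 2 ≤ z.im := by
    intro z hz
    refine ⟨hz.2.le, ?_⟩
    have hv := ModularGroup.three_le_four_mul_im_sq_of_mem_fd (ModularGroup.fdo_subset_fd hz)
    have hvpos := z.im_pos
    nlinarith
  -- integrability
  have hint : Integrable fun w : ℍ => φ w * F w := by
    have hc : Continuous fun w : ℍ => φ w * F w :=
      (hφ.smooth.continuous.comp UpperHalfPlane.continuous_coe).mul hF
    apply hc.integrable_of_hasCompactSupport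
    apply HasCompactSupport.intro (Half2.isCompact_pre hφ.cpt.isCompact hφ.sub)
    intro z hz
    rw [image_eq_zero_of_notMem_tsupport (fun h => hz h), zero_mul]
  have hint2 : ∀ γ : SL(2, ℤ), Integrable fun w : ℍ =>
      ModularGroup.fdo.indicator (fun _ => (1 : ℝ)) (γ⁻¹ • w) * (φ w * F w) := by
    intro γ
    have hm : Measurable fun w : ℍ => ModularGroup.fdo.indicator (fun _ => (1 : ℝ)) (γ⁻¹ • w) :=
      (measurable_const.indicator X.measurableSet_fdo).comp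
        (measurePreserving_smul ((γ⁻¹ : SL(2, ℤ)) : GL (Fin 2) ℝ) (volume : Measure ℍ)).measurable
    refine hint.bdd_mul (c := 1) hm.aestronglyMeasurable (Eventually.of_forall fun w => ?_)
    by_cases h : γ⁻¹ • w ∈ ModularGroup.fdo
    · rw [indicator_of_mem h]
      simp
    · rw [indicator_of_notMem h]
      simp
  have hint3 : ∀ γ : SL(2, ℤ), IntegrableOn (fun z : ℍ => φ ((γ • z : ℍ) : ℂ) * F z)
      ModularGroup.fdo := by
    intro γ
    have h4 : Integrable fun z : ℍ => φ ((γ • z : ℍ) : ℂ) * F z := by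
      have h5 := (measurePreserving_smul (γ : GL (Fin 2) ℝ) (volume : Measure ℍ)).integrable_comp
        hint.aestronglyMeasurable
      have h6 := h5.mpr hint
      refine h6.congr (Eventually.of_forall fun z => ?_)
      have h2 : ((γ : GL (Fin 2) ℝ) • z : ℍ) = γ • z := rfl
      simp only [Function.comp, h2, hinv]
    exact h4.integrableOn
  have e1 : ∫ z in ModularGroup.fdo, av φ z * F z =
      ∫ z in ModularGroup.fdo, ∑ γ ∈ s, φ ((γ • z : ℍ) : ℂ) * F z := by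
    apply setIntegral_congr_fun X.measurableSet_fdo
    intro z hz
    simp only
    rw [av_eq_sum (hs z (hfd z hz).1 (hfd z hz).2), Finset.sum_mul]
  rw [e1, integral_finsetSum _ fun γ _ => hint3 γ,
    Finset.sum_congr rfl fun γ _ => term_eq φ hinv γ, ← integral_finsetSum _ fun γ _ => hint2 γ,
    ← integral_const_mul]
  apply integral_congr_ae
  filter_upwards [ae_two] with w hw
  obtain ⟨γ0, hγ0⟩ := hw
  by_cases hz : φ (w : ℂ) = 0
  · simp [hz]
  rw [← Finset.sum_mul]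
  congr 1
  have hmem : ∀ γ : SL(2, ℤ), γ = γ0 ∨ γ = -γ0 → γ ∈ s := by
    intro γ hγ
    have h1 := (hγ0 γ).mpr hγ
    refine hs (γ⁻¹ • w) (hfd _ h1).1 (hfd _ h1).2 γ ?_
    rw [smul_inv_smul]
    exact hz
  have h2 : ∑ γ ∈ s, ModularGroup.fdo.indicator (fun _ => (1 : ℝ)) (γ⁻¹ • w) =
      ∑ γ ∈ ({γ0, -γ0} : Finset SL(2, ℤ)),
        ModularGroup.fdo.indicator (fun _ => (1 : ℝ)) (γ⁻¹ • w) := by
    symm
    apply Finset.sum_subset
    · intro γ hγ
      rw [Finset.mem_insert, Finset.mem_singleton] at hγ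
      exact hmem γ hγ
    · intro γ _ hγ
      rw [Finset.mem_insert, Finset.mem_singleton] at hγ
      exact indicator_of_notMem (fun h => hγ ((hγ0 γ).mp h)) _
  have hne : γ0 ≠ -γ0 := by
    intro h
    have h3 := congrArg (fun γ : SL(2, ℤ) => γ.1 0 0) h
    have h4 := congrArg (fun γ : SL(2, ℤ) => γ.1 0 1) h
    have h5 := γ0.det_coe
    rw [Matrix.det_fin_two] at h5
    simp only [Matrix.SpecialLinearGroup.coe_neg, Matrix.neg_apply] at h3 h4
    have h6 : (γ0 0 0 : ℤ) = 0 := by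
      have : (γ0.1 0 0 : ℤ) = -γ0.1 0 0 := h3
      have h7 : (γ0.1 0 0 : ℤ) = 0 := by omega
      exact h7
    have h8 : (γ0 0 1 : ℤ) = 0 := by
      have : (γ0.1 0 1 : ℤ) = -γ0.1 0 1 := h4
      have h7 : (γ0.1 0 1 : ℤ) = 0 := by omega
      exact h7
    rw [h6, h8] at h5
    simp at h5
  rw [h2, Finset.sum_pair hne, indicator_of_mem ((hγ0 γ0).mpr (Or.inl rfl)),
    indicator_of_mem ((hγ0 (-γ0)).mpr (Or.inr rfl))]
  norm_num

end U1M

theorem stmtU1 : StmtU1 := by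
  intro φ hφ
  refine ⟨fun z => 1 / 2 * U1M.av φ z, ⟨?_, ?_, ?_⟩, fun F hF hinv => ?_⟩
  · have h := U1M.av_smooth hφ
    have h2 : ext (fun z => 1 / 2 * U1M.av φ z) = fun w => 1 / 2 * ext (U1M.av φ) w := rfl
    rw [h2]
    exact contDiffOn_const.mul h
  · intro γ z
    rw [U1M.av_inv]
  · obtain ⟨Y, hY⟩ := U1M.av_cusp hφ
    exact ⟨Y, fun z hz h => by rw [hY z hz h, mul_zero]⟩
  · have h := U1M.ident hφ hF hinv
    have h2 : ∫ z in ModularGroup.fdo, 1 / 2 * U1M.av φ z * F z =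
        1 / 2 * ∫ z in ModularGroup.fdo, U1M.av φ z * F z := by
      rw [← integral_const_mul]
      congr 1
      funext z
      ring
    rw [h2, h]
    ring

end

end Pool.Agent.A54.Pl
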