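import Pool.Agent.Lib.MP_a54f13_nt.Pl.Defs

/-!
# Package `Pl`: statements of the modules, with complete proofs in the doc comments

GOAL (helper3). For real normalised Hecke–Maass forms `f_i`, `t_i → ∞`, the following are equivalent:
(A) for all `ψ ∈ C_c^∞(X)`: `∫ ψ f_i² → ∫ ψ` and `∫ ψ f_i⁴ → 3 ∫ ψ` (cases `n = 2, 4`);
(B) for every compact `K` and all radii `r_i → 0` with `r_i t_i → ∞`:
    `∫_K (⨍_{ball z r_i} f_i² - 1)² dμ(z) → 0`;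
(C) for every compact `K` and `ε > 0` there is `R > 0` with
    `∫_K (⨍_{ball z (R / t_i)} f_i² - 1)² dμ(z) ≤ ε` for all large `i`.

Notation of the library: `V ⊆ ℂ` open, `Pot V q` potential, `Sol V q h f`: `f : ℂ → ℝ` smooth with
`h² Δ f = - q f` on `V`; `gg h f n = g_n = (h ∂)^n f`, `∂ = dz = ∂_x - i ∂_y`, `∂̄ = dzb`,
`ss q h f a = s_a`, `nn q h f n = N_n = |g_n|² / q^n` (so `N_0 = f²`), `sm h f n = ∑_{j ≤ n} |g_j|`,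
`Seq V q h f` sequence of solutions, `Sm V q h f r` sequence with weak limits `f_i g_n → r n`,
`L4Bdd V f`: fourth powers locally bounded, `TestR V φ`: real test function with support in `V`.
`LocGen.XX q h f (fun _ => 1) N = ∑_{n=1}^N N_n`, `LocGen.PP q r φ n = ∫ φ |r_n|² / q^n`.

Useful library lemmas: `Calc.lean` (rules for `dz`, `dzb`, `exists_cutoff`, `integral_mul_dzb`,
`norm_fderiv_le`), `Rel.lean` (`integrable_testR`, `bdd_of_le_sm`, `continuous_nn`, `nn_zero`,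
`test_bdd`, `contDiff_inv_pow`), `LocGen.lean` (`AA_lim`, `quad_lim`, `sum_tt`, `sum_LL`,
`odd_lim`, `cs`, `XX_weak`, `Seq.sub`, `Sm.sub`, `integrable_rho_sq`), `L4.lean` (weights),
`Dyn/RatioS.lean` (`pairSum_le`), `Pl/Defs.lean` (`lin`, `Ed`).

Every module: file `Pool/Agent/Lib/MP_a54f13_nt/Pl/<Name>.lean`, importing
`Pool.Agent.Lib.MP_a54f13_nt.Pl.Spec` and what is named in the task, private names in
`namespace Pool.Agent.A54.Pl.<Name>M`, final theorem `Pool.Agent.A54.Pl.stmt<Name>`.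
-/

set_option autoImplicit false

namespace Pool.Agent.A54.Pl

open MeasureTheory Filter Topology Set
open scoped ContDiff ComplexConjugate UpperHalfPlane MatrixGroups
open Pool.Agent.A54.Half (H0 qq ff hh)
open Pool.Agent.A54.LocGen (XX PP)

noncomputable section

/-! ### Averaging over discs (pure real analysis) -/

/-- **L1** change of variables: `w ↦ lin a u w` is linear with matrix (columns: images of `1`, `i`)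
`(1, 0), (a u₁, 1 + a u₂)`, determinant `1 + a u₂ ≥ 1/2`.
(`MeasureTheory.Measure.map_linearMap_addHaar_eq_smul_addHaar` or
`integral_comp_...`; `Complex.basisOneI` for the determinant.)
Second part: the inverse of `lin a u` is `lin (-a / (1 + a u₂)) u`. -/
def StmtL1 : Prop := ∀ (a : ℝ) (u : ℂ), |a| ≤ 1 / 2 → ‖u‖ ≤ 1 →
  (∀ w, lin (-a / (1 + a * u.im)) u (lin a u w) = w) ∧
  (∀ w, lin a u (lin (-a / (1 + a * u.im)) u w) = w) ∧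
  (∀ g : ℂ → ℝ, ∫ w, g (lin a u w) = (1 + a * u.im)⁻¹ * ∫ w, g w) ∧
  (∀ g : ℂ → ℝ, Integrable g → Integrable fun w => g (lin a u w))

/-- **E1** averages are bounded in `L²`. Proof. Let `K = tsupport φ`, `m` a bound for `|im z|` on `K`,
`ζ` a cutoff function equal to one on a closed `δ`-neighbourhood of `K` contained in `V` (compact),
`r0 = min (1/2) (δ / (m + 1))`. By Cauchy–Schwarz over the unit disc (area `π`)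
`‖Ed r W z‖² ≤ π⁻¹ ∫_{ball 0 1} ‖W (lin r u z)‖² du`. Exchange the integrals (everything is continuous;
for `z ∈ K`, `u ∈ ball 0 1` the point `lin r u z` is within `δ` of `z`, so `ζ (lin r u z) = 1`); for
fixed `u`, `∫ φ z ‖W (lin r u z)‖² dz ≤ sup φ ∫ (ζ² ‖W‖²) (lin r u z) dz ≤ 2 sup φ ∫ ζ² ‖W‖²` by `L1`. -/
def StmtE1 : Prop := ∀ V : Set ℂ, IsOpen V → V ⊆ H0 → ∀ φ : ℂ → ℝ, TestR V φ → (∀ z, 0 ≤ φ z) →
  ∃ (ζ : ℂ → ℝ) (C r0 : ℝ), TestR V ζ ∧ 0 ≤ C ∧ 0 < r0 ∧ ∀ r : ℝ, 0 < r → r ≤ r0 →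
    ∀ W : ℂ → ℂ, Continuous W → ∫ z, φ z * ‖Ed r W z‖ ^ 2 ≤ C * ∫ z, ζ z ^ 2 * ‖W z‖ ^ 2

/-- **E1k** the same for a bounded kernel: `A_k W z = ∫_{ball 0 1} k(u) W(lin r u z) du`, with the `L¹`
norm of the kernel. Proof. As for E1: `‖A_k W z‖² ≤ (∫ |k|) ∫ |k u| ‖W (lin r u z)‖² du`; `C = 2 sup φ`. -/
def StmtE1k : Prop := ∀ V : Set ℂ, IsOpen V → V ⊆ H0 → ∀ φ : ℂ → ℝ, TestR V φ → (∀ z, 0 ≤ φ z) →
  ∃ (ζ : ℂ → ℝ) (C r0 : ℝ), TestR V ζ ∧ 0 ≤ C ∧ 0 < r0 ∧ ∀ r : ℝ, 0 < r → r ≤ r0 →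
    ∀ W : ℂ → ℂ, Continuous W → ∀ k : ℂ → ℂ, Measurable k → (∃ B : ℝ, ∀ u, ‖k u‖ ≤ B) →
      ∫ z, φ z * ‖∫ u in Metric.ball (0 : ℂ) 1, k u * W (lin r u z)‖ ^ 2 ≤
        C * (∫ u in Metric.ball (0 : ℂ) 1, ‖k u‖) ^ 2 * ∫ z, ζ z ^ 2 * ‖W z‖ ^ 2

/-- **E2** averages of derivatives. Proof (from E1k, with its `ζ`, `C`, `r0`). Let `0 < s < 1` and `b` a
smooth bump function (`ContDiffBump (0 : ℂ)` with inner radius `s`, outer radius `1`), `0 ≤ b ≤ 1`,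
`b = 1` on `ball 0 s`, supported in `closedBall 0 1`. On `ball 0 1`, `1 = b + (1 - b)`, so
`Ed r (∂̄W) z = π⁻¹ ∫_{ball 0 1} b(u) (∂̄W)(lin r u z) du + π⁻¹ ∫_{ball 0 1} (1 - b(u)) (∂̄W)(lin r u z) du`.
Second term: E1k with the kernel `(1 - b)/π`, of `L¹` norm `≤ 1 - s²`; its contribution is at most
`2 C (1-s²)² ∫ ζ² ‖∂̄W‖²`. First term: with `ρ = r im z > 0`, `(∂̄W)(z + ρ u) = ρ⁻¹ ∂̄_u [W(z + ρ u)]`;
integrate by parts over `ℂ` (`integral_mul_dzb`; `b` has compact support): it equals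
`-(π ρ)⁻¹ ∫ (∂̄b)(u) W(lin r u z) du` (the integral over `ball 0 1`: `∂̄b = 0` outside the closed ball and
the sphere is a null set). On the support of `φ`, `im z ≥ m0 > 0`, so E1k with the kernel `∂̄b` bounds its
contribution by `2 (π m0 r)⁻² C (∫ ‖∂̄b‖)² ∫ ζ² ‖W‖²`. Choose `s` with `2 C (1-s²)² ≤ δ`. -/
def StmtE2 : Prop := ∀ V : Set ℂ, IsOpen V → V ⊆ H0 → ∀ φ : ℂ → ℝ, TestR V φ → (∀ z, 0 ≤ φ z) →
  ∃ (ζ : ℂ → ℝ) (r0 : ℝ), TestR V ζ ∧ 0 < r0 ∧ ∀ δ : ℝ, 0 < δ → ∃ C : ℝ, 0 ≤ C ∧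
    ∀ r : ℝ, 0 < r → r ≤ r0 → ∀ W : ℂ → ℂ, ContDiff ℝ ∞ W →
      ∫ z, φ z * ‖Ed r (dzb W) z‖ ^ 2 ≤
        C / r ^ 2 * (∫ z, ζ z ^ 2 * ‖W z‖ ^ 2) + δ * ∫ z, ζ z ^ 2 * ‖dzb W z‖ ^ 2

/-- **E3a** a shift changes a compactly supported smooth function little. Proof. Let `b = |a|`; if
`P(lin a u w) ≠ P(w)` then `w ∈ K` or `lin a u w ∈ K`, so `|im w| ≤ 2 m` (as
`im (lin a u w) = im w (1 + a u₂)`, `1 + a u₂ ≥ 1/2`). For such `w`,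
`|P(lin a u w) - P(w)| ≤ ∫_0^1 |a im w| ‖DP(lin (s a) u w)‖ ds` (derivative of `s ↦ P(lin (s a) u w)`),
so `|P(lin a u w) - P(w)|² ≤ 4 a² m² ∫_0^1 ‖DP(lin (s a) u w)‖² ds` for every `w`; integrate over `w`
(Fubini) and use `L1` (`(1 + s a u₂)⁻¹ ≤ 2`). -/
def StmtE3a : Prop := ∀ (a m : ℝ) (u : ℂ) (P : ℂ → ℝ), |a| ≤ 1 / 2 → ‖u‖ ≤ 1 →
  ContDiff ℝ ∞ P → HasCompactSupport P → (∀ z ∈ tsupport P, |z.im| ≤ m) →
    ∫ w, (P (lin a u w) - P w) ^ 2 ≤ 8 * a ^ 2 * m ^ 2 * ∫ w, ‖fderiv ℝ P w‖ ^ 2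

/-- **E3** averaging one factor. Proof. `K = tsupport φ`, `m ≥ |im|` on `K`, `ζ` a cutoff function equal to
one on a closed `δ`-neighbourhood of `K` in `V`, `r0 = min (1/4) (δ / (4 (m + 1)))`; `P = φ G`.
`∫ P · Ed r F = π⁻¹ ∫_{ball 0 1} (∫ P(z) F(lin r u z) dz) du` (Fubini, continuous and compactly supported).
For fixed `u`, `L1` (substitute `w = lin r u z`, `a' = -r/(1 + r u₂)`, `|a'| ≤ 2 r`):
`∫ P(z) F(lin r u z) dz = (1 + r u₂)⁻¹ ∫ P(lin a' u w) F(w) dw`, and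
`|(1 + r u₂)⁻¹ ∫ P(lin a' u w) F(w) dw - ∫ P F| ≤ 2 ∫ |P(lin a' u w) - P(w)| |F(w)| dw +
2 r ∫ |P F|`. The functions under the integrals vanish where `ζ ≠ 1`, so by Cauchy–Schwarz and E3a this
is `≤ 2 √(8 a'² m² ∫ ‖DP‖²) √(∫ ζ² F²) + 2 r √(∫ P²) √(∫ ζ² F²)`, and
`‖DP‖ ≤ sup |φ| ‖DG‖ + sup ‖Dφ‖ |G|` on `K`, where `ζ = 1`. -/
def StmtE3 : Prop := ∀ V : Set ℂ, IsOpen V → V ⊆ H0 → ∀ φ : ℂ → ℝ, TestR V φ →
  ∃ (ζ : ℂ → ℝ) (C r0 : ℝ), TestR V ζ ∧ 0 ≤ C ∧ 0 < r0 ∧ ∀ r : ℝ, 0 < r → r ≤ r0 →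
    ∀ F G : ℂ → ℝ, ContDiff ℝ ∞ F → ContDiff ℝ ∞ G →
      |(∫ z, φ z * (G z * Ed r F z)) - ∫ z, φ z * (G z * F z)| ≤
        C * r * √(∫ z, ζ z ^ 2 * F z ^ 2) *
          (√(∫ z, ζ z ^ 2 * ‖fderiv ℝ G z‖ ^ 2) + √(∫ z, ζ z ^ 2 * G z ^ 2))

/-! ### Relations for the quadratic quantities `N_n` -/

/-- **S1** the sums `N_1 + ... + N_N` are almost constant at the scale `h`, uniformly in `N`.
Proof. As complex functions `N_n = (-1)^n s_n s_{-n}`; by `StmtErrZ`,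
`h ∂ N_n = (-1)^n (s_{n+1} s_{-n} + s_n s_{1-n}) + err = T_{n+1} - T_n + err`, where
`T_n = (-1)^(n-1) s_n s_{1-n}` and `|err| ≤ h C_n sm_{n+1}²` on compact sets; sum over `1 ≤ n ≤ N`:
`h ∂ XX_N = T_{N+1} - T_1 + err`. For a real function `‖fderiv ℝ F z‖ ≤ ‖dz F z‖`.
`|T_n|² = |g_n|² |g_{n-1}|² / q^{2(n-1)} = q N_n N_{n-1}`, so
`∫ ζ² |T_n|² = AA q h f (ζ² q) n (n-1) = (1/3) ∫ ζ² q f⁴ + o(1)` (`LocGen.odd_lim`), which is bounded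
by a constant independent of `n` for large `i` (`L4Bdd`). The error has
`∫ ζ² err² ≤ h² C_N' ∫ ζ² sm_{N+1}⁴ → 0` (`StmtL4`). -/
def StmtS1 : Prop := ∀ (V : Set ℂ) (q : ℂ → ℝ) (h : ℕ → ℝ) (f : ℕ → ℂ → ℝ) (r : ℕ → ℂ → ℂ),
  Sm V q h f r → L4Bdd V f → ∀ ζ : ℂ → ℝ, TestR V ζ → ∃ C : ℝ, 0 ≤ C ∧ ∀ N : ℕ, ∀ᶠ i in atTop,
    ∫ z, ζ z ^ 2 * (h i * ‖fderiv ℝ (XX q (h i) (f i) (fun _ => 1) N) z‖) ^ 2 ≤ C

/-- **S2** `N_n - N_0` is a derivative. Proof. `W_i = ∑_{j < n} q^{-(j+1)} g_{j+1} conj g_j`: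
`h ∂̄ (q^{-(j+1)} g_{j+1} conj g_j) = q^{-(j+1)} ((h ∂̄ g_{j+1}) conj g_j + g_{j+1} conj (h ∂ g_j))
+ h ∂̄(q^{-(j+1)}) g_{j+1} conj g_j`, `h ∂ g_j = g_{j+1}`, `h ∂̄ g_{j+1} = - q g_j + err`
(`StmtErr`, `|err| ≤ h C sm`), so it is `N_{j+1} - N_j + O(h sm²)` on compact subsets of `V`.
All bounds by `StmtL4` (`bdd_of_le_sm`). -/
def StmtS2 : Prop := ∀ (V : Set ℂ) (q : ℂ → ℝ) (h : ℕ → ℝ) (f : ℕ → ℂ → ℝ), Seq V q h f →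
  L4Bdd V f → ∀ n : ℕ, ∃ W : ℕ → ℂ → ℂ, (∀ i, ContDiff ℝ ∞ (W i)) ∧
    ∀ ζ : ℂ → ℝ, TestR V ζ → ∃ C : ℝ, ∀ i,
      ∫ z, ζ z ^ 2 * ‖W i z‖ ^ 2 ≤ C ∧
      ∫ z, ζ z ^ 2 * ‖(h i : ℂ) * dzb (W i) z‖ ^ 2 ≤ C ∧
      ∫ z, ζ z ^ 2 * ‖((nn q (h i) (f i) n z - nn q (h i) (f i) 0 z : ℝ) : ℂ) -
        (h i : ℂ) * dzb (W i) z‖ ^ 2 ≤ C * h i ^ 2

/-- **Q1** Proof: sum `LocGen.AA_lim` over the pairs `(0, n)`, `1 ≤ n ≤ 2M` (`N_0 = f²`):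
`∑ tt 0 n = 4M/3`, `∑ LL P 0 n = ∑_{n even} (2 P n - 2 P 0)`. -/
def StmtQ1 : Prop := ∀ (V : Set ℂ) (q : ℂ → ℝ) (h : ℕ → ℝ) (f : ℕ → ℂ → ℝ) (r : ℕ → ℂ → ℂ),
  Sm V q h f r → L4Bdd V f → ∀ φ : ℂ → ℝ, TestR V φ → ∀ M : ℕ,
    Tendsto (fun i => (∫ z, φ z * (f i z ^ 2 * XX q (h i) (f i) (fun _ => 1) (2 * M) z)) -
      4 / 3 * M * ∫ z, φ z * f i z ^ 4) atTop
      (𝓝 (2 * ∑ k ∈ Finset.Icc 1 M, PP q r φ (2 * k) - 2 * M * PP q r φ 0))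

/-! ### The flat theorems -/

/-- **T1** (A) implies (B), flat version. Proof. If not, there are `φ`, `ε > 0` and a subsequence along
which the integral is `≥ ε`; by `StmtComp` we may assume `Sm V q h f r` for a further subsequence
(`Seq.sub`, `NAloc` is inherited). The second hypothesis gives `r 0 = 1` almost everywhere on `V`
(`IsOpen.ae_eq_zero_of_integral_contDiff_smul_eq_zero`), so `PP q r w 0 = ∫ w` for test functions `w`.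
Let `ζ, C` be as in E1 for `φ` (and `ζ₂` as in E2; take one cutoff dominating both), `F_i = f_i²`,
`S_N = XX_N / N`, `N = 2M`. Write `F - 1 = (S_N - 1) - (1/N) ∑_{n=1}^N (N_n - N_0)`, hence
`∫ φ (Ed F - 1)² ≤ 2 ∫ φ (Ed (S_N - 1))² + (2/N) ∑_n ∫ φ ‖Ed (N_n - N_0)‖²`. By S2, E1, E2
`∫ φ ‖Ed(N_n - N_0)‖² ≤ 2 ∫ φ ‖Ed(h ∂̄W)‖² + 2 C C' h² ≤ C_δ (h/ρ)² + 2 δ C' + 2 C C' h²`, so its
upper limit is `0` (`δ` is arbitrary). By E1, `∫ φ (Ed (S_N - 1))² ≤ C ∫ ζ² (S_N - 1)²`, and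
`∫ ζ² (S_N-1)² → (4M²)⁻¹ (8/3 M² · 3 ∫ ζ² + pairSum (PP q r ζ²) (2M) - 4 M² ∫ ζ²) - 2 ∫ ζ² + ∫ ζ²
= pairSum (PP q r ζ²) (2M) / (4 M²)` (`quad_lim`, `sum_tt`, `sum_LL`, `XX_weak` with `rho = 1`), which tends
to `0` as `M → ∞` by `RatioSM.pairSum_le` and `NAloc`. Contradiction. -/
def StmtT1 : Prop := ∀ (V : Set ℂ) (q : ℂ → ℝ) (h : ℕ → ℝ) (f : ℕ → ℂ → ℝ), V ⊆ H0 →
  Seq V q h f → L4Bdd V f → Dyn.NAloc V q h f →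
  (∀ φ : ℂ → ℝ, TestR V φ → Tendsto (fun i => ∫ z, φ z * f i z ^ 2) atTop (𝓝 (∫ z, φ z))) →
  (∀ φ : ℂ → ℝ, TestR V φ → Tendsto (fun i => ∫ z, φ z * f i z ^ 4) atTop (𝓝 (3 * ∫ z, φ z))) →
  ∀ ρ : ℕ → ℝ, (∀ i, 0 < ρ i) → Tendsto ρ atTop (𝓝 0) → Tendsto (fun i => h i / ρ i) atTop (𝓝 0) →
  ∀ φ : ℂ → ℝ, TestR V φ → (∀ z, 0 ≤ φ z) →
    Tendsto (fun i => ∫ z, φ z * (Ed (ρ i) (fun w => f i w ^ 2) z - 1) ^ 2) atTop (𝓝 0)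

/-- **T2a** `f_i² → 1` weakly, from (C). Proof. Let first `φ ≥ 0`, `ε > 0`, `R, ρ` as in the hypothesis;
`F = f_i²`. `∫ φ F - ∫ φ = (∫ φ F - ∫ φ Ed F) + ∫ φ (Ed F - 1)`; the first term tends to zero by E3 with
`G = 1` (`ρ_i ≤ R h_i → 0`, `∫ ζ² f⁴` bounded by `L4Bdd`, since `ζ² ≤ C ζ'⁴` for a cutoff `ζ'`), the second is
at most `√(∫ φ) √(∫ φ (Ed F - 1)²) ≤ √(∫ φ) √ε`. General `φ`: `φ = (φ + C ζ) - C ζ` with a cutoff `ζ`. -/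
def StmtT2a : Prop := ∀ (V : Set ℂ) (q : ℂ → ℝ) (h : ℕ → ℝ) (f : ℕ → ℂ → ℝ), V ⊆ H0 →
  Seq V q h f → L4Bdd V f →
  (∀ φ : ℂ → ℝ, TestR V φ → (∀ z, 0 ≤ φ z) → ∀ ε : ℝ, 0 < ε → ∃ (R : ℝ) (ρ : ℕ → ℝ),
    ∀ᶠ i in atTop, 0 < ρ i ∧ ρ i ≤ R * h i ∧
      ∫ z, φ z * (Ed (ρ i) (fun w => f i w ^ 2) z - 1) ^ 2 ≤ ε) →
  ∀ φ : ℂ → ℝ, TestR V φ → Tendsto (fun i => ∫ z, φ z * f i z ^ 2) atTop (𝓝 (∫ z, φ z))

/-- **T2b** upper bound for the fourth moment along a sequence with weak limits, from (C). Proof. Here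
`φ ≥ 0`, `F = f_i²`, `m4 = lim ∫ φ f_i⁴`. By the hypothesis and T2a, `r 0 = 1` a.e. on `V` and
`PP q r φ 0 = ∫ φ`. Let `N = 2M`, `S = XX_N / N`. By Q1, and `PP ≥ 0`,
`lim ∫ φ F S ≥ (2/3) m4 - ∫ φ`. Let `ε > 0` and `R, ρ` as in the hypothesis. By E3 (`G = S`) and S1
`|∫ φ S Ed F - ∫ φ S F| ≤ C ρ_i √(∫ζ²F²) (h_i⁻¹ √(C₁)/N + √(∫ζ²S²))`, and `ρ_i ≤ R h_i`, so its upper
limit is `≤ C R C' / N`. Moreover `∫ φ S Ed F = ∫ φ S + ∫ φ S (Ed F - 1)`, `∫ φ S → ∫ φ` (`XX_weak`),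
`|∫ φ S (Ed F - 1)| ≤ √(∫ φ S²) √ε` and `lim ∫ φ S² ≤ (2/3) m4 + 2 PP 0` for all `M`
(`quad_lim`, `sum_tt`, `sum_LL`, `pairSum P (2M) ≤ 2 (2M)² P 0`, by `StmtIneq`). Hence
`(2/3) m4 - ∫ φ ≤ ∫ φ + C'' √ε + C R C'/N` for all `M`; `M → ∞`, `ε → 0`. -/
def StmtT2b : Prop := ∀ (V : Set ℂ) (q : ℂ → ℝ) (h : ℕ → ℝ) (f : ℕ → ℂ → ℝ) (r : ℕ → ℂ → ℂ), V ⊆ H0 →
  Sm V q h f r → L4Bdd V f →
  (∀ φ : ℂ → ℝ, TestR V φ → (∀ z, 0 ≤ φ z) → ∀ ε : ℝ, 0 < ε → ∃ (R : ℝ) (ρ : ℕ → ℝ),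
    ∀ᶠ i in atTop, 0 < ρ i ∧ ρ i ≤ R * h i ∧
      ∫ z, φ z * (Ed (ρ i) (fun w => f i w ^ 2) z - 1) ^ 2 ≤ ε) →
  ∀ φ : ℂ → ℝ, TestR V φ → (∀ z, 0 ≤ φ z) → ∀ m4 : ℝ,
    Tendsto (fun i => ∫ z, φ z * f i z ^ 4) atTop (𝓝 m4) → m4 ≤ 3 * ∫ z, φ z

/-- **T2** (C) implies (A), flat version. Proof. The first part is T2a. Second part: let first `φ ≥ 0`. If
`∫ φ f_i⁴` does not tend to `3 ∫ φ`, then (it is bounded by `L4Bdd`) along a subsequence it tends to some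
`m4 ≠ 3 ∫ φ`; by `StmtComp` a further subsequence satisfies `Sm`, so `m4 ≤ 3 ∫ φ` by T2b (its hypothesis is
inherited by subsequences); `StmtRatioS` (with `L2Bdd` from `L4Bdd` by Cauchy–Schwarz, `NAloc`) gives
`3 (∫ φ)² ≤ (∫ φ) m4`, so `m4 ≥ 3 ∫ φ` if `∫ φ > 0`; if `∫ φ = 0` then `φ = 0`. General `φ`:
`φ = (φ + C ζ) - C ζ`. -/
def StmtT2 : Prop := ∀ (V : Set ℂ) (q : ℂ → ℝ) (h : ℕ → ℝ) (f : ℕ → ℂ → ℝ), V ⊆ H0 →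
  Seq V q h f → L4Bdd V f → Dyn.NAloc V q h f →
  (∀ φ : ℂ → ℝ, TestR V φ → (∀ z, 0 ≤ φ z) → ∀ ε : ℝ, 0 < ε → ∃ (R : ℝ) (ρ : ℕ → ℝ),
    ∀ᶠ i in atTop, 0 < ρ i ∧ ρ i ≤ R * h i ∧
      ∫ z, φ z * (Ed (ρ i) (fun w => f i w ^ 2) z - 1) ^ 2 ≤ ε) →
  (∀ φ : ℂ → ℝ, TestR V φ → Tendsto (fun i => ∫ z, φ z * f i z ^ 2) atTop (𝓝 (∫ z, φ z))) ∧
  ∀ φ : ℂ → ℝ, TestR V φ → Tendsto (fun i => ∫ z, φ z * f i z ^ 4) atTop (𝓝 (3 * ∫ z, φ z))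

/-- **T3** the fourth moment is bounded by the mean square of the mass in discs of radius `≈ h`. Proof.
`L4.one_centre` with `n = 0` gives `ζ'`, `C₃` with
`h² ∫ ζ⁴ wt⁴ f⁴ ≤ C₃ (∫ ζ'² wt² f²)²` for the weights `wt = L4.wt h x0`, every `x0`. Let
`m0 > 0` be a lower bound of `im` on `tsupport ζ'`, `c = m0/2`, `δ > 0` such that the closed
`δ`-neighbourhood of `tsupport ζ'` is compact in `V`, `φ ≥ 0` a test function equal to one on it, `h` so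
small that `c ρ ≤ δ`, `ρ ≤ 1`. For `z ∈ tsupport ζ'` and `|w - z| < c ρ`: `im w ≥ c`, so
`|z - w| < ρ im w`, i.e. `z` lies in the disc of `Ed ρ · w`. Average over `w ∈ ball z (c ρ)` (area
`π c² ρ²`): `ζ'(z)² wt(z)² f(z)² ≤ (π c² ρ²)⁻¹ ∫ dw 1(|w-z| < cρ) ζ'(z)² wt(z)² f(z)²`, and
`wt(z)² ≤ C_R wt(w)²` if `|z - w| ≤ c ρ ≤ 4 c R h` (`1 + |y'|² ≤ 2 (1 + |y-y'|²)(1 + |y|²)`). Fubini:
`∫ ζ'² wt² f² ≤ C (ρ²)⁻¹ ∫ dw φ(w)^{1/2} wt(w)² ∫_{|z-w| < ρ im w} f(z)² dz ≤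
C' ∫ φ(w)^{1/2} wt(w)² Ed ρ f² (w) dw` (use a cutoff `φ₁ ≥ 0` and `φ = φ₁²`), then Cauchy–Schwarz:
`(...)² ≤ C'² (∫ wt²) ∫ wt(w)² φ(w) (Ed ρ f² w)² dw`. Integrate over `x0 ∈ ℂ` as at the end of `L4.lean`
(`integral_conv`, `integral_scale`): `h⁴ c₂ ∫ ζ⁴ f⁴ ≤ C'' (h² c₁)(h² c₁) ∫ φ (Ed ρ f²)²`. -/
def StmtT3 : Prop := ∀ (V : Set ℂ) (q : ℂ → ℝ), V ⊆ H0 → Pot V q → ∀ ζ : ℂ → ℝ, TestR V ζ →
  ∃ φ : ℂ → ℝ, TestR V φ ∧ (∀ z, 0 ≤ φ z) ∧ ∀ R : ℝ, 0 < R → ∃ C h0 : ℝ, 0 ≤ C ∧ 0 < h0 ∧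
    ∀ (h : ℝ) (f : ℂ → ℝ) (ρ : ℝ), Sol V q h f → h ≤ h0 → R * h ≤ ρ → ρ ≤ 4 * R * h →
      ∫ z, ζ z ^ 4 * f z ^ 4 ≤ C * ∫ z, φ z * (Ed ρ (fun w => f w ^ 2) z) ^ 2

/-! ### Hyperbolic balls -/

/-- **G0** the hyperbolic ball with centre `z` and radius `r` is the Euclidean disc with centre
`c = z.center r = x + i y cosh r` and radius `y sinh r = tanh r · im c` (`UpperHalfPlane.image_coe_ball`),
on which `y e^{-r} ≤ im ≤ y e^{r}`. The volume is `dx dy / im²` (`stmtInt` in `IntLap.lean`, applied to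
indicator functions), so with the substitution `w = lin (tanh r) u c` the mean is the quotient of
`∫_{ball 0 1} ext F (lin (tanh r) u c) / im(lin (tanh r) u c)² du` and
`∫_{ball 0 1} im(lin (tanh r) u c)^{-2} du`; hence it is between `e^{-4r}` and `e^{4r}` times
`Ed (tanh r) (ext F) c`, and continuous in `z` (parametric integrals over the closed unit disc). -/
def StmtG0 : Prop := ∀ F : ℍ → ℝ, Continuous F →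
  (∀ r : ℝ, 0 < r → Continuous fun z : ℍ => mean F z r) ∧
  ((∀ z, 0 ≤ F z) → ∀ (z : ℍ) (r : ℝ), 0 < r →
    Real.exp (-4 * r) * Ed (Real.tanh r) (ext F) ((z.center r : ℍ) : ℂ) ≤ mean F z r ∧
    mean F z r ≤ Real.exp (4 * r) * Ed (Real.tanh r) (ext F) ((z.center r : ℍ) : ℂ))

/-- **G1** Proof. `Y = mean F z r`, `X = Ed (tanh r) (ext F) c(z)`: by G0
`|Y - 1| ≤ e^{4r} |X - 1| + (e^{4r} - 1)`, so `(Y-1)² ≤ C (X-1)² + C r²` for `r ≤ r0 = 1`. Then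
`∫_K g(c(z)) dμ(z) = cosh r ∫_{K_r} g(w) dw / (im w)²` with `K_r = {x + i y cosh r : x + i y ∈ K}`
(`y' = y cosh r`, `dx dy / y² = cosh r dx dy' / y'²`), and all `K_r`, `0 ≤ r ≤ 1`, are contained in one
compact subset of `H0`, on which a suitable test function `φ ≥ 0` is `≥ 1`. -/
def StmtG1 : Prop := ∀ K : Set ℍ, IsCompact K → ∃ (φ : ℂ → ℝ) (C r0 : ℝ), TestR H0 φ ∧
  (∀ z, 0 ≤ φ z) ∧ 0 ≤ C ∧ 0 < r0 ∧ ∀ r : ℝ, 0 < r → r ≤ r0 → ∀ F : ℍ → ℝ, Continuous F →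
    (∀ z, 0 ≤ F z) → ∫ z in K, (mean F z r - 1) ^ 2 ≤
      C * (∫ z : ℂ, φ z * (Ed (Real.tanh r) (ext F) z - 1) ^ 2) + C * r ^ 2

/-- **G2** Proof: as G1, with `|X - 1| ≤ e^{4r} |Y - 1| + (e^{4r} - 1)` and the inverse substitution
`z = x' + i y' / cosh r`; `K` a compact set containing all `x' + i y'/cosh r`, `x' + i y' ∈ tsupport φ`,
`0 ≤ r ≤ 1`. -/
def StmtG2 : Prop := ∀ φ : ℂ → ℝ, TestR H0 φ → (∀ z, 0 ≤ φ z) → ∃ (K : Set ℍ) (C r0 : ℝ),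
  IsCompact K ∧ 0 ≤ C ∧ 0 < r0 ∧ ∀ r : ℝ, 0 < r → r ≤ r0 → ∀ F : ℍ → ℝ, Continuous F →
    (∀ z, 0 ≤ F z) → ∫ z : ℂ, φ z * (Ed (Real.tanh r) (ext F) z - 1) ^ 2 ≤
      C * (∫ z in K, (mean F z r - 1) ^ 2) + C * r ^ 2

/-! ### The modular surface -/

/-- **U1** unfolding. Proof. `ψ(z) = (1/2) ∑_{γ ∈ SL(2, ℤ)} φ(γ z)` (`finsum`). For `K = tsupport φ` and `K'`
compact in `ℍ` the set `{γ : γ K' ∩ K ≠ ∅}` is finite: `im (γ z) = im z / |c z + d|²` bounded below bounds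
`(c, d)`, and for fixed `(c, d)` the elements differ by translations `T^n`, bounded by the real part (see
`Dyn/LB.lean` for similar arguments). So `ψ` is locally a finite sum of smooth functions, invariant
(reindex), and vanishes at `z ∈ fd` with `im z > Y`: if `c ≠ 0` then `im γ z ≤ 1 / im z < inf im K`, if
`c = 0` then `im γ z = im z > sup im K`. Identity: for almost every `w ∈ ℍ` there are exactly two `γ` with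
`γ⁻¹ w ∈ fdo` (`ModularGroup.exists_smul_mem_fd`; the boundary of `fd` is a null set and `SL(2, ℤ)` is
countable; `ModularGroup.eq_smul_self_of_mem_fdo_mem_fdo`, then `γ = ± 1`), so
`2 ∫ φ F = ∑_γ ∫_{γ fdo} φ F = ∑_γ ∫_{fdo} φ(γ z) F(z) dμ = 2 ∫_{fdo} ψ F` (finite sum: only finitely many
`γ` with `γ fdo ∩ K ≠ ∅`; the measure is invariant). -/
def StmtU1 : Prop := ∀ φ : ℂ → ℝ, TestR H0 φ → ∃ ψ : ℍ → ℝ, TestX ψ ∧ ∀ F : ℍ → ℝ, Continuous F →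
  (∀ (γ : SL(2, ℤ)) (z : ℍ), F (γ • z) = F z) →
    ∫ z : ℍ, φ z * F z = ∫ z in ModularGroup.fdo, ψ z * F z

/-- **U2** Proof. Let `ψ ∈ TestX`, `B = sup |ψ|` on `fd` (finite: `ψ` vanishes high in the cusp), `ε > 0`.
The set `fdo ∩ {ψ ≠ 0}` is contained in the compact set `T = truncatedFundamentalDomain Y`. As in
`X2.lean`/`Dyn/X3.lean` choose a compact `K ⊆ O` (the open fundamental domain) and a cutoff
`χ` (TestR O, `0 ≤ χ ≤ 1`, `χ = 1` near `K`) such that `μ(T \ int K)` is small: then the compact set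
`T \ {χ = 1}°` has small measure, so there is `Θ` (TestR H0, `0 ≤ Θ ≤ B`) with `Θ ≥ B` on it and
`∫_ℍ Θ ≤ ε` (outer regularity, `exists_cutoff`). Then
`|∫_{fdo} ψ F - ∫_ℍ χ ψ F| = |∫_{fdo} (1-χ) ψ F| ≤ ∫_ℍ Θ F_i → c ∫ Θ ≤ |c| ε`, and
`∫_ℍ χ ψ F_i → c ∫_ℍ χ ψ`, `|∫_{fdo} ψ - ∫ χ ψ| ≤ ε`. -/
def StmtU2 : Prop := ∀ (F : ℕ → ℍ → ℝ) (c : ℝ), (∀ i, Continuous (F i)) → (∀ i z, 0 ≤ F i z) →
  (∀ φ : ℂ → ℝ, TestR H0 φ → Tendsto (fun i => ∫ z : ℍ, φ z * F i z) atTop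
    (𝓝 (c * ∫ z : ℍ, φ z))) →
  ∀ ψ : ℍ → ℝ, TestX ψ → Tendsto (fun i => ∫ z in ModularGroup.fdo, ψ z * F i z) atTop
    (𝓝 (c * ∫ z in ModularGroup.fdo, ψ z))

/-! ### Conclusion -/

/-- (A) the cases `n = 2` and `n = 4` -/
def CondA (f : ℕ → ℍ → ℝ) : Prop := ∀ ψ : ℍ → ℝ, TestX ψ →
  Tendsto (fun i => ∫ z in ModularGroup.fdo, ψ z * f i z ^ 2) atTop
    (𝓝 (∫ z in ModularGroup.fdo, ψ z)) ∧
  Tendsto (fun i => ∫ z in ModularGroup.fdo, ψ z * f i z ^ 4) atTop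
    (𝓝 (3 * ∫ z in ModularGroup.fdo, ψ z))

/-- (A) on the half-plane -/
def CondH (f : ℕ → ℍ → ℝ) : Prop := ∀ φ : ℂ → ℝ, TestR H0 φ →
  Tendsto (fun i => ∫ z : ℍ, φ z * f i z ^ 2) atTop (𝓝 (∫ z : ℍ, φ z)) ∧
  Tendsto (fun i => ∫ z : ℍ, φ z * f i z ^ 4) atTop (𝓝 (3 * ∫ z : ℍ, φ z))

/-- (B) mass equidistribution in mean square at all scales above the wavelength -/
def CondB (f : ℕ → ℍ → ℝ) (t : ℕ → ℝ) : Prop := ∀ K : Set ℍ, IsCompact K → ∀ r : ℕ → ℝ,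
  (∀ i, 0 < r i) → Tendsto r atTop (𝓝 0) → Tendsto (fun i => r i * t i) atTop atTop →
    Tendsto (fun i => ∫ z in K, (mean (fun w => f i w ^ 2) z (r i) - 1) ^ 2) atTop (𝓝 0)

/-- (C) the same at the scales `R / t` -/
def CondC (f : ℕ → ℍ → ℝ) (t : ℕ → ℝ) : Prop := ∀ K : Set ℍ, IsCompact K → ∀ ε : ℝ, 0 < ε →
  ∃ R : ℝ, 0 < R ∧ ∀ᶠ i in atTop,
    ∫ z in K, (mean (fun w => f i w ^ 2) z (R / t i) - 1) ^ 2 ≤ ε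

/-- **FB** (A) on the half-plane implies (B). Proof. `K`, `r` given; G1 gives `φ, C, r0`; `Half.setup` gives
`χ, V` with `χ = 1` on `V`, `tsupport φ ⊆ V`. For `i ≥ N`: `Half2.seq` gives
`Seq V (qq χ) (hh (t (i+N))) (ff χ (f (i+N)))`; `L4Bdd` by `Half.l4` (from the boundedness of
`∫ φ' f_i⁴`, `φ' ≥ 1_K`); `NAloc` by `Dyn.Half3M.naloc`; the two convergence hypotheses of T1 from `CondH`
(test function `φ · im²`, `Half.int_eq`); `ρ_i = tanh (r_{i+N})`, `h_i / ρ_i → 0` since `h t → 1`,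
`tanh r ≥ r/2` for `r ≤ 1`. T1 gives `∫ φ (Ed ρ_i ((ff χ f_i)²) - 1)² → 0`; for small `ρ_i` the discs of
`Ed` with centre in `tsupport φ` lie in `V`, where `ff χ f = ext f`, so G1 applies. -/
def StmtFB : Prop := ∀ (f : ℕ → ℍ → ℝ) (t : ℕ → ℝ), (∀ i, IsHeckeMaass (f i) (t i)) →
  Tendsto t atTop atTop → CondH f → CondB f t

/-- **BC** (B) implies (C). Proof. If (C) fails for `K, ε`, then for every `k ≥ 1` the integral with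
`R = k` is `> ε` for infinitely many `i`; choose `i_1 < i_2 < ...` with `t_{i_k} ≥ k²` and the integral with
`R = k`, `i = i_k` greater than `ε`; put `r_{i_k} = k / t_{i_k}` and `r_i = t_i^{-1/2}` (or `1/(i+1)` if
`t_i ≤ 0`) for the other `i`; then `r → 0`, `r t → ∞`, contradiction to (B). -/
def StmtBC : Prop := ∀ (f : ℕ → ℍ → ℝ) (t : ℕ → ℝ), (∀ i, 0 < t i) →
  Tendsto t atTop atTop → CondB f t → CondC f t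

/-- **FC** (C) implies (A) on the half-plane. Proof. `φ ∈ TestR H0` given; `χ, V` from `Half.setup`, `Seq` as
in FB. First `L4Bdd V`: let `ζ ∈ TestR V`; T3 gives `φ₃`; G2 for `φ₃` gives `K`; (C) with `ε = 1` gives `R`;
for large `i`, `ρ_i = tanh (R/t_i)` satisfies `(R/2) h_i ≤ ρ_i ≤ 2 R h_i`; `(Ed)² ≤ 2 (Ed - 1)² + 2`, so
`∫ ζ⁴ f⁴ ≤ C` for all large `i`, and for the finitely many other `i` by continuity. (The discs with centre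
in `tsupport φ₃` lie in `V` for small `ρ`, where `ff χ f = ext f`.) `NAloc` as in FB. Hypothesis of T2: for
`φ' ∈ TestR V`, `φ' ≥ 0`, `ε`: G2 gives `K, C`; (C) with `ε / (2C+1)`. T2 gives the conclusion for
`ff χ f_i` and test functions in `V`; translate by `Half.int_eq` (`φ · im⁻²`). -/
def StmtFC : Prop := ∀ (f : ℕ → ℍ → ℝ) (t : ℕ → ℝ), (∀ i, IsHeckeMaass (f i) (t i)) →
  Tendsto t atTop atTop → CondC f t → CondH f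

end

end Pool.Agent.A54.Pl
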