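import Pool.Agent.Lib.MP_a54f13_nt.Pl.Spec
import Pool.Agent.Lib.MP_a54f13_nt.Rel

/-!
# T2: (C) implies (A), flat version
-/

set_option autoImplicit false

namespace Pool.Agent.A54.Pl.T2M

open MeasureTheory Filter Topology Set
open scoped ContDiff ComplexConjugate
open Pool.Agent.A54.Rel Pool.Agent.A54.LocGen
open Pool.Agent.A54.Half (H0)

noncomputable section

variable {V : Set ℂ} {q : ℂ → ℝ} {h : ℕ → ℝ} {f : ℕ → ℂ → ℝ} {r : ℕ → ℂ → ℂ}

/-- the fourth moments against a nonnegative test function are bounded -/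
lemma four_bdd (hV : IsOpen V) (hfc : ∀ i, Continuous (f i)) (hB : L4Bdd V f) {φ : ℂ → ℝ}
    (hφ : TestR V φ) : ∃ C : ℝ, ∀ i, ∫ z, φ z * f i z ^ 4 ≤ C := by
  obtain ⟨ζ, hζ, hζ01, hζ1⟩ := exists_cutoff hφ.cpt.isCompact hV hφ.sub
  obtain ⟨B, hB⟩ := hB ζ hζ
  obtain ⟨Z, hZ0, hZ⟩ := test_bdd hφ
  refine ⟨Z * B, fun i => ?_⟩
  have j2 : Integrable (fun z => Z * (ζ z ^ 4 * f i z ^ 4)) := by
    have h1 : HasCompactSupport (fun z => ζ z ^ 4) :=
      hζ.cpt.comp_left (g := fun x : ℝ => x ^ 4) (by simp)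
    exact (((hζ.smooth.continuous.pow 4).mul ((hfc i).pow 4)).integrable_of_hasCompactSupport
      h1.mul_right).const_mul _
  calc ∫ z, φ z * f i z ^ 4 ≤ ∫ z, Z * (ζ z ^ 4 * f i z ^ 4) := by
        refine integral_mono (integrable_testR hφ ((hfc i).pow 4)) j2 fun z => ?_
        have h4 : 0 ≤ f i z ^ 4 := by positivity
        by_cases hz : z ∈ tsupport φ
        · have e1 : ζ z = 1 := hζ1.self_of_nhdsSet z hz
          have e2 := mul_le_mul_of_nonneg_right ((le_abs_self _).trans (hZ z)) h4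
          simp only [e1, one_pow, one_mul]
          exact e2
        · simp only [image_eq_zero_of_notMem_tsupport hz, zero_mul]
          positivity
    _ = Z * ∫ z, ζ z ^ 4 * f i z ^ 4 := integral_const_mul _ _
    _ ≤ _ := mul_le_mul_of_nonneg_left (hB i) hZ0

/-- boundedness of the second moments -/
lemma l2 (hV : IsOpen V) (hfc : ∀ i, Continuous (f i)) (hB : L4Bdd V f) : L2Bdd V f := by
  intro ζ hζ
  obtain ⟨χ, hχ, hχ01, hχ1⟩ := exists_cutoff hζ.cpt.isCompact hV hζ.sub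
  obtain ⟨C, hC⟩ := hB ζ hζ
  refine ⟨C + ∫ z, χ z, fun i => ?_⟩
  have j1 : Integrable (fun z => ζ z ^ 2 * f i z ^ 2) := by
    have h1 : HasCompactSupport (fun z => ζ z ^ 2) :=
      hζ.cpt.comp_left (g := fun x : ℝ => x ^ 2) (by simp)
    exact ((hζ.smooth.continuous.pow 2).mul ((hfc i).pow 2)).integrable_of_hasCompactSupport
      h1.mul_right
  have j2 : Integrable (fun z => ζ z ^ 4 * f i z ^ 4) := by
    have h1 : HasCompactSupport (fun z => ζ z ^ 4) :=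
      hζ.cpt.comp_left (g := fun x : ℝ => x ^ 4) (by simp)
    exact ((hζ.smooth.continuous.pow 4).mul ((hfc i).pow 4)).integrable_of_hasCompactSupport
      h1.mul_right
  calc ∫ z, ζ z ^ 2 * f i z ^ 2 ≤ ∫ z, (ζ z ^ 4 * f i z ^ 4 + χ z) := by
        refine integral_mono j1 (j2.add hχ.integrable) fun z => ?_
        by_cases hz : z ∈ tsupport ζ
        · have e1 : χ z = 1 := hχ1.self_of_nhdsSet z hz
          have e2 : 0 ≤ (ζ z ^ 2 * f i z ^ 2 - 1) ^ 2 := sq_nonneg _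
          have e3 : 0 ≤ ζ z ^ 2 * f i z ^ 2 := by positivity
          simp only [e1]
          nlinarith [e2, e3]
        · have e1 : ζ z = 0 := image_eq_zero_of_notMem_tsupport hz
          simp only [e1]
          have := (hχ01 z).1
          simpa using this
    _ = (∫ z, ζ z ^ 4 * f i z ^ 4) + ∫ z, χ z := integral_add j2 hχ.integrable
    _ ≤ _ := by linarith [hC i]

/-- limits of subsequences -/
lemma lim_ge {m0 : ℝ} (hm0 : 0 < m0) {a b : ℕ → ℝ} {m4 : ℝ}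
    (ha : Tendsto a atTop (𝓝 m0)) (hb : Tendsto b atTop (𝓝 m4))
    (h1 : ∀ ε : ℝ, 0 < ε → ∀ᶠ i in atTop, 3 * a i ^ 2 - ε ≤ m0 * b i) : 3 * m0 ≤ m4 := by
  have h2 : 3 * m0 ^ 2 ≤ m0 * m4 := by
    refine le_of_forall_pos_le_add fun ε hε => ?_
    have h3 : Tendsto (fun i => 3 * a i ^ 2 - ε) atTop (𝓝 (3 * m0 ^ 2 - ε)) :=
      ((ha.pow 2).const_mul 3).sub_const ε
    have h4 := le_of_tendsto_of_tendsto h3 (hb.const_mul m0) (h1 ε hε)
    linarith
  nlinarith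

/-- nonnegative test functions -/
lemma nonneg (hComp : StmtComp) (hR : Dyn.StmtRatioS) (h2b : StmtT2b) (hVH : V ⊆ H0)
    (hS : Seq V q h f) (hB : L4Bdd V f) (hNA : Dyn.NAloc V q h f)
    (hC : ∀ φ : ℂ → ℝ, TestR V φ → (∀ z, 0 ≤ φ z) → ∀ ε : ℝ, 0 < ε → ∃ (R : ℝ) (ρ : ℕ → ℝ),
      ∀ᶠ i in atTop, 0 < ρ i ∧ ρ i ≤ R * h i ∧
        ∫ z, φ z * (Ed (ρ i) (fun w => f i w ^ 2) z - 1) ^ 2 ≤ ε)
    (h2 : ∀ φ : ℂ → ℝ, TestR V φ → Tendsto (fun i => ∫ z, φ z * f i z ^ 2) atTop (𝓝 (∫ z, φ z)))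
    {φ : ℂ → ℝ} (hφ : TestR V φ) (hφ0 : ∀ z, 0 ≤ φ z) :
    Tendsto (fun i => ∫ z, φ z * f i z ^ 4) atTop (𝓝 (3 * ∫ z, φ z)) := by
  have hfc : ∀ i, Continuous (f i) := fun i => (hS.sol i).smooth.continuous
  have hI00 : 0 ≤ ∫ z, φ z := integral_nonneg hφ0
  rcases hI00.eq_or_lt with h0 | h0
  · have h3 : φ =ᵐ[volume] 0 := by
      rw [← integral_eq_zero_iff_of_nonneg (fun z => hφ0 z) hφ.integrable]
      exact h0.symm
    rw [← h0, mul_zero]
    have e : ∀ i, ∫ z, φ z * f i z ^ 4 = 0 := by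
      intro i
      rw [← integral_zero ℂ ℝ]
      refine integral_congr_ae ?_
      filter_upwards [h3] with z hz
      rw [hz]
      simp
    simp_rw [e]
    exact tendsto_const_nhds
  by_contra hcon
  rw [Metric.tendsto_nhds] at hcon
  push Not at hcon
  obtain ⟨ε, hε, hfr⟩ := hcon
  have hfr' : ∃ᶠ i in atTop, ε ≤ |(∫ z, φ z * f i z ^ 4) - 3 * ∫ z, φ z| := by
    refine hfr.mono fun i hi => ?_
    rw [Real.dist_eq] at hi
    exact hi
  obtain ⟨σ, hσ, hσ'⟩ := Filter.extraction_of_frequently_atTop hfr'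
  obtain ⟨C, hCb⟩ := four_bdd hS.pot.isOpen hfc hB hφ
  have hmem : ∀ i, (∫ z, φ z * f (σ i) z ^ 4) ∈ Icc 0 C := fun i =>
    ⟨integral_nonneg fun z => mul_nonneg (hφ0 z) (by positivity), hCb _⟩
  obtain ⟨m4, -, τ, hτ, hm4⟩ := isCompact_Icc.tendsto_subseq hmem
  have hστ : StrictMono (fun i => σ (τ i)) := hσ.comp hτ
  have hS' : Seq V q (fun i => h (σ (τ i))) (fun i => f (σ (τ i))) :=
    Seq.sub hS hS.pot.isOpen subset_rfl (σ := fun i => σ (τ i)) hστ.tendsto_atTop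
  have hB' : L4Bdd V (fun i => f (σ (τ i))) := by
    intro ζ hζ
    obtain ⟨C, hC⟩ := hB ζ hζ
    exact ⟨C, fun i => hC _⟩
  obtain ⟨κ, r, hκ, hSm⟩ := hComp V q _ _ hS' hB'
  have hall : StrictMono (fun i => σ (τ (κ i))) := hστ.comp hκ
  have hB'' : L4Bdd V (fun i => f (σ (τ (κ i)))) := by
    intro ζ hζ
    obtain ⟨C, hC⟩ := hB ζ hζ
    exact ⟨C, fun i => hC _⟩
  have hm4' : Tendsto (fun i => ∫ z, φ z * f (σ (τ (κ i))) z ^ 4) atTop (𝓝 m4) :=
    hm4.comp hκ.tendsto_atTop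
  have hup : m4 ≤ 3 * ∫ z, φ z := by
    refine h2b V q _ _ r hVH hSm hB'' ?_ φ hφ hφ0 m4 hm4'
    intro w hw hw0 δ hδ
    obtain ⟨R, ρ, hev⟩ := hC w hw hw0 δ hδ
    exact ⟨R, fun i => ρ (σ (τ (κ i))), hall.tendsto_atTop.eventually hev⟩
  have hlo : 3 * ∫ z, φ z ≤ m4 := by
    refine lim_ge h0 ((h2 φ hφ).comp hall.tendsto_atTop) hm4' ?_
    intro δ hδ
    exact hall.tendsto_atTop.eventually
      (hR V q h f hS (l2 hS.pot.isOpen hfc hB) hNA φ hφ hφ0 δ hδ)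
  have heq : m4 = 3 * ∫ z, φ z := le_antisymm hup hlo
  have h5 : ∀ᶠ i in atTop, |(∫ z, φ z * f (σ (τ (κ i))) z ^ 4) - 3 * ∫ z, φ z| < ε := by
    have := hm4'.eventually (Metric.ball_mem_nhds m4 hε)
    filter_upwards [this] with i hi
    have hi' : dist (∫ z, φ z * f (σ (τ (κ i))) z ^ 4) m4 < ε := hi
    rw [Real.dist_eq, heq] at hi'
    exact hi'
  obtain ⟨i, hi⟩ := h5.exists
  exact absurd (hσ' (τ (κ i))) (not_le.mpr hi)

end

end Pool.Agent.A54.Pl.T2M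

namespace Pool.Agent.A54.Pl

open MeasureTheory Filter Topology Set
open scoped ContDiff ComplexConjugate
open Pool.Agent.A54.Rel Pool.Agent.A54.LocGen
open Pool.Agent.A54.Half (H0)

theorem stmtT2 (hComp : StmtComp) (hR : Dyn.StmtRatioS) (h2a : StmtT2a) (h2b : StmtT2b) :
    StmtT2 := by
  intro V q h f hVH hS hB hNA hC
  have h2 := h2a V q h f hVH hS hB hC
  refine ⟨h2, fun φ hφ => ?_⟩
  obtain ⟨χ, hχ, hχ01, hχ1⟩ := exists_cutoff hφ.cpt.isCompact hS.pot.isOpen hφ.sub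
  obtain ⟨Z, hZ0, hZ⟩ := test_bdd hφ
  have hψ : TestR V (fun z => φ z + Z * χ z) := by
    refine ⟨hφ.smooth.add (contDiff_const.mul hχ.smooth), hφ.cpt.add hχ.cpt.mul_left, ?_⟩
    refine (tsupport_add φ (fun z => Z * χ z)).trans (union_subset hφ.sub ?_)
    exact (tsupport_mul_subset_right (f := fun _ => Z) (g := χ)).trans hχ.sub
  have hψ0 : ∀ z, 0 ≤ φ z + Z * χ z := by
    intro z
    by_cases hz : z ∈ tsupport φ
    · have e1 : χ z = 1 := hχ1.self_of_nhdsSet z hz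
      rw [e1]
      have := (abs_le.mp (hZ z)).1
      linarith
    · rw [image_eq_zero_of_notMem_tsupport hz, zero_add]
      exact mul_nonneg hZ0 (hχ01 z).1
  have k1 := T2M.nonneg hComp hR h2b hVH hS hB hNA hC h2 hψ hψ0
  have k2 := (T2M.nonneg hComp hR h2b hVH hS hB hNA hC h2 hχ (fun z => (hχ01 z).1)).const_mul Z
  have k3 := k1.sub k2
  have e : 3 * (∫ z, (φ z + Z * χ z)) - Z * (3 * ∫ z, χ z) = 3 * ∫ z, φ z := by
    rw [integral_add hφ.integrable (hχ.integrable.const_mul Z), integral_const_mul]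
    ring
  rw [e] at k3
  refine k3.congr fun i => ?_
  have c4 : Continuous (fun z => f i z ^ 4) := (hS.sol i).smooth.continuous.pow 4
  rw [← integral_const_mul, ← integral_sub (integrable_testR hψ c4)
    ((integrable_testR hχ c4).const_mul Z)]
  congr 1; funext z; ring

end Pool.Agent.A54.Pl
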