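import Pool.Agent.Lib.MP_a54f13_nt.Pl.Spec

/-!
# T2a: weak convergence of the squares, from (C)
-/

set_option autoImplicit false

namespace Pool.Agent.A54.Pl.T2aM

open MeasureTheory Filter Topology Set
open scoped ContDiff ComplexConjugate
open Pool.Agent.A54.Half (H0)
open Pool.Agent.A54.Rel Pool.Agent.A54.LocGen

noncomputable section

variable {V : Set ℂ} {q : ℂ → ℝ} {h : ℕ → ℝ} {f : ℕ → ℂ → ℝ}

lemma integrable_mul {φ : ℂ → ℝ} (hφ : TestR V φ) {G : ℂ → ℝ} (hG : Continuous G) :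
    Integrable fun z => φ z * G z :=
  (hφ.smooth.continuous.mul hG).integrable_of_hasCompactSupport hφ.cpt.mul_right

/-- the fourth powers are bounded with the weight `ζ²` -/
lemma bdd4 (hVo : IsOpen V) (hf : ∀ i, ContDiff ℝ ∞ (f i)) (hB : L4Bdd V f) {ζ : ℂ → ℝ}
    (hζ : TestR V ζ) : ∃ K : ℝ, 0 ≤ K ∧ ∀ i, ∫ z, ζ z ^ 2 * (f i z ^ 2) ^ 2 ≤ K := by
  obtain ⟨Z, hZ0, hZ⟩ := test_bdd hζ
  obtain ⟨χ, hχ, hχ1, hχe⟩ := exists_cutoff hζ.cpt.isCompact hVo hζ.sub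
  obtain ⟨C, hC⟩ := hB χ hχ
  refine ⟨Z ^ 2 * max C 0, by positivity, fun i => ?_⟩
  have hfc : Continuous (f i) := (hf i).continuous
  have hζ2 : Integrable fun z => ζ z ^ 2 * (f i z ^ 2) ^ 2 := by
    have := integrable_mul hζ (G := fun z => ζ z * (f i z ^ 2) ^ 2)
      (hζ.smooth.continuous.mul ((hfc.pow 2).pow 2))
    refine this.congr (Eventually.of_forall fun z => ?_)
    ring
  have hχ4 : Integrable fun z => χ z ^ 4 * f i z ^ 4 := by
    have := integrable_mul hχ (G := fun z => χ z ^ 3 * f i z ^ 4)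
      ((hχ.smooth.continuous.pow 3).mul (hfc.pow 4))
    refine this.congr (Eventually.of_forall fun z => ?_)
    ring
  calc ∫ z, ζ z ^ 2 * (f i z ^ 2) ^ 2 ≤ ∫ z, Z ^ 2 * (χ z ^ 4 * f i z ^ 4) := by
        refine integral_mono hζ2 (hχ4.const_mul _) fun z => ?_
        show ζ z ^ 2 * (f i z ^ 2) ^ 2 ≤ Z ^ 2 * (χ z ^ 4 * f i z ^ 4)
        by_cases hz : z ∈ tsupport ζ
        · have h1 : χ z = 1 := hχe.self_of_nhdsSet z hz
          have h2 : ζ z ^ 2 ≤ Z ^ 2 := by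
            rw [← sq_abs]
            exact pow_le_pow_left₀ (abs_nonneg _) (hZ z) 2
          rw [h1]
          have h3 : (0:ℝ) ≤ f i z ^ 4 := by positivity
          nlinarith
        · rw [image_eq_zero_of_notMem_tsupport hz]
          have h3 : (0:ℝ) ≤ Z ^ 2 * (χ z ^ 4 * f i z ^ 4) := by positivity
          simpa using h3
    _ = Z ^ 2 * ∫ z, χ z ^ 4 * f i z ^ 4 := integral_const_mul _ _
    _ ≤ Z ^ 2 * max C 0 := mul_le_mul_of_nonneg_left ((hC i).trans (le_max_left _ _)) (sq_nonneg _)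

/-- the case of nonnegative test functions -/
lemma pos_case (hE3 : StmtE3) (hV : V ⊆ H0) (hS : Seq V q h f) (hB : L4Bdd V f)
    (hyp : ∀ φ : ℂ → ℝ, TestR V φ → (∀ z, 0 ≤ φ z) → ∀ ε : ℝ, 0 < ε → ∃ (R : ℝ) (ρ : ℕ → ℝ),
      ∀ᶠ i in atTop, 0 < ρ i ∧ ρ i ≤ R * h i ∧
        ∫ z, φ z * (Ed (ρ i) (fun w => f i w ^ 2) z - 1) ^ 2 ≤ ε)
    {φ : ℂ → ℝ} (hφ : TestR V φ) (hφ0 : ∀ z, 0 ≤ φ z) :
    Tendsto (fun i => ∫ z, φ z * f i z ^ 2) atTop (𝓝 (∫ z, φ z)) := by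
  have hVo := hS.pot.isOpen
  have hf : ∀ i, ContDiff ℝ ∞ (f i) := fun i => (hS.sol i).smooth
  obtain ⟨ζ, C, r0, hζ, hC, hr0, hE⟩ := hE3 V hVo hV φ hφ
  obtain ⟨K, hK0, hK⟩ := bdd4 hVo hf hB hζ
  set P0 : ℝ := ∫ z, φ z with hP0
  have hP00 : 0 ≤ P0 := integral_nonneg hφ0
  set D : ℝ := C * √K * (√(∫ z, ζ z ^ 2 * ‖fderiv ℝ (fun _ : ℂ => (1:ℝ)) z‖ ^ 2) +
    √(∫ z, ζ z ^ 2 * (1:ℝ) ^ 2)) with hD
  have hD0 : 0 ≤ D := by positivity
  rw [Metric.tendsto_nhds]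
  intro ε' hε'
  set e : ℝ := ε' / (2 * (√P0 + 1)) with he
  have he0 : 0 < e := by positivity
  obtain ⟨R, ρ, hev⟩ := hyp φ hφ hφ0 (e ^ 2) (by positivity)
  have hlim1 : Tendsto (fun i => R * h i) atTop (𝓝 0) := by
    simpa using hS.lim.const_mul R
  have hlim2 : Tendsto (fun i => D * (R * h i)) atTop (𝓝 0) := by
    simpa using hlim1.const_mul D
  filter_upwards [hev, hlim1.eventually (gt_mem_nhds hr0),
    hlim2.eventually (gt_mem_nhds (half_pos hε'))] with i hi h1 h2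
  obtain ⟨hρ0, hρR, hint⟩ := hi
  have hF : ContDiff ℝ ∞ (fun w => f i w ^ 2) := (hf i).pow 2
  have hEdc : Continuous (Ed (ρ i) (fun w => f i w ^ 2)) := continuous_Ed hF.continuous _
  have hEi := hE (ρ i) hρ0 (hρR.trans h1.le) (fun w => f i w ^ 2) (fun _ => 1) hF contDiff_const
  have herr : |(∫ z, φ z * (1 * Ed (ρ i) (fun w => f i w ^ 2) z)) -
      ∫ z, φ z * (1 * f i z ^ 2)| < ε' / 2 := by
    refine lt_of_le_of_lt (hEi.trans ?_) h2
    calc C * ρ i * √(∫ z, ζ z ^ 2 * (f i z ^ 2) ^ 2) *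
          (√(∫ z, ζ z ^ 2 * ‖fderiv ℝ (fun _ : ℂ => (1:ℝ)) z‖ ^ 2) +
            √(∫ z, ζ z ^ 2 * (1:ℝ) ^ 2))
        ≤ C * ρ i * √K * (√(∫ z, ζ z ^ 2 * ‖fderiv ℝ (fun _ : ℂ => (1:ℝ)) z‖ ^ 2) +
            √(∫ z, ζ z ^ 2 * (1:ℝ) ^ 2)) := by
          gcongr
          exact hK i
      _ = D * ρ i := by rw [hD]; ring
      _ ≤ D * (R * h i) := mul_le_mul_of_nonneg_left hρR hD0
  have hcs : |∫ z, φ z * (Ed (ρ i) (fun w => f i w ^ 2) z - 1)| ≤ ε' / 2 := by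
    have h3 := cs (w := φ) (a := fun z => Ed (ρ i) (fun w => f i w ^ 2) z - 1) (b := fun _ => 1)
      hφ0 (integrable_mul hφ ((hEdc.sub continuous_const).pow 2))
      (integrable_mul hφ continuous_const)
      (integrable_mul hφ ((hEdc.sub continuous_const).mul continuous_const))
    simp only [mul_one, one_pow] at h3
    have h4 : (∫ z, φ z * (Ed (ρ i) (fun w => f i w ^ 2) z - 1)) ^ 2 ≤ e ^ 2 * P0 :=
      h3.trans (mul_le_mul_of_nonneg_right hint hP00)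
    have h5 : e ^ 2 * P0 = (e * √P0) ^ 2 := by
      rw [mul_pow, Real.sq_sqrt hP00]
    rw [h5] at h4
    have h6 := abs_le_of_sq_le_sq h4 (by positivity)
    have h7 : |∫ z, φ z * (Ed (ρ i) (fun w => f i w ^ 2) z - 1)| ≤ e * √P0 := h6
    refine h7.trans ?_
    have h8 : e * (2 * (√P0 + 1)) = ε' := by
      rw [he]
      have : (2 * (√P0 + 1)) ≠ 0 := by positivity
      field_simp
    nlinarith
  have hsplit : (∫ z, φ z * f i z ^ 2) - P0 =
      -((∫ z, φ z * (1 * Ed (ρ i) (fun w => f i w ^ 2) z)) - ∫ z, φ z * (1 * f i z ^ 2)) +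
        ∫ z, φ z * (Ed (ρ i) (fun w => f i w ^ 2) z - 1) := by
    have h3 : ∫ z, φ z * (Ed (ρ i) (fun w => f i w ^ 2) z - 1) =
        (∫ z, φ z * (1 * Ed (ρ i) (fun w => f i w ^ 2) z)) - P0 := by
      have i1 : Integrable fun z => φ z * (1 * Ed (ρ i) (fun w => f i w ^ 2) z) :=
        integrable_mul hφ (G := fun z => 1 * Ed (ρ i) (fun w => f i w ^ 2) z)
          (continuous_const.mul hEdc)
      rw [hP0, ← integral_sub i1 hφ.integrable]
      refine integral_congr_ae (Eventually.of_forall fun z => ?_)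
      simp only
      ring
    rw [h3]
    simp only [one_mul]
    ring
  rw [Real.dist_eq, hsplit]
  calc _ ≤ |-((∫ z, φ z * (1 * Ed (ρ i) (fun w => f i w ^ 2) z)) -
        ∫ z, φ z * (1 * f i z ^ 2))| + |∫ z, φ z * (Ed (ρ i) (fun w => f i w ^ 2) z - 1)| :=
        abs_add_le _ _
    _ < ε' / 2 + ε' / 2 := by
        rw [abs_neg]
        exact add_lt_add_of_lt_of_le herr hcs
    _ = ε' := add_halves ε'

end

end Pool.Agent.A54.Pl.T2aM

namespace Pool.Agent.A54.Pl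

open MeasureTheory Filter Topology Set
open scoped ContDiff ComplexConjugate UpperHalfPlane MatrixGroups
open Pool.Agent.A54.Half (H0 qq ff hh)
open Pool.Agent.A54.Rel
open T2aM

theorem stmtT2a (hE3 : StmtE3) : StmtT2a := by
  intro V q h f hV hS hB hyp φ hφ
  have hVo := hS.pot.isOpen
  obtain ⟨C, hC0, hC⟩ := test_bdd hφ
  obtain ⟨χ, hχ, hχ1, hχe⟩ := exists_cutoff hφ.cpt.isCompact hVo hφ.sub
  have hχφ : ∀ z, χ z * φ z = φ z := by
    intro z
    by_cases hz : z ∈ tsupport φ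
    · rw [hχe.self_of_nhdsSet z hz, one_mul]
    · rw [image_eq_zero_of_notMem_tsupport hz, mul_zero]
  have h1 : TestR V (fun z => χ z * (φ z + C)) := hχ.mul_right (hφ.smooth.add contDiff_const)
  have h2 : TestR V (fun z => χ z * C) := hχ.mul_right contDiff_const
  have t1 := pos_case hE3 hV hS hB hyp h1 (fun z => mul_nonneg (hχ1 z).1
    (by linarith [(abs_le.mp (hC z)).1]))
  have t2 := pos_case hE3 hV hS hB hyp h2 (fun z => mul_nonneg (hχ1 z).1 hC0)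
  have t3 := t1.sub t2
  have e1 : (∫ z, χ z * (φ z + C)) - ∫ z, χ z * C = ∫ z, φ z := by
    rw [← integral_sub h1.integrable h2.integrable]
    refine integral_congr_ae (Eventually.of_forall fun z => ?_)
    have h3 : χ z * (φ z + C) - χ z * C = χ z * φ z := by ring
    simp only
    rw [h3, hχφ z]
  have e2 : ∀ i, (∫ z, χ z * (φ z + C) * f i z ^ 2) - ∫ z, χ z * C * f i z ^ 2 =
      ∫ z, φ z * f i z ^ 2 := by
    intro i
    have hfc : Continuous fun z => f i z ^ 2 := ((hS.sol i).smooth.continuous.pow 2)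
    rw [← integral_sub (integrable_mul h1 hfc) (integrable_mul h2 hfc)]
    refine integral_congr_ae (Eventually.of_forall fun z => ?_)
    have h3 : χ z * (φ z + C) * f i z ^ 2 - χ z * C * f i z ^ 2 = (χ z * φ z) * f i z ^ 2 := by
      ring
    simp only
    rw [h3, hχφ z]
  simp_rw [e2, e1] at t3
  exact t3

end Pool.Agent.A54.Pl
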