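import Pool.Agent.Lib.MP_a54f13_nt.Pl.Spec
import Pool.Agent.Lib.MP_a54f13_nt.Ratio

/-!
# T2b: upper bound for the fourth moment along a sequence with weak limits, from (C)
-/

set_option autoImplicit false

namespace Pool.Agent.A54.Pl.T2bM

open MeasureTheory Filter Topology Set
open scoped ContDiff ComplexConjugate
open Pool.Agent.A54.Half (H0)
open Pool.Agent.A54.Rel Pool.Agent.A54.LocGen

noncomputable section

variable {V : Set ℂ} {q : ℂ → ℝ} {h : ℕ → ℝ} {f : ℕ → ℂ → ℝ} {r : ℕ → ℂ → ℂ}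

lemma contDiff_nn (hq : Pot V q) {f : ℂ → ℝ} (hf : ContDiff ℝ ∞ f) (h : ℝ) (n : ℕ) :
    ContDiff ℝ ∞ (nn q h f n) := by
  have h1 : nn q h f n = fun z => ‖gg h f n z‖ ^ 2 * ((q z) ^ n)⁻¹ := by
    funext z; unfold nn; rw [div_eq_mul_inv]
  rw [h1]
  exact ((contDiff_gg hf h n).norm_sq ℝ).mul (contDiff_inv_pow hq n)

lemma contDiff_XX (hq : Pot V q) {f : ℂ → ℝ} (hf : ContDiff ℝ ∞ f) (h : ℝ) (N : ℕ) :
    ContDiff ℝ ∞ (XX q h f (fun _ => 1) N) := by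
  unfold XX
  exact ContDiff.sum fun n _ => contDiff_const.mul (contDiff_nn hq hf h n)

/-- the weak limit of the squares is one -/
lemma rho_one (hS : Sm V q h f r)
    (hw : ∀ w : ℂ → ℝ, TestR V w → ∫ z, w z * rho r z = ∫ z, w z) :
    ∀ᵐ z, z ∈ V → rho r z = 1 := by
  have hV := hS.pot.isOpen
  have hint : ∀ K : Set ℂ, IsCompact K → K ⊆ V → IntegrableOn (rho r) K := by
    intro K hK hKV
    have : IsFiniteMeasure (volume.restrict K : Measure ℂ) :=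
      ⟨by rw [Measure.restrict_apply_univ]; exact hK.measure_lt_top⟩
    exact ((L2loc_rho hS K hK hKV).integrable (by norm_num)).re
  have hloc : LocallyIntegrableOn (fun z => rho r z - 1) V := by
    rw [locallyIntegrableOn_iff hV.isLocallyClosed]
    intro K hKV hK
    exact (hint K hK hKV).sub (continuous_const.continuousOn.integrableOn_compact hK)
  have h1 := hV.ae_eq_zero_of_integral_contDiff_smul_eq_zero hloc fun g h1 h2 h3 => by
    have hg : TestR V g := ⟨h1, h2, h3⟩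
    have i1 : Integrable (fun z => g z * rho r z) := by
      have := integrable_L2loc (L2loc_rho hS) hg continuous_const (F := fun _ => 1)
      simpa using this
    have e : ∀ z, g z • (rho r z - 1) = g z * rho r z - g z := by
      intro z; rw [smul_eq_mul]; ring
    simp_rw [e]
    rw [integral_sub i1 hg.integrable, hw g hg, sub_self]
  filter_upwards [h1] with z hz hzV
  linarith [hz hzV]

lemma PP_nonneg (hq : Pot V q) {φ : ℂ → ℝ} (hφ0 : ∀ z, 0 ≤ φ z) (n : ℕ) : 0 ≤ PP q r φ n :=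
  integral_nonneg fun z => mul_nonneg (hφ0 z)
    (div_nonneg (by positivity) (pow_pos (hq.pos z) n).le)

lemma PP_le (hI : StmtIneq) (hS : Sm V q h f r) {φ : ℂ → ℝ} (hφ : TestR V φ)
    (hφ0 : ∀ z, 0 ≤ φ z) (n : ℕ) : PP q r φ n ≤ PP q r φ 0 := by
  unfold PP
  apply integral_mono_ae (integrable_pp hS.pot hS.loc hφ n) (integrable_pp hS.pot hS.loc hφ 0)
  have h1 := (ae_restrict_iff' hS.pot.isOpen.measurableSet).mp (hI V q h f r hS n)
  filter_upwards [h1] with z hz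
  by_cases hV : z ∈ V
  · exact mul_le_mul_of_nonneg_left (hz hV).1 (hφ0 z)
  · show φ z * _ ≤ φ z * _
    rw [hφ.eq_zero hV]; simp

lemma pairSum_le {P : ℕ → ℝ} (hP : ∀ n, P n ≤ P 0) (M : ℕ) :
    pairSum P (2 * M) ≤ 4 * M ^ 2 * P 0 := by
  have h1 : pairSum P (2 * M) ≤ ∑ n ∈ Finset.Icc 1 (2 * M), ∑ m ∈ Finset.Icc 1 (2 * M),
      (if n % 2 = m % 2 then 2 * P 0 else 0) := by
    unfold pairSum
    refine Finset.sum_le_sum fun n _ => Finset.sum_le_sum fun m _ => ?_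
    split_ifs
    · linarith [hP (n + m), hP ((n : ℤ) - m).natAbs]
    · exact le_rfl
  rw [count_pairs] at h1
  linarith

/-- the limit of the first mixed moment -/
lemma first_lim (hQ1 : StmtQ1) (hS : Sm V q h f r) (hB : L4Bdd V f) {φ : ℂ → ℝ}
    (hφ : TestR V φ) {m4 : ℝ} (hm4 : Tendsto (fun i => ∫ z, φ z * f i z ^ 4) atTop (𝓝 m4))
    (M : ℕ) :
    Tendsto (fun i => ∫ z, φ z * (f i z ^ 2 * XX q (h i) (f i) (fun _ => 1) (2 * M) z)) atTop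
      (𝓝 (4 / 3 * M * m4 + (2 * ∑ k ∈ Finset.Icc 1 M, PP q r φ (2 * k) -
        2 * M * PP q r φ 0))) := by
  have h1 := (hm4.const_mul (4 / 3 * (M : ℝ))).add (hQ1 V q h f r hS hB φ hφ M)
  refine h1.congr fun i => ?_
  ring

/-- the limit of the second moment of the sums -/
lemma sq_lim (hRel : StmtRel) (hOdd : StmtOdd) (hOL : StmtOddLim) (hS : Sm V q h f r)
    (hB : L4Bdd V f) {φ : ℂ → ℝ} (hφ : TestR V φ) {m4 : ℝ}
    (hm4 : Tendsto (fun i => ∫ z, φ z * f i z ^ 4) atTop (𝓝 m4)) (M : ℕ) :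
    Tendsto (fun i => ∫ z, φ z * XX q (h i) (f i) (fun _ => 1) (2 * M) z ^ 2) atTop
      (𝓝 (8 / 3 * M ^ 2 * m4 + (pairSum (PP q r φ) (2 * M) - 4 * M ^ 2 * PP q r φ 0))) := by
  have h1 := quad_lim hRel hOdd hOL hS hB hφ (fun _ => 1) (2 * M)
  rw [sum_tt, sum_LL] at h1
  have h2 := (hm4.const_mul (8 / 3 * (M : ℝ) ^ 2)).add h1
  refine h2.congr fun i => ?_
  ring

/-- the limit of the mean of the sums -/
lemma mean_lim (hW : StmtWeak2) (hI : StmtIneq) (hS : Sm V q h f r) {φ : ℂ → ℝ}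
    (hφ : TestR V φ) (hw : ∫ z, φ z * rho r z = ∫ z, φ z) (N : ℕ) :
    Tendsto (fun i => ∫ z, φ z * XX q (h i) (f i) (fun _ => 1) N z) atTop
      (𝓝 (N * ∫ z, φ z)) := by
  have h1 := XX_weak hW hI hS N hφ.toTest
  have e1 : ∫ z, (φ z : ℂ) * ((N : ℂ) * (rho r z : ℂ)) = ((N * ∫ z, φ z : ℝ) : ℂ) := by
    rw [← hw, ← integral_const_mul, ← integral_complex_ofReal]
    congr 1; funext z; push_cast; ring
  rw [e1] at h1
  have h2 := (Complex.continuous_re.tendsto _).comp h1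
  simp only [Complex.ofReal_re] at h2
  refine h2.congr fun i => ?_
  have e2 : ∫ z, (φ z : ℂ) * (XX q (h i) (f i) (fun _ => 1) N z : ℂ) =
      ((∫ z, φ z * XX q (h i) (f i) (fun _ => 1) N z : ℝ) : ℂ) := by
    rw [← integral_complex_ofReal]
    congr 1; funext z; push_cast; ring
  simp only [Function.comp_apply, e2, Complex.ofReal_re]

/-- bound for the integrals of `ζ² f⁴` -/
lemma four_bdd (hL : StmtL4) (hS : Seq V q h f) (hB : L4Bdd V f) {ζ : ℂ → ℝ} (hζ : TestR V ζ) :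
    ∃ B : ℝ, 0 ≤ B ∧ ∀ i, ∫ z, ζ z ^ 2 * (f i z ^ 2) ^ 2 ≤ B := by
  obtain ⟨B, hB'⟩ := bdd_of_le_sm hL hS hB hζ (F := fun i z => ((f i z ^ 2 : ℝ) : ℂ))
    (fun i => Complex.continuous_ofReal.comp ((hS.sol i).smooth.continuous.pow 2)) (C := 1) (M := 0)
    (fun i z _ => by
      unfold sm
      simp only [zero_add, Finset.range_one, Finset.sum_singleton, gg_zero, one_mul,
        Complex.norm_real, Real.norm_eq_abs, sq_abs]
      rw [abs_of_nonneg (sq_nonneg _)])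
  refine ⟨max B 0, le_max_right _ _, fun i => ?_⟩
  have h1 := hB' i
  simp only [Complex.norm_real, Real.norm_eq_abs, sq_abs] at h1
  exact h1.trans (le_max_left _ _)

/-- bound for the integrals of the squares of the sums -/
lemma XX_bdd' (hL : StmtL4) (hS : Seq V q h f) (hB : L4Bdd V f) (N : ℕ) {ζ : ℂ → ℝ}
    (hζ : TestR V ζ) :
    ∃ B : ℝ, 0 ≤ B ∧ ∀ i, ∫ z, ζ z ^ 2 * XX q (h i) (f i) (fun _ => 1) N z ^ 2 ≤ B := by
  obtain ⟨B, hB'⟩ := XX_bdd hL hS hB N hζ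
  refine ⟨max B 0, le_max_right _ _, fun i => ?_⟩
  have h1 := hB' i
  simp only [Complex.norm_real, Real.norm_eq_abs, sq_abs] at h1
  exact h1.trans (le_max_left _ _)

/-- one step: the inequality for a fixed index -/
lemma step {φ : ℂ → ℝ} (hφ : TestR V φ) (hφ0 : ∀ z, 0 ≤ φ z) {F G : ℂ → ℝ} (hF : Continuous F)
    (hG : Continuous G) {ρ ε D : ℝ}
    (h1 : |(∫ z, φ z * (G z * Ed ρ F z)) - ∫ z, φ z * (G z * F z)| ≤ D)
    (h2 : ∫ z, φ z * (Ed ρ F z - 1) ^ 2 ≤ ε) :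
    ∫ z, φ z * (F z * G z) ≤ (∫ z, φ z * G z) + √(∫ z, φ z * G z ^ 2) * √ε + D := by
  have cE : Continuous (Ed ρ F) := continuous_Ed hF ρ
  have h3 := cs (w := φ) (a := G) (b := fun z => Ed ρ F z - 1) hφ0
    (integrable_testR hφ (hG.pow 2)) (integrable_testR hφ ((cE.sub continuous_const).pow 2))
    (integrable_testR hφ (hG.mul (cE.sub continuous_const)))
  have h4 : ∫ z, φ z * (G z * (Ed ρ F z - 1)) ≤ √(∫ z, φ z * G z ^ 2) * √ε := by
    have i0 : 0 ≤ ∫ z, φ z * G z ^ 2 :=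
      integral_nonneg fun z => mul_nonneg (hφ0 z) (sq_nonneg _)
    rw [← Real.sqrt_mul i0]
    refine Real.le_sqrt_of_sq_le (h3.trans ?_)
    exact mul_le_mul_of_nonneg_left h2 i0
  have h5 : ∫ z, φ z * (G z * (Ed ρ F z - 1)) =
      (∫ z, φ z * (G z * Ed ρ F z)) - ∫ z, φ z * G z := by
    have i1 : Integrable (fun z => φ z * (G z * Ed ρ F z)) := integrable_testR hφ (hG.mul cE)
    rw [← integral_sub i1 (integrable_testR hφ hG)]
    congr 1; funext z; ring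
  have h6 : ∫ z, φ z * (F z * G z) = ∫ z, φ z * (G z * F z) := by
    congr 1; funext z; ring
  have h7 := (abs_le.mp h1).1
  rw [h6]
  linarith

/-- the inequality for fixed `ε` and all `M` -/
lemma main_ineq (hE3 : StmtE3) (hS1 : StmtS1) (hQ1 : StmtQ1) (hRel : StmtRel) (hOdd : StmtOdd)
    (hOL : StmtOddLim) (hW : StmtWeak2) (hI : StmtIneq) (hL4 : StmtL4) (hVH : V ⊆ H0)
    (hS : Sm V q h f r) (hB : L4Bdd V f) {φ : ℂ → ℝ} (hφ : TestR V φ) (hφ0 : ∀ z, 0 ≤ φ z)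
    (hw : ∫ z, φ z * rho r z = ∫ z, φ z) (hP0 : PP q r φ 0 = ∫ z, φ z) {m4 : ℝ}
    (hm4 : Tendsto (fun i => ∫ z, φ z * f i z ^ 4) atTop (𝓝 m4)) {ε R : ℝ} {ρ : ℕ → ℝ}
    (hρ : ∀ᶠ i in atTop, 0 < ρ i ∧ ρ i ≤ R * h i ∧
      ∫ z, φ z * (Ed (ρ i) (fun w => f i w ^ 2) z - 1) ^ 2 ≤ ε) :
    ∃ D : ℝ, ∀ M : ℕ, 4 / 3 * M * m4 ≤
      4 * M * (∫ z, φ z) + √(8 / 3 * M ^ 2 * m4) * √ε + D := by
  obtain ⟨ζ, C, r0, hζ, hC, hr0, hE⟩ := hE3 V hS.pot.isOpen hVH φ hφ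
  obtain ⟨C1, hC1, hS1'⟩ := hS1 V q h f r hS hB ζ hζ
  obtain ⟨B4, hB4, hB4'⟩ := four_bdd hL4 hS.toSeq hB hζ
  have hR : 0 < R := by
    obtain ⟨i, hi1, hi2, _⟩ := hρ.exists
    have h1 := (hS.sol i).hpos
    by_contra hcon
    rw [not_lt] at hcon
    have : R * h i ≤ 0 := mul_nonpos_of_nonpos_of_nonneg hcon h1.le
    linarith
  refine ⟨C * √B4 * (R * √C1), fun M => ?_⟩
  obtain ⟨BX, hBX, hBX'⟩ := XX_bdd' hL4 hS.toSeq hB (2 * M) hζ
  have hsmall : ∀ᶠ i in atTop, R * h i < r0 := by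
    have h1 : Tendsto (fun i => R * h i) atTop (𝓝 (R * 0)) := hS.lim.const_mul R
    rw [mul_zero] at h1
    exact h1.eventually (gt_mem_nhds hr0)
  have hev : ∀ᶠ i in atTop,
      ∫ z, φ z * (f i z ^ 2 * XX q (h i) (f i) (fun _ => 1) (2 * M) z) ≤
        (∫ z, φ z * XX q (h i) (f i) (fun _ => 1) (2 * M) z) +
          √(∫ z, φ z * XX q (h i) (f i) (fun _ => 1) (2 * M) z ^ 2) * √ε +
          C * √B4 * (R * √C1 + R * h i * √BX) := by
    filter_upwards [hρ, hsmall, hS1' (2 * M)] with i hi hi2 hi3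
    obtain ⟨hρ0, hρ1, hρ2⟩ := hi
    have hh := (hS.sol i).hpos
    have hf := (hS.sol i).smooth
    have hX := contDiff_XX hS.pot hf (h i) (2 * M)
    have h1 := hE (ρ i) hρ0 (hρ1.trans hi2.le) (fun w => f i w ^ 2) _ (hf.pow 2) hX
    refine step hφ hφ0 (hf.continuous.pow 2) hX.continuous (h1.trans ?_) hρ2
    have e1 : √(∫ z, ζ z ^ 2 * (f i z ^ 2) ^ 2) ≤ √B4 := Real.sqrt_le_sqrt (hB4' i)
    have e2 : √(∫ z, ζ z ^ 2 * XX q (h i) (f i) (fun _ => 1) (2 * M) z ^ 2) ≤ √BX :=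
      Real.sqrt_le_sqrt (hBX' i)
    have e3 : ρ i * √(∫ z, ζ z ^ 2 *
        ‖fderiv ℝ (XX q (h i) (f i) (fun _ => 1) (2 * M)) z‖ ^ 2) ≤ R * √C1 := by
      have g1 : h i * √(∫ z, ζ z ^ 2 *
          ‖fderiv ℝ (XX q (h i) (f i) (fun _ => 1) (2 * M)) z‖ ^ 2) ≤ √C1 := by
        have g2 : h i * √(∫ z, ζ z ^ 2 *
            ‖fderiv ℝ (XX q (h i) (f i) (fun _ => 1) (2 * M)) z‖ ^ 2) =
            √(∫ z, ζ z ^ 2 *
              (h i * ‖fderiv ℝ (XX q (h i) (f i) (fun _ => 1) (2 * M)) z‖) ^ 2) := by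
          have g3 : ∫ z, ζ z ^ 2 *
              (h i * ‖fderiv ℝ (XX q (h i) (f i) (fun _ => 1) (2 * M)) z‖) ^ 2 =
              h i ^ 2 * ∫ z, ζ z ^ 2 *
                ‖fderiv ℝ (XX q (h i) (f i) (fun _ => 1) (2 * M)) z‖ ^ 2 := by
            rw [← integral_const_mul]
            congr 1; funext z; ring
          rw [g3, Real.sqrt_mul (sq_nonneg _), Real.sqrt_sq hh.le]
        rw [g2]
        exact Real.sqrt_le_sqrt hi3
      calc _ ≤ R * h i * √(∫ z, ζ z ^ 2 *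
            ‖fderiv ℝ (XX q (h i) (f i) (fun _ => 1) (2 * M)) z‖ ^ 2) :=
            mul_le_mul_of_nonneg_right hρ1 (Real.sqrt_nonneg _)
        _ = R * (h i * √(∫ z, ζ z ^ 2 *
            ‖fderiv ℝ (XX q (h i) (f i) (fun _ => 1) (2 * M)) z‖ ^ 2)) := by ring
        _ ≤ _ := mul_le_mul_of_nonneg_left g1 hR.le
    have e4 : ρ i * √(∫ z, ζ z ^ 2 * XX q (h i) (f i) (fun _ => 1) (2 * M) z ^ 2) ≤
        R * h i * √BX :=
      mul_le_mul hρ1 e2 (Real.sqrt_nonneg _) (by positivity)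
    have e5 : ρ i * (√(∫ z, ζ z ^ 2 *
        ‖fderiv ℝ (XX q (h i) (f i) (fun _ => 1) (2 * M)) z‖ ^ 2) +
        √(∫ z, ζ z ^ 2 * XX q (h i) (f i) (fun _ => 1) (2 * M) z ^ 2)) ≤
        R * √C1 + R * h i * √BX := by
      rw [mul_add]
      exact add_le_add e3 e4
    have e6 : 0 ≤ ρ i * (√(∫ z, ζ z ^ 2 *
        ‖fderiv ℝ (XX q (h i) (f i) (fun _ => 1) (2 * M)) z‖ ^ 2) +
        √(∫ z, ζ z ^ 2 * XX q (h i) (f i) (fun _ => 1) (2 * M) z ^ 2)) := by positivity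
    calc _ = C * √(∫ z, ζ z ^ 2 * (f i z ^ 2) ^ 2) * (ρ i * (√(∫ z, ζ z ^ 2 *
          ‖fderiv ℝ (XX q (h i) (f i) (fun _ => 1) (2 * M)) z‖ ^ 2) +
          √(∫ z, ζ z ^ 2 * XX q (h i) (f i) (fun _ => 1) (2 * M) z ^ 2))) := by ring
      _ ≤ _ := mul_le_mul (mul_le_mul_of_nonneg_left e1 hC) e5 e6 (by positivity)
  have l1 := first_lim hQ1 hS hB hφ hm4 M
  have l2 := sq_lim hRel hOdd hOL hS hB hφ hm4 M
  have l3 := mean_lim hW hI hS hφ hw (2 * M)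
  have l4 : Tendsto (fun i => C * √B4 * (R * √C1 + R * h i * √BX)) atTop
      (𝓝 (C * √B4 * (R * √C1 + R * 0 * √BX))) :=
    (((hS.lim.const_mul R).mul_const (√BX)).const_add (R * √C1)).const_mul (C * √B4)
  have l5 := (l3.add ((Real.continuous_sqrt.continuousAt.tendsto.comp l2).mul_const (√ε))).add l4
  have hlim := le_of_tendsto_of_tendsto l1 l5 hev
  rw [hP0] at hlim
  have hP := PP_le hI hS hφ hφ0
  have hps := pairSum_le hP M
  rw [hP0] at hps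
  have hL2 : √(8 / 3 * M ^ 2 * m4 + (pairSum (PP q r φ) (2 * M) - 4 * M ^ 2 * ∫ z, φ z)) ≤
      √(8 / 3 * M ^ 2 * m4) := Real.sqrt_le_sqrt (by linarith)
  have hL3 := mul_le_mul_of_nonneg_right hL2 (Real.sqrt_nonneg ε)
  have hsum : 0 ≤ ∑ k ∈ Finset.Icc 1 M, PP q r φ (2 * k) :=
    Finset.sum_nonneg fun k _ => PP_nonneg hS.pot hφ0 _
  push_cast at hlim
  simp only [mul_zero, zero_mul, add_zero] at hlim
  linarith

/-- arithmetic conclusion -/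
lemma concl {m4 I0 : ℝ} (h : ∀ ε : ℝ, 0 < ε → ∃ D : ℝ, ∀ M : ℕ, 4 / 3 * M * m4 ≤
      4 * M * I0 + √(8 / 3 * M ^ 2 * m4) * √ε + D) : m4 ≤ 3 * I0 := by
  have h1 : ∀ ε : ℝ, 0 < ε → 4 / 3 * m4 - 4 * I0 ≤ √(8 / 3 * m4) * √ε := by
    intro ε hε
    obtain ⟨D, hD⟩ := h ε hε
    by_contra hcon
    rw [not_le] at hcon
    have hpos : 0 < 4 / 3 * m4 - 4 * I0 - √(8 / 3 * m4) * √ε := by linarith
    obtain ⟨M, hM⟩ := exists_nat_gt (D / (4 / 3 * m4 - 4 * I0 - √(8 / 3 * m4) * √ε))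
    rw [div_lt_iff₀ hpos] at hM
    have h2 := hD M
    have e : √(8 / 3 * (M : ℝ) ^ 2 * m4) = √(8 / 3 * m4) * M := by
      rw [show 8 / 3 * (M : ℝ) ^ 2 * m4 = 8 / 3 * m4 * (M : ℝ) ^ 2 by ring,
        Real.sqrt_mul' _ (sq_nonneg _), Real.sqrt_sq (Nat.cast_nonneg M)]
    rw [e] at h2
    nlinarith [h2, hM]
  by_contra hcon
  rw [not_le] at hcon
  have ha : 0 < 4 / 3 * m4 - 4 * I0 := by linarith
  have hb : 0 ≤ √(8 / 3 * m4) := Real.sqrt_nonneg _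
  have hc : 0 < (4 / 3 * m4 - 4 * I0) / (2 * (√(8 / 3 * m4) + 1)) := by positivity
  have h2 := h1 (((4 / 3 * m4 - 4 * I0) / (2 * (√(8 / 3 * m4) + 1))) ^ 2) (by positivity)
  rw [Real.sqrt_sq hc.le] at h2
  have h3 : √(8 / 3 * m4) * ((4 / 3 * m4 - 4 * I0) / (2 * (√(8 / 3 * m4) + 1))) ≤
      (√(8 / 3 * m4) + 1) * ((4 / 3 * m4 - 4 * I0) / (2 * (√(8 / 3 * m4) + 1))) :=
    mul_le_mul_of_nonneg_right (by linarith) hc.le
  have h4 : (√(8 / 3 * m4) + 1) * ((4 / 3 * m4 - 4 * I0) / (2 * (√(8 / 3 * m4) + 1))) =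
      (4 / 3 * m4 - 4 * I0) / 2 := by
    have : √(8 / 3 * m4) + 1 ≠ 0 := by positivity
    field_simp
  linarith

end

end Pool.Agent.A54.Pl.T2bM

namespace Pool.Agent.A54.Pl

open MeasureTheory Filter Topology Set
open Pool.Agent.A54.LocGen

theorem stmtT2b (hE3 : StmtE3) (hS1 : StmtS1) (hQ1 : StmtQ1) (h2a : StmtT2a) (hRel : StmtRel)
    (hOdd : StmtOdd) (hOL : StmtOddLim) (hW : StmtWeak2) (hI : StmtIneq) (hL4 : StmtL4) :
    StmtT2b := by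
  intro V q h f r hVH hS hB hC φ hφ hφ0 m4 hm4
  have hw : ∀ w : ℂ → ℝ, TestR V w → ∫ z, w z * rho r z = ∫ z, w z := fun w hw =>
    tendsto_nhds_unique (Ratio.second_lim hI hS hw) (h2a V q h f hVH hS.toSeq hB hC w hw)
  have h1 := T2bM.rho_one hS hw
  have hP0 : PP q r φ 0 = ∫ z, φ z := by
    rw [← (integrable_rho_sq hI hS hφ).2]
    apply integral_congr_ae
    filter_upwards [h1] with z hz
    by_cases hV : z ∈ V
    · show φ z * rho r z ^ 2 = φ z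
      rw [hz hV]; ring
    · show φ z * rho r z ^ 2 = φ z
      rw [hφ.eq_zero hV]; ring
  refine T2bM.concl fun ε hε => ?_
  obtain ⟨R, ρ, hρ⟩ := hC φ hφ hφ0 ε hε
  exact T2bM.main_ineq hE3 hS1 hQ1 hRel hOdd hOL hW hI hL4 hVH hS hB hφ hφ0 (hw φ hφ) hP0 hm4 hρ

end Pool.Agent.A54.Pl
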