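import Pool.Agent.Lib.MP_a54f13_nt.Pl.Spec

set_option autoImplicit false

namespace Pool.Agent.A54.Pl

open MeasureTheory Filter Topology Set
open scoped ContDiff ComplexConjugate UpperHalfPlane MatrixGroups

noncomputable section

theorem stmtBC : StmtBC := by
  intro f t ht htt hB K hK ε hε
  by_contra hcon
  push Not at hcon
  set J : ℕ → ℝ → ℝ := fun i ρ => ∫ z in K, (mean (fun w => f i w ^ 2) z ρ - 1) ^ 2 with hJ
  have hfreq : ∀ k : ℕ, ∃ᶠ i in atTop,
      ((k : ℝ) + 1) ^ 2 ≤ t i ∧ ε < J i (((k : ℝ) + 1) / t i) := by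
    intro k
    have h1 := hcon ((k : ℝ) + 1) (by positivity)
    have h2 : ∀ᶠ i in atTop, ((k : ℝ) + 1) ^ 2 ≤ t i := htt.eventually_ge_atTop _
    exact (h1.and_eventually h2).mono fun i hi => ⟨hi.2, hi.1⟩
  obtain ⟨φ, hφ, hP⟩ := extraction_forall_of_frequently hfreq
  classical
  set r : ℕ → ℝ := fun i => if h : ∃ k, φ k = i then ((Classical.choose h : ℕ) + 1 : ℝ) / t i
    else 1 / √(t i) with hr
  have hr1 : ∀ k, r (φ k) = ((k : ℝ) + 1) / t (φ k) := by
    intro k
    have hex : ∃ k', φ k' = φ k := ⟨k, rfl⟩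
    have hk : Classical.choose hex = k := hφ.injective (Classical.choose_spec hex)
    simp only [hr]
    rw [dif_pos hex, hk]
  have hr2 : ∀ i, (¬ ∃ k, φ k = i) → r i = 1 / √(t i) := by
    intro i hi
    simp only [hr]
    rw [dif_neg hi]
  have hsq : ∀ i, 0 < √(t i) := fun i => Real.sqrt_pos.2 (ht i)
  have hmul : ∀ i, √(t i) * √(t i) = t i := fun i => Real.mul_self_sqrt (ht i).le
  have hrpos : ∀ i, 0 < r i := by
    intro i
    by_cases hi : ∃ k, φ k = i
    · obtain ⟨k, rfl⟩ := hi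
      rw [hr1]
      have := ht (φ k)
      positivity
    · rw [hr2 i hi]
      have := hsq i
      positivity
  have hrle : ∀ i, r i ≤ 1 / √(t i) := by
    intro i
    by_cases hi : ∃ k, φ k = i
    · obtain ⟨k, rfl⟩ := hi
      rw [hr1, div_le_div_iff₀ (ht _) (hsq _)]
      have h1 : (k : ℝ) + 1 ≤ √(t (φ k)) := by
        apply Real.le_sqrt_of_sq_le
        exact (hP k).1
      calc ((k : ℝ) + 1) * √(t (φ k)) ≤ √(t (φ k)) * √(t (φ k)) := by
            gcongr
        _ = 1 * t (φ k) := by rw [hmul, one_mul]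
    · rw [hr2 i hi]
  have hsqt : Tendsto (fun i => √(t i)) atTop atTop := Real.tendsto_sqrt_atTop.comp htt
  have hrtend : Tendsto r atTop (𝓝 0) := by
    refine squeeze_zero (fun i => (hrpos i).le) hrle ?_
    simp only [one_div]
    exact tendsto_inv_atTop_zero.comp hsqt
  have hrt : Tendsto (fun i => r i * t i) atTop atTop := by
    rw [tendsto_atTop]
    intro b
    obtain ⟨N, hN⟩ := exists_nat_gt b
    filter_upwards [hsqt.eventually_ge_atTop b, eventually_ge_atTop (φ N)] with i h1 h2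
    by_cases hi : ∃ k, φ k = i
    · obtain ⟨k, rfl⟩ := hi
      rw [hr1, div_mul_cancel₀ _ (ht _).ne']
      have h3 : N ≤ k := hφ.le_iff_le.1 h2
      have h4 : (N : ℝ) ≤ k := by exact_mod_cast h3
      linarith
    · rw [hr2 i hi]
      have h5 : 1 / √(t i) * t i = √(t i) := by
        rw [one_div, inv_mul_eq_div, div_eq_iff (hsq i).ne', hmul]
      rw [h5]
      exact h1
  have hlim := hB K hK r hrpos hrtend hrt
  have hlim2 := hlim.comp hφ.tendsto_atTop
  have hev := hlim2.eventually (gt_mem_nhds hε)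
  obtain ⟨k, hk⟩ := hev.exists
  have h6 := (hP k).2
  simp only [Function.comp] at hk
  rw [hr1 k] at hk
  simp only [hJ] at h6
  exact lt_irrefl _ (h6.trans hk)

end

end Pool.Agent.A54.Pl
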