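import Pool.Agent.Lib.MP_a54f13_nt.LocGen
import Pool.Agent.Lib.MP_a54f13_nt.Dyn.Spec3

/-!
# Mean values over small discs: definitions and basic facts

Package `Pl` (helper3): mass equidistribution above the wavelength and the fourth moment.
-/

set_option autoImplicit false
set_option linter.unusedSectionVars false

namespace Pool.Agent.A54.Pl

open MeasureTheory Filter Topology Set
open scoped ContDiff ComplexConjugate UpperHalfPlane MatrixGroups
open Pool.Agent.A54.Half (H0 qq ff hh)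

noncomputable section

/-- the real linear map `w ↦ w + a (im w) u` -/
def lin (a : ℝ) (u w : ℂ) : ℂ := w + ((a * w.im : ℝ) : ℂ) * u

lemma lin_re (a : ℝ) (u w : ℂ) : (lin a u w).re = w.re + a * w.im * u.re := by
  simp [lin]

lemma lin_im (a : ℝ) (u w : ℂ) : (lin a u w).im = w.im * (1 + a * u.im) := by
  simp [lin]; ring

lemma norm_lin_sub (a : ℝ) (u w : ℂ) : ‖lin a u w - w‖ = |a| * |w.im| * ‖u‖ := by
  unfold lin
  rw [add_sub_cancel_left, norm_mul, Complex.norm_real, Real.norm_eq_abs, abs_mul]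

lemma continuous_lin (a : ℝ) : Continuous fun p : ℂ × ℂ => lin a p.1 p.2 := by
  unfold lin
  fun_prop

lemma continuous_lin_left (a : ℝ) (w : ℂ) : Continuous fun u : ℂ => lin a u w := by
  unfold lin
  fun_prop

lemma continuous_lin_right (a : ℝ) (u : ℂ) : Continuous fun w : ℂ => lin a u w := by
  unfold lin
  fun_prop

lemma lin_mem_H0 {a : ℝ} {u w : ℂ} (ha0 : 0 ≤ a) (ha : a < 1) (hu : ‖u‖ ≤ 1) (hw : w ∈ H0) :
    lin a u w ∈ H0 := by
  show 0 < (lin a u w).im
  rw [lin_im]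
  have h1 : |u.im| ≤ 1 := (Complex.abs_im_le_norm u).trans hu
  have h2 := (abs_le.mp h1).1
  have h3 : 0 < w.im := hw
  have h4 : 0 < 1 + a * u.im := by nlinarith
  positivity

variable {E : Type} [NormedAddCommGroup E] [NormedSpace ℝ E]

/-- mean value over the Euclidean disc with centre `z` and radius `r * im z` -/
def Ed (r : ℝ) (W : ℂ → E) (z : ℂ) : E :=
  (Real.pi)⁻¹ • ∫ u in Metric.ball (0 : ℂ) 1, W (lin r u z)

lemma volume_disc : (volume (Metric.ball (0 : ℂ) 1)).toReal = Real.pi := by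
  rw [Complex.volume_ball]
  simp

lemma integrableOn_lin {W : ℂ → E} (hW : Continuous W) (r : ℝ) (z : ℂ) :
    IntegrableOn (fun u => W (lin r u z)) (Metric.ball (0 : ℂ) 1) :=
  ((hW.comp (continuous_lin_left r z)).continuousOn.integrableOn_compact
    (isCompact_closedBall (0 : ℂ) 1)).mono_set Metric.ball_subset_closedBall

/-- the version for functions which are continuous on the half-plane only -/
lemma integrableOn_lin' {W : ℂ → E} (hW : ContinuousOn W H0) {r : ℝ} (hr0 : 0 ≤ r) (hr : r < 1)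
    {z : ℂ} (hz : z ∈ H0) : IntegrableOn (fun u => W (lin r u z)) (Metric.ball (0 : ℂ) 1) := by
  have h1 : ContinuousOn (fun u => W (lin r u z)) (Metric.closedBall (0 : ℂ) 1) :=
    hW.comp (continuous_lin_left r z).continuousOn fun u hu =>
      lin_mem_H0 hr0 hr (by simpa using hu) hz
  exact (h1.integrableOn_compact (isCompact_closedBall (0 : ℂ) 1)).mono_set
    Metric.ball_subset_closedBall

lemma Ed_ofReal (r : ℝ) (F : ℂ → ℝ) (z : ℂ) : Ed r (fun w => (F w : ℂ)) z = ((Ed r F z : ℝ) : ℂ) := by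
  unfold Ed
  have h : ∫ u in Metric.ball (0 : ℂ) 1, ((F (lin r u z) : ℝ) : ℂ) =
      ((∫ u in Metric.ball (0 : ℂ) 1, F (lin r u z) : ℝ) : ℂ) := integral_ofReal
  simp only [h]
  rw [smul_eq_mul, Complex.ofReal_mul, Complex.real_smul]

lemma Ed_const [CompleteSpace E] (r : ℝ) (c : E) (z : ℂ) : Ed r (fun _ => c) z = c := by
  unfold Ed
  rw [setIntegral_const, Measure.real, volume_disc, smul_smul,
    inv_mul_cancel₀ Real.pi_ne_zero, one_smul]

lemma Ed_add {W₁ W₂ : ℂ → E} (h1 : Continuous W₁) (h2 : Continuous W₂) (r : ℝ) (z : ℂ) :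
    Ed r (fun w => W₁ w + W₂ w) z = Ed r W₁ z + Ed r W₂ z := by
  unfold Ed
  rw [← smul_add]
  congr 1
  exact integral_add (integrableOn_lin h1 r z) (integrableOn_lin h2 r z)

lemma Ed_sub {W₁ W₂ : ℂ → E} (h1 : Continuous W₁) (h2 : Continuous W₂) (r : ℝ) (z : ℂ) :
    Ed r (fun w => W₁ w - W₂ w) z = Ed r W₁ z - Ed r W₂ z := by
  unfold Ed
  rw [← smul_sub]
  congr 1
  exact integral_sub (integrableOn_lin h1 r z) (integrableOn_lin h2 r z)

lemma Ed_const_mul (r : ℝ) (c : ℂ) (W : ℂ → ℂ) (z : ℂ) :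
    Ed r (fun w => c * W w) z = c * Ed r W z := by
  unfold Ed
  rw [integral_const_mul, mul_smul_comm]

lemma Ed_const_mulR (r : ℝ) (c : ℝ) (F : ℂ → ℝ) (z : ℂ) :
    Ed r (fun w => c * F w) z = c * Ed r F z := by
  unfold Ed
  rw [integral_const_mul, mul_smul_comm]

lemma Ed_nonneg {F : ℂ → ℝ} (hF : ∀ w, 0 ≤ F w) (r : ℝ) (z : ℂ) : 0 ≤ Ed r F z := by
  unfold Ed
  rw [smul_eq_mul]
  exact mul_nonneg (inv_nonneg.mpr Real.pi_pos.le) (integral_nonneg fun u => hF _)

lemma Ed_mono {F₁ F₂ : ℂ → ℝ} (h1 : Continuous F₁) (h2 : Continuous F₂) (h : ∀ w, F₁ w ≤ F₂ w)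
    (r : ℝ) (z : ℂ) : Ed r F₁ z ≤ Ed r F₂ z := by
  unfold Ed
  rw [smul_eq_mul, smul_eq_mul]
  exact mul_le_mul_of_nonneg_left (integral_mono (integrableOn_lin h1 r z)
    (integrableOn_lin h2 r z) fun u => h _) (inv_nonneg.mpr Real.pi_pos.le)

/-- the mean value depends on the values in the disc only -/
lemma Ed_congr {W₁ W₂ : ℂ → E} {r : ℝ} {z : ℂ} (h : ∀ u ∈ Metric.ball (0 : ℂ) 1,
    W₁ (lin r u z) = W₂ (lin r u z)) : Ed r W₁ z = Ed r W₂ z := by
  unfold Ed
  rw [setIntegral_congr_fun measurableSet_ball h]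

lemma ball_ae_closedBall :
    (Metric.ball (0 : ℂ) 1 : Set ℂ) =ᵐ[volume] (Metric.closedBall (0 : ℂ) 1 : Set ℂ) := by
  rw [← Metric.ball_union_sphere]
  refine (union_ae_eq_left_of_ae_eq_empty ?_).symm
  rw [ae_eq_empty]
  exact Measure.addHaar_sphere _ _ _

lemma continuous_Ed [CompleteSpace E] {W : ℂ → E} (hW : Continuous W) (r : ℝ) :
    Continuous (Ed r W) := by
  unfold Ed
  refine Continuous.const_smul ?_ _
  have h1 : Continuous fun z : ℂ => ∫ u in Metric.closedBall (0 : ℂ) 1, W (lin r u z) := by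
    refine continuous_parametric_integral_of_continuous (f := fun z u => W (lin r u z)) ?_
      (isCompact_closedBall (0 : ℂ) 1)
    exact hW.comp ((continuous_lin r).comp continuous_swap)
  convert! h1 using 2
  rename_i z
  rw [Measure.restrict_congr_set (ball_ae_closedBall)]

/-- hyperbolic mean value -/
def mean (F : ℍ → ℝ) (z : ℍ) (r : ℝ) : ℝ := ⨍ w in Metric.ball z r, F w

end

end Pool.Agent.A54.Pl
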