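import Pool.Agent.Lib.MP_a54f13_nt.Pl.Spec

/-!
# E1: averages over small discs are bounded in `L²`
-/

set_option autoImplicit false

namespace Pool.Agent.A54.Pl

open MeasureTheory Filter Topology Set
open Pool.Agent.A54.Half (H0 qq ff hh)

noncomputable section

namespace E1M

private lemma ed_eq (r : ℝ) (W : ℂ → ℂ) (z : ℂ) :
    Ed r W z = ∫ u in Metric.ball (0 : ℂ) 1, ((Real.pi⁻¹ : ℝ) : ℂ) * W (lin r u z) := by
  rw [integral_const_mul]
  unfold Ed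
  rw [Complex.real_smul]

private lemma kernel_norm :
    ∫ _ in Metric.ball (0 : ℂ) 1, ‖((Real.pi⁻¹ : ℝ) : ℂ)‖ = 1 := by
  rw [setIntegral_const, Measure.real, volume_disc, Complex.norm_real, Real.norm_eq_abs,
    abs_of_nonneg (inv_nonneg.mpr Real.pi_pos.le), smul_eq_mul,
    mul_inv_cancel₀ Real.pi_ne_zero]

end E1M

theorem stmtE1 (h : StmtE1k) : StmtE1 := by
  intro V hV hVH φ hφ hφ0
  obtain ⟨ζ, C, r0, hζ, hC, hr0, hmain⟩ := h V hV hVH φ hφ hφ0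
  refine ⟨ζ, C, r0, hζ, hC, hr0, fun r hr hrr W hW => ?_⟩
  have h1 := hmain r hr hrr W hW (fun _ => ((Real.pi⁻¹ : ℝ) : ℂ)) measurable_const
    ⟨‖((Real.pi⁻¹ : ℝ) : ℂ)‖, fun _ => le_refl _⟩
  rw [E1M.kernel_norm, one_pow, mul_one] at h1
  simp only [E1M.ed_eq]
  exact h1

end

end Pool.Agent.A54.Pl
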