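import Pool.Agent.Lib.MP_a54f13_nt.Pl.Spec

/-!
# E1k: averages over small discs with a bounded kernel are bounded in `L²`
-/

set_option autoImplicit false

namespace Pool.Agent.A54.Pl

open MeasureTheory Filter Topology Set
open Pool.Agent.A54.Half (H0 qq ff hh)

noncomputable section

namespace E1kM

/-- A bounded kernel times a continuous function is integrable over the disc. -/
private lemma intOn {k : ℂ → ℂ} (hk : Measurable k) {B : ℝ} (hB : ∀ u, ‖k u‖ ≤ B)
    {F : ℂ → ℝ} (hF : Continuous F) :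
    Integrable (fun u => ‖k u‖ * F u) (volume.restrict (Metric.ball (0 : ℂ) 1)) := by
  have h1 : Integrable F (volume.restrict (Metric.ball (0 : ℂ) 1)) :=
    (hF.continuousOn.integrableOn_compact (isCompact_closedBall (0 : ℂ) 1)).mono_set
      Metric.ball_subset_closedBall
  refine Integrable.bdd_mul (c := B) h1 hk.norm.aestronglyMeasurable ?_
  refine Eventually.of_forall fun u => ?_
  rw [norm_norm]
  exact hB u

/-- Cauchy-Schwarz for the kernel average. -/
private lemma cs {k : ℂ → ℂ} (hk : Measurable k) {B : ℝ} (hB : ∀ u, ‖k u‖ ≤ B)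
    {G : ℂ → ℂ} (hG : Continuous G) :
    ‖∫ u in Metric.ball (0 : ℂ) 1, k u * G u‖ ^ 2 ≤
      (∫ u in Metric.ball (0 : ℂ) 1, ‖k u‖) *
        ∫ u in Metric.ball (0 : ℂ) 1, ‖k u‖ * ‖G u‖ ^ 2 := by
  have i0 : Integrable (fun u => ‖k u‖) (volume.restrict (Metric.ball (0 : ℂ) 1)) := by
    have := intOn hk hB (F := fun _ => (1 : ℝ)) continuous_const
    simpa using this
  have i1 := intOn hk hB hG.norm
  have i2 : Integrable (fun u => ‖k u‖ * ‖G u‖ ^ 2)
      (volume.restrict (Metric.ball (0 : ℂ) 1)) := intOn hk hB (hG.norm.pow 2)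
  set a := ∫ u in Metric.ball (0 : ℂ) 1, ‖k u‖ with ha
  set A := ∫ u in Metric.ball (0 : ℂ) 1, ‖k u‖ * ‖G u‖ with hA
  set D := ∫ u in Metric.ball (0 : ℂ) 1, ‖k u‖ * ‖G u‖ ^ 2 with hD
  have h1 : ‖∫ u in Metric.ball (0 : ℂ) 1, k u * G u‖ ≤ A := by
    refine (norm_integral_le_integral_norm _).trans (le_of_eq ?_)
    rw [hA]
    congr 1
    funext u
    rw [norm_mul]
  have h2 : ∀ t : ℝ, 0 ≤ a * (t * t) + (-2 * A) * t + D := by
    intro t
    have h3 : 0 ≤ ∫ u in Metric.ball (0 : ℂ) 1, ‖k u‖ * (‖G u‖ - t) ^ 2 :=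
      integral_nonneg fun u => by positivity
    have h4 : ∫ u in Metric.ball (0 : ℂ) 1, ‖k u‖ * (‖G u‖ - t) ^ 2 =
        D - 2 * t * A + t * t * a := by
      have h5 : (fun u => ‖k u‖ * (‖G u‖ - t) ^ 2) =
          fun u => (‖k u‖ * ‖G u‖ ^ 2 - 2 * t * (‖k u‖ * ‖G u‖)) + t * t * ‖k u‖ := by
        funext u; ring
      have h6 : Integrable (fun u => ‖k u‖ * ‖G u‖ ^ 2 - 2 * t * (‖k u‖ * ‖G u‖))
          (volume.restrict (Metric.ball (0 : ℂ) 1)) := i2.sub (i1.const_mul _)
      rw [h5, integral_add h6 (i0.const_mul _),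
        integral_sub i2 (i1.const_mul _), integral_const_mul, integral_const_mul]
    rw [h4] at h3
    linarith
  have h6 := discrim_le_zero h2
  rw [discrim] at h6
  have h7 : A ^ 2 ≤ a * D := by nlinarith
  have h8 : 0 ≤ ‖∫ u in Metric.ball (0 : ℂ) 1, k u * G u‖ := norm_nonneg _
  calc ‖∫ u in Metric.ball (0 : ℂ) 1, k u * G u‖ ^ 2 ≤ A ^ 2 := pow_le_pow_left₀ h8 h1 2
    _ ≤ a * D := h7

end E1kM

open E1kM in
theorem stmtE1k (hL1 : StmtL1) : StmtE1k := by
  intro V hV hVH φ hφ hφ0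
  obtain ⟨δ, hδ, hδV⟩ := hφ.cpt.isCompact.exists_cthickening_subset_open hV hφ.sub
  have hKc : IsCompact (Metric.cthickening δ (tsupport φ)) := hφ.cpt.isCompact.cthickening
  obtain ⟨ζ, hζ, hζ01, hζ1⟩ := exists_cutoff hKc hV hδV
  obtain ⟨m, hm⟩ := hφ.cpt.isCompact.isBounded.exists_norm_le
  obtain ⟨M, hM0, hM⟩ : ∃ M : ℝ, 0 ≤ M ∧ ∀ z, |φ z| ≤ M := by
    obtain ⟨Z, hZ⟩ := hφ.cpt.exists_bound_of_continuous hφ.smooth.continuous
    exact ⟨max Z 0, le_max_right _ _, fun z => (hZ z).trans (le_max_left _ _)⟩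
  have hm0 : 0 < |m| + 1 := by positivity
  refine ⟨ζ, 2 * M, min (1 / 2) (δ / (|m| + 1)), hζ, by positivity, by positivity,
    fun r hr hrr W hW k hk hkB => ?_⟩
  obtain ⟨B, hB⟩ := hkB
  have hr1 : r ≤ 1 / 2 := hrr.trans (min_le_left _ _)
  have hr2 : r * (|m| + 1) ≤ δ := by
    have := hrr.trans (min_le_right _ _)
    rwa [le_div_iff₀ hm0] at this
  have hra : |r| ≤ 1 / 2 := by rw [abs_of_pos hr]; exact hr1
  set μ := (volume : Measure ℂ).restrict (Metric.ball (0 : ℂ) 1) with hμ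
  set g : ℂ → ℝ := fun w => ζ w ^ 2 * ‖W w‖ ^ 2 with hg
  have hgc : Continuous g := (hζ.smooth.continuous.pow 2).mul (hW.norm.pow 2)
  have hg0 : ∀ w, 0 ≤ g w := fun w => by positivity
  have hgi : Integrable g := by
    have h1 : Integrable (fun w => ζ w * (ζ w * ‖W w‖ ^ 2)) :=
      (hζ.smooth.continuous.mul (hζ.smooth.continuous.mul
        (hW.norm.pow 2))).integrable_of_hasCompactSupport hζ.cpt.mul_right
    refine h1.congr (Eventually.of_forall fun w => ?_)
    simp only [hg]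
    ring
  have hpt : ∀ z, ∀ u ∈ Metric.ball (0 : ℂ) 1,
      φ z * ‖W (lin r u z)‖ ^ 2 ≤ M * g (lin r u z) := by
    intro z u hu
    by_cases hz : z ∈ tsupport φ
    · have hu1 : ‖u‖ ≤ 1 := by
        rw [Metric.mem_ball, dist_zero_right] at hu
        exact hu.le
      have h1 : dist (lin r u z) z ≤ δ := by
        rw [dist_eq_norm, norm_lin_sub, abs_of_pos hr]
        have h2 : |z.im| ≤ |m| + 1 := by
          have h3 := (Complex.abs_im_le_norm z).trans (hm z hz)
          have h4 := le_abs_self m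
          linarith
        calc r * |z.im| * ‖u‖ ≤ r * (|m| + 1) * 1 := by gcongr
          _ ≤ δ := by rw [mul_one]; exact hr2
      have h5 : lin r u z ∈ Metric.cthickening δ (tsupport φ) :=
        Metric.mem_cthickening_of_dist_le _ z _ _ hz h1
      have h6 : ζ (lin r u z) = 1 := hζ1.self_of_nhdsSet _ h5
      have h7 : φ z ≤ M := (le_abs_self _).trans (hM z)
      simp only [hg, h6]
      rw [one_pow, one_mul]
      exact mul_le_mul_of_nonneg_right h7 (by positivity)
    · rw [image_eq_zero_of_notMem_tsupport hz, zero_mul]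
      exact mul_nonneg hM0 (hg0 _)
  set a := ∫ u in Metric.ball (0 : ℂ) 1, ‖k u‖ with ha
  have ha0 : 0 ≤ a := integral_nonneg fun u => norm_nonneg _
  set Ig := ∫ w, g w with hIg
  have hIg0 : 0 ≤ Ig := integral_nonneg hg0
  have i0 : Integrable (fun u => ‖k u‖) μ := by
    have := intOn hk hB (F := fun _ => (1 : ℝ)) continuous_const
    simpa using this
  -- the function on the product
  set f : ℂ → ℂ → ℝ := fun u z => ‖k u‖ * g (lin r u z) with hf
  have hdet : ∀ u ∈ Metric.ball (0 : ℂ) 1, ‖u‖ ≤ 1 ∧ 1 / 2 ≤ 1 + r * u.im := by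
    intro u hu
    have hu1 : ‖u‖ ≤ 1 := by
      rw [Metric.mem_ball, dist_zero_right] at hu
      exact hu.le
    refine ⟨hu1, ?_⟩
    have h1 : |u.im| ≤ 1 := (Complex.abs_im_le_norm u).trans hu1
    have h2 := (abs_le.mp h1).1
    nlinarith
  have hinner : ∀ u ∈ Metric.ball (0 : ℂ) 1, Integrable (fun z => f u z) ∧
      ∫ z, f u z = ‖k u‖ * ((1 + r * u.im)⁻¹ * Ig) := by
    intro u hu
    obtain ⟨hu1, -⟩ := hdet u hu
    obtain ⟨-, -, h3, h4⟩ := hL1 r u hra hu1
    refine ⟨(h4 g hgi).const_mul _, ?_⟩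
    simp only [hf]
    rw [integral_const_mul, h3 g]
  have hfm : Measurable (Function.uncurry f) := by
    have h1 : Measurable fun p : ℂ × ℂ => ‖k p.1‖ := (hk.comp measurable_fst).norm
    have h2 : Measurable fun p : ℂ × ℂ => g (lin r p.1 p.2) :=
      (hgc.comp (continuous_lin r)).measurable
    exact h1.mul h2
  have hfi : Integrable (Function.uncurry f) (μ.prod volume) := by
    rw [integrable_prod_iff hfm.aestronglyMeasurable]
    constructor
    · rw [hμ, ae_restrict_iff' measurableSet_ball]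
      exact Eventually.of_forall fun u hu => (hinner u hu).1
    · have h1 : Integrable (fun u => ‖k u‖ * (2 * Ig)) μ := i0.mul_const _
      refine h1.mono' ?_ ?_
      · exact hfm.norm.aestronglyMeasurable.integral_prod_right'
      · rw [hμ, ae_restrict_iff' measurableSet_ball]
        refine Eventually.of_forall fun u hu => ?_
        have h2 : ∫ z, ‖Function.uncurry f (u, z)‖ = ∫ z, f u z := by
          congr 1
          funext z
          exact Real.norm_of_nonneg (mul_nonneg (norm_nonneg _) (hg0 _))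
        rw [h2, (hinner u hu).2]
        have h3 : 0 < 1 + r * u.im := by linarith [(hdet u hu).2]
        have h4 : (1 + r * u.im)⁻¹ ≤ 2 := by
          rw [inv_le_comm₀ h3 (by norm_num)]
          linarith [(hdet u hu).2]
        rw [Real.norm_of_nonneg (by positivity)]
        gcongr
  have hH : Integrable (fun z => ∫ u, f u z ∂μ) := hfi.integral_prod_right
  have hswap : ∫ z, ∫ u, f u z ∂μ = ∫ u, (∫ z, f u z) ∂μ := (integral_integral_swap hfi).symm
  have hbound : ∫ u, (∫ z, f u z) ∂μ ≤ a * (2 * Ig) := by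
    have h1 : ∫ u, (∫ z, f u z) ∂μ ≤ ∫ u, ‖k u‖ * (2 * Ig) ∂μ := by
      refine integral_mono_ae hfi.integral_prod_left (i0.mul_const _) ?_
      rw [hμ, EventuallyLE, ae_restrict_iff' measurableSet_ball]
      refine Eventually.of_forall fun u hu => ?_
      have h3 : 0 < 1 + r * u.im := by linarith [(hdet u hu).2]
      have h4 : (1 + r * u.im)⁻¹ ≤ 2 := by
        rw [inv_le_comm₀ h3 (by norm_num)]
        linarith [(hdet u hu).2]
      show ∫ z, f u z ≤ _
      rw [(hinner u hu).2]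
      gcongr
    rw [integral_mul_const] at h1
    exact h1
  have hz : ∀ z, φ z * ‖∫ u in Metric.ball (0 : ℂ) 1, k u * W (lin r u z)‖ ^ 2 ≤
      a * M * ∫ u, f u z ∂μ := by
    intro z
    have h1 := cs hk hB (hW.comp (continuous_lin_left r z))
    have h2 : φ z * ‖∫ u in Metric.ball (0 : ℂ) 1, k u * W (lin r u z)‖ ^ 2 ≤
        φ z * (a * ∫ u in Metric.ball (0 : ℂ) 1, ‖k u‖ * ‖W (lin r u z)‖ ^ 2) :=
      mul_le_mul_of_nonneg_left h1 (hφ0 z)
    refine h2.trans ?_
    have h3 : φ z * (a * ∫ u in Metric.ball (0 : ℂ) 1, ‖k u‖ * ‖W (lin r u z)‖ ^ 2) =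
        a * ∫ u in Metric.ball (0 : ℂ) 1, φ z * (‖k u‖ * ‖W (lin r u z)‖ ^ 2) := by
      rw [integral_const_mul]
      ring
    have h4 : a * M * ∫ u, f u z ∂μ = a * ∫ u, M * f u z ∂μ := by
      rw [integral_const_mul]
      ring
    rw [h3, h4]
    refine mul_le_mul_of_nonneg_left ?_ ha0
    refine integral_mono_ae ((intOn hk hB ((hW.comp (continuous_lin_left r z)).norm.pow 2)).const_mul
      _) ((intOn hk hB (hgc.comp (continuous_lin_left r z))).const_mul _) ?_
    rw [EventuallyLE, ae_restrict_iff' measurableSet_ball]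
    refine Eventually.of_forall fun u hu => ?_
    have h5 := hpt z u hu
    show φ z * (‖k u‖ * ‖W (lin r u z)‖ ^ 2) ≤ M * (‖k u‖ * g (lin r u z))
    have h6 := mul_le_mul_of_nonneg_left h5 (norm_nonneg (k u))
    linarith
  calc ∫ z, φ z * ‖∫ u in Metric.ball (0 : ℂ) 1, k u * W (lin r u z)‖ ^ 2
      ≤ ∫ z, a * M * ∫ u, f u z ∂μ := by
        refine integral_mono_of_nonneg ?_ (hH.const_mul _) (Eventually.of_forall hz)
        exact Eventually.of_forall fun z => mul_nonneg (hφ0 z) (by positivity)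
    _ = a * M * ∫ z, ∫ u, f u z ∂μ := integral_const_mul _ _
    _ ≤ a * M * (a * (2 * Ig)) := by
        rw [hswap]
        exact mul_le_mul_of_nonneg_left hbound (by positivity)
    _ = 2 * M * a ^ 2 * Ig := by ring

end

end Pool.Agent.A54.Pl
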