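import Pool.Agent.Lib.MP_a54f13_nt.Pl.Spec

/-!
# E3: averaging one factor
-/

set_option autoImplicit false

namespace Pool.Agent.A54.Pl

open MeasureTheory Filter Topology Set
open scoped ContDiff ComplexConjugate UpperHalfPlane MatrixGroups
open Pool.Agent.A54.Half (H0 qq ff hh)

noncomputable section

namespace E3M

/-- Cauchy–Schwarz -/
lemma cs {a b : ℂ → ℝ} (ha : Integrable fun z => a z ^ 2)
    (hb : Integrable fun z => b z ^ 2) (hab : Integrable fun z => a z * b z) :
    |∫ z, a z * b z| ≤ √(∫ z, a z ^ 2) * √(∫ z, b z ^ 2) := by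
  have h1 : ∀ t : ℝ, 0 ≤ (∫ z, a z ^ 2) * (t * t) + (-2 * ∫ z, a z * b z) * t + ∫ z, b z ^ 2 := by
    intro t
    have h2 : 0 ≤ ∫ z, (t * a z - b z) ^ 2 := integral_nonneg fun z => sq_nonneg _
    have h3 : ∫ z, (t * a z - b z) ^ 2 = ∫ z, ((t * t) * a z ^ 2 + (-2 * t) * (a z * b z) +
        b z ^ 2) := by
      congr 1
      funext z
      ring
    have i0 : Integrable fun z => (t * t) * a z ^ 2 := ha.const_mul _
    have i1 : Integrable fun z => (-2 * t) * (a z * b z) := hab.const_mul _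
    have i2 : Integrable fun z => (t * t) * a z ^ 2 + (-2 * t) * (a z * b z) := i0.add i1
    rw [h3, integral_add i2 hb, integral_add i0 i1, integral_const_mul,
      integral_const_mul] at h2
    linarith
  have h2 := discrim_le_zero h1
  unfold discrim at h2
  have h3 : (∫ z, a z * b z) ^ 2 ≤ (∫ z, a z ^ 2) * ∫ z, b z ^ 2 := by nlinarith
  rw [← Real.sqrt_mul (integral_nonneg fun z => sq_nonneg _)]
  exact Real.abs_le_sqrt h3

lemma sq_cpt {P : ℂ → ℝ} (h : HasCompactSupport P) : HasCompactSupport fun z => P z ^ 2 := by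
  have h1 : (fun z => P z ^ 2) = fun z => P z * P z := by
    funext z
    ring
  rw [h1]
  exact h.mul_right

lemma int_sq {P : ℂ → ℝ} (hP : Continuous P) (h : HasCompactSupport P) :
    Integrable fun z => P z ^ 2 :=
  (hP.pow 2).integrable_of_hasCompactSupport (sq_cpt h)

lemma integrable_prod {P F : ℂ → ℝ} (hP : Continuous P) (hPc : HasCompactSupport P)
    (hF : Continuous F) (r : ℝ) : Integrable (fun p : ℂ × ℂ => P p.1 * F (lin r p.2 p.1))
      ((volume : Measure ℂ).prod ((volume : Measure ℂ).restrict (Metric.ball 0 1))) := by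
  have hc : Continuous fun p : ℂ × ℂ => F (lin r p.2 p.1) :=
    hF.comp ((continuous_lin r).comp continuous_swap)
  obtain ⟨B, hB⟩ := ((hPc.isCompact).prod (isCompact_closedBall (0 : ℂ) 1)).exists_bound_of_continuousOn
    hc.continuousOn
  have hg : Integrable (fun p : ℂ × ℂ => |P p.1| * B)
      ((volume : Measure ℂ).prod ((volume : Measure ℂ).restrict (Metric.ball 0 1))) := by
    have hfin : IsFiniteMeasure ((volume : Measure ℂ).restrict (Metric.ball (0 : ℂ) 1)) :=
      ⟨by rw [Measure.restrict_apply_univ]; exact measure_ball_lt_top⟩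
    exact ((hP.integrable_of_hasCompactSupport hPc).abs).mul_prod (integrable_const B)
  refine hg.mono' ((hP.comp continuous_fst).mul hc).aestronglyMeasurable ?_
  have hm : (volume : Measure ℂ).prod ((volume : Measure ℂ).restrict (Metric.ball 0 1)) =
      ((volume : Measure ℂ).prod (volume : Measure ℂ)).restrict (univ ×ˢ Metric.ball 0 1) := by
    rw [← Measure.prod_restrict, Measure.restrict_univ]
  rw [hm]
  refine ae_restrict_of_forall_mem (MeasurableSet.univ.prod measurableSet_ball) ?_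
  rintro ⟨z, u⟩ ⟨-, hu⟩
  simp only at hu ⊢
  rw [norm_mul, Real.norm_eq_abs]
  by_cases hz : z ∈ tsupport P
  · exact mul_le_mul_of_nonneg_left (hB (z, u) ⟨hz, Metric.ball_subset_closedBall hu⟩) (abs_nonneg _)
  · rw [image_eq_zero_of_notMem_tsupport hz]
    simp

/-- The average of one factor is the average of the shifted integrals. -/
lemma average {P F : ℂ → ℝ} (hP : Continuous P) (hPc : HasCompactSupport P)
    (hF : Continuous F) (r M : ℝ)
    (hM : ∀ u ∈ Metric.ball (0 : ℂ) 1, |(∫ z, P z * F (lin r u z)) - ∫ z, P z * F z| ≤ M) :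
    |(∫ z, P z * Ed r F z) - ∫ z, P z * F z| ≤ M := by
  have hI := integrable_prod hP hPc hF r
  have hfin : IsFiniteMeasure ((volume : Measure ℂ).restrict (Metric.ball (0 : ℂ) 1)) :=
    ⟨by rw [Measure.restrict_apply_univ]; exact measure_ball_lt_top⟩
  have h1 : ∫ z, P z * Ed r F z = Real.pi⁻¹ * ∫ u in Metric.ball (0 : ℂ) 1,
      ∫ z, P z * F (lin r u z) := by
    rw [← integral_integral_swap (f := fun z u => P z * F (lin r u z)) hI, ← integral_const_mul]
    congr 1
    funext z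
    rw [integral_const_mul]
    unfold Ed
    rw [smul_eq_mul]
    ring
  have h2 : ∫ z, P z * F z = Real.pi⁻¹ * ∫ _ in Metric.ball (0 : ℂ) 1, ∫ z, P z * F z := by
    rw [setIntegral_const, Measure.real, volume_disc, smul_eq_mul, ← mul_assoc,
      inv_mul_cancel₀ Real.pi_ne_zero, one_mul]
  have hJ : IntegrableOn (fun u => ∫ z, P z * F (lin r u z)) (Metric.ball (0 : ℂ) 1) :=
    hI.integral_prod_right
  have h3 : (∫ z, P z * Ed r F z) - ∫ z, P z * F z = Real.pi⁻¹ *
      ∫ u in Metric.ball (0 : ℂ) 1, ((∫ z, P z * F (lin r u z)) - ∫ z, P z * F z) := by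
    rw [integral_sub hJ (integrable_const _), mul_sub, ← h1, ← h2]
  rw [h3, abs_mul, abs_of_nonneg (inv_nonneg.mpr Real.pi_pos.le)]
  have h4 := norm_setIntegral_le_of_norm_le_const (μ := (volume : Measure ℂ))
    (s := Metric.ball (0 : ℂ) 1) (C := M)
    (f := fun u => (∫ z, P z * F (lin r u z)) - ∫ z, P z * F z) measure_ball_lt_top hM
  rw [Measure.real, volume_disc, Real.norm_eq_abs] at h4
  calc Real.pi⁻¹ * |∫ u in Metric.ball (0 : ℂ) 1, ((∫ z, P z * F (lin r u z)) - ∫ z, P z * F z)|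
      ≤ Real.pi⁻¹ * (M * Real.pi) :=
        mul_le_mul_of_nonneg_left h4 (inv_nonneg.mpr Real.pi_pos.le)
    _ = M := by
        rw [mul_comm M, ← mul_assoc, inv_mul_cancel₀ Real.pi_ne_zero, one_mul]

/-- A cutoff function which is one on a neighbourhood of given width. -/
lemma cutoff {V : Set ℂ} (hV : IsOpen V) {K : Set ℂ} (hK : IsCompact K) (hKV : K ⊆ V) :
    ∃ (ζ : ℂ → ℝ) (δ : ℝ), TestR V ζ ∧ 0 < δ ∧
      ∀ z ∈ K, ∀ w, ‖w - z‖ < δ → ζ w = 1 := by
  obtain ⟨ζ, hζ, -, hone⟩ := exists_cutoff hK hV hKV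
  obtain ⟨O, hO, hKO, hO1⟩ := eventually_nhdsSet_iff_exists.mp hone
  obtain ⟨δ, hδ, hsub⟩ := hK.exists_thickening_subset_open hO hKO
  refine ⟨ζ, δ, hζ, hδ, fun z hz w hw => hO1 w (hsub ?_)⟩
  rw [Metric.mem_thickening_iff]
  exact ⟨z, hz, by rwa [dist_eq_norm]⟩

/-- One shift. -/
lemma shift (hL1 : StmtL1) (hE : StmtE3a) {P F ζ : ℂ → ℝ} {m δ r : ℝ} {u : ℂ}
    (hP : ContDiff ℝ ∞ P) (hPc : HasCompactSupport P) (hF : Continuous F) (hζ : Continuous ζ)
    (hζc : HasCompactSupport ζ) (hm0 : 0 ≤ m)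
    (hm : ∀ z ∈ tsupport P, |z.im| ≤ m) (hδ : 0 < δ)
    (hone : ∀ z ∈ tsupport P, ∀ w, ‖w - z‖ < δ → ζ w = 1) (hr0 : 0 < r) (hr : r ≤ 1 / 4)
    (hrδ : r * (m + 1) ≤ δ / 2) (hu : ‖u‖ ≤ 1) :
    |(∫ z, P z * F (lin r u z)) - ∫ z, P z * F z| ≤
      r * √(∫ z, ζ z ^ 2 * F z ^ 2) * (12 * m * √(∫ z, ‖fderiv ℝ P z‖ ^ 2) +
        2 * √(∫ z, P z ^ 2)) := by
  have hui : |u.im| ≤ 1 := (Complex.abs_im_le_norm u).trans hu
  have hui2 := abs_le.mp hui
  have hd : 3 / 4 ≤ 1 + r * u.im := by nlinarith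
  have hdpos : 0 < 1 + r * u.im := by linarith
  set a' : ℝ := -r / (1 + r * u.im) with ha'
  have ha'abs : |a'| ≤ 2 * r := by
    rw [ha', abs_div, abs_neg, abs_of_pos hr0, abs_of_pos hdpos, div_le_iff₀ hdpos]
    nlinarith
  have ha'half : |a'| ≤ 1 / 2 := by linarith
  have hrabs : |r| ≤ 1 / 2 := by rw [abs_of_pos hr0]; linarith
  obtain ⟨e1, e2, e3, -⟩ := hL1 r u hrabs hu
  obtain ⟨-, -, -, e4⟩ := hL1 a' u ha'half hu
  -- the substitution
  have hsub : ∫ z, P z * F (lin r u z) = (1 + r * u.im)⁻¹ * ∫ w, P (lin a' u w) * F w := by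
    rw [← e3 (fun w => P (lin a' u w) * F w)]
    congr 1
    funext z
    rw [ha', e1 z]
  have hPcont := hP.continuous
  have hPu : Continuous fun w => P (lin a' u w) := hPcont.comp (continuous_lin_right a' u)
  -- where the cutoff function is one
  have hz1 : ∀ w, P w ≠ 0 → ζ w = 1 := by
    intro w hw
    have hw' : w ∈ tsupport P := subset_tsupport P hw
    exact hone w hw' w (by simpa using hδ)
  have hz2 : ∀ w, P (lin a' u w) ≠ 0 → ζ w = 1 := by
    intro w hw
    have hw' : lin a' u w ∈ tsupport P := subset_tsupport P hw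
    refine hone _ hw' w ?_
    have h1 : lin r u (lin a' u w) = w := by rw [ha']; exact e2 w
    have h2 := norm_lin_sub r u (lin a' u w)
    rw [h1] at h2
    rw [h2, abs_of_pos hr0]
    have h3 := hm _ hw'
    have h4 : r * |(lin a' u w).im| * ‖u‖ ≤ r * m * 1 := by
      apply mul_le_mul _ hu (norm_nonneg _) (by positivity)
      exact mul_le_mul_of_nonneg_left h3 hr0.le
    nlinarith
  -- integrability
  have iP2 : Integrable fun z => P z ^ 2 := int_sq hPcont hPc
  have iζF : Integrable fun z => (ζ z * F z) ^ 2 :=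
    int_sq (hζ.mul hF) (HasCompactSupport.mul_right hζc)
  have iPu2 : Integrable fun w => P (lin a' u w) ^ 2 := e4 _ iP2
  have iPuP : Integrable fun w => P (lin a' u w) * P w :=
    (hPu.mul hPcont).integrable_of_hasCompactSupport hPc.mul_left
  have iPF : Integrable fun w => P w * F w :=
    (hPcont.mul hF).integrable_of_hasCompactSupport hPc.mul_right
  have iPuF : Integrable fun w => P (lin a' u w) * F w := by
    have h1 : (fun w => P (lin a' u w) * F w) = fun w => (P (lin a' u w) * F w) * ζ w := by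
      funext w
      by_cases hw : P (lin a' u w) = 0
      · rw [hw]; ring
      · rw [hz2 w hw, mul_one]
    rw [h1]
    exact ((hPu.mul hF).mul hζ).integrable_of_hasCompactSupport hζc.mul_left
  have iD2 : Integrable fun w => (P (lin a' u w) - P w) ^ 2 := by
    have h1 : (fun w => (P (lin a' u w) - P w) ^ 2) = fun w => P (lin a' u w) ^ 2 -
        2 * (P (lin a' u w) * P w) + P w ^ 2 := by
      funext w
      ring
    rw [h1]
    exact (iPu2.sub (iPuP.const_mul 2)).add iP2
  have eζF : (fun z => (ζ z * F z) ^ 2) = fun z => ζ z ^ 2 * F z ^ 2 := by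
    funext z
    ring
  -- the two Cauchy–Schwarz estimates
  have c1 : |∫ w, (P (lin a' u w) - P w) * F w| ≤
      √(∫ w, (P (lin a' u w) - P w) ^ 2) * √(∫ z, ζ z ^ 2 * F z ^ 2) := by
    have h1 : (fun w => (P (lin a' u w) - P w) * F w) =
        fun w => (P (lin a' u w) - P w) * (ζ w * F w) := by
      funext w
      by_cases hw : P w = 0
      · by_cases hw' : P (lin a' u w) = 0
        · rw [hw, hw']; ring
        · rw [hz2 w hw', one_mul]
      · rw [hz1 w hw, one_mul]
    have i1 : Integrable fun w => (P (lin a' u w) - P w) * F w := by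
      have h2 : (fun w => (P (lin a' u w) - P w) * F w) =
          fun w => P (lin a' u w) * F w - P w * F w := by
        funext w
        ring
      rw [h2]
      exact iPuF.sub iPF
    have h3 := cs (a := fun w => P (lin a' u w) - P w) (b := fun w => ζ w * F w) iD2 iζF
      (by rw [← h1]; exact i1)
    rw [eζF] at h3
    rw [h1]
    exact h3
  have c2 : |∫ w, P w * F w| ≤ √(∫ w, P w ^ 2) * √(∫ z, ζ z ^ 2 * F z ^ 2) := by
    have h1 : (fun w => P w * F w) = fun w => P w * (ζ w * F w) := by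
      funext w
      by_cases hw : P w = 0
      · rw [hw]; ring
      · rw [hz1 w hw, one_mul]
    have h3 := cs (a := P) (b := fun w => ζ w * F w) iP2 iζF (by rw [← h1]; exact iPF)
    rw [eζF] at h3
    rw [h1]
    exact h3
  -- the shift estimate
  have hE1 := hE a' m u P ha'half hu hP hPc hm
  have c3 : √(∫ w, (P (lin a' u w) - P w) ^ 2) ≤ 6 * r * m * √(∫ z, ‖fderiv ℝ P z‖ ^ 2) := by
    rw [Real.sqrt_le_left (by positivity)]
    refine hE1.trans ?_
    rw [mul_pow, Real.sq_sqrt (integral_nonneg fun z => sq_nonneg _)]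
    have h1 : a' ^ 2 ≤ (2 * r) ^ 2 := by
      rw [← sq_abs]
      exact pow_le_pow_left₀ (abs_nonneg _) ha'abs 2
    have h2 : 0 ≤ ∫ z, ‖fderiv ℝ P z‖ ^ 2 := integral_nonneg fun z => sq_nonneg _
    apply mul_le_mul_of_nonneg_right _ h2
    nlinarith [mul_nonneg (sq_nonneg r) (sq_nonneg m), mul_le_mul_of_nonneg_right h1 (sq_nonneg m)]
  -- conclusion
  have hdec : (∫ z, P z * F (lin r u z)) - ∫ z, P z * F z =
      (1 + r * u.im)⁻¹ * (∫ w, (P (lin a' u w) - P w) * F w) +
        ((1 + r * u.im)⁻¹ - 1) * ∫ w, P w * F w := by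
    have h2 : (fun w => (P (lin a' u w) - P w) * F w) =
        fun w => P (lin a' u w) * F w - P w * F w := by
      funext w
      ring
    rw [hsub, h2, integral_sub iPuF iPF]
    ring
  have hinv : |(1 + r * u.im)⁻¹| ≤ 2 := by
    rw [abs_of_pos (inv_pos.mpr hdpos), inv_le_comm₀ hdpos (by norm_num)]
    linarith
  have hinv1 : |(1 + r * u.im)⁻¹ - 1| ≤ 2 * r := by
    have h1 : (1 + r * u.im)⁻¹ - 1 = -(r * u.im) / (1 + r * u.im) := by
      field_simp
      ring
    rw [h1, abs_div, abs_neg, abs_of_pos hdpos, div_le_iff₀ hdpos, abs_mul, abs_of_pos hr0]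
    nlinarith [mul_le_mul_of_nonneg_left hui hr0.le]
  set A := √(∫ z, ζ z ^ 2 * F z ^ 2) with hA
  set Q := √(∫ z, ‖fderiv ℝ P z‖ ^ 2) with hQ
  set T := √(∫ w, P w ^ 2) with hT
  have hA0 : 0 ≤ A := Real.sqrt_nonneg _
  have hQ0 : 0 ≤ Q := Real.sqrt_nonneg _
  have hT0 : 0 ≤ T := Real.sqrt_nonneg _
  rw [hdec]
  refine (abs_add_le _ _).trans ?_
  rw [abs_mul, abs_mul]
  have f1 : |(1 + r * u.im)⁻¹| * |∫ w, (P (lin a' u w) - P w) * F w| ≤
      2 * (6 * r * m * Q * A) := by
    apply mul_le_mul hinv _ (abs_nonneg _) (by norm_num)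
    exact c1.trans (mul_le_mul_of_nonneg_right c3 hA0)
  have f2 : |(1 + r * u.im)⁻¹ - 1| * |∫ w, P w * F w| ≤ 2 * r * (T * A) :=
    mul_le_mul hinv1 c2 (abs_nonneg _) (by positivity)
  calc _ ≤ 2 * (6 * r * m * Q * A) + 2 * r * (T * A) := add_le_add f1 f2
    _ = r * A * (12 * m * Q + 2 * T) := by ring

end E3M

open E3M in
theorem stmtE3 (hL1 : StmtL1) (h : StmtE3a) : StmtE3 := by
  intro V hV hVH φ hφ
  obtain ⟨ζ, δ, hζ, hδ, hone⟩ := cutoff hV hφ.cpt.isCompact hφ.sub
  obtain ⟨m, hm⟩ := hφ.cpt.isCompact.exists_bound_of_continuousOn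
    (f := fun z : ℂ => z.im) Complex.continuous_im.continuousOn
  obtain ⟨M0, hM0⟩ := hφ.cpt.exists_bound_of_continuous hφ.smooth.continuous
  have hDφ : Continuous fun w => fderiv ℝ φ w := hφ.smooth.continuous_fderiv (by simp)
  obtain ⟨M1, hM1⟩ := (hφ.cpt.fderiv ℝ).exists_bound_of_continuous hDφ
  set m' : ℝ := max m 0 with hm'
  have hm'0 : 0 ≤ m' := le_max_right _ _
  have hM00 : 0 ≤ M0 := (norm_nonneg _).trans (hM0 0)
  have hM10 : 0 ≤ M1 := (norm_nonneg _).trans (hM1 0)
  refine ⟨ζ, 24 * m' * M0 + 24 * m' * M1 + 2 * M0, min (1 / 4) (δ / (2 * (m' + 1))), hζ,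
    by positivity, by positivity, ?_⟩
  intro r hr0 hrr F G hF hG
  have hr4 : r ≤ 1 / 4 := hrr.trans (min_le_left _ _)
  have hrδ : r * (m' + 1) ≤ δ / 2 := by
    have h1 := hrr.trans (min_le_right _ _)
    rw [le_div_iff₀ (by positivity)] at h1
    linarith
  -- the product
  have hP : ContDiff ℝ ∞ fun z => φ z * G z := hφ.smooth.mul hG
  have hPc : HasCompactSupport fun z => φ z * G z := hφ.cpt.mul_right
  have hPs : tsupport (fun z => φ z * G z) ⊆ tsupport φ :=
    tsupport_mul_subset_left (f := φ) (g := G)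
  have hFc := hF.continuous
  have hGc := hG.continuous
  have hζc := hζ.smooth.continuous
  have hφ0 : ∀ z, z ∉ tsupport φ → φ z = 0 := fun z hz => image_eq_zero_of_notMem_tsupport hz
  have hζ1 : ∀ z ∈ tsupport φ, ζ z = 1 := fun z hz => hone z hz z (by simpa using hδ)
  have hDG : Continuous fun w => fderiv ℝ G w := hG.continuous_fderiv (by simp)
  set A := √(∫ z, ζ z ^ 2 * F z ^ 2) with hA
  set B1 := √(∫ z, ζ z ^ 2 * ‖fderiv ℝ G z‖ ^ 2) with hB1
  set B0 := √(∫ z, ζ z ^ 2 * G z ^ 2) with hB0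
  have hA0 : 0 ≤ A := Real.sqrt_nonneg _
  have hB10 : 0 ≤ B1 := Real.sqrt_nonneg _
  have hB00 : 0 ≤ B0 := Real.sqrt_nonneg _
  have hζ2c : HasCompactSupport fun z => ζ z ^ 2 := sq_cpt hζ.cpt
  have iG : Integrable fun z => ζ z ^ 2 * G z ^ 2 :=
    ((hζc.pow 2).mul (hGc.pow 2)).integrable_of_hasCompactSupport hζ2c.mul_right
  have iDG : Integrable fun z => ζ z ^ 2 * ‖fderiv ℝ G z‖ ^ 2 :=
    ((hζc.pow 2).mul (hDG.norm.pow 2)).integrable_of_hasCompactSupport hζ2c.mul_right
  have hT : √(∫ z, (φ z * G z) ^ 2) ≤ M0 * B0 := by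
    rw [Real.sqrt_le_left (by positivity), mul_pow, hB0,
      Real.sq_sqrt (integral_nonneg fun z => by positivity), ← integral_const_mul]
    refine integral_mono_of_nonneg (Eventually.of_forall fun z => sq_nonneg _)
      (iG.const_mul _) (Eventually.of_forall fun z => ?_)
    simp only
    by_cases hz : z ∈ tsupport φ
    · rw [hζ1 z hz, mul_pow, one_pow, one_mul]
      apply mul_le_mul_of_nonneg_right _ (sq_nonneg _)
      have h1 := hM0 z
      rw [Real.norm_eq_abs] at h1
      rw [← sq_abs]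
      exact pow_le_pow_left₀ (abs_nonneg _) h1 2
    · rw [hφ0 z hz, zero_mul, zero_pow two_ne_zero]
      positivity
  have hQ : √(∫ z, ‖fderiv ℝ (fun z => φ z * G z) z‖ ^ 2) ≤ 2 * M0 * B1 + 2 * M1 * B0 := by
    rw [Real.sqrt_le_left (by positivity)]
    have h1 : ∫ z, ‖fderiv ℝ (fun z => φ z * G z) z‖ ^ 2 ≤
        ∫ z, (2 * M0 ^ 2 * (ζ z ^ 2 * ‖fderiv ℝ G z‖ ^ 2) +
          2 * M1 ^ 2 * (ζ z ^ 2 * G z ^ 2)) := by
      refine integral_mono_of_nonneg (Eventually.of_forall fun z => sq_nonneg _)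
        ((iDG.const_mul _).add (iG.const_mul _)) (Eventually.of_forall fun z => ?_)
      simp only
      by_cases hz : z ∈ tsupport φ
      · have hd1 : DifferentiableAt ℝ φ z := (hφ.smooth.differentiable (by simp)) z
        have hd2 : DifferentiableAt ℝ G z := (hG.differentiable (by simp)) z
        have h2 : fderiv ℝ (fun z => φ z * G z) z = φ z • fderiv ℝ G z + G z • fderiv ℝ φ z :=
          fderiv_fun_mul hd1 hd2
        have h3 : ‖fderiv ℝ (fun z => φ z * G z) z‖ ≤ M0 * ‖fderiv ℝ G z‖ + M1 * |G z| := by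
          rw [h2]
          refine (norm_add_le _ _).trans ?_
          rw [norm_smul, norm_smul, Real.norm_eq_abs, Real.norm_eq_abs]
          have h4 := hM0 z
          rw [Real.norm_eq_abs] at h4
          have h5 := hM1 z
          have h6 : |G z| * ‖fderiv ℝ φ z‖ ≤ M1 * |G z| := by
            rw [mul_comm]
            exact mul_le_mul_of_nonneg_right h5 (abs_nonneg _)
          have h7 : |φ z| * ‖fderiv ℝ G z‖ ≤ M0 * ‖fderiv ℝ G z‖ :=
            mul_le_mul_of_nonneg_right h4 (norm_nonneg _)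
          linarith
        rw [hζ1 z hz, one_pow, one_mul, one_mul]
        have h8 := pow_le_pow_left₀ (norm_nonneg _) h3 2
        refine h8.trans ?_
        have h9 : |G z| ^ 2 = G z ^ 2 := sq_abs _
        nlinarith [sq_nonneg (M0 * ‖fderiv ℝ G z‖ - M1 * |G z|)]
      · have h2 : fderiv ℝ (fun z => φ z * G z) z = 0 := by
          by_contra hne
          exact hz (hPs (support_fderiv_subset ℝ (Function.mem_support.mpr hne)))
        rw [h2, norm_zero, zero_pow two_ne_zero]
        positivity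
    refine h1.trans ?_
    rw [integral_add (iDG.const_mul _) (iG.const_mul _), integral_const_mul, integral_const_mul]
    have h2 : ∫ z, ζ z ^ 2 * ‖fderiv ℝ G z‖ ^ 2 = B1 ^ 2 := by
      rw [hB1, Real.sq_sqrt (integral_nonneg fun z => by positivity)]
    have h3 : ∫ z, ζ z ^ 2 * G z ^ 2 = B0 ^ 2 := by
      rw [hB0, Real.sq_sqrt (integral_nonneg fun z => by positivity)]
    rw [h2, h3]
    have h4 : 0 ≤ M0 * B1 * (M1 * B0) := by positivity
    nlinarith [sq_nonneg (M0 * B1), sq_nonneg (M1 * B0)]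
  have hmain := average hP.continuous hPc hFc r
    (r * A * (12 * m' * √(∫ z, ‖fderiv ℝ (fun z => φ z * G z) z‖ ^ 2) +
        2 * √(∫ z, (φ z * G z) ^ 2))) (by
      intro u hu
      refine shift hL1 h hP hPc hFc hζc hζ.cpt hm'0 ?_ hδ ?_ hr0 hr4 hrδ ?_
      · intro z hz
        exact (hm z (hPs hz)).trans (le_max_left _ _)
      · intro z hz w hw
        exact hone z (hPs hz) w hw
      · rw [Metric.mem_ball, dist_zero_right] at hu
        exact hu.le)
  have e1 : (fun z => φ z * (G z * Ed r F z)) = fun z => (φ z * G z) * Ed r F z := by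
    funext z; ring
  have e2 : (fun z => φ z * (G z * F z)) = fun z => (φ z * G z) * F z := by
    funext z; ring
  rw [e1, e2]
  refine hmain.trans ?_
  have f1 : 12 * m' * √(∫ z, ‖fderiv ℝ (fun z => φ z * G z) z‖ ^ 2) +
        2 * √(∫ z, (φ z * G z) ^ 2) ≤
      (24 * m' * M0 + 24 * m' * M1 + 2 * M0) * (B1 + B0) := by
    have g1 : 12 * m' * √(∫ z, ‖fderiv ℝ (fun z => φ z * G z) z‖ ^ 2) ≤
        12 * m' * (2 * M0 * B1 + 2 * M1 * B0) := mul_le_mul_of_nonneg_left hQ (by positivity)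
    have g2 : 0 ≤ m' * M0 * B0 := by positivity
    have g3 : 0 ≤ m' * M1 * B1 := by positivity
    have g4 : 0 ≤ M0 * B1 := by positivity
    nlinarith
  calc _ ≤ r * A * ((24 * m' * M0 + 24 * m' * M1 + 2 * M0) * (B1 + B0)) :=
        mul_le_mul_of_nonneg_left f1 (by positivity)
    _ = _ := by ring

end

end Pool.Agent.A54.Pl
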