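import Pool.Agent.Lib.MP_a54f13_nt.Pl.Spec

/-!
# Module E3a: a shift changes a compactly supported smooth function little
-/

set_option autoImplicit false

namespace Pool.Agent.A54.Pl

open MeasureTheory Filter Topology Set
open scoped ContDiff ComplexConjugate UpperHalfPlane MatrixGroups

noncomputable section

namespace E3aM

lemma sq_integral_le {g : ℝ → ℝ} (hg : Continuous g) :
    (∫ s in (0 : ℝ)..1, g s) ^ 2 ≤ ∫ s in (0 : ℝ)..1, g s ^ 2 := by
  obtain ⟨c, hc⟩ : ∃ c, c = ∫ s in (0 : ℝ)..1, g s := ⟨_, rfl⟩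
  rw [← hc]
  have h0 : 0 ≤ ∫ s in (0 : ℝ)..1, (g s - c) ^ 2 :=
    intervalIntegral.integral_nonneg zero_le_one fun s _ => sq_nonneg _
  have h1 : ∫ s in (0 : ℝ)..1, (g s - c) ^ 2 = (∫ s in (0 : ℝ)..1, g s ^ 2) - c ^ 2 := by
    have h2 : ∀ s, (g s - c) ^ 2 = (g s ^ 2 - 2 * c * g s) + c ^ 2 := fun s => by ring
    simp only [h2]
    rw [intervalIntegral.integral_add, intervalIntegral.integral_sub,
      intervalIntegral.integral_const_mul, ← hc]
    · simp
      ring
    all_goals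
      apply Continuous.intervalIntegrable
      fun_prop
  linarith

lemma hasDerivAt_path {P : ℂ → ℝ} (hP : Differentiable ℝ P) (a : ℝ) (u w : ℂ) (s : ℝ) :
    HasDerivAt (fun s : ℝ => P (lin (s * a) u w))
      (fderiv ℝ P (lin (s * a) u w) (((a * w.im : ℝ) : ℂ) * u)) s := by
  have h1 : HasDerivAt (fun s : ℝ => lin (s * a) u w) (((a * w.im : ℝ) : ℂ) * u) s := by
    unfold lin
    have h2 : HasDerivAt (fun s : ℝ => s * a * w.im) (1 * a * w.im) s :=
      ((hasDerivAt_id s).mul_const a).mul_const w.im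
    have h3 := (h2.ofReal_comp.mul_const u).const_add w
    simpa using h3
  exact (hP _).hasFDerivAt.comp_hasDerivAt s h1

lemma pointwise {P : ℂ → ℝ} {a m : ℝ} {u : ℂ} (ha : |a| ≤ 1 / 2) (hu : ‖u‖ ≤ 1)
    (hP : ContDiff ℝ ∞ P) (hm : ∀ z ∈ tsupport P, |z.im| ≤ m) (w : ℂ) :
    (P (lin a u w) - P w) ^ 2 ≤
      ∫ s in (0 : ℝ)..1, 4 * a ^ 2 * m ^ 2 * ‖fderiv ℝ P (lin (s * a) u w)‖ ^ 2 := by
  have hlc : Continuous fun s : ℝ => lin (s * a) u w := by
    unfold lin
    fun_prop
  have hD : Continuous fun s : ℝ => fderiv ℝ P (lin (s * a) u w) :=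
    (hP.continuous_fderiv (by simp)).comp hlc
  have hg : Continuous fun s : ℝ =>
      fderiv ℝ P (lin (s * a) u w) (((a * w.im : ℝ) : ℂ) * u) := hD.clm_apply continuous_const
  have h1 : P (lin a u w) - P w =
      ∫ s in (0 : ℝ)..1, fderiv ℝ P (lin (s * a) u w) (((a * w.im : ℝ) : ℂ) * u) := by
    rw [intervalIntegral.integral_eq_sub_of_hasDerivAt
      (f := fun s : ℝ => P (lin (s * a) u w))
      (fun s _ => hasDerivAt_path (hP.differentiable (by simp)) a u w s)
      (hg.intervalIntegrable _ _)]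
    simp [lin]
  rw [h1]
  refine (sq_integral_le hg).trans ?_
  refine intervalIntegral.integral_mono_on zero_le_one ((hg.pow 2).intervalIntegrable _ _)
    ((continuous_const.mul (hD.norm.pow 2)).intervalIntegrable _ _) fun s hs => ?_
  by_cases hK : lin (s * a) u w ∈ tsupport P
  · have h2 := hm _ hK
    rw [lin_im] at h2
    have h3 : |u.im| ≤ 1 := (Complex.abs_im_le_norm u).trans hu
    have h4 : |s * a * u.im| ≤ 1 / 2 := by
      rw [abs_mul, abs_mul, abs_of_nonneg hs.1]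
      calc s * |a| * |u.im| ≤ 1 * (1 / 2) * 1 := by
            gcongr
            exact hs.2
        _ = 1 / 2 := by norm_num
    have h5 : 1 / 2 ≤ 1 + s * a * u.im := by
      have := (abs_le.mp h4).1
      linarith
    have h6 : |w.im| ≤ 2 * m := by
      rw [abs_mul, abs_of_nonneg (by linarith : (0 : ℝ) ≤ 1 + s * a * u.im)] at h2
      have h7 := abs_nonneg w.im
      nlinarith
    have h7 : |fderiv ℝ P (lin (s * a) u w) (((a * w.im : ℝ) : ℂ) * u)| ≤
        ‖fderiv ℝ P (lin (s * a) u w)‖ * (|a| * (2 * m)) := by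
      rw [← Real.norm_eq_abs]
      refine (ContinuousLinearMap.le_opNorm _ _).trans ?_
      refine mul_le_mul_of_nonneg_left ?_ (norm_nonneg _)
      rw [norm_mul, Complex.norm_real, Real.norm_eq_abs, abs_mul]
      calc |a| * |w.im| * ‖u‖ ≤ |a| * (2 * m) * 1 := by
            gcongr
            have := abs_nonneg w.im
            nlinarith [abs_nonneg a]
        _ = |a| * (2 * m) := by ring
    calc (fderiv ℝ P (lin (s * a) u w) (((a * w.im : ℝ) : ℂ) * u)) ^ 2
        = |fderiv ℝ P (lin (s * a) u w) (((a * w.im : ℝ) : ℂ) * u)| ^ 2 := (sq_abs _).symm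
      _ ≤ (‖fderiv ℝ P (lin (s * a) u w)‖ * (|a| * (2 * m))) ^ 2 := by
          gcongr
      _ = 4 * |a| ^ 2 * m ^ 2 * ‖fderiv ℝ P (lin (s * a) u w)‖ ^ 2 := by ring
      _ = _ := by rw [sq_abs]
  · have h2 : fderiv ℝ P (lin (s * a) u w) = 0 := by
      by_contra h
      exact hK (support_fderiv_subset ℝ (Function.mem_support.mpr h))
    simp [h2]

end E3aM

open E3aM in
theorem stmtE3a (hL1 : StmtL1) : StmtE3a := by
  intro a m u P ha hu hP hc hm
  have hDc : Continuous fun w => fderiv ℝ P w := hP.continuous_fderiv (by simp)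
  have hDcs : HasCompactSupport fun w => ‖fderiv ℝ P w‖ ^ 2 := by
    refine (hc.fderiv ℝ).comp_left (g := fun L : ℂ →L[ℝ] ℝ => ‖L‖ ^ 2) ?_
    simp
  have hDi : Integrable fun w => ‖fderiv ℝ P w‖ ^ 2 :=
    (hDc.norm.pow 2).integrable_of_hasCompactSupport hDcs
  obtain ⟨J, hJ⟩ : ∃ J, J = ∫ w, ‖fderiv ℝ P w‖ ^ 2 := ⟨_, rfl⟩
  have hJ0 : 0 ≤ J := by
    rw [hJ]
    exact integral_nonneg fun w => by positivity
  rw [← hJ]
  have key : ∀ s ∈ Ioc (0 : ℝ) 1, ∫⁻ w, ENNReal.ofReal
      (4 * a ^ 2 * m ^ 2 * ‖fderiv ℝ P (lin (s * a) u w)‖ ^ 2) ≤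
      ENNReal.ofReal (8 * a ^ 2 * m ^ 2 * J) := by
    intro s hs
    have hsa : |s * a| ≤ 1 / 2 := by
      rw [abs_mul, abs_of_nonneg hs.1.le]
      calc s * |a| ≤ 1 * (1 / 2) := by
            gcongr
            exact hs.2
        _ = 1 / 2 := by norm_num
    obtain ⟨-, -, h3, h4⟩ := hL1 (s * a) u hsa hu
    have h5 := h4 _ hDi
    rw [← ofReal_integral_eq_lintegral_ofReal (h5.const_mul _)
      (Eventually.of_forall fun w => by positivity), integral_const_mul,
      h3 (fun w => ‖fderiv ℝ P w‖ ^ 2), ← hJ]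
    refine ENNReal.ofReal_le_ofReal ?_
    have h6 : |u.im| ≤ 1 := (Complex.abs_im_le_norm u).trans hu
    have h7 : |s * a * u.im| ≤ 1 / 2 := by
      rw [abs_mul]
      calc |s * a| * |u.im| ≤ 1 / 2 * 1 := by gcongr
        _ = 1 / 2 := by norm_num
    have h8 : 1 / 2 ≤ 1 + s * a * u.im := by
      have := (abs_le.mp h7).1
      linarith
    have h9 : (1 + s * a * u.im)⁻¹ ≤ 2 := by
      rw [inv_le_comm₀ (by linarith) (by norm_num)]
      linarith
    calc 4 * a ^ 2 * m ^ 2 * ((1 + s * a * u.im)⁻¹ * J)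
        ≤ 4 * a ^ 2 * m ^ 2 * (2 * J) := by gcongr
      _ = 8 * a ^ 2 * m ^ 2 * J := by ring
  have hmain : ∫⁻ w, ENNReal.ofReal ((P (lin a u w) - P w) ^ 2) ≤
      ENNReal.ofReal (8 * a ^ 2 * m ^ 2 * J) := by
    have hmeas : Measurable fun p : ℂ × ℝ => ENNReal.ofReal
        (4 * a ^ 2 * m ^ 2 * ‖fderiv ℝ P (lin (p.2 * a) u p.1)‖ ^ 2) := by
      have h1 : Continuous fun p : ℂ × ℝ => lin (p.2 * a) u p.1 := by
        unfold lin
        fun_prop
      have h2 : Continuous fun p : ℂ × ℝ => fderiv ℝ P (lin (p.2 * a) u p.1) := hDc.comp h1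
      exact (continuous_const.mul (h2.norm.pow 2)).measurable.ennreal_ofReal
    calc ∫⁻ w, ENNReal.ofReal ((P (lin a u w) - P w) ^ 2)
        ≤ ∫⁻ w, ∫⁻ s in Ioc (0 : ℝ) 1, ENNReal.ofReal
            (4 * a ^ 2 * m ^ 2 * ‖fderiv ℝ P (lin (s * a) u w)‖ ^ 2) := by
          refine lintegral_mono fun w => ?_
          refine (ENNReal.ofReal_le_ofReal (pointwise ha hu hP hm w)).trans ?_
          rw [intervalIntegral.integral_of_le zero_le_one]
          have hlc : Continuous fun s : ℝ => lin (s * a) u w := by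
            unfold lin
            fun_prop
          have hD : Continuous fun s : ℝ => fderiv ℝ P (lin (s * a) u w) := hDc.comp hlc
          have hI : IntegrableOn (fun s : ℝ => 4 * a ^ 2 * m ^ 2 *
              ‖fderiv ℝ P (lin (s * a) u w)‖ ^ 2) (Ioc 0 1) :=
            (continuous_const.mul (hD.norm.pow 2)).integrableOn_Ioc
          exact (ofReal_integral_eq_lintegral_ofReal hI
            (Eventually.of_forall fun s => by positivity)).le
      _ = ∫⁻ s in Ioc (0 : ℝ) 1, ∫⁻ w, ENNReal.ofReal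
            (4 * a ^ 2 * m ^ 2 * ‖fderiv ℝ P (lin (s * a) u w)‖ ^ 2) := by
          exact lintegral_lintegral_swap hmeas.aemeasurable
      _ ≤ ∫⁻ s in Ioc (0 : ℝ) 1, ENNReal.ofReal (8 * a ^ 2 * m ^ 2 * J) :=
          setLIntegral_mono measurable_const key
      _ = ENNReal.ofReal (8 * a ^ 2 * m ^ 2 * J) := by
          rw [lintegral_const]
          simp
  have hcl : Continuous fun w => (P (lin a u w) - P w) ^ 2 := by
    have h1 := hP.continuous
    have h2 := continuous_lin_right a u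
    fun_prop
  rw [integral_eq_lintegral_of_nonneg_ae (Eventually.of_forall fun w => sq_nonneg _)
    hcl.aestronglyMeasurable]
  refine ENNReal.toReal_le_of_le_ofReal (by positivity) hmain

end

end Pool.Agent.A54.Pl
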