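import Pool.Agent.Lib.MP_a54f13_nt.Pl.Spec
import Pool.Agent.Lib.MP_a54f13_nt.Dyn.Half3
import Pool.Agent.Lib.MP_a54f13_nt.Half2

/-!
# Module FC: (C) implies (A) on the half-plane
-/

set_option autoImplicit false

namespace Pool.Agent.A54.Pl.FCM

open MeasureTheory Filter Topology Set
open scoped ContDiff ComplexConjugate UpperHalfPlane MatrixGroups
open Pool.Agent.A54.Half (H0 qq ff hh)

noncomputable section

private theorem tanh_lower {x : ℝ} (h0 : 0 ≤ x) (h1 : x ≤ 1) : x / 2 ≤ Real.tanh x := by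
  have ha := Real.exp_pos x
  have hb := Real.exp_pos (-x)
  rw [Real.tanh_eq, le_div_iff₀ (by positivity)]
  have hab : Real.exp x * Real.exp (-x) = 1 := by
    rw [← Real.exp_add, add_neg_cancel, Real.exp_zero]
  have h2 : 1 + 2 * x ≤ Real.exp x * Real.exp x := by
    rw [← Real.exp_add]
    have := Real.add_one_le_exp (x + x)
    linarith
  refine le_of_mul_le_mul_left ?_ ha
  have h3 : Real.exp x * (x / 2 * (Real.exp x + Real.exp (-x))) =
      x / 2 * (Real.exp x * Real.exp x + 1) := by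
    linear_combination (x / 2) * hab
  have h4 : Real.exp x * (Real.exp x - Real.exp (-x)) = Real.exp x * Real.exp x - 1 := by
    linear_combination -hab
  rw [h3, h4]
  nlinarith [mul_nonneg (by linarith : (0 : ℝ) ≤ 1 - x / 2)
    (by linarith : (0 : ℝ) ≤ Real.exp x * Real.exp x - (1 + 2 * x)),
    mul_nonneg h0 (by linarith : (0 : ℝ) ≤ 1 - x)]

private theorem tanh_upper {x : ℝ} (h0 : 0 ≤ x) (h1 : x ≤ 1 / 4) : Real.tanh x ≤ 4 / 3 * x := by
  have ha := Real.exp_pos x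
  have hb := Real.exp_pos (-x)
  rw [Real.tanh_eq, div_le_iff₀ (by positivity)]
  have hab : Real.exp x * Real.exp (-x) = 1 := by
    rw [← Real.exp_add, add_neg_cancel, Real.exp_zero]
  have h2 : 1 - 2 * x ≤ Real.exp (-x) * Real.exp (-x) := by
    rw [← Real.exp_add]
    have := Real.add_one_le_exp (-x + -x)
    linarith
  refine le_of_mul_le_mul_left ?_ hb
  have h3 : Real.exp (-x) * (4 / 3 * x * (Real.exp x + Real.exp (-x))) =
      4 / 3 * x * (1 + Real.exp (-x) * Real.exp (-x)) := by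
    linear_combination (4 / 3 * x) * hab
  have h4 : Real.exp (-x) * (Real.exp x - Real.exp (-x)) = 1 - Real.exp (-x) * Real.exp (-x) := by
    linear_combination hab
  rw [h3, h4]
  nlinarith [mul_nonneg (by linarith : (0 : ℝ) ≤ 1 + 4 / 3 * x)
    (by linarith : (0 : ℝ) ≤ Real.exp (-x) * Real.exp (-x) - (1 - 2 * x)),
    mul_nonneg h0 (by linarith : (0 : ℝ) ≤ 1 / 4 - x)]

private theorem tanh_pos' {x : ℝ} (h0 : 0 < x) (h1 : x ≤ 1) : 0 < Real.tanh x :=
  lt_of_lt_of_le (by linarith) (tanh_lower h0.le h1)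

private theorem hh_lower {t : ℝ} (ht : 1 ≤ t) : 2 / 3 * t⁻¹ ≤ hh t := by
  unfold hh
  have h0 : 0 < t := by linarith
  have h1 : 0 < 1 / 4 + t ^ 2 := by positivity
  have h2 : √(1 / 4 + t ^ 2) ≤ 3 / 2 * t := by
    apply Real.sqrt_le_iff.mpr
    constructor
    · linarith
    · nlinarith
  have h3 : 2 / 3 * t⁻¹ = (3 / 2 * t)⁻¹ := by
    rw [mul_inv]
    norm_num
  rw [h3]
  exact inv_anti₀ (Real.sqrt_pos.mpr h1) h2

private theorem hh_upper {t : ℝ} (ht : 1 ≤ t) : hh t ≤ t⁻¹ := by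
  unfold hh
  have h0 : 0 < t := by linarith
  refine inv_anti₀ h0 ?_
  apply Real.le_sqrt_of_sq_le
  linarith

private theorem cont_form {f : ℍ → ℝ} {t : ℝ} (hf : IsHeckeMaass f t) : Continuous f := by
  have h3 : Continuous (fun z : ℍ => ext f (z : ℂ)) :=
    hf.smooth.continuousOn.comp_continuous UpperHalfPlane.continuous_coe (fun z => z.im_pos)
  have h4 : (fun z : ℍ => ext f (z : ℂ)) = f := funext (Half.ext_coe f)
  rwa [h4] at h3

/-- small discs with centre in the support of a test function -/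
private theorem discs {V : Set ℂ} (hV : IsOpen V) {φ : ℂ → ℝ} (hφ : TestR V φ) :
    ∃ r1 : ℝ, 0 < r1 ∧ ∀ r : ℝ, 0 < r → r ≤ r1 → ∀ z ∈ tsupport φ,
      ∀ u ∈ Metric.ball (0 : ℂ) 1, lin r u z ∈ V := by
  obtain ⟨δ, hδ, hsub⟩ := hφ.cpt.isCompact.exists_cthickening_subset_open hV hφ.sub
  obtain ⟨m, hm⟩ := hφ.cpt.isCompact.exists_bound_of_continuousOn
    (Complex.continuous_im.continuousOn (s := tsupport φ))
  have hm1 : 0 < |m| + 1 := by positivity
  refine ⟨δ / (|m| + 1), by positivity, fun r hr hr1 z hz u hu => ?_⟩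
  apply hsub
  refine Metric.mem_cthickening_of_dist_le _ z _ _ hz ?_
  rw [dist_eq_norm, norm_lin_sub, abs_of_pos hr]
  have h1 : |z.im| ≤ |m| + 1 := by
    have h := hm z hz
    rw [Real.norm_eq_abs] at h
    have h' := le_abs_self m
    linarith
  have h2 : ‖u‖ ≤ 1 := by
    rw [mem_ball_zero_iff] at hu
    exact hu.le
  have h3 : r * (|m| + 1) ≤ δ := (le_div_iff₀ hm1).mp hr1
  calc r * |z.im| * ‖u‖ ≤ r * (|m| + 1) * 1 :=
        mul_le_mul (mul_le_mul_of_nonneg_left h1 hr.le) h2 (norm_nonneg _) (by positivity)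
    _ ≤ δ := by rw [mul_one]; exact h3

/-- the mean square of the mass in discs of radius `tanh (R / t)` -/
private theorem bound (hG2 : StmtG2) {χ : ℂ → ℝ} {V : Set ℂ} (hV : IsOpen V) (hVH : V ⊆ H0)
    (h1 : ∀ z ∈ V, χ z = 1) {f : ℕ → ℍ → ℝ} {t : ℕ → ℝ} (hf : ∀ i, IsHeckeMaass (f i) (t i))
    (ht : Tendsto t atTop atTop) (hC : CondC f t) (N : ℕ) {φ : ℂ → ℝ} (hφ : TestR V φ)
    (h0 : ∀ z, 0 ≤ φ z) {ε : ℝ} (hε : 0 < ε) :
    ∃ R : ℝ, 0 < R ∧ ∀ᶠ i in atTop, 1 ≤ t (i + N) ∧ 0 < R / t (i + N) ∧ R / t (i + N) ≤ 1 / 4 ∧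
      ∫ z, φ z * (Ed (Real.tanh (R / t (i + N))) (fun w => ff χ (f (i + N)) w ^ 2) z - 1) ^ 2 ≤
        ε := by
  obtain ⟨K, C, r0, hK, hC0, hr0, hG⟩ := hG2 φ ⟨hφ.smooth, hφ.cpt, hφ.sub.trans hVH⟩ h0
  obtain ⟨r1, hr1, hd⟩ := discs hV hφ
  have hε' : 0 < ε / (2 * C + 1) := by positivity
  obtain ⟨R, hR, hev⟩ := hC K hK _ hε'
  refine ⟨R, hR, ?_⟩
  have hshift : Tendsto (fun i => i + N) atTop atTop := tendsto_add_atTop_nat N
  have hlim : Tendsto (fun i => R / t i) atTop (𝓝 0) := by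
    have := ht.inv_tendsto_atTop.const_mul R
    rw [mul_zero] at this
    exact this
  have hlim2 : Tendsto (fun i => C * (R / t i) ^ 2) atTop (𝓝 0) := by
    have := (hlim.pow 2).const_mul C
    rw [zero_pow two_ne_zero, mul_zero] at this
    exact this
  have hsmall : ∀ δ : ℝ, 0 < δ → ∀ᶠ i in atTop, R / t i ≤ δ := fun δ hδ =>
    (hlim.eventually_lt_const hδ).mono fun _ h => h.le
  have hall : ∀ᶠ j in atTop, 1 ≤ t j ∧ 0 < R / t j ∧ R / t j ≤ 1 / 4 ∧
      ∫ z, φ z * (Ed (Real.tanh (R / t j)) (fun w => ff χ (f j) w ^ 2) z - 1) ^ 2 ≤ ε := by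
    filter_upwards [hev, ht.eventually_ge_atTop 1, hsmall (1 / 4) (by norm_num), hsmall r0 hr0,
      hsmall (3 / 4 * r1) (by positivity),
      hlim2.eventually_lt_const (show (0 : ℝ) < ε / 2 by positivity)] with j e1 e2 e3 e4 e5 e6
    have htj : 0 < t j := by linarith
    have hpos : 0 < R / t j := by positivity
    refine ⟨e2, hpos, e3, ?_⟩
    have e7 := hG (R / t j) hpos e4 (fun w => f j w ^ 2) ((cont_form (hf j)).pow 2)
      (fun w => sq_nonneg _)
    have hrle : Real.tanh (R / t j) ≤ r1 := by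
      have := tanh_upper hpos.le e3
      linarith
    have hrpos : 0 < Real.tanh (R / t j) := tanh_pos' hpos (by linarith)
    have e8 : ∫ z, φ z * (Ed (Real.tanh (R / t j)) (fun w => ff χ (f j) w ^ 2) z - 1) ^ 2 =
        ∫ z, φ z * (Ed (Real.tanh (R / t j)) (ext fun w => f j w ^ 2) z - 1) ^ 2 := by
      refine integral_congr_ae (Filter.Eventually.of_forall fun z => ?_)
      by_cases hz : z ∈ tsupport φ
      · have e9 : Ed (Real.tanh (R / t j)) (fun w => ff χ (f j) w ^ 2) z =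
            Ed (Real.tanh (R / t j)) (ext fun w => f j w ^ 2) z := by
          refine Ed_congr fun u hu => ?_
          have hu' := hd _ hrpos hrle z hz u hu
          simp only [ff, h1 _ hu', one_mul, ext]
        simp only [e9]
      · have : φ z = 0 := image_eq_zero_of_notMem_tsupport hz
        simp only [this, zero_mul]
    rw [e8]
    refine e7.trans ?_
    have e10 : C * (∫ z in K, (mean (fun w => f j w ^ 2) z (R / t j) - 1) ^ 2) ≤
        C * (ε / (2 * C + 1)) := mul_le_mul_of_nonneg_left e1 hC0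
    have e11 : C * (ε / (2 * C + 1)) ≤ ε / 2 := by
      rw [mul_div_assoc', div_le_div_iff₀ (by positivity) (by norm_num)]
      nlinarith
    linarith
  exact hshift.eventually hall

/-- a sequence which is eventually bounded is bounded -/
private theorem bdd_of_ev {a : ℕ → ℝ} {B : ℝ} (h : ∀ᶠ i in atTop, a i ≤ B) :
    ∃ C : ℝ, ∀ i, a i ≤ C := by
  obtain ⟨i0, hi0⟩ := eventually_atTop.mp h
  refine ⟨|B| + ∑ i ∈ Finset.range i0, |a i|, fun i => ?_⟩
  by_cases hi : i0 ≤ i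
  · have h1 := hi0 i hi
    have h2 : 0 ≤ ∑ i ∈ Finset.range i0, |a i| := Finset.sum_nonneg fun _ _ => abs_nonneg _
    have h3 := le_abs_self B
    linarith
  · have h1 : |a i| ≤ ∑ i ∈ Finset.range i0, |a i| :=
      Finset.single_le_sum (f := fun i => |a i|) (fun _ _ => abs_nonneg _)
        (Finset.mem_range.mpr (not_le.mp hi))
    have h2 := le_abs_self (a i)
    have h3 := abs_nonneg B
    linarith

/-- fourth powers are locally bounded -/
private theorem l4bdd (hG2 : StmtG2) (hT3 : StmtT3) {χ : ℂ → ℝ} {V : Set ℂ} (hV : IsOpen V)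
    (hVH : V ⊆ H0) (h1 : ∀ z ∈ V, χ z = 1) {f : ℕ → ℍ → ℝ} {t : ℕ → ℝ}
    (hf : ∀ i, IsHeckeMaass (f i) (t i)) (ht : Tendsto t atTop atTop) (hC : CondC f t) (N : ℕ)
    (hS : Seq V (qq χ) (fun i => hh (t (i + N))) (fun i => ff χ (f (i + N)))) :
    L4Bdd V (fun i => ff χ (f (i + N))) := by
  intro ζ hζ
  obtain ⟨φ, hφ, hφ0, hT⟩ := hT3 V (qq χ) hVH hS.pot ζ hζ
  obtain ⟨R, hR, hev⟩ := bound hG2 hV hVH h1 hf ht hC N hφ hφ0 one_pos
  obtain ⟨C, h0, hC0, hh0, hTT⟩ := hT (R / 2) (by positivity)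
  have hsm : ∀ᶠ i in atTop, hh (t (i + N)) ≤ h0 :=
    (hS.lim.eventually_lt_const hh0).mono fun _ h => h.le
  apply bdd_of_ev (B := C * (2 * 1 + 2 * ∫ z, φ z))
  filter_upwards [hev, hsm] with i hi hi2
  obtain ⟨e1, e2, e3, e4⟩ := hi
  have ht0 : 0 < t (i + N) := by linarith
  have a1 : R / 2 * hh (t (i + N)) ≤ Real.tanh (R / t (i + N)) := by
    refine le_trans ?_ (tanh_lower e2.le (by linarith))
    have := mul_le_mul_of_nonneg_left (hh_upper e1) (by positivity : (0 : ℝ) ≤ R / 2)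
    calc R / 2 * hh (t (i + N)) ≤ R / 2 * (t (i + N))⁻¹ := this
      _ = R / t (i + N) / 2 := by ring
  have a2 : Real.tanh (R / t (i + N)) ≤ 4 * (R / 2) * hh (t (i + N)) := by
    refine (tanh_upper e2.le e3).trans ?_
    have := mul_le_mul_of_nonneg_left (hh_lower e1) (by positivity : (0 : ℝ) ≤ 4 * (R / 2))
    calc 4 / 3 * (R / t (i + N)) = 4 * (R / 2) * (2 / 3 * (t (i + N))⁻¹) := by ring
      _ ≤ 4 * (R / 2) * hh (t (i + N)) := this
  have a3 := hTT _ _ _ (hS.sol i) hi2 a1 a2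
  refine a3.trans (mul_le_mul_of_nonneg_left ?_ hC0)
  -- the mean square
  set ρ := Real.tanh (R / t (i + N)) with hρ
  set E : ℂ → ℝ := Ed ρ (fun w => ff χ (f (i + N)) w ^ 2) with hE
  have hEc : Continuous E := continuous_Ed ((hS.sol i).smooth.continuous.pow 2) ρ
  have i1 : Integrable fun z => φ z * (E z - 1) ^ 2 :=
    (hφ.smooth.continuous.mul ((hEc.sub continuous_const).pow 2)).integrable_of_hasCompactSupport
      hφ.cpt.mul_right
  have i2 : Integrable fun z => φ z * E z ^ 2 :=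
    (hφ.smooth.continuous.mul (hEc.pow 2)).integrable_of_hasCompactSupport hφ.cpt.mul_right
  have i3 : Integrable φ := hφ.smooth.continuous.integrable_of_hasCompactSupport hφ.cpt
  calc ∫ z, φ z * E z ^ 2 ≤ ∫ z, (2 * (φ z * (E z - 1) ^ 2) + 2 * φ z) := by
        refine integral_mono i2 ((i1.const_mul 2).add (i3.const_mul 2)) fun z => ?_
        have : 0 ≤ φ z * (E z - 2) ^ 2 := mul_nonneg (hφ0 z) (sq_nonneg _)
        simp only
        nlinarith
    _ = 2 * (∫ z, φ z * (E z - 1) ^ 2) + 2 * ∫ z, φ z := by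
        rw [integral_add (i1.const_mul 2) (i3.const_mul 2), integral_const_mul, integral_const_mul]
    _ ≤ 2 * 1 + 2 * ∫ z, φ z := by linarith

end

end Pool.Agent.A54.Pl.FCM

namespace Pool.Agent.A54.Pl

open MeasureTheory Filter Topology Set
open scoped ContDiff ComplexConjugate UpperHalfPlane MatrixGroups
open Pool.Agent.A54.Half (H0 qq ff hh)

theorem stmtFC (hI : StmtInt) (hL : StmtLap) (hNA : Dyn.StmtNAf) (hT2 : StmtT2) (hT3 : StmtT3)
    (hG2 : StmtG2) : StmtFC := by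
  intro f t hf ht hC φ hφ
  obtain ⟨χ, V, hχ, h01, hV, hVH, h1, hsub⟩ := Half.setup hφ
  have hφV : TestR V φ := ⟨hφ.smooth, hφ.cpt, hsub⟩
  obtain ⟨N, hN⟩ := Half.exists_N ht
  have hS := Half2.seq hL hχ h01 hV hVH h1 hf ht hN
  have hb : L4Bdd V (fun i => ff χ (f (i + N))) := FCM.l4bdd hG2 hT3 hV hVH h1 hf ht hC N hS
  have hna := Dyn.Half3M.naloc hNA ⟨hf, ht⟩ hχ hVH h1 N
  have hyp : ∀ φ : ℂ → ℝ, TestR V φ → (∀ z, 0 ≤ φ z) → ∀ ε : ℝ, 0 < ε → ∃ (R : ℝ) (ρ : ℕ → ℝ),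
      ∀ᶠ i in atTop, 0 < ρ i ∧ ρ i ≤ R * hh (t (i + N)) ∧
        ∫ z, φ z * (Ed (ρ i) (fun w => ff χ (f (i + N)) w ^ 2) z - 1) ^ 2 ≤ ε := by
    intro φ' hφ' h0' ε hε
    obtain ⟨R, hR, hev⟩ := FCM.bound hG2 hV hVH h1 hf ht hC N hφ' h0' hε
    refine ⟨2 * R, fun i => Real.tanh (R / t (i + N)), ?_⟩
    filter_upwards [hev] with i hi
    obtain ⟨e1, e2, e3, e4⟩ := hi
    refine ⟨FCM.tanh_pos' e2 (by linarith), ?_, e4⟩
    refine (FCM.tanh_upper e2.le e3).trans ?_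
    have := mul_le_mul_of_nonneg_left (FCM.hh_lower e1) (by positivity : (0 : ℝ) ≤ 2 * R)
    calc 4 / 3 * (R / t (i + N)) = 2 * R * (2 / 3 * (t (i + N))⁻¹) := by ring
      _ ≤ 2 * R * hh (t (i + N)) := this
  obtain ⟨hA2, hA4⟩ := hT2 V _ _ _ hVH hS hb hna hyp
  have hw := Half.testR_weight hVH hφV
  constructor
  · rw [← tendsto_add_atTop_iff_nat N, Half.int_eq_one hI hVH hφV]
    refine (hA2 _ hw).congr fun i => ?_
    rw [Half.int_eq hI hVH h1 hφV]
  · rw [← tendsto_add_atTop_iff_nat N, Half.int_eq_one hI hVH hφV]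
    refine (hA4 _ hw).congr fun i => ?_
    rw [Half.int_eq hI hVH h1 hφV]

end Pool.Agent.A54.Pl
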