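import Pool.Agent.Lib.MP_a54f13_nt.Pl.Spec

/-!
# Hyperbolic balls are Euclidean discs
-/

set_option autoImplicit false
set_option linter.unusedSectionVars false

namespace Pool.Agent.A54.Pl.G0M

open MeasureTheory Filter Topology Set
open scoped ContDiff ComplexConjugate UpperHalfPlane MatrixGroups
open Pool.Agent.A54.Half (H0 qq ff hh)

noncomputable section

lemma tanh_pos {r : ℝ} (hr : 0 < r) : 0 < Real.tanh r := by
  rw [Real.tanh_eq_sinh_div_cosh]
  exact div_pos (Real.sinh_pos_iff.mpr hr) (Real.cosh_pos r)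

lemma tanh_mul_cosh (r : ℝ) : Real.tanh r * Real.cosh r = Real.sinh r := by
  rw [Real.tanh_eq_sinh_div_cosh, div_mul_cancel₀ _ (Real.cosh_pos r).ne']

lemma one_sub_tanh (r : ℝ) : (1 - Real.tanh r) * Real.cosh r = Real.exp (-r) := by
  rw [sub_mul, tanh_mul_cosh, one_mul, Real.cosh_sub_sinh]

lemma one_add_tanh (r : ℝ) : (1 + Real.tanh r) * Real.cosh r = Real.exp r := by
  rw [add_mul, tanh_mul_cosh, one_mul, Real.cosh_add_sinh]

lemma tanh_lt_one (r : ℝ) : Real.tanh r < 1 := by
  have h1 := one_sub_tanh r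
  have h2 := Real.exp_pos (-r)
  have h3 := Real.cosh_pos r
  by_contra h
  have h4 : (1 - Real.tanh r) * Real.cosh r ≤ 0 :=
    mul_nonpos_of_nonpos_of_nonneg (by linarith) h3.le
  linarith

/-- the weight -/
def kk (a : ℝ) (u : ℂ) : ℝ := ((1 + a * u.im) ^ 2)⁻¹

lemma kk_base {r : ℝ} (hr : 0 < r) {u : ℂ} (hu : ‖u‖ ≤ 1) :
    Real.exp (-r) ≤ (1 + Real.tanh r * u.im) * Real.cosh r ∧
    (1 + Real.tanh r * u.im) * Real.cosh r ≤ Real.exp r := by
  have h1 := abs_le.mp ((Complex.abs_im_le_norm u).trans hu)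
  have h2 := tanh_pos hr
  have h3 := Real.cosh_pos r
  rw [← one_sub_tanh, ← one_add_tanh]
  constructor
  · apply mul_le_mul_of_nonneg_right _ h3.le
    nlinarith
  · apply mul_le_mul_of_nonneg_right _ h3.le
    nlinarith

lemma kk_pos_base {r : ℝ} (hr : 0 < r) {u : ℂ} (hu : ‖u‖ ≤ 1) :
    0 < 1 + Real.tanh r * u.im := by
  have h1 := (kk_base hr hu).1
  have h2 := Real.exp_pos (-r)
  have h3 := Real.cosh_pos r
  exact pos_of_mul_pos_left (lt_of_lt_of_le h2 h1) h3.le

lemma kk_bounds {r : ℝ} (hr : 0 < r) {u : ℂ} (hu : ‖u‖ ≤ 1) :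
    Real.cosh r ^ 2 * Real.exp (-2 * r) ≤ kk (Real.tanh r) u ∧
    kk (Real.tanh r) u ≤ Real.cosh r ^ 2 * Real.exp (2 * r) := by
  obtain ⟨h1, h2⟩ := kk_base hr hu
  have h3 := Real.cosh_pos r
  have h4 := kk_pos_base hr hu
  have e1 : Real.exp (-2 * r) = (Real.exp r ^ 2)⁻¹ := by
    rw [← Real.exp_nat_mul, ← Real.exp_neg]; congr 1; push_cast; ring
  have e2 : Real.exp (2 * r) = (Real.exp (-r) ^ 2)⁻¹ := by
    rw [← Real.exp_nat_mul, ← Real.exp_neg]; congr 1; push_cast; ring
  have e3 : kk (Real.tanh r) u =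
      Real.cosh r ^ 2 * (((1 + Real.tanh r * u.im) * Real.cosh r) ^ 2)⁻¹ := by
    unfold kk
    field_simp
  rw [e1, e2, e3]
  have h5 : 0 < (1 + Real.tanh r * u.im) * Real.cosh r := mul_pos h4 h3
  constructor
  · apply mul_le_mul_of_nonneg_left _ (by positivity)
    apply inv_anti₀ (by positivity)
    exact pow_le_pow_left₀ h5.le h2 2
  · apply mul_le_mul_of_nonneg_left _ (by positivity)
    apply inv_anti₀ (by positivity)
    exact pow_le_pow_left₀ (Real.exp_pos _).le h1 2

lemma int_ball (hInt : StmtInt) (F : ℍ → ℝ) (z : ℍ) (r : ℝ) :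
    ∫ w in Metric.ball z r, F w =
      ∫ w in Metric.ball ((z.center r : ℍ) : ℂ) (z.im * Real.sinh r), ext F w / w.im ^ 2 := by
  set B : Set ℂ := Metric.ball ((z.center r : ℍ) : ℂ) (z.im * Real.sinh r) with hB
  have h0 : ∀ w : ℂ, w.im ≤ 0 → B.indicator (ext F) w = 0 := by
    intro w hw
    rw [indicator_of_notMem]
    intro hmem
    exact absurd (UpperHalfPlane.im_pos_of_dist_center_le (Metric.mem_ball.1 hmem).le)
      (not_lt.2 hw)
  have h1 := hInt.1 (B.indicator (ext F)) h0
  have h2 : ∫ w : ℍ, B.indicator (ext F) w = ∫ w in Metric.ball z r, F w := by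
    rw [← integral_indicator Metric.isOpen_ball.measurableSet]
    congr 1
    funext w
    by_cases hw : w ∈ Metric.ball z r
    · have hw' : (w : ℂ) ∈ B := UpperHalfPlane.dist_lt_iff_dist_coe_center_lt.1 hw
      rw [indicator_of_mem hw, indicator_of_mem hw']
      unfold ext
      rw [UpperHalfPlane.ofComplex_apply]
    · have hw' : (w : ℂ) ∉ B := fun h => hw (UpperHalfPlane.dist_lt_iff_dist_coe_center_lt.2 h)
      rw [indicator_of_notMem hw, indicator_of_notMem hw']
  rw [← h2, h1, ← integral_indicator measurableSet_ball]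
  congr 1
  funext w
  by_cases hw : w ∈ B
  · rw [indicator_of_mem hw, indicator_of_mem hw]
  · rw [indicator_of_notMem hw, indicator_of_notMem hw, zero_div]

lemma cov (c : ℂ) {R : ℝ} (hR : 0 < R) (g : ℂ → ℝ) :
    ∫ w in Metric.ball c R, g w = R ^ 2 * ∫ u in Metric.ball (0 : ℂ) 1, g (c + R • u) := by
  set h : ℂ → ℝ := (Metric.ball c R).indicator g with hh
  have h1 : ∫ u : ℂ, h (c + R • u) = |(R ^ Module.finrank ℝ ℂ)⁻¹| • ∫ w, h (c + w) :=
    Measure.integral_comp_smul volume (fun w => h (c + w)) R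
  have h2 : ∫ w, h (c + w) = ∫ w, h w := integral_add_left_eq_self h c
  have h3 : ∫ w, h w = ∫ w in Metric.ball c R, g w := integral_indicator measurableSet_ball
  have h4 : ∫ u : ℂ, h (c + R • u) = ∫ u in Metric.ball (0 : ℂ) 1, g (c + R • u) := by
    rw [← integral_indicator measurableSet_ball]
    congr 1
    funext u
    have key : c + R • u ∈ Metric.ball c R ↔ u ∈ Metric.ball (0 : ℂ) 1 := by
      rw [Metric.mem_ball, Metric.mem_ball, dist_eq_norm, dist_zero_right, add_sub_cancel_left,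
        norm_smul, Real.norm_eq_abs, abs_of_pos hR]
      constructor
      · intro h
        by_contra h'
        nlinarith [not_lt.1 h']
      · intro h
        nlinarith
    by_cases hu : u ∈ Metric.ball (0 : ℂ) 1
    · rw [hh, indicator_of_mem (key.2 hu), indicator_of_mem hu]
    · rw [hh, indicator_of_notMem (fun h => hu (key.1 h)), indicator_of_notMem hu]
  rw [h4, h2, h3, Complex.finrank_real_complex, abs_of_pos (by positivity), smul_eq_mul] at h1
  rw [h1]
  field_simp

/-- the numerator -/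
def NN (F : ℍ → ℝ) (z : ℍ) (r : ℝ) : ℝ :=
  ∫ u in Metric.ball (0 : ℂ) 1, ext F (lin (Real.tanh r) u ((z.center r : ℍ) : ℂ)) *
    kk (Real.tanh r) u

/-- the denominator -/
def DD (r : ℝ) : ℝ := ∫ u in Metric.ball (0 : ℂ) 1, kk (Real.tanh r) u

lemma center_im' (z : ℍ) (r : ℝ) : ((z.center r : ℍ) : ℂ).im = z.im * Real.cosh r := rfl

lemma center_coe (z : ℍ) (r : ℝ) :
    ((z.center r : ℍ) : ℂ) = (z.re : ℂ) + ((z.im * Real.cosh r : ℝ) : ℂ) * Complex.I := by
  apply Complex.ext
  · show z.re = _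
    simp
  · show z.im * Real.cosh r = _
    simp

lemma int_ball' (hInt : StmtInt) (F : ℍ → ℝ) (z : ℍ) {r : ℝ} (hr : 0 < r) :
    ∫ w in Metric.ball z r, F w = Real.tanh r ^ 2 * NN F z r := by
  have hs := Real.sinh_pos_iff.mpr hr
  have hc := Real.cosh_pos r
  have hz := z.im_pos
  rw [int_ball hInt, cov _ (mul_pos hz hs)]
  unfold NN
  rw [← integral_const_mul, ← integral_const_mul]
  apply setIntegral_congr_fun measurableSet_ball
  intro u hu
  have hu1 : ‖u‖ ≤ 1 := by
    rw [Metric.mem_ball, dist_zero_right] at hu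
    exact hu.le
  have h1 : ((z.center r : ℍ) : ℂ) + (z.im * Real.sinh r) • u =
      lin (Real.tanh r) u ((z.center r : ℍ) : ℂ) := by
    unfold lin
    rw [center_im', Complex.real_smul]
    congr 3
    rw [← tanh_mul_cosh]; ring
  have h2 : (lin (Real.tanh r) u ((z.center r : ℍ) : ℂ)).im =
      z.im * Real.cosh r * (1 + Real.tanh r * u.im) := by
    rw [lin_im, center_im']
  have h3 := kk_pos_base hr hu1
  simp only
  rw [h1, h2]
  unfold kk
  rw [← tanh_mul_cosh]
  field_simp

lemma continuousOn_ext {F : ℍ → ℝ} (hF : Continuous F) : ContinuousOn (ext F) H0 := by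
  rw [continuousOn_iff_continuous_domRestrict]
  have h : H0.domRestrict (ext F) = fun w : H0 => F ⟨w.1, w.2⟩ := by
    funext w
    show ext F w.1 = _
    unfold ext
    rw [UpperHalfPlane.ofComplex_apply_of_im_pos w.2]
  rw [h]
  exact hF.comp (Continuous.upperHalfPlaneMk continuous_subtype_val (fun w => w.2))

lemma continuousOn_kk {r : ℝ} (hr : 0 < r) :
    ContinuousOn (kk (Real.tanh r)) (Metric.closedBall (0 : ℂ) 1) := by
  unfold kk
  apply ContinuousOn.inv₀
  · fun_prop
  · intro u hu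
    rw [Metric.mem_closedBall, dist_zero_right] at hu
    have := kk_pos_base hr hu
    positivity

lemma integrableOn_kk {r : ℝ} (hr : 0 < r) :
    IntegrableOn (kk (Real.tanh r)) (Metric.ball (0 : ℂ) 1) :=
  ((continuousOn_kk hr).integrableOn_compact (isCompact_closedBall (0 : ℂ) 1)).mono_set
    Metric.ball_subset_closedBall

lemma norm_of_mem {u : ℂ} (hu : u ∈ Metric.ball (0 : ℂ) 1) : ‖u‖ ≤ 1 := by
  rw [Metric.mem_ball, dist_zero_right] at hu
  exact hu.le

lemma volume_disc' : (volume : Measure ℂ).real (Metric.ball (0 : ℂ) 1) = Real.pi := volume_disc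

lemma integrableOn_c (c : ℝ) : IntegrableOn (fun _ : ℂ => c) (Metric.ball (0 : ℂ) 1) := by
  refine integrableOn_const ?_
  exact (measure_ball_lt_top).ne

lemma DD_bounds {r : ℝ} (hr : 0 < r) :
    Real.pi * (Real.cosh r ^ 2 * Real.exp (-2 * r)) ≤ DD r ∧
    DD r ≤ Real.pi * (Real.cosh r ^ 2 * Real.exp (2 * r)) := by
  unfold DD
  constructor
  · have h : ∫ _u in Metric.ball (0 : ℂ) 1, (Real.cosh r ^ 2 * Real.exp (-2 * r)) =
        Real.pi * (Real.cosh r ^ 2 * Real.exp (-2 * r)) := by
      rw [setIntegral_const, volume_disc', smul_eq_mul]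
    rw [← h]
    exact setIntegral_mono_on (integrableOn_c _) (integrableOn_kk hr) measurableSet_ball
      fun u hu => (kk_bounds hr (norm_of_mem hu)).1
  · have h : ∫ _u in Metric.ball (0 : ℂ) 1, (Real.cosh r ^ 2 * Real.exp (2 * r)) =
        Real.pi * (Real.cosh r ^ 2 * Real.exp (2 * r)) := by
      rw [setIntegral_const, volume_disc', smul_eq_mul]
    rw [← h]
    exact setIntegral_mono_on (integrableOn_kk hr) (integrableOn_c _) measurableSet_ball
      fun u hu => (kk_bounds hr (norm_of_mem hu)).2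

lemma DD_pos {r : ℝ} (hr : 0 < r) : 0 < DD r := by
  have h1 := (DD_bounds hr).1
  have h2 := Real.pi_pos
  have h3 := Real.cosh_pos r
  refine lt_of_lt_of_le ?_ h1
  positivity

lemma NN_one (z : ℍ) (r : ℝ) : NN (fun _ => 1) z r = DD r := by
  unfold NN DD ext
  simp

lemma mean_eq (hInt : StmtInt) (F : ℍ → ℝ) (z : ℍ) {r : ℝ} (hr : 0 < r) :
    mean F z r = NN F z r / DD r := by
  have ht := tanh_pos hr
  have h1 : (volume : Measure ℍ).real (Metric.ball z r) = Real.tanh r ^ 2 * DD r := by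
    have h2 := int_ball' hInt (fun _ => 1) z hr
    rw [setIntegral_const, smul_eq_mul, mul_one, NN_one] at h2
    exact h2
  unfold mean
  rw [setAverage_eq, h1, int_ball' hInt F z hr, smul_eq_mul]
  have h3 := (DD_pos hr).ne'
  field_simp

/-- retraction onto the closed unit disc -/
def pr (u : ℂ) : ℂ := ((max 1 ‖u‖)⁻¹ : ℝ) • u

lemma norm_pr (u : ℂ) : ‖pr u‖ ≤ 1 := by
  unfold pr
  have h1 : 0 < max 1 ‖u‖ := lt_of_lt_of_le one_pos (le_max_left _ _)
  rw [norm_smul, Real.norm_eq_abs, abs_of_pos (inv_pos.mpr h1), inv_mul_le_iff₀ h1, mul_one]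
  exact le_max_right _ _

lemma pr_eq {u : ℂ} (h : ‖u‖ ≤ 1) : pr u = u := by
  unfold pr
  rw [max_eq_left h, inv_one, one_smul]

lemma continuous_pr : Continuous pr := by
  unfold pr
  have h1 : Continuous fun u : ℂ => (max 1 ‖u‖)⁻¹ := by
    apply Continuous.inv₀
    · exact continuous_const.max continuous_norm
    · intro u
      exact (lt_of_lt_of_le one_pos (le_max_left _ _)).ne'
  exact h1.smul continuous_id

lemma continuous_center (r : ℝ) : Continuous fun z : ℍ => ((z.center r : ℍ) : ℂ) := by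
  have h : (fun z : ℍ => ((z.center r : ℍ) : ℂ)) =
      fun z : ℍ => (z.re : ℂ) + ((z.im * Real.cosh r : ℝ) : ℂ) * Complex.I := by
    funext z
    exact center_coe z r
  rw [h]
  exact (Complex.continuous_ofReal.comp UpperHalfPlane.continuous_re).add
    ((Complex.continuous_ofReal.comp (UpperHalfPlane.continuous_im.mul continuous_const)).mul
      continuous_const)

lemma continuous_NN {F : ℍ → ℝ} (hF : Continuous F) {r : ℝ} (hr : 0 < r) :
    Continuous fun z : ℍ => NN F z r := by
  have ht := tanh_pos hr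
  have ht1 := tanh_lt_one r
  let f : ℍ → ℂ → ℝ := fun z u =>
    ext F (lin (Real.tanh r) (pr u) ((z.center r : ℍ) : ℂ)) * kk (Real.tanh r) (pr u)
  have h1 : (fun z : ℍ => NN F z r) = fun z => ∫ u in Metric.closedBall (0 : ℂ) 1, f z u := by
    funext z
    unfold NN
    rw [setIntegral_congr_set ball_ae_closedBall]
    apply setIntegral_congr_fun measurableSet_closedBall
    intro u hu
    rw [Metric.mem_closedBall, dist_zero_right] at hu
    simp only [f]
    rw [pr_eq hu]
  rw [h1]
  have hcont : Continuous (Function.uncurry f) := by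
    have h2 : Continuous fun q : ℍ × ℂ =>
        lin (Real.tanh r) (pr q.2) ((q.1.center r : ℍ) : ℂ) :=
      (continuous_lin (Real.tanh r)).comp
        ((continuous_pr.comp continuous_snd).prodMk ((continuous_center r).comp continuous_fst))
    have h3 : Continuous fun q : ℍ × ℂ =>
        ext F (lin (Real.tanh r) (pr q.2) ((q.1.center r : ℍ) : ℂ)) :=
      (continuousOn_ext hF).comp_continuous h2 fun q =>
        lin_mem_H0 ht.le ht1 (norm_pr q.2) (q.1.center r).im_pos
    have h4 : Continuous fun q : ℍ × ℂ => kk (Real.tanh r) (pr q.2) :=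
      (continuousOn_kk hr).comp_continuous (continuous_pr.comp continuous_snd) fun q => by
        rw [Metric.mem_closedBall, dist_zero_right]
        exact norm_pr q.2
    exact h3.mul h4
  exact continuous_parametric_integral_of_continuous hcont (isCompact_closedBall (0 : ℂ) 1)

lemma NN_bounds {F : ℍ → ℝ} (hF : Continuous F) (h0 : ∀ z, 0 ≤ F z) (z : ℍ) {r : ℝ} (hr : 0 < r) :
    Real.pi * (Real.cosh r ^ 2 * Real.exp (-2 * r)) *
        Ed (Real.tanh r) (ext F) ((z.center r : ℍ) : ℂ) ≤ NN F z r ∧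
    NN F z r ≤ Real.pi * (Real.cosh r ^ 2 * Real.exp (2 * r)) *
        Ed (Real.tanh r) (ext F) ((z.center r : ℍ) : ℂ) := by
  have ht := tanh_pos hr
  have ht1 := tanh_lt_one r
  have hi : IntegrableOn (fun u => ext F (lin (Real.tanh r) u ((z.center r : ℍ) : ℂ)))
      (Metric.ball (0 : ℂ) 1) :=
    integrableOn_lin' (continuousOn_ext hF) ht.le ht1 (z.center r).im_pos
  have hi2 : IntegrableOn (fun u => ext F (lin (Real.tanh r) u ((z.center r : ℍ) : ℂ)) *
      kk (Real.tanh r) u) (Metric.ball (0 : ℂ) 1) := by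
    have h1 : ContinuousOn (fun u => ext F (lin (Real.tanh r) u ((z.center r : ℍ) : ℂ)))
        (Metric.closedBall (0 : ℂ) 1) :=
      (continuousOn_ext hF).comp (continuous_lin_left _ _).continuousOn fun u hu =>
        lin_mem_H0 ht.le ht1 (by simpa using hu) (z.center r).im_pos
    exact ((h1.mul (continuousOn_kk hr)).integrableOn_compact
      (isCompact_closedBall (0 : ℂ) 1)).mono_set Metric.ball_subset_closedBall
  have hE : ∀ m : ℝ, Real.pi * m * Ed (Real.tanh r) (ext F) ((z.center r : ℍ) : ℂ) =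
      ∫ u in Metric.ball (0 : ℂ) 1, m * ext F (lin (Real.tanh r) u ((z.center r : ℍ) : ℂ)) := by
    intro m
    unfold Ed
    rw [integral_const_mul, smul_eq_mul]
    have := Real.pi_ne_zero
    field_simp
  have hx : ∀ w, 0 ≤ ext F w := fun w => h0 _
  rw [hE, hE]
  unfold NN
  constructor
  · refine setIntegral_mono_on (hi.const_mul _) hi2 measurableSet_ball fun u hu => ?_
    rw [mul_comm]
    exact mul_le_mul_of_nonneg_left (kk_bounds hr (norm_of_mem hu)).1 (hx _)
  · refine setIntegral_mono_on hi2 (hi.const_mul _) measurableSet_ball fun u hu => ?_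
    rw [mul_comm (Real.cosh r ^ 2 * Real.exp (2 * r))]
    exact mul_le_mul_of_nonneg_left (kk_bounds hr (norm_of_mem hu)).2 (hx _)

end

end Pool.Agent.A54.Pl.G0M

namespace Pool.Agent.A54.Pl

open MeasureTheory Filter Topology Set
open scoped ContDiff ComplexConjugate UpperHalfPlane MatrixGroups
open G0M

theorem stmtG0 (hInt : StmtInt) : StmtG0 := by
  intro F hF
  refine ⟨fun r hr => ?_, fun h0 z r hr => ?_⟩
  · have h : (fun z : ℍ => mean F z r) = fun z => NN F z r / DD r := by
      funext z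
      exact mean_eq hInt F z hr
    rw [h]
    exact (continuous_NN hF hr).div_const _
  · rw [mean_eq hInt F z hr]
    obtain ⟨n1, n2⟩ := NN_bounds hF h0 z hr
    obtain ⟨d1, d2⟩ := DD_bounds hr
    have hD := DD_pos hr
    have hE : 0 ≤ Ed (Real.tanh r) (ext F) ((z.center r : ℍ) : ℂ) :=
      Ed_nonneg (fun w => h0 _) _ _
    have hcp := Real.cosh_pos r
    have hpi := Real.pi_pos
    constructor
    · rw [le_div_iff₀ hD]
      calc Real.exp (-4 * r) * Ed (Real.tanh r) (ext F) ((z.center r : ℍ) : ℂ) * DD r ≤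
          Real.exp (-4 * r) * Ed (Real.tanh r) (ext F) ((z.center r : ℍ) : ℂ) *
            (Real.pi * (Real.cosh r ^ 2 * Real.exp (2 * r))) :=
            mul_le_mul_of_nonneg_left d2 (by positivity)
        _ = Real.pi * (Real.cosh r ^ 2 * (Real.exp (-4 * r) * Real.exp (2 * r))) *
            Ed (Real.tanh r) (ext F) ((z.center r : ℍ) : ℂ) := by ring
        _ = Real.pi * (Real.cosh r ^ 2 * Real.exp (-2 * r)) *
            Ed (Real.tanh r) (ext F) ((z.center r : ℍ) : ℂ) := by
            rw [← Real.exp_add]; congr 4; ring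
        _ ≤ NN F z r := n1
    · rw [div_le_iff₀ hD]
      calc NN F z r ≤ Real.pi * (Real.cosh r ^ 2 * Real.exp (2 * r)) *
            Ed (Real.tanh r) (ext F) ((z.center r : ℍ) : ℂ) := n2
        _ = Real.exp (4 * r) * Ed (Real.tanh r) (ext F) ((z.center r : ℍ) : ℂ) *
            (Real.pi * (Real.cosh r ^ 2 * Real.exp (-2 * r))) := by
            have : Real.exp (2 * r) = Real.exp (4 * r) * Real.exp (-2 * r) := by
              rw [← Real.exp_add]; congr 1; ring
            rw [this]; ring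
        _ ≤ Real.exp (4 * r) * Ed (Real.tanh r) (ext F) ((z.center r : ℍ) : ℂ) * DD r :=
            mul_le_mul_of_nonneg_left d1 (by positivity)

end Pool.Agent.A54.Pl
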