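import Pool.Agent.Lib.MP_a54f13_nt.Pl.Spec

/-!
The sums `N_1 + ... + N_N` are almost constant at the scale `h`.
-/

set_option autoImplicit false

namespace Pool.Agent.A54.Pl.S1M

open MeasureTheory Filter Topology Set
open scoped ContDiff ComplexConjugate
open Pool.Agent.A54.Rel Pool.Agent.A54.LocGen

noncomputable section

variable {V : Set ℂ} {q : ℂ → ℝ}

/-- for real functions the derivative is controlled by `∂` -/
lemma norm_fderiv_real {F : ℂ → ℝ} (hF : ContDiff ℝ ∞ F) (z : ℂ) :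
    ‖fderiv ℝ F z‖ ≤ ‖dz (fun w => (F w : ℂ)) z‖ := by
  have hd : DifferentiableAt ℝ F z := (hF.differentiable (by simp)).differentiableAt
  have h1 : ∀ v : ℂ, fderiv ℝ (fun w => (F w : ℂ)) z v = ((fderiv ℝ F z v : ℝ) : ℂ) := by
    intro v
    have h := (Complex.ofRealCLM.hasFDerivAt (x := F z)).comp z hd.hasFDerivAt
    have h2 : HasFDerivAt (fun w => (F w : ℂ)) (Complex.ofRealCLM.comp (fderiv ℝ F z)) z := h
    rw [h2.fderiv]
    rfl
  refine ContinuousLinearMap.opNorm_le_bound _ (norm_nonneg _) fun v => ?_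
  have e : fderiv ℝ F z v = v.re * fderiv ℝ F z 1 + v.im * fderiv ℝ F z Complex.I := by
    conv_lhs => rw [show v = v.re • (1 : ℂ) + v.im • Complex.I by
      simp [Complex.re_add_im]]
    rw [map_add, map_smul, map_smul, smul_eq_mul, smul_eq_mul]
  have h2 : fderiv ℝ F z v = (dz (fun w => (F w : ℂ)) z * v).re := by
    unfold dz
    rw [h1, h1, e]
    simp
    ring
  rw [h2, Real.norm_eq_abs, ← norm_mul]
  exact Complex.abs_re_le_norm _

/-- the boundary terms -/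
def TT (q : ℂ → ℝ) (h : ℝ) (f : ℂ → ℝ) (n : ℕ) (z : ℂ) : ℂ :=
  (-1) ^ (n + 1) * (ss q h f n z * ss q h f (1 - n) z)

lemma norm_TT_sq (hq : Pot V q) (h : ℝ) (f : ℂ → ℝ) (n : ℕ) (z : ℂ) :
    ‖TT q h f (n + 1) z‖ ^ 2 = q z * (nn q h f (n + 1) z * nn q h f n z) := by
  unfold TT
  rw [norm_mul, norm_mul, norm_pow, norm_neg, norm_one, one_pow, one_mul, mul_pow,
    norm_ss_sq hq, norm_ss_sq hq]
  have e1 : (((n + 1 : ℕ) : ℤ)).natAbs = n + 1 := Int.natAbs_natCast _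
  have e2 : ((1 : ℤ) - ((n + 1 : ℕ) : ℤ)).natAbs = n := by
    push_cast; simp
  rw [e1, e2]
  have hqz := (hq.pos z).ne'
  have e3 : q z ^ (((n + 1 : ℕ) : ℤ)) * q z ^ ((1 : ℤ) - ((n + 1 : ℕ) : ℤ)) = q z := by
    rw [← zpow_add₀ hqz]
    have : (((n + 1 : ℕ) : ℤ)) + ((1 : ℤ) - ((n + 1 : ℕ) : ℤ)) = 1 := by ring
    rw [this, zpow_one]
  linear_combination (nn q h f (n + 1) z * nn q h f n z) * e3

/-- one term of the telescoping sum -/
lemma one_term (hZ : StmtErrZ) (hq : Pot V q) (n : ℕ) {K : Set ℂ} (hK : IsCompact K)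
    (hKV : K ⊆ V) : ∃ C : ℝ, 0 ≤ C ∧ ∀ (h : ℝ) (f : ℂ → ℝ), Sol V q h f → ∀ z ∈ K,
      ‖(h : ℂ) * dz (fun w => (nn q h f n w : ℂ)) z - (TT q h f (n + 1) z - TT q h f n z)‖ ≤
        h * (C * sm h f (n + 1) z ^ 2) := by
  obtain ⟨C1, hC1, h1⟩ := hZ V q hq n K hK hKV
  obtain ⟨C2, hC2, h2⟩ := hZ V q hq (-n) K hK hKV
  obtain ⟨C3, hC3, h3⟩ := ss_le hq (n : ℤ) hK
  obtain ⟨C4, hC4, h4⟩ := ss_le hq (-n : ℤ) hK
  refine ⟨C1 * C4 + C3 * C2, by positivity, fun h f hf z hz => ?_⟩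
  have hs1 := contDiff_ss hq hf.smooth h (n : ℤ)
  have hs2 := contDiff_ss hq hf.smooth h (-n : ℤ)
  have e0 : (fun w => (nn q h f n w : ℂ)) =
      fun w => (-1) ^ n * (ss q h f n w * ss q h f (-n) w) := by
    funext w
    rw [ss_mul_neg hq n]
    push_cast
    rw [← mul_assoc, ← mul_pow]
    simp
  rw [e0, dz_const_mul _ (hs1.mul hs2), dz_mul hs1 hs2]
  have a1 := (h1 h f hf z hz).1
  have a2 := (h2 h f hf z hz).1
  have hN1 : ((n : ℤ)).natAbs = n := by simp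
  have hN2 : (-(n : ℤ)).natAbs = n := by simp
  rw [hN1] at a1
  rw [hN2] at a2
  have a3 := h3 h f (n + 1) (by rw [hN1]; omega) z hz
  have a4 := h4 h f (n + 1) (by rw [hN2]; omega) z hz
  have e1 : (h : ℂ) * ((-1) ^ n * (dz (ss q h f n) z * ss q h f (-n) z +
      ss q h f n z * dz (ss q h f (-n)) z)) - (TT q h f (n + 1) z - TT q h f n z) =
      (-1) ^ n * (((h : ℂ) * dz (ss q h f n) z - ss q h f (n + 1) z) * ss q h f (-n) z +
        ss q h f n z * ((h : ℂ) * dz (ss q h f (-n)) z - ss q h f (-n + 1) z)) := by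
    unfold TT
    have i1 : ((1 : ℤ) - ((n + 1 : ℕ) : ℤ)) = -n := by push_cast; ring
    have i2 : ((1 : ℤ) - (n : ℤ)) = -n + 1 := by ring
    rw [i1, i2]
    push_cast
    ring
  rw [e1, norm_mul, norm_pow, norm_neg, norm_one, one_pow, one_mul]
  have hsm := sm_nonneg (h := h) (f := f) (z := z) (n + 1)
  have hh := hf.hpos.le
  calc _ ≤ ‖((h : ℂ) * dz (ss q h f n) z - ss q h f (n + 1) z)‖ * ‖ss q h f (-n) z‖ +
        ‖ss q h f n z‖ * ‖(h : ℂ) * dz (ss q h f (-n)) z - ss q h f (-n + 1) z‖ := by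
        refine (norm_add_le _ _).trans ?_
        rw [norm_mul, norm_mul]
    _ ≤ (h * (C1 * sm h f (n + 1) z)) * (C4 * sm h f (n + 1) z) +
        (C3 * sm h f (n + 1) z) * (h * (C2 * sm h f (n + 1) z)) := by
        gcongr
    _ = _ := by ring

lemma contDiff_nn (hq : Pot V q) {f : ℂ → ℝ} (hf : ContDiff ℝ ∞ f) (h : ℝ) (n : ℕ) :
    ContDiff ℝ ∞ (nn q h f n) := by
  have h1 : ContDiff ℝ ∞ (fun z => ‖gg h f n z‖ ^ 2) := (contDiff_gg hf h n).norm_sq ℝ
  have h2 : nn q h f n = fun z => ‖gg h f n z‖ ^ 2 * ((q z) ^ n)⁻¹ := by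
    funext z
    unfold nn
    rw [div_eq_mul_inv]
  rw [h2]
  exact h1.mul (contDiff_inv_pow hq n)

lemma contDiff_XX (hq : Pot V q) {f : ℂ → ℝ} (hf : ContDiff ℝ ∞ f) (h : ℝ) (N : ℕ) :
    ContDiff ℝ ∞ (XX q h f (fun _ => 1) N) := by
  unfold XX
  exact ContDiff.sum fun n _ => contDiff_const.mul (contDiff_nn hq hf h n)

lemma XX_succ (h : ℝ) (f : ℂ → ℝ) (N : ℕ) :
    XX q h f (fun _ => 1) (N + 1) = fun z => XX q h f (fun _ => 1) N z + nn q h f (N + 1) z := by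
  funext z
  unfold XX
  rw [Finset.sum_Icc_succ_top (by omega), one_mul]

/-- the telescoping sum -/
lemma sum_term (hZ : StmtErrZ) (hq : Pot V q) (N : ℕ) {K : Set ℂ} (hK : IsCompact K)
    (hKV : K ⊆ V) : ∃ C : ℝ, 0 ≤ C ∧ ∀ (h : ℝ) (f : ℂ → ℝ), Sol V q h f → ∀ z ∈ K,
      ‖(h : ℂ) * dz (fun w => (XX q h f (fun _ => 1) N w : ℂ)) z -
        (TT q h f (N + 1) z - TT q h f 1 z)‖ ≤ h * (C * sm h f (N + 1) z ^ 2) := by
  induction N with
  | zero =>
    refine ⟨0, le_rfl, fun h f hf z hz => ?_⟩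
    have : (fun w => (XX q h f (fun _ => 1) 0 w : ℂ)) = fun _ => 0 := by
      funext w
      unfold XX
      simp
    rw [this, dz_const]
    simp
  | succ N ih =>
    obtain ⟨C1, hC1, h1⟩ := ih
    obtain ⟨C2, hC2, h2⟩ := one_term hZ hq (N + 1) hK hKV
    refine ⟨C1 + C2, by positivity, fun h f hf z hz => ?_⟩
    have b1 := h1 h f hf z hz
    have b2 := h2 h f hf z hz
    have e0 : (fun w => (XX q h f (fun _ => 1) (N + 1) w : ℂ)) =
        fun w => (XX q h f (fun _ => 1) N w : ℂ) + (nn q h f (N + 1) w : ℂ) := by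
      funext w
      rw [XX_succ]
      push_cast
      ring
    rw [e0, dz_add (contDiff_ofReal (contDiff_XX hq hf.smooth h N))
      (contDiff_ofReal (contDiff_nn hq hf.smooth h (N + 1)))]
    have e1 : (h : ℂ) * (dz (fun w => (XX q h f (fun _ => 1) N w : ℂ)) z +
        dz (fun w => (nn q h f (N + 1) w : ℂ)) z) -
        (TT q h f (N + 1 + 1) z - TT q h f 1 z) =
        ((h : ℂ) * dz (fun w => (XX q h f (fun _ => 1) N w : ℂ)) z -
          (TT q h f (N + 1) z - TT q h f 1 z)) +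
        ((h : ℂ) * dz (fun w => (nn q h f (N + 1) w : ℂ)) z -
          (TT q h f (N + 1 + 1) z - TT q h f (N + 1) z)) := by ring
    rw [e1]
    have hh := hf.hpos.le
    have hsm := sm_nonneg (h := h) (f := f) (z := z) (N + 1)
    have hmono : sm h f (N + 1) z ≤ sm h f (N + 1 + 1) z := sm_mono (by omega)
    have hsq : sm h f (N + 1) z ^ 2 ≤ sm h f (N + 1 + 1) z ^ 2 := pow_le_pow_left₀ hsm hmono 2
    calc _ ≤ h * (C1 * sm h f (N + 1) z ^ 2) + h * (C2 * sm h f (N + 1 + 1) z ^ 2) :=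
          (norm_add_le _ _).trans (add_le_add b1 b2)
      _ ≤ h * (C1 * sm h f (N + 1 + 1) z ^ 2) + h * (C2 * sm h f (N + 1 + 1) z ^ 2) := by
          gcongr
      _ = _ := by ring

lemma sq_three (a b c : ℝ) : (a + b + c) ^ 2 ≤ 3 * (a ^ 2 + b ^ 2 + c ^ 2) := by
  nlinarith [sq_nonneg (a - b), sq_nonneg (b - c), sq_nonneg (a - c)]

theorem _root_.Pool.Agent.A54.Pl.stmtS1 (hZ : StmtErrZ) (hRel : StmtRel) (hOdd : StmtOdd)
    (hOL : StmtOddLim) (hL4 : StmtL4) : StmtS1 := by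
  intro V q h f r hS hB ζ hζ
  have hq := hS.pot
  have hK : IsCompact (tsupport ζ) := hζ.cpt
  -- the weight
  have hφ : TestR V (fun z => ζ z ^ 2 * q z) :=
    ⟨(hζ.smooth.pow 2).mul hq.smooth, (hζ.cpt.comp_left (g := fun x : ℝ => x ^ 2) (by simp)).mul_right,
      (tsupport_mul_subset_left (f := fun z => ζ z ^ 2) (g := q)).trans
        ((tsupport_comp_subset (g := fun x : ℝ => x ^ 2) (by simp) ζ).trans hζ.sub)⟩
  have hφs : ∀ z, z ∉ tsupport ζ → ζ z ^ 2 * q z = 0 := by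
    intro z hz
    rw [image_eq_zero_of_notMem_tsupport hz]
    ring
  obtain ⟨Z, hZ0, hZb⟩ := test_bdd hφ
  obtain ⟨ζ', hζ', -, hζ1⟩ := exists_cutoff hK hq.isOpen hζ.sub
  obtain ⟨B, hB'⟩ := hB ζ' hζ'
  have hfc : ∀ i, Continuous (f i) := fun i => (hS.sol i).smooth.continuous
  have hAA0 : ∀ i, AA q (h i) (f i) (fun z => ζ z ^ 2 * q z) 0 0 ≤ Z * B := by
    intro i
    rw [AA_zero]
    have j2 : Integrable (fun z => ζ' z ^ 4 * f i z ^ 4) := by
      have h1 : HasCompactSupport (fun z => ζ' z ^ 4) :=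
        hζ'.cpt.comp_left (g := fun x : ℝ => x ^ 4) (by simp)
      exact ((hζ'.smooth.continuous.pow 4).mul ((hfc i).pow 4)).integrable_of_hasCompactSupport
        h1.mul_right
    calc ∫ z, ζ z ^ 2 * q z * f i z ^ 4 ≤ ∫ z, Z * (ζ' z ^ 4 * f i z ^ 4) := by
          refine integral_mono (integrable_testR hφ ((hfc i).pow 4)) (j2.const_mul Z) fun z => ?_
          simp only
          by_cases hz : z ∈ tsupport ζ
          · have e : ζ' z = 1 := hζ1.self_of_nhdsSet z hz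
            rw [e, one_pow, one_mul]
            exact mul_le_mul_of_nonneg_right ((le_abs_self _).trans (hZb z)) (by positivity)
          · rw [hφs z hz, zero_mul]
            positivity
      _ = Z * ∫ z, ζ' z ^ 4 * f i z ^ 4 := integral_const_mul _ _
      _ ≤ Z * B := mul_le_mul_of_nonneg_left (hB' i) hZ0
  have hodd : ∀ n : ℕ, ∀ᶠ i in atTop,
      ∫ z, ζ z ^ 2 * ‖TT q (h i) (f i) (n + 1) z‖ ^ 2 ≤ |Z * B| + 1 := by
    intro n
    have h1 := odd_lim hRel hOdd hOL hS hB hφ (n + 1) n (by omega)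
    have h2 := h1.eventually (gt_mem_nhds (show (0 : ℝ) < 1 by norm_num))
    filter_upwards [h2] with i hi
    have e : ∫ z, ζ z ^ 2 * ‖TT q (h i) (f i) (n + 1) z‖ ^ 2 =
        AA q (h i) (f i) (fun z => ζ z ^ 2 * q z) (n + 1) n := by
      unfold AA
      congr 1
      funext z
      rw [norm_TT_sq hq]
      ring
    rw [e]
    have h3 := hAA0 i
    have h4 := le_abs_self (Z * B)
    have h5 := abs_nonneg (Z * B)
    linarith
  refine ⟨3 * ((|Z * B| + 1) + (|Z * B| + 1) + 1), by positivity, fun N => ?_⟩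
  obtain ⟨C, hC0, hC⟩ := sum_term hZ hq N hK hζ.sub
  obtain ⟨B4, hB4⟩ := sm_L4 hL4 hS.toSeq hB (N + 1) hK hζ.sub
  obtain ⟨Y, hY0, hY⟩ := test_bdd hζ
  have hlim : Tendsto (fun i => h i ^ 2 * (Y ^ 2 * C ^ 2 * B4)) atTop (𝓝 0) := by
    have := (hS.lim.pow 2).mul_const (Y ^ 2 * C ^ 2 * B4)
    simpa using this
  filter_upwards [hodd N, hodd 0, hlim.eventually (gt_mem_nhds (show (0 : ℝ) < 1 by norm_num))]
    with i h1 h2 h3
  have hs := hS.sol i
  have hcT : ∀ n, Continuous (TT q (h i) (f i) n) := by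
    intro n
    unfold TT
    exact continuous_const.mul (((contDiff_ss hq hs.smooth (h i) _).continuous).mul
      ((contDiff_ss hq hs.smooth (h i) _).continuous))
  have hcsm := continuous_sm hs.smooth (h i) (N + 1)
  have hζ2 : HasCompactSupport (fun z => ζ z ^ 2) :=
    hζ.cpt.comp_left (g := fun x : ℝ => x ^ 2) (by simp)
  have hint : ∀ G : ℂ → ℝ, Continuous G → Integrable (fun z => ζ z ^ 2 * G z) := fun G hG =>
    ((hζ.smooth.continuous.pow 2).mul hG).integrable_of_hasCompactSupport hζ2.mul_right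
  have i1 : Integrable (fun z => ζ z ^ 2 * ‖TT q (h i) (f i) (N + 1) z‖ ^ 2) :=
    hint _ ((hcT (N + 1)).norm.pow 2)
  have i2 : Integrable (fun z => ζ z ^ 2 * ‖TT q (h i) (f i) 1 z‖ ^ 2) :=
    hint _ ((hcT 1).norm.pow 2)
  have i3 : Integrable (fun z => ζ z ^ 2 *
      (h i ^ 2 * C ^ 2 * sm (h i) (f i) (N + 1) z ^ 4)) :=
    hint _ (continuous_const.mul (hcsm.pow 4))
  have i12 : Integrable (fun z => ζ z ^ 2 * ‖TT q (h i) (f i) (N + 1) z‖ ^ 2 +
      ζ z ^ 2 * ‖TT q (h i) (f i) 1 z‖ ^ 2) := i1.add i2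
  -- the error term
  have herr : ∫ z, ζ z ^ 2 * (h i ^ 2 * C ^ 2 * sm (h i) (f i) (N + 1) z ^ 4) ≤ 1 := by
    have e1 : ∫ z, ζ z ^ 2 * (h i ^ 2 * C ^ 2 * sm (h i) (f i) (N + 1) z ^ 4) =
        ∫ z in tsupport ζ, ζ z ^ 2 * (h i ^ 2 * C ^ 2 * sm (h i) (f i) (N + 1) z ^ 4) := by
      rw [setIntegral_eq_integral_of_forall_compl_eq_zero]
      intro z hz
      rw [image_eq_zero_of_notMem_tsupport hz]
      ring
    rw [e1]
    calc _ ≤ ∫ z in tsupport ζ, (h i ^ 2 * (Y ^ 2 * C ^ 2)) * sm (h i) (f i) (N + 1) z ^ 4 := by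
          refine setIntegral_mono_on i3.integrableOn
            ((continuous_const.mul (hcsm.pow 4)).continuousOn.integrableOn_compact hK)
            hK.measurableSet fun z _ => ?_
          have hz : ζ z ^ 2 ≤ Y ^ 2 := by
            rw [← sq_abs]
            exact pow_le_pow_left₀ (abs_nonneg _) (hY z) 2
          calc ζ z ^ 2 * (h i ^ 2 * C ^ 2 * sm (h i) (f i) (N + 1) z ^ 4) ≤
              Y ^ 2 * (h i ^ 2 * C ^ 2 * sm (h i) (f i) (N + 1) z ^ 4) :=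
                mul_le_mul_of_nonneg_right hz (by positivity)
            _ = _ := by ring
      _ = (h i ^ 2 * (Y ^ 2 * C ^ 2)) * ∫ z in tsupport ζ, sm (h i) (f i) (N + 1) z ^ 4 :=
          integral_const_mul _ _
      _ ≤ (h i ^ 2 * (Y ^ 2 * C ^ 2)) * B4 := mul_le_mul_of_nonneg_left (hB4 i) (by positivity)
      _ ≤ 1 := by
          have : (h i ^ 2 * (Y ^ 2 * C ^ 2)) * B4 = h i ^ 2 * (Y ^ 2 * C ^ 2 * B4) := by ring
          rw [this]
          exact h3.le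
  have hpt : ∀ z, ζ z ^ 2 * (h i * ‖fderiv ℝ (XX q (h i) (f i) (fun _ => 1) N) z‖) ^ 2 ≤
      3 * (ζ z ^ 2 * ‖TT q (h i) (f i) (N + 1) z‖ ^ 2 + ζ z ^ 2 * ‖TT q (h i) (f i) 1 z‖ ^ 2 +
        ζ z ^ 2 * (h i ^ 2 * C ^ 2 * sm (h i) (f i) (N + 1) z ^ 4)) := by
    intro z
    by_cases hz : z ∈ tsupport ζ
    · have b1 := hC (h i) (f i) hs z hz
      have b2 := norm_fderiv_real (contDiff_XX hq hs.smooth (h i) N) z
      have b3 : h i * ‖fderiv ℝ (XX q (h i) (f i) (fun _ => 1) N) z‖ ≤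
          ‖TT q (h i) (f i) (N + 1) z‖ + ‖TT q (h i) (f i) 1 z‖ +
            h i * (C * sm (h i) (f i) (N + 1) z ^ 2) := by
        have b4 : h i * ‖fderiv ℝ (XX q (h i) (f i) (fun _ => 1) N) z‖ ≤
            ‖(h i : ℂ) * dz (fun w => (XX q (h i) (f i) (fun _ => 1) N w : ℂ)) z‖ := by
          rw [norm_mul, Complex.norm_real, Real.norm_eq_abs, abs_of_pos hs.hpos]
          exact mul_le_mul_of_nonneg_left b2 hs.hpos.le
        have b5 := norm_sub_norm_le ((h i : ℂ) *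
          dz (fun w => (XX q (h i) (f i) (fun _ => 1) N w : ℂ)) z)
          (TT q (h i) (f i) (N + 1) z - TT q (h i) (f i) 1 z)
        have b6 := norm_sub_le (TT q (h i) (f i) (N + 1) z) (TT q (h i) (f i) 1 z)
        linarith
      have b7 : (h i * ‖fderiv ℝ (XX q (h i) (f i) (fun _ => 1) N) z‖) ^ 2 ≤
          3 * (‖TT q (h i) (f i) (N + 1) z‖ ^ 2 + ‖TT q (h i) (f i) 1 z‖ ^ 2 +
            (h i * (C * sm (h i) (f i) (N + 1) z ^ 2)) ^ 2) :=
        (pow_le_pow_left₀ (mul_nonneg hs.hpos.le (norm_nonneg _)) b3 2).trans (sq_three _ _ _)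
      calc _ ≤ ζ z ^ 2 * (3 * (‖TT q (h i) (f i) (N + 1) z‖ ^ 2 + ‖TT q (h i) (f i) 1 z‖ ^ 2 +
            (h i * (C * sm (h i) (f i) (N + 1) z ^ 2)) ^ 2)) :=
            mul_le_mul_of_nonneg_left b7 (sq_nonneg _)
        _ = _ := by ring
    · rw [image_eq_zero_of_notMem_tsupport hz]
      simp
  calc _ ≤ ∫ z, 3 * (ζ z ^ 2 * ‖TT q (h i) (f i) (N + 1) z‖ ^ 2 +
        ζ z ^ 2 * ‖TT q (h i) (f i) 1 z‖ ^ 2 +
        ζ z ^ 2 * (h i ^ 2 * C ^ 2 * sm (h i) (f i) (N + 1) z ^ 4)) :=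
        integral_mono_of_nonneg (Eventually.of_forall fun z => by positivity)
          ((i12.add i3).const_mul 3) (Eventually.of_forall hpt)
    _ = 3 * ((∫ z, ζ z ^ 2 * ‖TT q (h i) (f i) (N + 1) z‖ ^ 2) +
        (∫ z, ζ z ^ 2 * ‖TT q (h i) (f i) 1 z‖ ^ 2) +
        ∫ z, ζ z ^ 2 * (h i ^ 2 * C ^ 2 * sm (h i) (f i) (N + 1) z ^ 4)) := by
        rw [integral_const_mul, integral_add i12 i3, integral_add i1 i2]
    _ ≤ _ := by
        have h2' : ∫ z, ζ z ^ 2 * ‖TT q (h i) (f i) 1 z‖ ^ 2 ≤ |Z * B| + 1 := h2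
        linarith

end

end Pool.Agent.A54.Pl.S1M
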