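import Pool.Agent.Lib.MP_a54f13_nt.Pl.Spec
import Pool.Agent.Lib.MP_a54f13_nt.Rel

/-!
# Module S2: `N_n - N_0` is a derivative
-/

set_option autoImplicit false

namespace Pool.Agent.A54.Pl.S2M

open MeasureTheory Filter Topology Set
open scoped ContDiff ComplexConjugate
open Pool.Agent.A54.Rel

noncomputable section

variable {V : Set ℂ} {q : ℂ → ℝ}

/-- the weight -/
private def UU (q : ℂ → ℝ) (j : ℕ) (z : ℂ) : ℂ := (((q z ^ (j + 1))⁻¹ : ℝ) : ℂ)

/-- the summand -/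
private def PT (q : ℂ → ℝ) (h : ℝ) (f : ℂ → ℝ) (j : ℕ) (z : ℂ) : ℂ :=
  UU q j z * (gg h f (j + 1) z * conj (gg h f j z))

private lemma cU (hq : Pot V q) (j : ℕ) : ContDiff ℝ ∞ (UU q j) :=
  contDiff_ofReal (contDiff_inv_pow hq (j + 1))

private lemma cP (hq : Pot V q) {h : ℝ} {f : ℂ → ℝ} (hf : ContDiff ℝ ∞ f) (j : ℕ) :
    ContDiff ℝ ∞ (PT q h f j) :=
  (cU hq j).mul ((contDiff_gg hf h (j + 1)).mul (contDiff_conj (contDiff_gg hf h j)))

private lemma identity (hq : Pot V q) {h : ℝ} {f : ℂ → ℝ} (hf : ContDiff ℝ ∞ f) (j : ℕ) (z : ℂ) :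
    ((nn q h f (j + 1) z - nn q h f j z : ℝ) : ℂ) - (h : ℂ) * dzb (PT q h f j) z =
      -(UU q j z * (((h : ℂ) * dzb (gg h f (j + 1)) z + (q z : ℂ) * gg h f j z) *
        conj (gg h f j z))) -
      (h : ℂ) * (dzb (UU q j) z * (gg h f (j + 1) z * conj (gg h f j z))) := by
  have c0 := contDiff_gg hf h j
  have c1 := contDiff_gg hf h (j + 1)
  have hqz : (q z : ℂ) ≠ 0 := by exact_mod_cast (hq.pos z).ne'
  have e1 : dzb (PT q h f j) z = dzb (UU q j) z * (gg h f (j + 1) z * conj (gg h f j z)) +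
      UU q j z * (dzb (gg h f (j + 1)) z * conj (gg h f j z) +
        gg h f (j + 1) z * conj (dz (gg h f j) z)) := by
    unfold PT
    rw [dzb_mul (cU hq j) (c1.mul (contDiff_conj c0)), dzb_mul c1 (contDiff_conj c0), dzb_conj c0]
  have e2 : gg h f (j + 1) z = (h : ℂ) * dz (gg h f j) z := gg_succ h f j z
  have e3 : (h : ℂ) * conj (dz (gg h f j) z) = conj (gg h f (j + 1) z) := by
    rw [e2, map_mul, Complex.conj_ofReal]
  have e4 : ((nn q h f (j + 1) z : ℝ) : ℂ) =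
      UU q j z * (gg h f (j + 1) z * conj (gg h f (j + 1) z)) := by
    unfold nn UU
    rw [Complex.mul_conj']
    push_cast
    rw [div_eq_inv_mul]
  have e5 : ((nn q h f j z : ℝ) : ℂ) =
      UU q j z * ((q z : ℂ) * (gg h f j z * conj (gg h f j z))) := by
    unfold nn UU
    rw [Complex.mul_conj']
    push_cast
    rw [pow_succ]
    field_simp
    ring
  rw [Complex.ofReal_sub, e4, e5, e1, ← e3]
  ring

private lemma step (hE : StmtErr) (hq : Pot V q) (j : ℕ) {K : Set ℂ} (hK : IsCompact K)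
    (hKV : K ⊆ V) : ∃ C : ℝ, 0 ≤ C ∧ ∀ (h : ℝ) (f : ℂ → ℝ), Sol V q h f → ∀ z ∈ K,
      ‖PT q h f j z‖ ≤ C * sm h f (j + 1) z ^ 2 ∧
      ‖((nn q h f (j + 1) z - nn q h f j z : ℝ) : ℂ) - (h : ℂ) * dzb (PT q h f j) z‖ ≤
        h * (C * sm h f (j + 1) z ^ 2) := by
  obtain ⟨C1, hC1, hE1⟩ := hE V q hq j K hK hKV
  obtain ⟨B1, hB1⟩ := hK.exists_bound_of_continuousOn (cU hq j).continuous.continuousOn
  obtain ⟨B2, hB2⟩ := hK.exists_bound_of_continuousOn
    (contDiff_dzb (cU hq j)).continuous.continuousOn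
  set D1 := max B1 0 with hD1
  set D2 := max B2 0 with hD2
  have hD10 : 0 ≤ D1 := le_max_right _ _
  have hD20 : 0 ≤ D2 := le_max_right _ _
  refine ⟨D1 + D1 * C1 + D2, by positivity, fun h f hS z hz => ?_⟩
  have hs0 : 0 ≤ sm h f (j + 1) z := sm_nonneg _
  have g0 : ‖gg h f j z‖ ≤ sm h f (j + 1) z := norm_gg_le_sm (by omega)
  have g1 : ‖gg h f (j + 1) z‖ ≤ sm h f (j + 1) z := norm_gg_le_sm le_rfl
  have u1 : ‖UU q j z‖ ≤ D1 := (hB1 z hz).trans (le_max_left _ _)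
  have u2 : ‖dzb (UU q j) z‖ ≤ D2 := (hB2 z hz).trans (le_max_left _ _)
  have hgg : ‖gg h f (j + 1) z * conj (gg h f j z)‖ ≤ sm h f (j + 1) z ^ 2 := by
    rw [norm_mul, RCLike.norm_conj, sq]
    exact mul_le_mul g1 g0 (norm_nonneg _) hs0
  have hh := hS.hpos
  constructor
  · unfold PT
    rw [norm_mul]
    calc ‖UU q j z‖ * ‖gg h f (j + 1) z * conj (gg h f j z)‖
        ≤ D1 * sm h f (j + 1) z ^ 2 := mul_le_mul u1 hgg (norm_nonneg _) hD10
      _ ≤ (D1 + D1 * C1 + D2) * sm h f (j + 1) z ^ 2 := by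
          apply mul_le_mul_of_nonneg_right _ (by positivity)
          have : 0 ≤ D1 * C1 := by positivity
          linarith
  · rw [identity hq hS.smooth j z]
    have herr := hE1 h f hS z hz
    have hsum : ∑ i ∈ Finset.range j, ‖gg h f i z‖ ≤ sm h f (j + 1) z := by
      unfold sm
      exact Finset.sum_le_sum_of_subset_of_nonneg
        (Finset.range_subset_range.mpr (by omega)) (fun _ _ _ => norm_nonneg _)
    have herr2 : ‖(h : ℂ) * dzb (gg h f (j + 1)) z + (q z : ℂ) * gg h f j z‖ ≤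
        h * (C1 * sm h f (j + 1) z) :=
      herr.trans (mul_le_mul_of_nonneg_left (mul_le_mul_of_nonneg_left hsum hC1) hh.le)
    have t1 : ‖UU q j z * (((h : ℂ) * dzb (gg h f (j + 1)) z + (q z : ℂ) * gg h f j z) *
        conj (gg h f j z))‖ ≤ D1 * ((h * (C1 * sm h f (j + 1) z)) * sm h f (j + 1) z) := by
      rw [norm_mul, norm_mul, RCLike.norm_conj]
      exact mul_le_mul u1 (mul_le_mul herr2 g0 (norm_nonneg _) (by positivity))
        (by positivity) hD10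
    have t2 : ‖(h : ℂ) * (dzb (UU q j) z * (gg h f (j + 1) z * conj (gg h f j z)))‖ ≤
        h * (D2 * sm h f (j + 1) z ^ 2) := by
      rw [norm_mul, Complex.norm_real, Real.norm_eq_abs, abs_of_pos hh, norm_mul]
      exact mul_le_mul_of_nonneg_left (mul_le_mul u2 hgg (norm_nonneg _) hD20) hh.le
    refine (norm_sub_le _ _).trans ?_
    rw [norm_neg]
    refine (add_le_add t1 t2).trans ?_
    have e : D1 * ((h * (C1 * sm h f (j + 1) z)) * sm h f (j + 1) z) +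
        h * (D2 * sm h f (j + 1) z ^ 2) = h * ((D1 * C1 + D2) * sm h f (j + 1) z ^ 2) := by ring
    rw [e]
    apply mul_le_mul_of_nonneg_left _ hh.le
    apply mul_le_mul_of_nonneg_right _ (by positivity)
    linarith

/-- the main construction, with pointwise bounds -/
private lemma main (hE : StmtErr) (hq : Pot V q) (n : ℕ) :
    ∃ W : ℝ → (ℂ → ℝ) → ℂ → ℂ, (∀ h f, ContDiff ℝ ∞ f → ContDiff ℝ ∞ (W h f)) ∧
      ∀ K : Set ℂ, IsCompact K → K ⊆ V → ∃ C : ℝ, 0 ≤ C ∧ ∀ (h : ℝ) (f : ℂ → ℝ), Sol V q h f →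
        ∀ z ∈ K, ‖W h f z‖ ≤ C * sm h f n z ^ 2 ∧
        ‖((nn q h f n z - nn q h f 0 z : ℝ) : ℂ) - (h : ℂ) * dzb (W h f) z‖ ≤
          h * (C * sm h f n z ^ 2) := by
  induction n with
  | zero =>
    refine ⟨fun _ _ _ => 0, fun _ _ _ => contDiff_const, fun K _ _ => ⟨0, le_rfl, ?_⟩⟩
    intro h f _ z _
    simp [dzb_const]
  | succ n ih =>
    obtain ⟨W, hW, hb⟩ := ih
    refine ⟨fun h f z => W h f z + PT q h f n z, fun h f hf => (hW h f hf).add (cP hq hf n), ?_⟩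
    intro K hK hKV
    obtain ⟨C1, hC1, h1⟩ := hb K hK hKV
    obtain ⟨C2, hC2, h2⟩ := step hE hq n hK hKV
    refine ⟨C1 + C2, by positivity, fun h f hS z hz => ?_⟩
    obtain ⟨a1, a2⟩ := h1 h f hS z hz
    obtain ⟨b1, b2⟩ := h2 h f hS z hz
    have hs0 : 0 ≤ sm h f n z := sm_nonneg _
    have hmono : sm h f n z ^ 2 ≤ sm h f (n + 1) z ^ 2 :=
      pow_le_pow_left₀ hs0 (sm_mono (by omega)) 2
    have hh := hS.hpos
    constructor
    · refine (norm_add_le _ _).trans ?_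
      calc ‖W h f z‖ + ‖PT q h f n z‖ ≤ C1 * sm h f n z ^ 2 + C2 * sm h f (n + 1) z ^ 2 :=
            add_le_add a1 b1
        _ ≤ C1 * sm h f (n + 1) z ^ 2 + C2 * sm h f (n + 1) z ^ 2 := by
            have := mul_le_mul_of_nonneg_left hmono hC1
            linarith
        _ = (C1 + C2) * sm h f (n + 1) z ^ 2 := by ring
    · rw [dzb_add (hW h f hS.smooth) (cP hq hS.smooth n)]
      have e : ((nn q h f (n + 1) z - nn q h f 0 z : ℝ) : ℂ) -
          (h : ℂ) * (dzb (W h f) z + dzb (PT q h f n) z) =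
          (((nn q h f n z - nn q h f 0 z : ℝ) : ℂ) - (h : ℂ) * dzb (W h f) z) +
          (((nn q h f (n + 1) z - nn q h f n z : ℝ) : ℂ) - (h : ℂ) * dzb (PT q h f n) z) := by
        push_cast
        ring
      rw [e]
      refine (norm_add_le _ _).trans ?_
      calc _ ≤ h * (C1 * sm h f n z ^ 2) + h * (C2 * sm h f (n + 1) z ^ 2) := add_le_add a2 b2
        _ ≤ h * (C1 * sm h f (n + 1) z ^ 2) + h * (C2 * sm h f (n + 1) z ^ 2) := by
            have := mul_le_mul_of_nonneg_left (mul_le_mul_of_nonneg_left hmono hC1) hh.le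
            linarith
        _ = h * ((C1 + C2) * sm h f (n + 1) z ^ 2) := by ring

private lemma nn_le (hq : Pot V q) (n : ℕ) {K : Set ℂ} (hK : IsCompact K) : ∃ C : ℝ, 0 ≤ C ∧
    ∀ (h : ℝ) (f : ℂ → ℝ) (M : ℕ), n ≤ M → ∀ z ∈ K, |nn q h f n z| ≤ C * sm h f M z ^ 2 := by
  obtain ⟨C, hC⟩ := hK.exists_bound_of_continuousOn
    (f := fun z => ((q z) ^ n)⁻¹) (contDiff_inv_pow hq n).continuous.continuousOn
  refine ⟨max C 0, le_max_right _ _, fun h f M hM z hz => ?_⟩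
  unfold nn
  rw [div_eq_inv_mul, abs_mul]
  have h1 : |‖gg h f n z‖ ^ 2| = ‖gg h f n z‖ ^ 2 := abs_of_nonneg (by positivity)
  rw [h1]
  refine mul_le_mul ((hC z hz).trans (le_max_left _ _))
    (pow_le_pow_left₀ (norm_nonneg _) (norm_gg_le_sm hM) 2) (by positivity) (le_max_right _ _)

end

end Pool.Agent.A54.Pl.S2M

namespace Pool.Agent.A54.Pl

open MeasureTheory Filter Topology Set
open scoped ContDiff ComplexConjugate
open Pool.Agent.A54.Rel

theorem stmtS2 (hE : StmtErr) (hL4 : StmtL4) : StmtS2 := by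
  intro V q h f hS hB n
  obtain ⟨W, hW, hb⟩ := S2M.main hE hS.pot n
  refine ⟨fun i => W (h i) (f i), fun i => hW _ _ (hS.sol i).smooth, ?_⟩
  intro ζ hζ
  obtain ⟨C1, hC1, h1⟩ := hb (tsupport ζ) hζ.cpt.isCompact hζ.sub
  obtain ⟨C2, hC2, h2⟩ := S2M.nn_le hS.pot n (K := tsupport ζ) hζ.cpt.isCompact
  obtain ⟨C3, hC3, h3⟩ := S2M.nn_le hS.pot 0 (K := tsupport ζ) hζ.cpt.isCompact
  have cW : ∀ i, Continuous (W (h i) (f i)) := fun i => (hW _ _ (hS.sol i).smooth).continuous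
  have cdW : ∀ i, Continuous (fun z => (h i : ℂ) * dzb (W (h i) (f i)) z) := fun i =>
    continuous_const.mul (contDiff_dzb (hW _ _ (hS.sol i).smooth)).continuous
  have cN : ∀ i, Continuous (fun z =>
      ((nn q (h i) (f i) n z - nn q (h i) (f i) 0 z : ℝ) : ℂ)) := fun i =>
    Complex.continuous_ofReal.comp ((continuous_nn hS.pot (hS.sol i).smooth _ n).sub
      (continuous_nn hS.pot (hS.sol i).smooth _ 0))
  obtain ⟨B1, hB1⟩ := bdd_of_le_sm hL4 hS hB hζ cW (C := C1) (M := n)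
    (fun i z hz => (h1 _ _ (hS.sol i) z hz).1)
  obtain ⟨B2, hB2⟩ := bdd_of_le_sm hL4 hS hB hζ cdW (C := C2 + C3 + C1) (M := n) (by
    intro i z hz
    have e1 := (h1 _ _ (hS.sol i) z hz).2
    have e2 := h2 (h i) (f i) n le_rfl z hz
    have e3 := h3 (h i) (f i) n (Nat.zero_le n) z hz
    have hle := (hS.sol i).hle
    have hpos := (hS.sol i).hpos
    have e4 : ‖((nn q (h i) (f i) n z - nn q (h i) (f i) 0 z : ℝ) : ℂ)‖ ≤
        C2 * sm (h i) (f i) n z ^ 2 + C3 * sm (h i) (f i) n z ^ 2 := by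
      rw [Complex.norm_real, Real.norm_eq_abs]
      exact (abs_sub _ _).trans (add_le_add e2 e3)
    have e5 : (h i : ℂ) * dzb (W (h i) (f i)) z =
        ((nn q (h i) (f i) n z - nn q (h i) (f i) 0 z : ℝ) : ℂ) -
        (((nn q (h i) (f i) n z - nn q (h i) (f i) 0 z : ℝ) : ℂ) -
          (h i : ℂ) * dzb (W (h i) (f i)) z) := by ring
    rw [e5]
    refine (norm_sub_le _ _).trans ?_
    have e6 : h i * (C1 * sm (h i) (f i) n z ^ 2) ≤ 1 * (C1 * sm (h i) (f i) n z ^ 2) :=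
      mul_le_mul_of_nonneg_right hle (by positivity)
    calc _ ≤ (C2 * sm (h i) (f i) n z ^ 2 + C3 * sm (h i) (f i) n z ^ 2) +
          1 * (C1 * sm (h i) (f i) n z ^ 2) := add_le_add e4 (e1.trans e6)
      _ = (C2 + C3 + C1) * sm (h i) (f i) n z ^ 2 := by ring)
  obtain ⟨B3, hB3⟩ := bdd_of_le_sm hL4 hS hB hζ
    (F := fun i z => ((h i : ℂ))⁻¹ * (((nn q (h i) (f i) n z - nn q (h i) (f i) 0 z : ℝ) : ℂ) -
        (h i : ℂ) * dzb (W (h i) (f i)) z))
    (fun i => continuous_const.mul ((cN i).sub (cdW i))) (C := C1) (M := n) (by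
    intro i z hz
    have e1 := (h1 _ _ (hS.sol i) z hz).2
    have hpos := (hS.sol i).hpos
    rw [norm_mul, norm_inv, Complex.norm_real, Real.norm_eq_abs, abs_of_pos hpos,
      inv_mul_le_iff₀ hpos]
    exact e1)
  refine ⟨max B1 (max B2 B3), fun i => ⟨(hB1 i).trans (le_max_left _ _),
    (hB2 i).trans ((le_max_left _ _).trans (le_max_right _ _)), ?_⟩⟩
  have hpos := (hS.sol i).hpos
  have e7 : ∫ z, ζ z ^ 2 * ‖((nn q (h i) (f i) n z - nn q (h i) (f i) 0 z : ℝ) : ℂ) -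
      (h i : ℂ) * dzb (W (h i) (f i)) z‖ ^ 2 =
      h i ^ 2 * ∫ z, ζ z ^ 2 * ‖((h i : ℂ))⁻¹ *
        (((nn q (h i) (f i) n z - nn q (h i) (f i) 0 z : ℝ) : ℂ) -
        (h i : ℂ) * dzb (W (h i) (f i)) z)‖ ^ 2 := by
    rw [← integral_const_mul]
    congr 1
    funext z
    rw [norm_mul, norm_inv, Complex.norm_real, Real.norm_eq_abs, abs_of_pos hpos]
    field_simp
  rw [e7, mul_comm]
  exact mul_le_mul_of_nonneg_right ((hB3 i).trans ((le_max_right _ _).trans (le_max_right _ _)))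
    (by positivity)

end Pool.Agent.A54.Pl
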