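import Pool.Agent.Lib.MP_a54f13_nt.Pl.Spec
import Pool.Agent.Lib.MP_a54f13_nt.Dyn.RatioS

/-!
# T1: (A) implies (B), flat version
-/

set_option autoImplicit false

namespace Pool.Agent.A54.Pl.T1M

open MeasureTheory Filter Topology Set
open scoped ContDiff ComplexConjugate
open Pool.Agent.A54.Rel Pool.Agent.A54.LocGen Pool.Agent.A54.Ratio
open Pool.Agent.A54.Half (H0)

noncomputable section

variable {V : Set ℂ} {q : ℂ → ℝ} {h : ℕ → ℝ} {f : ℕ → ℂ → ℝ} {r : ℕ → ℂ → ℂ}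

/-- the weak limit of the squares is one -/
lemma rho_one (hI : StmtIneq) (hS : Sm V q h f r)
    (h2 : ∀ φ : ℂ → ℝ, TestR V φ →
      Tendsto (fun i => ∫ z, φ z * f i z ^ 2) atTop (𝓝 (∫ z, φ z))) :
    ∀ᵐ z, z ∈ V → rho r z = 1 := by
  have hloc : LocallyIntegrableOn (fun z => rho r z - 1) V volume := by
    rw [locallyIntegrableOn_iff (hS.pot.isOpen.isLocallyClosed)]
    intro K hKV hK
    have : IsFiniteMeasure (volume.restrict K : Measure ℂ) :=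
      ⟨by rw [Measure.restrict_apply_univ]; exact hK.measure_lt_top⟩
    have h0 : IntegrableOn (fun z => rho r z) K :=
      (((L2loc_rho hS) K hK hKV).integrable (by norm_num)).re
    exact h0.sub (integrableOn_const (by exact hK.measure_lt_top.ne))
  have h1 := IsOpen.ae_eq_zero_of_integral_contDiff_smul_eq_zero hS.pot.isOpen hloc (by
    intro g hg1 hg2 hg3
    have hw : TestR V g := ⟨hg1, hg2, hg3⟩
    have e1 := tendsto_nhds_unique (second_lim hI hS hw) (h2 g hw)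
    have i1 : Integrable (fun z => g z * rho r z) := by
      have := integrable_L2loc (L2loc_rho hS) hw (F := fun _ => 1) continuous_const
      simpa using this
    have e2 : ∀ z, g z • (rho r z - 1) = g z * rho r z - g z := by
      intro z; rw [smul_eq_mul]; ring
    simp_rw [e2]
    rw [integral_sub i1 hw.integrable, e1, sub_self])
  filter_upwards [h1] with z hz hzV
  linarith [hz hzV]

lemma PP_zero (hI : StmtIneq) (hS : Sm V q h f r) (h1 : ∀ᵐ z, z ∈ V → rho r z = 1)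
    {w : ℂ → ℝ} (hw : TestR V w) : PP q r w 0 = ∫ z, w z := by
  rw [← (integrable_rho_sq hI hS hw).2]
  apply integral_congr_ae
  filter_upwards [h1] with z hz
  by_cases hV : z ∈ V
  · rw [hz hV]; ring
  · rw [hw.eq_zero hV]; ring

lemma XX_weakR (hW : StmtWeak2) (hI : StmtIneq) (hS : Sm V q h f r)
    (h1 : ∀ᵐ z, z ∈ V → rho r z = 1) (N : ℕ) {w : ℂ → ℝ} (hw : TestR V w) :
    Tendsto (fun i => ∫ z, w z * XX q (h i) (f i) (fun _ => 1) N z) atTop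
      (𝓝 (N * ∫ z, w z)) := by
  have h2 := XX_weak hW hI hS N hw.toTest
  have e1 : ∫ z, (w z : ℂ) * ((N : ℂ) * (rho r z : ℂ)) = ((N * ∫ z, w z : ℝ) : ℂ) := by
    rw [← integral_const_mul, ← integral_complex_ofReal]
    apply integral_congr_ae
    filter_upwards [h1] with z hz
    by_cases hV : z ∈ V
    · rw [hz hV]; push_cast; ring
    · rw [hw.eq_zero hV]; simp
  rw [e1] at h2
  have h3 := (Complex.continuous_re.tendsto _).comp h2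
  simp only [Complex.ofReal_re] at h3
  refine h3.congr fun i => ?_
  have e2 : ∫ z, (w z : ℂ) * (XX q (h i) (f i) (fun _ => 1) N z : ℂ) =
      ((∫ z, w z * XX q (h i) (f i) (fun _ => 1) N z : ℝ) : ℂ) := by
    rw [← integral_complex_ofReal]
    congr 1; funext z; push_cast; ring
  simp only [Function.comp_apply, e2, Complex.ofReal_re]

lemma sq_lim (hRel : StmtRel) (hOdd : StmtOdd) (hOL : StmtOddLim) (hW : StmtWeak2)
    (hI : StmtIneq) (hS : Sm V q h f r) (hB : L4Bdd V f) (h1 : ∀ᵐ z, z ∈ V → rho r z = 1)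
    {w : ℂ → ℝ} (hw : TestR V w)
    (h4 : Tendsto (fun i => ∫ z, w z * f i z ^ 4) atTop (𝓝 (3 * ∫ z, w z)))
    (M : ℕ) (hM : 1 ≤ M) :
    Tendsto (fun i => ∫ z, w z *
      ((2 * (M : ℝ))⁻¹ * XX q (h i) (f i) (fun _ => 1) (2 * M) z - 1) ^ 2) atTop
      (𝓝 (pairSum (PP q r w) (2 * M) / (4 * M ^ 2))) := by
  have hM0 : (0 : ℝ) < M := by exact_mod_cast hM
  have a1 := quad_lim hRel hOdd hOL hS hB hw (fun _ => 1) (2 * M)
  rw [sum_tt, sum_LL, PP_zero hI hS h1 hw] at a1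
  have a2 := a1.add (h4.const_mul (8 / 3 * (M : ℝ) ^ 2))
  have a3 := XX_weakR hW hI hS h1 (2 * M) hw
  have a4 := ((a2.const_mul ((2 * (M : ℝ))⁻¹ ^ 2)).sub
    (a3.const_mul (2 * (2 * (M : ℝ))⁻¹))).add_const (∫ z, w z)
  have e1 : (2 * (M : ℝ))⁻¹ ^ 2 * ((pairSum (PP q r w) (2 * M) - 4 * (M : ℝ) ^ 2 * ∫ z, w z) +
      8 / 3 * (M : ℝ) ^ 2 * (3 * ∫ z, w z)) -
      2 * (2 * (M : ℝ))⁻¹ * (((2 * M : ℕ) : ℝ) * ∫ z, w z) + (∫ z, w z) =
      pairSum (PP q r w) (2 * M) / (4 * M ^ 2) := by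
    generalize (∫ z, w z) = I
    push_cast
    field_simp
    ring
  rw [← e1]
  refine a4.congr fun i => ?_
  have cX := continuous_XX hS.pot (hS.sol i).smooth (h i) (fun _ => 1) (2 * M)
  have i1 : Integrable (fun z => (2 * (M : ℝ))⁻¹ ^ 2 *
      (w z * XX q (h i) (f i) (fun _ => 1) (2 * M) z ^ 2)) :=
    (integrable_testR hw (cX.pow 2)).const_mul ((2 * (M : ℝ))⁻¹ ^ 2)
  have i2 : Integrable (fun z => 2 * (2 * (M : ℝ))⁻¹ *
      (w z * XX q (h i) (f i) (fun _ => 1) (2 * M) z)) :=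
    (integrable_testR hw cX).const_mul (2 * (2 * (M : ℝ))⁻¹)
  have e2 : ∀ z, w z * ((2 * (M : ℝ))⁻¹ * XX q (h i) (f i) (fun _ => 1) (2 * M) z - 1) ^ 2 =
      (2 * (M : ℝ))⁻¹ ^ 2 * (w z * XX q (h i) (f i) (fun _ => 1) (2 * M) z ^ 2) -
        2 * (2 * (M : ℝ))⁻¹ * (w z * XX q (h i) (f i) (fun _ => 1) (2 * M) z) + w z := by
    intro z; ring
  simp_rw [e2]
  rw [integral_add (f := fun z => (2 * (M : ℝ))⁻¹ ^ 2 *
      (w z * XX q (h i) (f i) (fun _ => 1) (2 * M) z ^ 2) -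
        2 * (2 * (M : ℝ))⁻¹ * (w z * XX q (h i) (f i) (fun _ => 1) (2 * M) z))
      (i1.sub i2) hw.integrable, integral_sub i1 i2, integral_const_mul, integral_const_mul]
  ring

/-- the pair sums are small -/
lemma pair_small {P : ℕ → ℝ} (hP : ∀ n, 0 ≤ P n)
    (hNA : Tendsto (fun N : ℕ => (∑ n ∈ Finset.range N, P n) / N) atTop (𝓝 0)) {η : ℝ}
    (hη : 0 < η) : ∃ M : ℕ, 1 ≤ M ∧ pairSum P (2 * M) / (4 * M ^ 2) ≤ η := by
  have h1 := hNA.eventually (gt_mem_nhds (show 0 < η / 8 by linarith))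
  obtain ⟨N₀, hN₀⟩ := eventually_atTop.mp h1
  set M := N₀ + 1 with hM
  have hM1 : 1 ≤ M := by omega
  refine ⟨M, hM1, ?_⟩
  have h2 := hN₀ (2 * (2 * M) + 1) (by omega)
  have hM0 : (1 : ℝ) ≤ M := by exact_mod_cast hM1
  have h6 : (0 : ℝ) < ((2 * (2 * M) + 1 : ℕ) : ℝ) := by positivity
  rw [div_lt_iff₀ h6] at h2
  have h3 := Dyn.RatioSM.pairSum_le hP (2 * M)
  have h4 : pairSum P (2 * M) ≤ 3 * (2 * M) * (η / 8 * (4 * M + 1)) := by
    refine h3.trans ?_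
    push_cast at h2 ⊢
    refine mul_le_mul_of_nonneg_left ?_ (by positivity)
    linarith
  rw [div_le_iff₀ (by positivity)]
  refine h4.trans ?_
  nlinarith [mul_nonneg hη.le (show (0 : ℝ) ≤ M by linarith),
    mul_nonneg (mul_nonneg hη.le (show (0 : ℝ) ≤ M by linarith)) (sub_nonneg.2 hM0)]

lemma sq_norm_add_le (a b : ℂ) : ‖a + b‖ ^ 2 ≤ 2 * ‖a‖ ^ 2 + 2 * ‖b‖ ^ 2 := by
  have h1 : ‖a + b‖ ^ 2 ≤ (‖a‖ + ‖b‖) ^ 2 := pow_le_pow_left₀ (norm_nonneg _) (norm_add_le _ _) 2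
  nlinarith [sq_nonneg (‖a‖ - ‖b‖)]

lemma diff_small (hS2 : StmtS2) (hS : Seq V q h f) (hB : L4Bdd V f)
    {φ ζ₁ ζ₂ : ℂ → ℝ} {C₁ r₁ r₂ : ℝ} (hφ : TestR V φ) (hφ0 : ∀ z, 0 ≤ φ z)
    (hζ₁ : TestR V ζ₁) (hζ₂ : TestR V ζ₂) (hC₁ : 0 ≤ C₁)
    (hE1 : ∀ r : ℝ, 0 < r → r ≤ r₁ → ∀ W : ℂ → ℂ, Continuous W →
      ∫ z, φ z * ‖Ed r W z‖ ^ 2 ≤ C₁ * ∫ z, ζ₁ z ^ 2 * ‖W z‖ ^ 2)
    (hE2 : ∀ δ : ℝ, 0 < δ → ∃ C : ℝ, 0 ≤ C ∧
      ∀ r : ℝ, 0 < r → r ≤ r₂ → ∀ W : ℂ → ℂ, ContDiff ℝ ∞ W →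
        ∫ z, φ z * ‖Ed r (dzb W) z‖ ^ 2 ≤
          C / r ^ 2 * (∫ z, ζ₂ z ^ 2 * ‖W z‖ ^ 2) + δ * ∫ z, ζ₂ z ^ 2 * ‖dzb W z‖ ^ 2)
    {ρ : ℕ → ℝ} (hρ0 : ∀ i, 0 < ρ i) (hρ : Tendsto ρ atTop (𝓝 0))
    (hhρ : Tendsto (fun i => h i / ρ i) atTop (𝓝 0)) (hr₁ : 0 < r₁) (hr₂ : 0 < r₂)
    (n : ℕ) {ε : ℝ} (hε : 0 < ε) :
    ∀ᶠ i in atTop, ∫ z, φ z *
      (Ed (ρ i) (fun w => nn q (h i) (f i) n w - nn q (h i) (f i) 0 w) z) ^ 2 ≤ ε := by
  obtain ⟨W, hW, hWb⟩ := hS2 V q h f hS hB n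
  obtain ⟨B₁, hB₁⟩ := hWb ζ₁ hζ₁
  obtain ⟨B₂, hB₂⟩ := hWb ζ₂ hζ₂
  have hB₂0 : 0 ≤ B₂ := (integral_nonneg fun z => by positivity).trans (hB₂ 0).1
  obtain ⟨Cδ, hCδ0, hCδ⟩ := hE2 (ε / (6 * (B₂ + 1))) (by positivity)
  have hlim : Tendsto (fun i => 2 * (C₁ * (B₁ * h i ^ 2)) +
      2 * (Cδ * B₂ * (h i / ρ i) ^ 2 + ε / (6 * (B₂ + 1)) * B₂)) atTop
      (𝓝 (2 * (C₁ * (B₁ * 0 ^ 2)) + 2 * (Cδ * B₂ * 0 ^ 2 + ε / (6 * (B₂ + 1)) * B₂))) :=
    ((((hS.lim.pow 2).const_mul B₁).const_mul C₁).const_mul 2).add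
      ((((hhρ.pow 2).const_mul (Cδ * B₂)).add_const _).const_mul 2)
  have hlt : 2 * (C₁ * (B₁ * 0 ^ 2)) + 2 * (Cδ * B₂ * 0 ^ 2 + ε / (6 * (B₂ + 1)) * B₂) < ε := by
    have e1 : ε / (6 * (B₂ + 1)) * B₂ ≤ ε / 6 := by
      rw [div_mul_eq_mul_div, div_le_div_iff₀ (by positivity) (by norm_num)]
      nlinarith
    norm_num
    linarith
  filter_upwards [hlim.eventually (gt_mem_nhds hlt), hρ.eventually (gt_mem_nhds hr₁),
    hρ.eventually (gt_mem_nhds hr₂)] with i hi hi1 hi2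
  refine le_trans ?_ hi.le
  have cn : ∀ m, Continuous (fun w => nn q (h i) (f i) m w) := fun m =>
    continuous_nn hS.pot (hS.sol i).smooth (h i) m
  set dW : ℂ → ℂ := fun z => (h i : ℂ) * dzb (W i) z with hdW
  have cdW : Continuous dW := continuous_const.mul (contDiff_dzb (hW i)).continuous
  set D : ℂ → ℂ := fun w => ((nn q (h i) (f i) n w - nn q (h i) (f i) 0 w : ℝ) : ℂ) with hD
  have cD : Continuous D := Complex.continuous_ofReal.comp ((cn n).sub (cn 0))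
  set er : ℂ → ℂ := fun w => D w - dW w with her
  have cer : Continuous er := cD.sub cdW
  have e1 : ∀ z, (Ed (ρ i) (fun w => nn q (h i) (f i) n w - nn q (h i) (f i) 0 w) z) ^ 2 =
      ‖Ed (ρ i) D z‖ ^ 2 := by
    intro z
    rw [hD, Ed_ofReal, Complex.norm_real, Real.norm_eq_abs, sq_abs]
  have e2 : ∀ z, Ed (ρ i) D z = Ed (ρ i) er z + Ed (ρ i) dW z := by
    intro z
    rw [← Ed_add cer cdW]
    congr 1
    funext w
    rw [her]
    ring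
  have e3 : dW = dzb (fun z => (h i : ℂ) * W i z) := by
    funext z
    rw [dzb_const_mul _ (hW i)]
  have b1 := hE1 (ρ i) (hρ0 i) hi1.le er cer
  have b2 := hCδ (ρ i) (hρ0 i) hi2.le (fun z => (h i : ℂ) * W i z)
    (contDiff_const.mul (hW i))
  rw [← e3] at b2
  have b3 : ∫ z, ζ₂ z ^ 2 * ‖(h i : ℂ) * W i z‖ ^ 2 ≤ h i ^ 2 * B₂ := by
    have : ∀ z, ζ₂ z ^ 2 * ‖(h i : ℂ) * W i z‖ ^ 2 = h i ^ 2 * (ζ₂ z ^ 2 * ‖W i z‖ ^ 2) := by
      intro z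
      rw [norm_mul, Complex.norm_real, Real.norm_eq_abs, mul_pow, sq_abs]
      ring
    simp_rw [this]
    rw [integral_const_mul]
    exact mul_le_mul_of_nonneg_left (hB₂ i).1 (sq_nonneg _)
  have b4 : ∫ z, ζ₂ z ^ 2 * ‖dW z‖ ^ 2 ≤ B₂ := (hB₂ i).2.1
  have b5 : ∫ z, ζ₁ z ^ 2 * ‖er z‖ ^ 2 ≤ B₁ * h i ^ 2 := (hB₁ i).2.2
  have c1 : ∫ z, φ z * ‖Ed (ρ i) er z‖ ^ 2 ≤ C₁ * (B₁ * h i ^ 2) :=
    b1.trans (mul_le_mul_of_nonneg_left b5 hC₁)
  have c2 : ∫ z, φ z * ‖Ed (ρ i) dW z‖ ^ 2 ≤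
      Cδ * B₂ * (h i / ρ i) ^ 2 + ε / (6 * (B₂ + 1)) * B₂ := by
    refine b2.trans (add_le_add ?_ (mul_le_mul_of_nonneg_left b4 (by positivity)))
    have : Cδ * B₂ * (h i / ρ i) ^ 2 = Cδ / ρ i ^ 2 * (h i ^ 2 * B₂) := by
      rw [div_pow]; ring
    rw [this]
    exact mul_le_mul_of_nonneg_left b3 (by positivity)
  have i1 : Integrable (fun z => φ z * ‖Ed (ρ i) er z‖ ^ 2) :=
    integrable_testR hφ ((continuous_Ed cer (ρ i)).norm.pow 2)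
  have i2 : Integrable (fun z => φ z * ‖Ed (ρ i) dW z‖ ^ 2) :=
    integrable_testR hφ ((continuous_Ed cdW (ρ i)).norm.pow 2)
  have i0 : Integrable (fun z => φ z * ‖Ed (ρ i) D z‖ ^ 2) :=
    integrable_testR hφ ((continuous_Ed cD (ρ i)).norm.pow 2)
  simp_rw [e1]
  calc ∫ z, φ z * ‖Ed (ρ i) D z‖ ^ 2
      ≤ ∫ z, (2 * (φ z * ‖Ed (ρ i) er z‖ ^ 2) + 2 * (φ z * ‖Ed (ρ i) dW z‖ ^ 2)) := by
        refine integral_mono i0 ((i1.const_mul 2).add (i2.const_mul 2)) fun z => ?_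
        have := mul_le_mul_of_nonneg_left (sq_norm_add_le (Ed (ρ i) er z) (Ed (ρ i) dW z))
          (hφ0 z)
        simp only [e2 z]
        linarith
    _ = 2 * (∫ z, φ z * ‖Ed (ρ i) er z‖ ^ 2) + 2 * ∫ z, φ z * ‖Ed (ρ i) dW z‖ ^ 2 := by
        rw [integral_add (i1.const_mul 2) (i2.const_mul 2), integral_const_mul,
          integral_const_mul]
    _ ≤ _ := add_le_add (mul_le_mul_of_nonneg_left c1 (by norm_num))
        (mul_le_mul_of_nonneg_left c2 (by norm_num))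

lemma Ed_sum (r : ℝ) (z : ℂ) {s : Finset ℕ} {F : ℕ → ℂ → ℝ} (hF : ∀ n, Continuous (F n)) :
    Ed r (fun w => ∑ n ∈ s, F n w) z = ∑ n ∈ s, Ed r (F n) z := by
  unfold Ed
  rw [← Finset.smul_sum]
  congr 1
  exact integral_finsetSum _ fun n _ => integrableOn_lin (hF n) r z

/-- the conclusion along a sequence with weak limits -/
lemma core (hE1 : StmtE1) (hE2 : StmtE2) (hS2 : StmtS2)
    (hRel : StmtRel) (hOdd : StmtOdd) (hOL : StmtOddLim) (hW : StmtWeak2) (hI : StmtIneq)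
    (hVH : V ⊆ H0) (hS : Sm V q h f r) (hB : L4Bdd V f)
    (hNA : ∀ w : ℂ → ℝ, TestR V w → (∀ z, 0 ≤ w z) →
      Tendsto (fun N : ℕ => (∑ n ∈ Finset.range N, PP q r w n) / N) atTop (𝓝 0))
    (h2 : ∀ φ : ℂ → ℝ, TestR V φ →
      Tendsto (fun i => ∫ z, φ z * f i z ^ 2) atTop (𝓝 (∫ z, φ z)))
    (h4 : ∀ φ : ℂ → ℝ, TestR V φ →
      Tendsto (fun i => ∫ z, φ z * f i z ^ 4) atTop (𝓝 (3 * ∫ z, φ z)))
    {ρ : ℕ → ℝ} (hρ0 : ∀ i, 0 < ρ i) (hρ : Tendsto ρ atTop (𝓝 0))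
    (hhρ : Tendsto (fun i => h i / ρ i) atTop (𝓝 0))
    {φ : ℂ → ℝ} (hφ : TestR V φ) (hφ0 : ∀ z, 0 ≤ φ z) {ε : ℝ} (hε : 0 < ε) :
    ∀ᶠ i in atTop, ∫ z, φ z * (Ed (ρ i) (fun w => f i w ^ 2) z - 1) ^ 2 < ε := by
  obtain ⟨ζ₁, C₁, r₁, hζ₁, hC₁, hr₁, hE1'⟩ := hE1 V hS.pot.isOpen hVH φ hφ hφ0
  obtain ⟨ζ₂, r₂, hζ₂, hr₂, hE2'⟩ := hE2 V hS.pot.isOpen hVH φ hφ hφ0
  have h1 := rho_one hI hS h2
  set w : ℂ → ℝ := fun z => ζ₁ z ^ 2 with hwdef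
  have hw : TestR V w := by
    have := hζ₁.mul_right hζ₁.smooth
    have e : (fun z => ζ₁ z * ζ₁ z) = w := by funext z; rw [hwdef]; ring
    rwa [e] at this
  have hw0 : ∀ z, 0 ≤ w z := fun z => sq_nonneg _
  obtain ⟨M, hM, hMη⟩ := pair_small (P := PP q r w)
    (fun n => Dyn.RatioSM.PP_nonneg hS.pot hw0 n) (hNA w hw hw0)
    (show 0 < ε / (16 * (C₁ + 1)) by positivity)
  have hM0 : (0 : ℝ) < M := by exact_mod_cast hM
  have a1 := sq_lim hRel hOdd hOL hW hI hS hB h1 hw (h4 w hw) M hM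
  have a2 := a1.eventually (gt_mem_nhds (lt_of_le_of_lt hMη
    (show ε / (16 * (C₁ + 1)) < ε / (8 * (C₁ + 1)) by
      apply div_lt_div_of_pos_left hε (by positivity)
      nlinarith)))
  have a3 : ∀ᶠ i in atTop, ∀ n ∈ Finset.Icc 1 (2 * M), ∫ z, φ z *
      (Ed (ρ i) (fun w => nn q (h i) (f i) n w - nn q (h i) (f i) 0 w) z) ^ 2 ≤ ε / 8 := by
    rw [Filter.eventually_all_finset]
    intro n _
    exact diff_small hS2 hS.toSeq hB hφ hφ0 hζ₁ hζ₂ hC₁ hE1' hE2' hρ0 hρ hhρ hr₁ hr₂ n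
      (show 0 < ε / 8 by linarith)
  filter_upwards [a2, a3, hρ.eventually (gt_mem_nhds hr₁)] with i hi1 hi2 hi3
  have cn : ∀ m, Continuous (fun w => nn q (h i) (f i) m w) := fun m =>
    continuous_nn hS.pot (hS.sol i).smooth (h i) m
  have cX := continuous_XX hS.pot (hS.sol i).smooth (h i) (fun _ => 1) (2 * M)
  set S : ℂ → ℝ := fun z => (2 * (M : ℝ))⁻¹ * XX q (h i) (f i) (fun _ => 1) (2 * M) z - 1
    with hSdef
  have cS : Continuous S := (continuous_const.mul cX).sub continuous_const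
  set G : ℕ → ℂ → ℝ := fun n w => nn q (h i) (f i) n w - nn q (h i) (f i) 0 w with hG
  have cG : ∀ n, Continuous (G n) := fun n => (cn n).sub (cn 0)
  have cF : Continuous (fun w => f i w ^ 2) := (hS.sol i).smooth.continuous.pow 2
  -- the decomposition
  have dec : ∀ w, f i w ^ 2 = (S w + 1) - (2 * (M : ℝ))⁻¹ * ∑ n ∈ Finset.Icc 1 (2 * M), G n w := by
    intro w
    have e1 : ∑ n ∈ Finset.Icc 1 (2 * M), G n w =
        XX q (h i) (f i) (fun _ => 1) (2 * M) w - 2 * M * f i w ^ 2 := by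
      rw [hG]
      simp only [Finset.sum_sub_distrib, Finset.sum_const, Nat.card_Icc, Nat.add_sub_cancel,
        nsmul_eq_mul, nn_zero]
      unfold XX
      simp only [one_mul]
      push_cast
      ring
    rw [e1, hSdef]
    field_simp
    ring
  have hEd : ∀ z, Ed (ρ i) (fun w => f i w ^ 2) z - 1 = Ed (ρ i) S z -
      (2 * (M : ℝ))⁻¹ * ∑ n ∈ Finset.Icc 1 (2 * M), Ed (ρ i) (G n) z := by
    intro z
    have e1 : (fun w => f i w ^ 2) = fun w => (S w + 1) -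
        (2 * (M : ℝ))⁻¹ * ∑ n ∈ Finset.Icc 1 (2 * M), G n w := funext dec
    have c1 : Continuous fun w => ∑ n ∈ Finset.Icc 1 (2 * M), G n w :=
      continuous_finsetSum _ fun n _ => cG n
    rw [e1, Ed_sub (W₁ := fun w => S w + 1)
        (W₂ := fun w => (2 * (M : ℝ))⁻¹ * ∑ n ∈ Finset.Icc 1 (2 * M), G n w)
        (cS.add continuous_const) (continuous_const.mul c1),
      Ed_add (W₂ := fun _ => (1 : ℝ)) cS continuous_const, Ed_const, Ed_const_mulR,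
      Ed_sum _ _ cG]
    ring
  have hpt : ∀ z, (Ed (ρ i) (fun w => f i w ^ 2) z - 1) ^ 2 ≤ 2 * (Ed (ρ i) S z) ^ 2 +
      2 * ((2 * (M : ℝ))⁻¹ * ∑ n ∈ Finset.Icc 1 (2 * M), (Ed (ρ i) (G n) z) ^ 2) := by
    intro z
    rw [hEd z]
    have k1 : (∑ n ∈ Finset.Icc 1 (2 * M), Ed (ρ i) (G n) z) ^ 2 ≤
        (2 * M) * ∑ n ∈ Finset.Icc 1 (2 * M), (Ed (ρ i) (G n) z) ^ 2 := by
      have := sq_sum_le_card_mul_sum_sq (s := Finset.Icc 1 (2 * M))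
        (f := fun n => Ed (ρ i) (G n) z)
      rw [Nat.card_Icc, Nat.add_sub_cancel] at this
      push_cast at this
      exact this
    have k2 : ((2 * (M : ℝ))⁻¹ * ∑ n ∈ Finset.Icc 1 (2 * M), Ed (ρ i) (G n) z) ^ 2 ≤
        (2 * (M : ℝ))⁻¹ * ∑ n ∈ Finset.Icc 1 (2 * M), (Ed (ρ i) (G n) z) ^ 2 := by
      rw [mul_pow]
      calc (2 * (M : ℝ))⁻¹ ^ 2 * (∑ n ∈ Finset.Icc 1 (2 * M), Ed (ρ i) (G n) z) ^ 2
          ≤ (2 * (M : ℝ))⁻¹ ^ 2 * ((2 * M) *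
            ∑ n ∈ Finset.Icc 1 (2 * M), (Ed (ρ i) (G n) z) ^ 2) :=
            mul_le_mul_of_nonneg_left k1 (by positivity)
        _ = _ := by field_simp
    nlinarith [sq_nonneg (Ed (ρ i) S z +
      (2 * (M : ℝ))⁻¹ * ∑ n ∈ Finset.Icc 1 (2 * M), Ed (ρ i) (G n) z)]
  -- first part
  have p1 : ∫ z, φ z * (Ed (ρ i) S z) ^ 2 ≤ ε / 8 := by
    have b1 := hE1' (ρ i) (hρ0 i) hi3.le (fun w => (S w : ℂ)) (Complex.continuous_ofReal.comp cS)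
    have e1 : ∀ z, φ z * ‖Ed (ρ i) (fun w => (S w : ℂ)) z‖ ^ 2 = φ z * (Ed (ρ i) S z) ^ 2 := by
      intro z
      rw [Ed_ofReal, Complex.norm_real, Real.norm_eq_abs, sq_abs]
    have e2 : ∀ z, ζ₁ z ^ 2 * ‖(S z : ℂ)‖ ^ 2 = w z * S z ^ 2 := by
      intro z
      rw [Complex.norm_real, Real.norm_eq_abs, sq_abs]
    simp_rw [e1, e2] at b1
    refine b1.trans ?_
    have b2 : C₁ * ∫ z, w z * S z ^ 2 ≤ C₁ * (ε / (8 * (C₁ + 1))) :=
      mul_le_mul_of_nonneg_left hi1.le hC₁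
    refine b2.trans ?_
    rw [mul_div_assoc', div_le_div_iff₀ (by positivity) (by norm_num)]
    nlinarith
  have iS : Integrable (fun z => φ z * (Ed (ρ i) S z) ^ 2) :=
    integrable_testR hφ ((continuous_Ed cS (ρ i)).pow 2)
  have iG : ∀ n, Integrable (fun z => φ z * (Ed (ρ i) (G n) z) ^ 2) := fun n =>
    integrable_testR hφ ((continuous_Ed (cG n) (ρ i)).pow 2)
  have iF : Integrable (fun z => φ z * (Ed (ρ i) (fun w => f i w ^ 2) z - 1) ^ 2) :=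
    integrable_testR hφ (((continuous_Ed cF (ρ i)).sub continuous_const).pow 2)
  have iG' : Integrable (fun z => ∑ n ∈ Finset.Icc 1 (2 * M), φ z * (Ed (ρ i) (G n) z) ^ 2) :=
    integrable_finsetSum _ fun n _ => iG n
  have p2 : ∑ n ∈ Finset.Icc 1 (2 * M), ∫ z, φ z * (Ed (ρ i) (G n) z) ^ 2 ≤
      (2 * M) * (ε / 8) := by
    calc _ ≤ ∑ n ∈ Finset.Icc 1 (2 * M), ε / 8 := Finset.sum_le_sum hi2
      _ = _ := by
        rw [Finset.sum_const, Nat.card_Icc, Nat.add_sub_cancel, nsmul_eq_mul]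
        push_cast
        ring
  calc ∫ z, φ z * (Ed (ρ i) (fun w => f i w ^ 2) z - 1) ^ 2
      ≤ ∫ z, (2 * (φ z * (Ed (ρ i) S z) ^ 2) + 2 * (2 * (M : ℝ))⁻¹ *
        ∑ n ∈ Finset.Icc 1 (2 * M), φ z * (Ed (ρ i) (G n) z) ^ 2) := by
        refine integral_mono iF ((iS.const_mul 2).add (iG'.const_mul _)) fun z => ?_
        have := mul_le_mul_of_nonneg_left (hpt z) (hφ0 z)
        refine this.trans (le_of_eq ?_)
        rw [← Finset.mul_sum]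
        ring
    _ = 2 * (∫ z, φ z * (Ed (ρ i) S z) ^ 2) + 2 * (2 * (M : ℝ))⁻¹ *
        ∑ n ∈ Finset.Icc 1 (2 * M), ∫ z, φ z * (Ed (ρ i) (G n) z) ^ 2 := by
        rw [integral_add (iS.const_mul 2) (iG'.const_mul _), integral_const_mul,
          integral_const_mul, integral_finsetSum _ fun n _ => iG n]
    _ ≤ 2 * (ε / 8) + 2 * (2 * (M : ℝ))⁻¹ * ((2 * M) * (ε / 8)) :=
        add_le_add (mul_le_mul_of_nonneg_left p1 (by norm_num))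
          (mul_le_mul_of_nonneg_left p2 (by positivity))
    _ = ε / 2 := by
        field_simp
        ring
    _ < ε := by linarith

end

end Pool.Agent.A54.Pl.T1M

namespace Pool.Agent.A54.Pl

open MeasureTheory Filter Topology Set
open scoped ContDiff ComplexConjugate
open Pool.Agent.A54.Half (H0)

theorem stmtT1 (hE1 : StmtE1) (hE2 : StmtE2) (hS2 : StmtS2) (hComp : StmtComp)
    (hRel : StmtRel) (hOdd : StmtOdd) (hOL : StmtOddLim) (hW : StmtWeak2) (hI : StmtIneq) :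
    StmtT1 := by
  intro V q h f hVH hS hB hNA h2 h4 ρ hρ0 hρ hhρ φ hφ hφ0
  by_contra hcon
  have hnn : ∀ i, 0 ≤ ∫ z, φ z * (Ed (ρ i) (fun w => f i w ^ 2) z - 1) ^ 2 := fun i =>
    integral_nonneg fun z => mul_nonneg (hφ0 z) (sq_nonneg _)
  rw [Metric.tendsto_atTop] at hcon
  push Not at hcon
  obtain ⟨ε, hε, hcon⟩ := hcon
  have hfreq : ∃ᶠ i in atTop, ε ≤ ∫ z, φ z * (Ed (ρ i) (fun w => f i w ^ 2) z - 1) ^ 2 := by
    rw [Filter.frequently_atTop]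
    intro N
    obtain ⟨n, hn, hn2⟩ := hcon N
    refine ⟨n, hn, ?_⟩
    rwa [Real.dist_eq, sub_zero, abs_of_nonneg (hnn n)] at hn2
  obtain ⟨σ, hσ, hσ'⟩ := Filter.extraction_of_frequently_atTop hfreq
  have hS' : Seq V q (fun i => h (σ i)) (fun i => f (σ i)) :=
    LocGen.Seq.sub hS hS.pot.isOpen (Subset.refl _) hσ.tendsto_atTop
  have hB' : L4Bdd V (fun i => f (σ i)) := by
    intro ζ hζ
    obtain ⟨C, hC⟩ := hB ζ hζ
    exact ⟨C, fun i => hC (σ i)⟩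
  obtain ⟨τ, r, hτ, hSm⟩ := hComp V q _ _ hS' hB'
  have hστ : StrictMono (fun i => σ (τ i)) := hσ.comp hτ
  have hB'' : L4Bdd V (fun i => f (σ (τ i))) := by
    intro ζ hζ
    obtain ⟨C, hC⟩ := hB ζ hζ
    exact ⟨C, fun i => hC (σ (τ i))⟩
  have hev := T1M.core hE1 hE2 hS2 hRel hOdd hOL hW hI hVH hSm hB''
    (fun w hw hw0 => hNA V (fun i => σ (τ i)) r (Subset.refl _) hστ hSm w hw hw0)
    (fun φ hφ => (h2 φ hφ).comp hστ.tendsto_atTop)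
    (fun φ hφ => (h4 φ hφ).comp hστ.tendsto_atTop)
    (ρ := fun i => ρ (σ (τ i))) (fun i => hρ0 _) (hρ.comp hστ.tendsto_atTop)
    (hhρ.comp hστ.tendsto_atTop) hφ hφ0 hε
  obtain ⟨i, hi⟩ := hev.exists
  exact absurd (hσ' (τ i)) (not_le.mpr hi)

end Pool.Agent.A54.Pl
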