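import Pool.Agent.Lib.MP_a54f13_nt.Pl.Spec
import Pool.Agent.Lib.MP_a54f13_nt.L4

/-!
Module `T3` of package `Pl`: the fourth moment is bounded by the mean square of disc masses.
-/

set_option autoImplicit false

namespace Pool.Agent.A54.Pl.T3M

open MeasureTheory Filter Topology Set
open scoped ContDiff ComplexConjugate UpperHalfPlane
open Pool.Agent.A54.Half (H0)
open Pool.Agent.A54.L4

noncomputable section

/-- weights at nearby points are comparable -/
lemma wt_le {h : ℝ} (hh : 0 < h) {a : ℝ} (x0 z w : ℂ) (ha : ‖z - w‖ ≤ a * h) :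
    wt h x0 z ≤ (2 * (1 + a ^ 2)) ^ 2 * wt h x0 w := by
  unfold wt
  set y := h⁻¹ • (x0 - z) with hy
  set y' := h⁻¹ • (x0 - w) with hy'
  have h1 : ‖y' - y‖ ≤ a := by
    have e : y' - y = h⁻¹ • (z - w) := by
      rw [hy, hy', ← smul_sub]
      congr 1
      ring
    rw [e, norm_smul, Real.norm_eq_abs, abs_of_pos (inv_pos.mpr hh), inv_mul_le_iff₀ hh]
    linarith
  have h2 : ‖y'‖ ≤ ‖y‖ + a := by
    have := norm_add_le (y' - y) y
    rw [sub_add_cancel] at this
    linarith
  have ha0 : 0 ≤ a := (norm_nonneg _).trans h1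
  have h3 : ‖y'‖ ^ 2 ≤ (‖y‖ + a) ^ 2 := pow_le_pow_left₀ (norm_nonneg _) h2 2
  have h4 : 1 + ‖y'‖ ^ 2 ≤ 2 * (1 + a ^ 2) * (1 + ‖y‖ ^ 2) := by
    nlinarith [sq_nonneg (‖y‖ - a), sq_nonneg (a * ‖y‖)]
  have h5 : (1 + ‖y'‖ ^ 2) ^ 2 ≤ (2 * (1 + a ^ 2)) ^ 2 * (1 + ‖y‖ ^ 2) ^ 2 := by
    rw [← mul_pow]
    exact pow_le_pow_left₀ (by positivity) h4 2
  rw [w1_eq, w1_eq, ← div_eq_mul_inv, inv_eq_one_div, div_le_div_iff₀ (by positivity)
    (by positivity)]
  linarith

/-- change of variables in a disc -/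
lemma int_disc (F : ℂ → ℝ) (w : ℂ) {r : ℝ} (hr : 0 < r) :
    ∫ u in Metric.ball (0 : ℂ) 1, F (w + (r : ℂ) * u) =
      (r ^ 2)⁻¹ * ∫ z in Metric.ball w r, F z := by
  have h1 := Measure.setIntegral_comp_smul_of_pos volume (fun x => F (w + x))
    (Metric.ball (0 : ℂ) 1) hr
  rw [Complex.finrank_real_complex, smul_unitBall_of_pos hr, smul_eq_mul] at h1
  have h3 : ∫ x in Metric.ball (0 : ℂ) r, F (w + x) = ∫ z in Metric.ball w r, F z := by
    rw [← integral_indicator measurableSet_ball, ← integral_indicator measurableSet_ball,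
      ← integral_add_left_eq_self (fun z => (Metric.ball w r).indicator F z) w]
    congr 1
    funext x
    by_cases hx : ‖x‖ < r
    · rw [indicator_of_mem (by simpa using hx), indicator_of_mem (by simpa [dist_eq_norm] using hx)]
    · rw [indicator_of_notMem (by simpa using hx),
        indicator_of_notMem (by simpa [dist_eq_norm] using hx)]
  rw [h3] at h1
  rw [← h1]
  rfl

lemma Ed_eq (F : ℂ → ℝ) (w : ℂ) {ρ : ℝ} (hr : 0 < ρ * w.im) :
    Real.pi * (ρ * w.im) ^ 2 * Ed ρ F w = ∫ z in Metric.ball w (ρ * w.im), F z := by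
  have h1 := int_disc F w hr
  unfold Ed lin
  rw [smul_eq_mul, h1]
  have h2 := Real.pi_ne_zero
  have h3 : (ρ * w.im) ^ 2 ≠ 0 := (pow_pos hr 2).ne'
  generalize (ρ * w.im) ^ 2 = X at h3 ⊢
  field_simp

/-- Fubini -/
lemma core {A G W : ℂ → ℝ} (hA : Continuous A) (hAc : HasCompactSupport A)
    (hA0 : ∀ z, 0 ≤ A z) (hG : Continuous G) (hGc : HasCompactSupport G)
    (hW : Continuous W) {r D : ℝ} (hr : 0 < r)
    (hWG : ∀ z, A z ≠ 0 → ∀ w, dist w z < r → W z ≤ D * G w) :
    Real.pi * r ^ 2 * ∫ z, A z * W z ≤ D * ∫ w, G w * ∫ z in Metric.ball w r, A z := by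
  have iA : Integrable A := hA.integrable_of_hasCompactSupport hAc
  have iG : Integrable G := hG.integrable_of_hasCompactSupport hGc
  set S : Set (ℂ × ℂ) := {p | dist p.2 p.1 < r} with hS
  have hSm : MeasurableSet S :=
    (isOpen_lt (continuous_snd.dist continuous_fst) continuous_const).measurableSet
  have iP : Integrable (S.indicator fun p : ℂ × ℂ => A p.1 * G p.2) (volume.prod volume) :=
    (iA.mul_prod iG).indicator hSm
  have hswap := integral_integral_swap (f := fun z w => S.indicator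
    (fun p : ℂ × ℂ => A p.1 * G p.2) (z, w)) iP
  have e1 : ∀ z w, S.indicator (fun p : ℂ × ℂ => A p.1 * G p.2) (z, w) =
      (Metric.ball z r).indicator (fun w => A z * G w) w := by
    intro z w
    by_cases hd : dist w z < r
    · rw [indicator_of_mem (show (z, w) ∈ S from hd), indicator_of_mem (Metric.mem_ball.mpr hd)]
    · rw [indicator_of_notMem (show (z, w) ∉ S from hd),
        indicator_of_notMem (fun h => hd (Metric.mem_ball.mp h))]
  have e2 : ∀ z w, S.indicator (fun p : ℂ × ℂ => A p.1 * G p.2) (z, w) =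
      (Metric.ball w r).indicator (fun z => A z * G w) z := by
    intro z w
    by_cases hd : dist w z < r
    · rw [indicator_of_mem (show (z, w) ∈ S from hd),
        indicator_of_mem (Metric.mem_ball.mpr (by rw [dist_comm]; exact hd))]
    · rw [indicator_of_notMem (show (z, w) ∉ S from hd),
        indicator_of_notMem (fun h => hd (by rw [dist_comm]; exact Metric.mem_ball.mp h))]
  have l1 : ∀ z, ∫ w, S.indicator (fun p : ℂ × ℂ => A p.1 * G p.2) (z, w) =
      ∫ w in Metric.ball z r, A z * G w := by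
    intro z
    simp only [e1]
    exact integral_indicator measurableSet_ball
  have l2 : ∀ w, ∫ z, S.indicator (fun p : ℂ × ℂ => A p.1 * G p.2) (z, w) =
      G w * ∫ z in Metric.ball w r, A z := by
    intro w
    simp only [e2]
    rw [integral_indicator measurableSet_ball, ← integral_const_mul]
    congr 1
    funext z
    ring
  simp only [l1, l2] at hswap
  rw [← hswap, ← integral_const_mul, ← integral_const_mul]
  have iAW : Integrable fun z => A z * W z :=
    (hA.mul hW).integrable_of_hasCompactSupport hAc.mul_right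
  have iI : Integrable fun z => ∫ w in Metric.ball z r, A z * G w := by
    have := iP.integral_prod_left
    refine this.congr (ae_of_all _ fun z => ?_)
    simp only
    exact l1 z
  refine integral_mono (iAW.const_mul _) (iI.const_mul _) fun z => ?_
  simp only
  have iGz : IntegrableOn G (Metric.ball z r) := iG.integrableOn
  have hvol : (volume.restrict (Metric.ball z r)).real univ = Real.pi * r ^ 2 := by
    rw [Measure.real, Measure.restrict_apply_univ, Complex.volume_ball, ENNReal.toReal_mul,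
      ENNReal.toReal_pow, ENNReal.toReal_ofReal hr.le]
    simp [mul_comm]
  have h1 : Real.pi * r ^ 2 * (A z * W z) = ∫ w in Metric.ball z r, A z * W z := by
    rw [integral_const, hvol, smul_eq_mul]
  have h2 : D * ∫ w in Metric.ball z r, A z * G w = ∫ w in Metric.ball z r, A z * (D * G w) := by
    rw [← integral_const_mul]
    congr 1
    funext w
    ring
  rw [h1, h2]
  by_cases hz : A z = 0
  · simp [hz]
  · refine setIntegral_mono_on (integrableOn_const (by
      rw [Complex.volume_ball]; exact ENNReal.mul_ne_top (by finiteness) (by finiteness)))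
      ((iGz.const_mul D).const_mul (A z)) measurableSet_ball fun w hw => ?_
    exact mul_le_mul_of_nonneg_left (hWG z hz w (Metric.mem_ball.mp hw)) (hA0 z)

end

end Pool.Agent.A54.Pl.T3M

namespace Pool.Agent.A54.Pl

open MeasureTheory Filter Topology Set
open scoped ContDiff ComplexConjugate UpperHalfPlane
open Pool.Agent.A54.Half (H0)
open Pool.Agent.A54.L4
open T3M

theorem stmtT3 (hE : StmtErr) (hC : StmtCacc) (hL : StmtLady) : StmtT3 := by
  intro V q hV hP ζ hζ
  obtain ⟨ζ', C3, h1, h2, h3⟩ := one_centre hE hC hL hP 0 hζ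
  have hK : IsCompact (tsupport ζ') := h1.cpt.isCompact
  obtain ⟨φ₁, hφ₁, hφ01, hφn⟩ := exists_cutoff hK hP.isOpen h1.sub
  obtain ⟨U, hU, hKU, hUφ⟩ := mem_nhdsSet_iff_exists.mp hφn
  obtain ⟨δ, hδ, hδU⟩ := hK.exists_thickening_subset_open hU hKU
  obtain ⟨m0, hm0, hm0'⟩ := hK.exists_forall_le' (f := Complex.im)
    Complex.continuous_im.continuousOn (a := 0) (fun z hz => hV (h1.sub hz))
  obtain ⟨M, hM⟩ := hφ₁.cpt.isCompact.exists_bound_of_continuousOn
    Complex.continuous_im.continuousOn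
  obtain ⟨B0, hB0⟩ := h1.cpt.exists_bound_of_continuous h1.smooth.continuous
  have hc1 := integral_w1_pow_pos 2 (by norm_num)
  have hc2 := integral_w1_pow_pos 4 (by norm_num)
  set c1 := ∫ y, w1 y ^ 2 with hc1'
  set c2 := ∫ y, w1 y ^ 4 with hc2'
  refine ⟨fun z => φ₁ z ^ 2, ⟨hφ₁.smooth.pow 2, ?_, ?_⟩, fun z => sq_nonneg _, fun R hR => ?_⟩
  · exact hφ₁.cpt.comp_left (g := fun x : ℝ => x ^ 2) (by simp)
  · refine (closure_minimal ?_ (isClosed_tsupport _)).trans hφ₁.sub
    intro z hz
    apply subset_tsupport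
    intro h0
    apply hz
    simp [h0]
  set c := m0 / 2 with hc
  have hcpos : 0 < c := by positivity
  set a := 4 * R * c with ha
  set D := (2 * (1 + a ^ 2)) ^ 2 with hD
  set E0 := D ^ 2 * (B0 ^ 2 * M ^ 2) / c ^ 2 with hE0
  refine ⟨C3 * E0 ^ 2 * c1 ^ 2 / c2, min (1 / (4 * R)) (δ / (4 * R * c)), by positivity,
    by positivity, fun h f ρ hf hh0 hρ1 hρ2 => ?_⟩
  have hh := hf.hpos
  have hρ : 0 < ρ := lt_of_lt_of_le (by positivity) hρ1
  have hρ1' : ρ ≤ 1 := by
    have := hh0.trans (min_le_left _ _)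
    rw [le_div_iff₀ (by positivity)] at this
    linarith
  have hρδ : c * ρ ≤ δ := by
    have := hh0.trans (min_le_right _ _)
    rw [le_div_iff₀ (by positivity)] at this
    have h5 := mul_le_mul_of_nonneg_left hρ2 hcpos.le
    linarith
  have hfc := hf.smooth.continuous
  have hf2 : Continuous fun w => f w ^ 2 := hfc.pow 2
  have hEdc : Continuous (Ed ρ fun w => f w ^ 2) := continuous_Ed hf2 ρ
  have hEd0 : ∀ w, 0 ≤ Ed ρ (fun w => f w ^ 2) w := Ed_nonneg (fun w => sq_nonneg _) ρ
  set Q := Ed ρ fun w => f w ^ 2 with hQ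
  have iA1 : Integrable fun z => ζ z ^ 4 * f z ^ 4 :=
    integrable_test hζ (F := fun z => f z ^ 4) (by fun_prop) 3
  have iA2 : Integrable fun z => φ₁ z ^ 2 * Q z ^ 2 :=
    integrable_test hφ₁ (F := fun z => Q z ^ 2) (by fun_prop) 1
  have hζ'sub : ∀ z, ζ' z ≠ 0 → z ∈ tsupport ζ' := fun z hz => subset_tsupport _ hz
  -- bound for the local mass
  have hmass : ∀ w, φ₁ w ≠ 0 →
      ∫ z in Metric.ball w (c * ρ), ζ' z ^ 2 * f z ^ 2 ≤ B0 ^ 2 * (Real.pi * (ρ * M) ^ 2 * Q w) := by
    intro w hw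
    have hwV : w ∈ V := hφ₁.sub (subset_tsupport _ hw)
    have hw0 : 0 < w.im := hV hwV
    have hwM : w.im ≤ M := by
      have := hM w (subset_tsupport _ hw)
      rw [Real.norm_eq_abs, abs_of_pos hw0] at this
      exact this
    by_cases hne : ∃ z ∈ Metric.ball w (c * ρ), z ∈ tsupport ζ'
    · obtain ⟨z, hz1, hz2⟩ := hne
      have hz3 : |z.im - w.im| < c * ρ := by
        have h5 := Complex.abs_im_le_norm (z - w)
        rw [Complex.sub_im] at h5
        rw [Metric.mem_ball, dist_eq_norm] at hz1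
        linarith
      have hz4 := (abs_lt.mp hz3).2
      have hz5 := hm0' z hz2
      have hz6 : c ≤ w.im := by
        have : c * ρ ≤ c * 1 := mul_le_mul_of_nonneg_left hρ1' hcpos.le
        rw [hc] at this hz4 ⊢
        linarith
      have hsub : Metric.ball w (c * ρ) ⊆ Metric.ball w (ρ * w.im) := by
        apply Metric.ball_subset_ball
        rw [mul_comm]
        exact mul_le_mul_of_nonneg_left hz6 hρ.le
      have hpos : 0 < ρ * w.im := by positivity
      have hi : IntegrableOn (fun z => B0 ^ 2 * f z ^ 2) (Metric.ball w (ρ * w.im)) :=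
        ((continuous_const.mul hf2).continuousOn.integrableOn_compact
          (isCompact_closedBall w (ρ * w.im))).mono_set Metric.ball_subset_closedBall
      have hi2 : IntegrableOn (fun z => ζ' z ^ 2 * f z ^ 2) (Metric.ball w (c * ρ)) :=
        (((h1.smooth.continuous.pow 2).mul hf2).continuousOn.integrableOn_compact
          (isCompact_closedBall w (c * ρ))).mono_set Metric.ball_subset_closedBall
      calc ∫ z in Metric.ball w (c * ρ), ζ' z ^ 2 * f z ^ 2
          ≤ ∫ z in Metric.ball w (c * ρ), B0 ^ 2 * f z ^ 2 := by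
            refine setIntegral_mono hi2 (hi.mono_set hsub) fun z => ?_
            simp only
            refine mul_le_mul_of_nonneg_right ?_ (sq_nonneg _)
            rw [← sq_abs]
            exact pow_le_pow_left₀ (abs_nonneg _) (hB0 z) 2
        _ ≤ ∫ z in Metric.ball w (ρ * w.im), B0 ^ 2 * f z ^ 2 := by
            refine setIntegral_mono_set hi (ae_of_all _ fun z => ?_) hsub.eventuallyLE
            simp only [Pi.zero_apply]
            positivity
        _ = B0 ^ 2 * (Real.pi * (ρ * w.im) ^ 2 * Q w) := by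
            rw [integral_const_mul, Ed_eq _ w hpos]
        _ ≤ B0 ^ 2 * (Real.pi * (ρ * M) ^ 2 * Q w) := by
            have := Real.pi_pos
            have h6 : (ρ * w.im) ^ 2 ≤ (ρ * M) ^ 2 :=
              pow_le_pow_left₀ hpos.le (mul_le_mul_of_nonneg_left hwM hρ.le) 2
            have h7 := hEd0 w
            gcongr
    · push Not at hne
      have : ∫ z in Metric.ball w (c * ρ), ζ' z ^ 2 * f z ^ 2 = 0 := by
        refine setIntegral_eq_zero_of_forall_eq_zero fun z hz => ?_
        rw [image_eq_zero_of_notMem_tsupport (hne z hz)]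
        simp
      rw [this]
      have := Real.pi_pos
      have h7 := hEd0 w
      positivity
  -- one centre
  have hcs : HasCompactSupport fun z => ζ' z ^ 2 * f z ^ 2 :=
    (h1.cpt.comp_left (g := fun x : ℝ => x ^ 2) (by simp)).mul_right
  have key0 : ∀ x0, ∫ z, ζ' z ^ 2 * wt h x0 z ^ 2 * f z ^ 2 ≤
      E0 * ∫ w, φ₁ w * wt h x0 w ^ 2 * Q w := by
    intro x0
    have hwc : Continuous (wt h x0) := (contDiff_wt h x0).continuous
    have hcρ : 0 < c * ρ := by positivity
    have hGc : Continuous fun w => φ₁ w * wt h x0 w ^ 2 := hφ₁.smooth.continuous.mul (hwc.pow 2)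
    have hGs : HasCompactSupport fun w => φ₁ w * wt h x0 w ^ 2 := by
      have h9 : HasCompactSupport (fun w => φ₁ w) := hφ₁.cpt
      exact HasCompactSupport.mul_right (f' := fun w => wt h x0 w ^ 2) h9
    have hAc : Continuous fun z => ζ' z ^ 2 * f z ^ 2 := (h1.smooth.continuous.pow 2).mul hf2
    have hWc : Continuous fun z => wt h x0 z ^ 2 := hwc.pow 2
    have k1 := core (A := fun z => ζ' z ^ 2 * f z ^ 2) (G := fun w => φ₁ w * wt h x0 w ^ 2)
      (W := fun z => wt h x0 z ^ 2) (r := c * ρ) (D := D ^ 2)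
      hAc hcs (fun z => by positivity) hGc hGs hWc hcρ (fun z hz w hw => by
        have hz1 : z ∈ tsupport ζ' := by
          apply hζ'sub
          intro h0
          apply hz
          simp [h0]
        have hw1 : φ₁ w = 1 := by
          apply hUφ
          apply hδU
          rw [Metric.mem_thickening_iff]
          exact ⟨z, hz1, lt_of_lt_of_le hw hρδ⟩
        have hzw : ‖z - w‖ ≤ a * h := by
          rw [← dist_eq_norm, dist_comm]
          refine hw.le.trans ?_
          have := mul_le_mul_of_nonneg_left hρ2 hcpos.le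
          rw [ha]
          linarith
        have h5 := wt_le hh x0 z w hzw
        have h6 := pow_le_pow_left₀ (wt_pos h x0 z).le h5 2
        simp only [hw1, one_mul]
        rw [mul_pow] at h6
        exact h6)
    have e1 : ∫ z, ζ' z ^ 2 * f z ^ 2 * wt h x0 z ^ 2 = ∫ z, ζ' z ^ 2 * wt h x0 z ^ 2 * f z ^ 2 := by
      congr 1
      funext z
      ring
    simp only [e1] at k1
    have iQ : Integrable fun w => φ₁ w * wt h x0 w ^ 2 * Q w := by
      have := integrable_test hφ₁ (F := fun z => wt h x0 z ^ 2 * Q z) (by fun_prop) 0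
      refine this.congr (ae_of_all _ fun z => ?_)
      simp only
      ring
    have k2 : ∫ w, (φ₁ w * wt h x0 w ^ 2) * ∫ z in Metric.ball w (c * ρ), ζ' z ^ 2 * f z ^ 2 ≤
        (B0 ^ 2 * (Real.pi * (ρ * M) ^ 2)) * ∫ w, φ₁ w * wt h x0 w ^ 2 * Q w := by
      rw [← integral_const_mul]
      refine integral_mono_of_nonneg (ae_of_all _ fun w => ?_) (iQ.const_mul _)
        (ae_of_all _ fun w => ?_)
      · simp only [Pi.zero_apply]
        refine mul_nonneg (mul_nonneg (hφ01 w).1 (sq_nonneg _))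
          (integral_nonneg fun z => ?_)
        simp only [Pi.zero_apply]
        positivity
      · simp only
        by_cases hw : φ₁ w = 0
        · simp [hw]
        · have h5 := hmass w hw
          have h6 : 0 ≤ φ₁ w * wt h x0 w ^ 2 := mul_nonneg (hφ01 w).1 (sq_nonneg _)
          refine (mul_le_mul_of_nonneg_left h5 h6).trans (le_of_eq ?_)
          ring
    have k3 := k1.trans (mul_le_mul_of_nonneg_left k2 (by positivity))
    have hpi := Real.pi_pos
    have h8 : 0 < Real.pi * (c * ρ) ^ 2 := by positivity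
    refine le_of_mul_le_mul_left (a := Real.pi * (c * ρ) ^ 2) (k3.trans (le_of_eq ?_)) h8
    rw [hE0]
    field_simp
  have key : ∀ x0, h ^ 2 * ∫ z, (ζ z ^ 4 * f z ^ 4) * w1 (h⁻¹ • (x0 - z)) ^ 4 ≤
      (C3 * E0 ^ 2 * (h ^ 2 * c1)) * ∫ z, (φ₁ z ^ 2 * Q z ^ 2) * w1 (h⁻¹ • (x0 - z)) ^ 2 := by
    intro x0
    have hwc : Continuous (wt h x0) := (contDiff_wt h x0).continuous
    have k0 := h3 h f (wt h x0) hf (wc_wt hh x0)
    have k1 := key0 x0
    have kn : 0 ≤ ∫ z, ζ' z ^ 2 * wt h x0 z ^ 2 * f z ^ 2 := integral_nonneg fun z => by positivity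
    have k2 := pow_le_pow_left₀ kn k1 2
    have ia : Integrable fun z => wt h x0 z ^ 2 := integrable_wt_pow hh x0 2 (by norm_num)
    have ib : Integrable fun z => (φ₁ z * wt h x0 z * Q z) ^ 2 := by
      have := integrable_test hφ₁ (F := fun z => wt h x0 z ^ 2 * Q z ^ 2) (by fun_prop) 1
      refine this.congr (ae_of_all _ fun z => ?_)
      simp only
      ring
    have iab : Integrable fun z => wt h x0 z * (φ₁ z * wt h x0 z * Q z) := by
      have := integrable_test hφ₁ (F := fun z => wt h x0 z ^ 2 * Q z) (by fun_prop) 0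
      refine this.congr (ae_of_all _ fun z => ?_)
      simp only
      ring
    have cs := cauchy_schwarz ia ib iab
    rw [integral_wt_pow hh] at cs
    have e1 : ∫ z, wt h x0 z * (φ₁ z * wt h x0 z * Q z) =
        ∫ z, φ₁ z * wt h x0 z ^ 2 * Q z := by
      congr 1
      funext z
      ring
    have e2 : ∫ z, (φ₁ z * wt h x0 z * Q z) ^ 2 =
        ∫ z, (φ₁ z ^ 2 * Q z ^ 2) * w1 (h⁻¹ • (x0 - z)) ^ 2 := by
      congr 1
      funext z
      unfold wt
      ring
    have e3 : ∫ z, ζ z ^ 4 * wt h x0 z ^ 4 * ‖gg h f 0 z‖ ^ 4 =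
        ∫ z, (ζ z ^ 4 * f z ^ 4) * w1 (h⁻¹ • (x0 - z)) ^ 4 := by
      congr 1
      funext z
      rw [gg_zero, Complex.norm_real, Real.norm_eq_abs]
      have : |f z| ^ 4 = f z ^ 4 := by
        rw [← abs_pow, abs_of_nonneg (by positivity)]
      rw [this]
      unfold wt
      ring
    rw [e1, e2] at cs
    rw [e3] at k0
    refine k0.trans ?_
    calc C3 * (∫ z, ζ' z ^ 2 * wt h x0 z ^ 2 * f z ^ 2) ^ 2
        ≤ C3 * (E0 * ∫ w, φ₁ w * wt h x0 w ^ 2 * Q w) ^ 2 := mul_le_mul_of_nonneg_left k2 h2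
      _ = C3 * E0 ^ 2 * (∫ w, φ₁ w * wt h x0 w ^ 2 * Q w) ^ 2 := by ring
      _ ≤ C3 * E0 ^ 2 * (h ^ 2 * c1 * ∫ z, (φ₁ z ^ 2 * Q z ^ 2) * w1 (h⁻¹ • (x0 - z)) ^ 2) :=
          mul_le_mul_of_nonneg_left cs (by positivity)
      _ = _ := by ring
  have iW4 := integrable_scale hh 4 (by norm_num)
  have iW2 := integrable_scale hh 2 (by norm_num)
  have m1 := integral_mono ((integrable_conv iA1 iW4).const_mul (h ^ 2))
    ((integrable_conv iA2 iW2).const_mul (C3 * E0 ^ 2 * (h ^ 2 * c1))) key
  rw [integral_const_mul, integral_const_mul, integral_conv iA1 iW4, integral_conv iA2 iW2,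
    integral_scale hh, integral_scale hh] at m1
  rw [div_mul_eq_mul_div, le_div_iff₀ hc2]
  have h4 : 0 < h ^ 4 := by positivity
  refine le_of_mul_le_mul_left (a := h ^ 4) ?_ h4
  calc h ^ 4 * ((∫ z, ζ z ^ 4 * f z ^ 4) * c2)
      = h ^ 2 * ((∫ z, ζ z ^ 4 * f z ^ 4) * (h ^ 2 * c2)) := by ring
    _ ≤ C3 * E0 ^ 2 * (h ^ 2 * c1) * ((∫ z, φ₁ z ^ 2 * Q z ^ 2) * (h ^ 2 * c1)) := m1
    _ = _ := by ring

end Pool.Agent.A54.Pl
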