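import Pool.Agent.Lib.MP_a54f13_nt.Dyn.Main
import Pool.Agent.Lib.MP_a54f13_nt.Pl.Fin
import Pool.Agent.Lib.MP_a54f13_nt.Pl.L1
import Pool.Agent.Lib.MP_a54f13_nt.Pl.E1k
import Pool.Agent.Lib.MP_a54f13_nt.Pl.E1
import Pool.Agent.Lib.MP_a54f13_nt.Pl.E2
import Pool.Agent.Lib.MP_a54f13_nt.Pl.E3a
import Pool.Agent.Lib.MP_a54f13_nt.Pl.E3
import Pool.Agent.Lib.MP_a54f13_nt.Pl.S1
import Pool.Agent.Lib.MP_a54f13_nt.Pl.S2
import Pool.Agent.Lib.MP_a54f13_nt.Pl.Q1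
import Pool.Agent.Lib.MP_a54f13_nt.Pl.T1
import Pool.Agent.Lib.MP_a54f13_nt.Pl.T2a
import Pool.Agent.Lib.MP_a54f13_nt.Pl.T2b
import Pool.Agent.Lib.MP_a54f13_nt.Pl.T2
import Pool.Agent.Lib.MP_a54f13_nt.Pl.T3
import Pool.Agent.Lib.MP_a54f13_nt.Pl.G0
import Pool.Agent.Lib.MP_a54f13_nt.Pl.G1
import Pool.Agent.Lib.MP_a54f13_nt.Pl.G2
import Pool.Agent.Lib.MP_a54f13_nt.Pl.U1
import Pool.Agent.Lib.MP_a54f13_nt.Pl.U2
import Pool.Agent.Lib.MP_a54f13_nt.Pl.FB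
import Pool.Agent.Lib.MP_a54f13_nt.Pl.BC
import Pool.Agent.Lib.MP_a54f13_nt.Pl.FC

/-!
Assembly of package `Pl`.
-/

set_option autoImplicit false

namespace Pool.Agent.A54.Pl

open MeasureTheory Filter Topology Set
open scoped ContDiff ComplexConjugate UpperHalfPlane MatrixGroups

theorem pE1k : StmtE1k := stmtE1k stmtL1

theorem pE1 : StmtE1 := stmtE1 pE1k

theorem pE2 : StmtE2 := stmtE2 pE1k

theorem pE3 : StmtE3 := stmtE3 stmtL1 (stmtE3a stmtL1)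

theorem pS1 : StmtS1 := stmtS1 pErrZ pRel pOdd pOddLim pL4

theorem pS2 : StmtS2 := stmtS2 stmtErr pL4

theorem pQ1 : StmtQ1 := stmtQ1 pRel pOdd pOddLim

theorem pT1 : StmtT1 := stmtT1 pE1 pE2 pS2 (stmtComp pL4) pRel pOdd pOddLim pWeak2 pIneq

theorem pT2a : StmtT2a := stmtT2a pE3

theorem pT2b : StmtT2b := stmtT2b pE3 pS1 pQ1 pT2a pRel pOdd pOddLim pWeak2 pIneq pL4

theorem pT2 : StmtT2 := stmtT2 (stmtComp pL4) Dyn.pRatioS pT2a pT2b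

theorem pT3 : StmtT3 := stmtT3 stmtErr (stmtCacc stmtErr) stmtLady

theorem pG0 : StmtG0 := stmtG0 stmtInt

theorem pG1 : StmtG1 := stmtG1 stmtInt pG0

theorem pG2 : StmtG2 := stmtG2 stmtInt pG0

theorem pFB : StmtFB := stmtFB stmtInt stmtLap Dyn.pNAf pT1 pG1

theorem pFC : StmtFC := stmtFC stmtInt stmtLap Dyn.pNAf pT2 pT3 pG2

theorem planck {f : ℕ → ℍ → ℝ} {t : ℕ → ℝ} (hf : ∀ i, IsHeckeMaass (f i) (t i))
    (ht : Tendsto t atTop atTop) : List.TFAE [CondA f, CondB f t, CondC f t] :=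
  tfae stmtU1 stmtU2 pFB stmtBC pFC hf ht

end Pool.Agent.A54.Pl
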