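import Pool.Agent.Lib.MP_a54f13_nt.Pl.Spec

set_option autoImplicit false

namespace Pool.Agent.A54.Pl

open MeasureTheory Filter Topology Set
open scoped ContDiff ComplexConjugate
open Pool.Agent.A54.Rel
open Pool.Agent.A54.LocGen (XX PP AA tt LL)

noncomputable section

namespace Q1M

lemma sum_tt0 (M : ℕ) : ∑ n ∈ Finset.Icc 1 (2 * M), tt 0 n = 4 / 3 * M := by
  have h := LocGen.count_inner 0 M 1 (1 / 3)
  unfold LocGen.tt
  rw [h]
  ring

lemma sum_LL0 (P : ℕ → ℝ) (M : ℕ) : ∑ n ∈ Finset.Icc 1 (2 * M), LL P 0 n =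
    2 * ∑ k ∈ Finset.Icc 1 M, P (2 * k) - 2 * M * P 0 := by
  induction M with
  | zero => simp
  | succ M ih =>
    rw [LocGen.sum_two, ih, Finset.sum_Icc_succ_top (by omega)]
    have h1 : LL P 0 (2 * M + 1) = 0 := by
      unfold LocGen.LL
      rw [if_neg (by omega)]
    have h2 : LL P 0 (2 * M + 2) = 2 * P (2 * (M + 1)) - 2 * P 0 := by
      unfold LocGen.LL
      rw [if_pos (by omega), show 0 + (2 * M + 2) = 2 * (M + 1) by ring,
        show (((0 : ℕ) : ℤ) - ((2 * M + 2 : ℕ) : ℤ)).natAbs = 2 * (M + 1) by omega]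
      ring
    rw [h1, h2]
    push_cast
    ring

end Q1M

open Q1M

theorem stmtQ1 (hRel : StmtRel) (hOdd : StmtOdd) (hOL : StmtOddLim) : StmtQ1 := by
  intro V q h f r hS hB φ hφ M
  have h1 : Tendsto (fun i => ∑ n ∈ Finset.Icc 1 (2 * M),
      (AA q (h i) (f i) φ 0 n - tt 0 n * AA q (h i) (f i) φ 0 0)) atTop
      (𝓝 (∑ n ∈ Finset.Icc 1 (2 * M), LL (PP q r φ) 0 n)) :=
    tendsto_finsetSum _ fun n _ => LocGen.AA_lim hRel hOdd hOL hS hB hφ 0 n
  rw [sum_LL0] at h1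
  refine h1.congr fun i => ?_
  have hsm := (hS.sol i).smooth
  have hint : ∀ n, Integrable (fun z => φ z * (nn q (h i) (f i) 0 z * nn q (h i) (f i) n z)) :=
    fun n => integrable_testR hφ ((continuous_nn hS.pot hsm (h i) 0).mul
      (continuous_nn hS.pot hsm (h i) n))
  have e : ∀ z, φ z * (f i z ^ 2 * XX q (h i) (f i) (fun _ => 1) (2 * M) z) =
      ∑ n ∈ Finset.Icc 1 (2 * M), φ z * (nn q (h i) (f i) 0 z * nn q (h i) (f i) n z) := by
    intro z
    unfold LocGen.XX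
    rw [Finset.mul_sum, Finset.mul_sum]
    refine Finset.sum_congr rfl fun n _ => ?_
    rw [nn_zero]
    ring
  have e2 : (∫ z, φ z * (f i z ^ 2 * XX q (h i) (f i) (fun _ => 1) (2 * M) z)) =
      ∑ n ∈ Finset.Icc 1 (2 * M), AA q (h i) (f i) φ 0 n := by
    simp_rw [e]
    rw [integral_finsetSum _ fun n _ => hint n]
    rfl
  rw [e2, ← LocGen.AA_zero q (h i) (f i) φ, Finset.sum_sub_distrib, ← Finset.sum_mul, sum_tt0]

end

end Pool.Agent.A54.Pl
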